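import Pool.Agent.Lib_MP_badd8c_sd.FirstOrder

/-! # Pieces A1: drop of the generic rank modulo `m V` -/

namespace SocDeg

open Module Filter

private lemma rk_mkQ' {k W S : Type*} [Field k] [AddCommGroup W] [Module k W]
    [FiniteDimensional k W] [AddCommGroup S] [Module k S] (f : S →ₗ[k] W) (U : Submodule k W) :
    finrank k ↥(U ⊔ LinearMap.range f) = finrank k U + rk (U.mkQ ∘ₗ f) := by
  set P : Submodule k W := U ⊔ LinearMap.range f with hP
  set g : P →ₗ[k] W ⧸ U := U.mkQ ∘ₗ P.subtype with hg
  have h1 := LinearMap.finrank_range_add_finrank_ker g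
  have h2 : LinearMap.range g = LinearMap.range (U.mkQ ∘ₗ f) := by
    rw [hg, LinearMap.range_comp, Submodule.range_subtype, hP, Submodule.map_sup,
      LinearMap.range_comp, Submodule.mkQ_map_self, bot_sup_eq]
  have h3 : (LinearMap.ker g).map P.subtype = U := by
    apply le_antisymm
    · rintro _ ⟨z, hz, rfl⟩
      exact (Submodule.Quotient.mk_eq_zero U).1 (LinearMap.mem_ker.1 hz)
    · intro u hu
      exact ⟨⟨u, (le_sup_left : U ≤ P) hu⟩,
        LinearMap.mem_ker.2 ((Submodule.Quotient.mk_eq_zero U).2 hu), rfl⟩
  have h4 : finrank k (LinearMap.ker g) = finrank k U := by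
    rw [← Submodule.finrank_map_subtype_eq P (LinearMap.ker g), h3]
  unfold rk
  rw [h2] at h1
  omega

section Drop

variable {k V W : Type*} [Field k] [Infinite k] [AddCommGroup V] [Module k V] [AddCommGroup W]
  [Module k W] [FiniteDimensional k V] [FiniteDimensional k W]

/-- A1.  `μ` symmetric, `m` of maximal rank `λ`; modulo `m V` every `x` has rank `≤ λ - 1`.
PROOF.  Let `f_x = (mkQ (range (μ m))) ∘ μ x : V → W/mV`.  By `first_order` (`z ∈ ker μ m ⇒
μ x z ∈ range (μ m)`) `ker (μ m) ≤ ker f_x`; also `f_x m = x m = m x = 0`.  So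
`rk f_x ≤ λ`, and `rk f_x ≤ λ - 1` whenever some vector outside `ker (μ m)` is in `ker f_x`, e.g. if
`μ m m ≠ 0`.  Suppose `rk f_x = λ ≥ 1`, for contradiction (if `λ = 0` all `μ x = 0`).
Reformulate: there are `s, s' : Fin λ → V` such that the `2λ` vectors `μ m (s i)`, `μ x (s' i)` are
independent (lift a basis of `range f_x`).
(1) Suppose some `n` has `μ n n ≠ 0`.  If `μ m m ≠ 0` we are done.  Otherwise let
`m(t) = m + t n`: `μ m(t) m(t) = t (2 μ m n + t μ n n)`, nonzero for almost all `t` (polynomial curve
in `t`, not identically zero: apply a functional with value `≠ 0` on `μ n n`).  For almost all `t`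
the vectors `μ (m(t)) (s i)`, `μ x (s' i)` are independent (`PolyCurve.linearIndependent`), so
`rk (μ (m t)) ≥ λ`, hence `m(t)` is of maximal rank `λ`, and `f_x` modulo `m(t) V` has rank
`≥ λ`; contradiction with the first part for `m(t)`.
(2) Suppose `μ n n = 0` for all `n`.  If `μ m x ≠ 0`: `x ∉ ker (μ m)`, `f_x x = μ x x = 0`, done.
If `μ m x = 0`: choose `n` with `μ m n ≠ 0` (`λ ≥ 1`) and `x(t) = x + t n`; for almost all `t` the
vectors `μ m (s i)`, `μ (x(t)) (s' i)` are independent, take such a `t ≠ 0`: `f_{x(t)}` has rank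
`≥ λ` but `μ m (x(t)) = t μ m n ≠ 0` and `f_{x(t)} (x(t)) = 0`, a contradiction. -/
theorem rk_drop (μ : V →ₗ[k] V →ₗ[k] W) (hμ : ∀ x y, μ x y = μ y x) {m : V}
    (hm : IsMax (fun x => μ x) m) (x : V) :
    rk ((LinearMap.range (μ m)).mkQ ∘ₗ μ x) ≤ rk (μ m) - 1 := by
  set lam : ℕ := rk (μ m) with hlam
  have hle : ∀ y, rk (μ y) ≤ lam := fun y => hm y
  -- a maximal element `m'` and `y` with `rk f_y ≥ lam` give a contradiction if some vector outside
  -- the kernel of `μ m'` is in the kernel of `f_y`
  have key : ∀ m' y : V, rk (μ m') = lam → lam ≤ rk ((LinearMap.range (μ m')).mkQ ∘ₗ μ y) →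
      ∀ v : V, μ m' v ≠ 0 → μ y v ∈ LinearMap.range (μ m') → False := by
    intro m' y hm' hy v hv hv'
    have hmax : IsMax (fun x => μ x) m' := fun z => by
      simp only
      rw [hm']
      exact hle z
    set g : V →ₗ[k] W ⧸ LinearMap.range (μ m') := (LinearMap.range (μ m')).mkQ ∘ₗ μ y with hg
    have hlt : LinearMap.ker (μ m') < LinearMap.ker g := by
      refine lt_of_le_of_ne ?_ ?_
      · intro z hz
        rw [LinearMap.mem_ker]
        exact (Submodule.Quotient.mk_eq_zero _).2 (first_order μ hmax (LinearMap.mem_ker.1 hz) y)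
      · intro he
        have : v ∈ LinearMap.ker g := by
          rw [LinearMap.mem_ker]
          exact (Submodule.Quotient.mk_eq_zero _).2 hv'
        rw [← he, LinearMap.mem_ker] at this
        exact hv this
    have h1 := Submodule.finrank_lt_finrank_of_lt hlt
    have h2 := LinearMap.finrank_range_add_finrank_ker (μ m')
    have h3 := LinearMap.finrank_range_add_finrank_ker g
    unfold rk at hm' hy
    omega
  by_contra hcon
  rw [not_le] at hcon
  have hpos : 1 ≤ lam := by
    by_contra h0
    have h0' : lam = 0 := by omega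
    have h1 : rk (μ x) = 0 := by
      have := hle x
      omega
    have h2 : rk ((LinearMap.range (μ m)).mkQ ∘ₗ μ x) ≤ rk (μ x) := by
      unfold rk
      rw [LinearMap.range_comp]
      exact Submodule.finrank_map_le _ _
    omega
  have hx : lam ≤ rk ((LinearMap.range (μ m)).mkQ ∘ₗ μ x) := by omega
  -- dimension of the sum of two ranges
  have hD : ∀ m' y : V, rk ((μ m').coprod (μ y)) = rk (μ m') +
      rk ((LinearMap.range (μ m')).mkQ ∘ₗ μ y) := by
    intro m' y
    have := rk_mkQ' (μ y) (LinearMap.range (μ m'))
    unfold rk at this ⊢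
    rw [LinearMap.range_coprod]
    exact this
  have hD0 : 2 * lam ≤ rk ((μ m).coprod (μ x)) := by
    rw [hD]
    omega
  have hquot : ∀ m' y : V, rk ((LinearMap.range (μ m')).mkQ ∘ₗ μ y) ≤ rk (μ y) := by
    intro m' y
    unfold rk
    rw [LinearMap.range_comp]
    exact Submodule.finrank_map_le _ _
  by_cases hn : ∃ n, μ n n ≠ 0
  · obtain ⟨n, hn⟩ := hn
    by_cases hmm : μ m m = 0
    · obtain ⟨l, hl⟩ : ∃ l : Dual k W, l (μ n n) ≠ 0 := by
        by_contra hcl
        push Not at hcl
        exact hn ((Module.forall_dual_apply_eq_zero_iff k _).1 hcl)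
      have e1 : ∀ᶠ t : k in cofinite, rk ((μ (m + (0 : k) • n)).coprod (μ x)) ≤
          rk ((μ (m + t • n)).coprod (μ x)) := by
        refine rk_semicont (f := fun t : k => (μ (m + t • n)).coprod (μ x)) fun s => ?_
        have : (fun t : k => ((μ (m + t • n)).coprod (μ x)) s) =
            fun t => (μ m s.1 + μ x s.2) + t • μ n s.1 := by
          funext t
          simp only [LinearMap.coprod_apply, map_add, map_smul, LinearMap.add_apply,
            LinearMap.smul_apply]
          abel
        rw [this]
        exact PolyCurve.line _ _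
      have e2 : ∀ᶠ t : k in cofinite, μ (m + t • n) (m + t • n) ≠ 0 := by
        have hfin : ({0, -(2 * l (μ m n)) / l (μ n n)} : Set k).Finite := by simp
        filter_upwards [hfin.eventually_cofinite_notMem] with t ht h0
        rw [Set.mem_insert_iff, Set.mem_singleton_iff, not_or] at ht
        have h1 := congrArg l h0
        rw [map_zero] at h1
        simp only [map_add, map_smul, LinearMap.add_apply, LinearMap.smul_apply, smul_eq_mul] at h1
        rw [hmm, hμ n m, map_zero] at h1
        have h2 : t * (2 * l (μ m n) + t * l (μ n n)) = 0 := by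
          linear_combination h1
        rcases mul_eq_zero.1 h2 with h | h
        · exact ht.1 h
        · refine ht.2 ?_
          rw [eq_div_iff hl]
          linear_combination h
      obtain ⟨t, h1, h2⟩ := (e1.and e2).exists
      rw [zero_smul, add_zero] at h1
      set m' := m + t • n with hm'
      have h3 := hD0.trans h1
      rw [hD] at h3
      have h4 := hle m'
      have h5 := hle x
      have h6 := hquot m' x
      refine key m' x (by omega) (by omega) m' h2 ?_
      rw [hμ x m']
      exact ⟨x, rfl⟩
    · refine key m x hlam.symm hx m hmm ?_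
      rw [hμ x m]
      exact ⟨x, rfl⟩
  · push Not at hn
    by_cases hmx : μ m x = 0
    · obtain ⟨n, hn'⟩ : ∃ n, μ m n ≠ 0 := by
        by_contra hcl
        push Not at hcl
        have : μ m = 0 := LinearMap.ext hcl
        have h0 : rk (μ m) = 0 := by
          unfold rk
          rw [this, LinearMap.range_zero, finrank_bot]
        omega
      have e1 : ∀ᶠ t : k in cofinite, rk ((μ m).coprod (μ (x + (0 : k) • n))) ≤
          rk ((μ m).coprod (μ (x + t • n))) := by
        refine rk_semicont (f := fun t : k => (μ m).coprod (μ (x + t • n))) fun s => ?_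
        have : (fun t : k => ((μ m).coprod (μ (x + t • n))) s) =
            fun t => (μ m s.1 + μ x s.2) + t • μ n s.2 := by
          funext t
          simp only [LinearMap.coprod_apply, map_add, map_smul, LinearMap.add_apply,
            LinearMap.smul_apply]
          abel
        rw [this]
        exact PolyCurve.line _ _
      have hfin : ({0} : Set k).Finite := by simp
      obtain ⟨t, h1, h2⟩ := (e1.and hfin.eventually_cofinite_notMem).exists
      rw [zero_smul, add_zero] at h1
      have h3 := hD0.trans h1
      rw [hD] at h3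
      refine key m (x + t • n) hlam.symm (by omega) (x + t • n) ?_ ?_
      · rw [map_add, map_smul, hmx, zero_add]
        exact smul_ne_zero (by simpa using h2) hn'
      · rw [hn (x + t • n)]
        exact Submodule.zero_mem _
    · refine key m x hlam.symm hx x hmx ?_
      rw [hn x]
      exact Submodule.zero_mem _

end Drop

variable {k V W : Type*} [Field k] [AddCommGroup V] [Module k V] [AddCommGroup W] [Module k W]
  [FiniteDimensional k V] [FiniteDimensional k W]

/-- Rank of `f` modulo `U`. PROOF: `range (mkQ U ∘ f) = (U ⊔ range f).map mkQ`. -/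
theorem rk_mkQ {S : Type*} [AddCommGroup S] [Module k S] (f : S →ₗ[k] W) (U : Submodule k W) :
    finrank k ↥(U ⊔ LinearMap.range f) = finrank k U + rk (U.mkQ ∘ₗ f) :=
  rk_mkQ' f U

end SocDeg
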