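import Pool.Agent.Lib_MP_badd8c_sd.FormBasic
import Pool.Agent.Lib_MP_badd8c_sd.Drop

/-! # Pieces A1-A4: generic sections of a standard graded algebra in degrees 1, 2, 3 -/

namespace SocDeg

open Module Filter

variable {k V W : Type*} [Field k] [AddCommGroup V] [Module k V] [AddCommGroup W] [Module k W]
  [FiniteDimensional k V] [FiniteDimensional k W]

namespace FormData

variable (Q : FormData k V W)

omit [FiniteDimensional k V] [FiniteDimensional k W] in
private theorem a_famU (U : Submodule k W) (x : V) : Q.famU U x = U.mkQ ∘ₗ Q.mu x := rfl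

/-- A2. -/
theorem finrank_sup_mV (U : Submodule k W) (x : V) :
    finrank k ↥(U ⊔ Q.mV x) = finrank k U + rk (Q.famU U x) := by
  rw [a_famU]
  exact rk_mkQ (Q.mu x) U

omit [FiniteDimensional k V] in
private theorem a_map (U A : Submodule k W) :
    finrank k ↥(U ⊔ A) = finrank k U + finrank k ↥(A.map U.mkQ) := by
  have h := rk_mkQ A.subtype U
  rw [Submodule.range_subtype] at h
  rw [h]
  unfold rk
  rw [LinearMap.range_comp, Submodule.range_subtype]

/-- A3.  PROOF: `rk_drop` for `μ = Q.famU U : V → V → W/U`; `rk (mkQ (range (famU U m)) ∘ famU U x)`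
equals `rk (Q.famU (U ⊔ Q.mV m) x)` (both are
`dim (U + mV + xV) - dim (U + mV)`, `rk_mkQ` twice). -/
theorem drop_famU [Infinite k] {U : Submodule k W} {m : V} (hm : IsMax (fun x => Q.famU U x) m)
    (x : V) : rk (Q.famU (U ⊔ Q.mV m) x) ≤ rk (Q.famU U m) - 1 := by
  have h1 := rk_drop (Q.famU U) (fun x y => by
    change U.mkQ (Q.mu x y) = U.mkQ (Q.mu y x)
    rw [Q.mu_comm]) hm x
  have hr : ∀ y : V, LinearMap.range (Q.famU U y) = (Q.mV y).map U.mkQ := by
    intro y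
    rw [a_famU, LinearMap.range_comp]
    rfl
  have h2 := rk_mkQ (Q.famU U x) (LinearMap.range (Q.famU U m))
  rw [hr m, hr x, ← Submodule.map_sup] at h2
  have h3 := a_map U (Q.mV m ⊔ Q.mV x)
  have h4 := a_map U (Q.mV m)
  have h5 := Q.finrank_sup_mV (U ⊔ Q.mV m) x
  rw [sup_assoc] at h5
  rw [hr m] at h1
  omega

/-- Passing to a larger subspace lowers the rank. -/
theorem rk_famU_mono {U U' : Submodule k W} (h : U ≤ U') (x : V) :
    rk (Q.famU U' x) ≤ rk (Q.famU U x) := by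
  have h1 : Q.famU U' x = (Submodule.factor h) ∘ₗ (Q.famU U x) := by
    ext y
    rfl
  unfold rk
  rw [h1, LinearMap.range_comp]
  exact Submodule.finrank_map_le _ _

/-- `U₀ + m₀ V + ... + m_(i-1) V`. -/
def seqU (U₀ : Submodule k W) (m : ℕ → V) : ℕ → Submodule k W
  | 0 => U₀
  | i + 1 => seqU U₀ m i ⊔ Q.mV (m i)

/-- The sequence of ranks. -/
noncomputable def lam (U₀ : Submodule k W) (m : ℕ → V) (i : ℕ) : ℕ :=
  rk (Q.famU (Q.seqU U₀ m i) (m i))

/-- All `m i` are of maximal rank modulo `seqU i`. -/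
def GenU (U₀ : Submodule k W) (m : ℕ → V) : Prop :=
  ∀ i, IsMax (fun x => Q.famU (Q.seqU U₀ m i) x) (m i)

theorem lam_succ [Infinite k] {U₀ : Submodule k W} {m : ℕ → V} (hm : Q.GenU U₀ m) (i : ℕ) :
    Q.lam U₀ m (i + 1) ≤ Q.lam U₀ m i - 1 :=
  Q.drop_famU (hm i) (m (i + 1))

/-- `lam i = 0` for large `i`. -/
theorem lam_eventually [Infinite k] {U₀ : Submodule k W} {m : ℕ → V} (hm : Q.GenU U₀ m) :
    ∃ N, ∀ i, N ≤ i → Q.lam U₀ m i = 0 := by
  have h1 : ∀ i, Q.lam U₀ m i ≤ Q.lam U₀ m 0 - i := by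
    intro i
    induction i with
    | zero => exact le_refl _
    | succ i ih =>
      have h2 := Q.lam_succ hm i
      omega
  refine ⟨Q.lam U₀ m 0, fun i hi => ?_⟩
  have h2 := h1 i
  omega

/-- If `lam N = 0` then `seqU N = ⊤`: all products lie in `seqU N` (maximal rank zero), and they
span. -/
theorem seqU_top {U₀ : Submodule k W} {m : ℕ → V} (hm : Q.GenU U₀ m) {N : ℕ}
    (hN : Q.lam U₀ m N = 0) : Q.seqU U₀ m N = ⊤ := by
  rw [eq_top_iff, ← Q.span, Submodule.span_le]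
  rintro w ⟨x, y, rfl⟩
  have h1 : rk (Q.famU (Q.seqU U₀ m N) x) = 0 := by
    have h2 : rk (Q.famU (Q.seqU U₀ m N) x) ≤ rk (Q.famU (Q.seqU U₀ m N) (m N)) := hm N x
    have h3 : rk (Q.famU (Q.seqU U₀ m N) (m N)) = 0 := hN
    omega
  unfold rk at h1
  rw [Submodule.finrank_eq_zero, LinearMap.range_eq_bot] at h1
  have h4 : (Q.seqU U₀ m N).mkQ (Q.mu x y) = 0 := by
    change Q.famU (Q.seqU U₀ m N) x y = 0
    rw [h1]
    rfl
  exact (Submodule.Quotient.mk_eq_zero _).1 h4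

/-- Telescoping with `finrank_sup_mV`. -/
theorem finrank_seqU (U₀ : Submodule k W) (m : ℕ → V) (N : ℕ) :
    finrank k (Q.seqU U₀ m N) = finrank k U₀ + ∑ i ∈ Finset.range N, Q.lam U₀ m i := by
  induction N with
  | zero =>
    rw [Finset.range_zero, Finset.sum_empty, add_zero]
    rfl
  | succ N ih =>
    rw [Finset.sum_range_succ]
    change finrank k ↥(Q.seqU U₀ m N ⊔ Q.mV (m N)) = _
    rw [Q.finrank_sup_mV, ih, add_assoc]
    rfl

/-- the spaces `Z_i` -/
private def a_Zs (Z : Submodule k V) (m : ℕ → V) : ℕ → Submodule k V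
  | 0 => Z
  | i + 1 => a_Zs Z m i ⊓ Q.K (m i)

private theorem a_Zs_mem {U₀ : Submodule k W} {m : ℕ → V} {Z : Submodule k V}
    (hZ : ∀ z ∈ Z, ∀ x, Q.mu z x ∈ Q.perp U₀) (i : ℕ) :
    ∀ z ∈ Q.a_Zs Z m i, ∀ x, Q.mu z x ∈ Q.perp (Q.seqU U₀ m i) := by
  induction i with
  | zero => exact hZ
  | succ i ih =>
    rintro z ⟨h1, h2⟩ x
    change Q.mu z x ∈ Q.perp (Q.seqU U₀ m i ⊔ Q.mV (m i))
    rw [Q.perp_sup]
    refine ⟨ih z h1 x, ?_⟩
    rintro u ⟨y, rfl⟩
    rw [Q.symm4, Q.mem_K.1 h2, map_zero, LinearMap.zero_apply]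

private theorem a_Zs_step {U₀ : Submodule k W} {m : ℕ → V} {Z : Submodule k V}
    (hZ : ∀ z ∈ Z, ∀ x, Q.mu z x ∈ Q.perp U₀) (i : ℕ) :
    finrank k (Q.a_Zs Z m i) ≤ finrank k (Q.a_Zs Z m (i + 1)) + finrank k (Q.perp (Q.seqU U₀ m i)) := by
  have h1 := LinearMap.finrank_range_add_finrank_ker ((Q.mu (m i)).domRestrict (Q.a_Zs Z m i))
  have h2 : finrank k (LinearMap.range ((Q.mu (m i)).domRestrict (Q.a_Zs Z m i))) ≤
      finrank k (Q.perp (Q.seqU U₀ m i)) := by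
    apply Submodule.finrank_mono
    rintro w ⟨z, rfl⟩
    change Q.mu (m i) z ∈ _
    rw [Q.mu_comm]
    exact Q.a_Zs_mem hZ i z z.2 (m i)
  have h3 : finrank k (LinearMap.ker ((Q.mu (m i)).domRestrict (Q.a_Zs Z m i))) ≤
      finrank k (Q.a_Zs Z m (i + 1)) := by
    rw [← Submodule.finrank_map_subtype_eq]
    apply Submodule.finrank_mono
    rintro w ⟨z, hz, rfl⟩
    exact ⟨z.2, Q.mem_K.2 (LinearMap.mem_ker.1 hz)⟩
  omega

private theorem a_sums (f : ℕ → ℕ) (n : ℕ) :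
    ∑ i ∈ Finset.range n, ∑ j ∈ Finset.range i, f j + ∑ j ∈ Finset.range n, (j + 1) * f j =
      n * ∑ j ∈ Finset.range n, f j := by
  induction n with
  | zero => simp
  | succ n ih =>
    rw [Finset.sum_range_succ, Finset.sum_range_succ (fun j => (j + 1) * f j),
      Finset.sum_range_succ (fun j => f j)]
    nlinarith

/-- A4.  PROOF.  `Z_i := {z ∈ Z | m_j z = 0 ∀ j < i}`.  (a) `z ∈ Z_i ⇒ z x ∈ perp (seqU i)`:
for `u ∈ U₀` hypothesis, for `u = m_j y`: `be (m_j y) (z x) = be (m_j z) (y x) = 0`.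
(b) `Z_N = 0`: `z x ∈ perp ⊤ = 0` for all `x`, `faithful`.
(c) `dim Z_i - dim Z_(i+1) = dim (m_i Z_i) ≤ dim perp (seqU i) = dim W - dim (seqU i)
= ∑_{i ≤ j < N} lam j` (`finrank_seqU` for `i` and for `N`, `seqU N = ⊤`).
(d) Sum over `i < N`: `dim Z ≤ ∑_{i<N} ∑_{i ≤ j < N} lam j = ∑_{j<N} (j+1) lam j`. -/
theorem finrank_le_sum {U₀ : Submodule k W} {m : ℕ → V} {N : ℕ} (hN : Q.seqU U₀ m N = ⊤)
    {Z : Submodule k V} (hZ : ∀ z ∈ Z, ∀ x, Q.mu z x ∈ Q.perp U₀) :
    finrank k Z ≤ ∑ i ∈ Finset.range N, (i + 1) * Q.lam U₀ m i := by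
  have h1 : ∀ n, finrank k Z ≤ finrank k (Q.a_Zs Z m n) +
      ∑ i ∈ Finset.range n, finrank k (Q.perp (Q.seqU U₀ m i)) := by
    intro n
    induction n with
    | zero =>
      rw [Finset.range_zero, Finset.sum_empty, add_zero]
      exact le_refl _
    | succ n ih =>
      rw [Finset.sum_range_succ]
      have h2 := Q.a_Zs_step (m := m) hZ n
      omega
  have h2 : finrank k (Q.a_Zs Z m N) = 0 := by
    have h3 : Q.a_Zs Z m N = ⊥ := by
      rw [eq_bot_iff]
      intro z hz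
      rw [Submodule.mem_bot]
      apply Q.faithful
      intro x
      have h4 := Q.a_Zs_mem hZ N z hz x
      rw [hN, Q.perp_top, Submodule.mem_bot] at h4
      exact h4
    rw [h3, finrank_bot]
  have h3 : ∀ i ∈ Finset.range N, finrank k (Q.perp (Q.seqU U₀ m i)) +
      ∑ j ∈ Finset.range i, Q.lam U₀ m j = ∑ j ∈ Finset.range N, Q.lam U₀ m j := by
    intro i _
    have h4 := Q.finrank_perp (Q.seqU U₀ m i)
    have h5 := Q.finrank_seqU U₀ m i
    have h6 := Q.finrank_seqU U₀ m N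
    rw [hN, finrank_top] at h6
    omega
  have h4 := Finset.sum_congr rfl h3
  rw [Finset.sum_add_distrib, Finset.sum_const, Finset.card_range, smul_eq_mul] at h4
  have h5 := a_sums (Q.lam U₀ m) N
  have h6 := h1 N
  omega

end FormData

end SocDeg
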