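import Pool.Agent.Lib_MP_badd8c_sd.Defs

/-!
# Piece B1: the maximal ideal of `k[[x_1,...,x_r]]`
-/

namespace SocDeg

open Module

variable (k : Type*) [Field k]

/-- (`MvPowerSeries.isUnit_iff_constantCoeff`) -/
theorem mem_mR {r : ℕ} {f : MvPowerSeries (Fin r) k} :
    f ∈ mR k r ↔ MvPowerSeries.constantCoeff f = 0 := by
  unfold mR
  rw [IsLocalRing.mem_maximalIdeal, mem_nonunits_iff, MvPowerSeries.isUnit_iff_constantCoeff,
    isUnit_iff_ne_zero, not_not]

/-- The part of a power series which is divided by `X_i`. -/
private noncomputable def prt {r : ℕ} (f : MvPowerSeries (Fin r) k) (i : Fin r) :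
    MvPowerSeries (Fin r) k := by
  classical
  exact fun e => if ∀ l : Fin r, l < i → e l = 0 then
    MvPowerSeries.coeff (e + Finsupp.single i 1) f else 0

private theorem coeff_prt {r : ℕ} (f : MvPowerSeries (Fin r) k) (i : Fin r) (e : Fin r →₀ ℕ) :
    (MvPowerSeries.coeff e (prt k f i) : k) = (by
      classical
      exact if ∀ l : Fin r, l < i → e l = 0 then
        MvPowerSeries.coeff (e + Finsupp.single i 1) f else 0) := rfl

private theorem sum_prt {r : ℕ} (f : MvPowerSeries (Fin r) k)
    (hf : MvPowerSeries.constantCoeff f = 0) :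
    f = ∑ i : Fin r, (MvPowerSeries.X i : MvPowerSeries (Fin r) k) * prt k f i := by
  classical
  ext d
  rw [map_sum]
  have hX : ∀ i : Fin r, MvPowerSeries.coeff d
      ((MvPowerSeries.X i : MvPowerSeries (Fin r) k) * prt k f i) =
      if Finsupp.single i 1 ≤ d then
        MvPowerSeries.coeff (d - Finsupp.single i 1) (prt k f i) else 0 := by
    intro i
    rw [MvPowerSeries.X, MvPowerSeries.coeff_monomial_mul]
    simp
  rw [Finset.sum_congr rfl fun i _ => hX i]
  by_cases hd : d = 0
  · subst hd
    rw [Finset.sum_eq_zero, MvPowerSeries.coeff_zero_eq_constantCoeff_apply, hf]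
    intro i _
    rw [if_neg]
    intro h
    have := h i
    simp at this
  · -- the least index
    have hne : (Finset.univ.filter fun i : Fin r => 0 < d i).Nonempty := by
      by_contra hcon
      apply hd
      ext i
      by_contra hi
      apply hcon
      exact ⟨i, Finset.mem_filter.2 ⟨Finset.mem_univ i, Nat.pos_of_ne_zero hi⟩⟩
    set i0 := (Finset.univ.filter fun i : Fin r => 0 < d i).min' hne with hi0
    have hmem : 0 < d i0 :=
      (Finset.mem_filter.1 ((Finset.univ.filter fun i : Fin r => 0 < d i).min'_mem hne)).2
    have hmin : ∀ l : Fin r, l < i0 → d l = 0 := by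
      intro l hl
      by_contra hne'
      have := (Finset.univ.filter fun i : Fin r => 0 < d i).min'_le l
        (Finset.mem_filter.2 ⟨Finset.mem_univ l, Nat.pos_of_ne_zero hne'⟩)
      exact absurd hl (not_lt.2 this)
    have hle : ∀ i : Fin r, Finsupp.single i 1 ≤ d ↔ 0 < d i := by
      intro i
      rw [Finsupp.single_le_iff]
      exact Nat.one_le_iff_ne_zero.trans Nat.pos_iff_ne_zero.symm
    rw [Finset.sum_eq_single i0]
    · rw [if_pos ((hle i0).2 hmem), coeff_prt, if_pos]
      · rw [tsub_add_cancel_of_le ((hle i0).2 hmem)]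
      · intro l hl
        rw [Finsupp.tsub_apply, hmin l hl, Nat.zero_sub]
    · intro i _ hi
      by_cases hp : 0 < d i
      · rw [if_pos ((hle i).2 hp), coeff_prt, if_neg]
        intro hall
        have hlt : i0 < i := by
          rcases lt_trichotomy i0 i with h | h | h
          · exact h
          · exact absurd h.symm hi
          · exact absurd (hmin i h) (Nat.pos_iff_ne_zero.1 hp)
        have h0 := hall i0 hlt
        rw [Finsupp.tsub_apply, Finsupp.single_apply, if_neg hi, Nat.sub_zero] at h0
        exact absurd h0 (Nat.pos_iff_ne_zero.1 hmem)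
      · rw [if_neg]
        intro h
        exact hp ((hle i).1 h)
    · intro h
      exact absurd (Finset.mem_univ i0) h

/-- A power series without constant term is `∑ X_i g_i`: put the monomial `x^d`, `d ≠ 0`, into `g_i`
for the least `i` with `d_i > 0`: `coeff e (g_i) = coeff (e + single i 1) f` if `e_l = 0` for all
`l < i`, else `0`. -/
theorem mR_eq_span (r : ℕ) :
    mR k r = Ideal.span (Set.range fun i : Fin r => (MvPowerSeries.X i : MvPowerSeries (Fin r) k)) := by
  apply le_antisymm
  · intro f hf
    rw [mem_mR] at hf
    rw [sum_prt k f hf]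
    refine Ideal.sum_mem _ fun i _ => Ideal.mul_mem_right _ _ (Ideal.subset_span ⟨i, rfl⟩)
  · rw [Ideal.span_le]
    rintro _ ⟨i, rfl⟩
    rw [SetLike.mem_coe, mem_mR]
    simp

/-- A power series without terms of degree at most one is in `m^2`: in the decomposition
`∑ X_i g_i` of `mR_eq_span` the `g_i` can be chosen without constant term (the constant term of
the above `g_i` is the coefficient of `x_i`); `←` of the statement; `→`: the product of two series
without constant term has no terms of degree `≤ 1`. -/
theorem mem_mR_sq {r : ℕ} {f : MvPowerSeries (Fin r) k} :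
    f ∈ mR k r ^ 2 ↔ MvPowerSeries.constantCoeff f = 0 ∧
      ∀ i, MvPowerSeries.coeff (Finsupp.single i 1) f = 0 := by
  classical
  constructor
  · intro h
    rw [pow_two] at h
    refine Submodule.mul_induction_on (C := fun f => MvPowerSeries.constantCoeff f = 0 ∧
      ∀ i, MvPowerSeries.coeff (Finsupp.single i 1) f = 0) h ?_ ?_
    · intro a ha b hb
      rw [mem_mR] at ha hb
      refine ⟨by rw [map_mul, ha, zero_mul], fun i => ?_⟩
      rw [MvPowerSeries.coeff_mul]
      refine Finset.sum_eq_zero fun p hp => ?_
      rw [Finset.HasAntidiagonal.mem_antidiagonal] at hp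
      have hpi : p.1 i + p.2 i = 1 := by
        have := DFunLike.congr_fun hp i
        simpa using this
      have hpj : ∀ j, j ≠ i → p.1 j = 0 ∧ p.2 j = 0 := by
        intro j hj
        have := DFunLike.congr_fun hp j
        rw [Finsupp.add_apply, Finsupp.single_apply, if_neg (Ne.symm hj)] at this
        exact Nat.add_eq_zero_iff.1 this
      rcases Nat.add_eq_one_iff.1 hpi with ⟨h0, _⟩ | ⟨_, h0⟩
      · have : p.1 = 0 := by
          ext j
          by_cases hj : j = i
          · subst hj
            exact h0
          · exact (hpj j hj).1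
        rw [this, MvPowerSeries.coeff_zero_eq_constantCoeff_apply, ha, zero_mul]
      · have : p.2 = 0 := by
          ext j
          by_cases hj : j = i
          · subst hj
            exact h0
          · exact (hpj j hj).2
        rw [this, MvPowerSeries.coeff_zero_eq_constantCoeff_apply, hb, mul_zero]
    · rintro a b ⟨ha, ha'⟩ ⟨hb, hb'⟩
      refine ⟨by rw [map_add, ha, hb, add_zero], fun i => ?_⟩
      rw [map_add, ha' i, hb' i, add_zero]
  · rintro ⟨h0, h1⟩
    rw [sum_prt k f h0, pow_two]
    refine Ideal.sum_mem _ fun i _ => Ideal.mul_mem_mul ?_ ?_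
    · rw [mem_mR]
      simp
    · rw [mem_mR, ← MvPowerSeries.coeff_zero_eq_constantCoeff_apply, coeff_prt, if_pos]
      · rw [zero_add]
        exact h1 i
      · intro l _
        rfl

end SocDeg
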