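import Pool.Agent.Lib_MP_badd8c_sd.LocA

/-!
# Piece L2: the filtration by powers of the maximal ideal, the trace form
-/

namespace SocDeg

open Module

variable {k : Type*} [Field k] {A : Type*} [CommRing A] [Algebra k A]

theorem an_anti {m : Ideal A} {l l' : ℕ} (h : l ≤ l') : an m l ≤ an m l' := by
  unfold an
  exact Submodule.annihilator_mono (Ideal.pow_le_pow_right h)

theorem an_zero (m : Ideal A) : an m 0 = ⊥ := by
  rw [eq_bot_iff]
  intro x hx
  have h1 := mem_an.1 hx 1 (by rw [pow_zero, Ideal.one_eq_top]; exact Submodule.mem_top)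
  rw [mul_one] at h1
  rw [h1]
  exact Submodule.zero_mem _

/-- `m^(j+1) = 0` gives `m^i = 0` for `i > j`. -/
theorem pow_eq_bot {m : Ideal A} {j i : ℕ} (h : IsAG k m j) (hi : j < i) : m ^ i = ⊥ := by
  rw [eq_bot_iff, ← h.nil]
  exact Ideal.pow_le_pow_right hi

/-- `1 ∉ m` (otherwise `m = ⊤`, `⊥ = m^(j+1) = ⊤ ≥ m^j`). -/
theorem one_notMem {m : Ideal A} {j : ℕ} (h : IsAG k m j) : (1 : A) ∉ m := by
  intro h1
  have h2 : m = ⊤ := (Ideal.eq_top_iff_one m).2 h1
  apply h.top
  have h3 := h.nil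
  rw [h2, Ideal.top_pow] at h3
  rw [eq_bot_iff, ← h3]
  exact le_top

/-- `m^i ≤ (0 : m^l)` for `i + l > j`. -/
theorem pow_le_an {m : Ideal A} {j i l : ℕ} (h : IsAG k m j) (hi : j < i + l) : m ^ i ≤ an m l := by
  intro x hx
  rw [mem_an]
  intro y hy
  have h1 : x * y ∈ m ^ (i + l) := by
    rw [pow_add]
    exact Ideal.mul_mem_mul hx hy
  rw [pow_eq_bot h hi] at h1
  exact (Submodule.mem_bot A).1 h1

/-- every nonzero ideal `N` meets the socle: there is `0 ≠ x ∈ N` with `x m = 0`.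
PROOF: take `0 ≠ x ∈ N` and the largest `n` with `(x) m^n ≠ 0` (`(x) m^(j+1) = 0`), and
`0 ≠ y ∈ (x) m^n`. -/
theorem exists_socle_mem {m : Ideal A} {j : ℕ} (h : IsAG k m j) {N : Ideal A} (hN : N ≠ ⊥) :
    ∃ x ∈ N, x ≠ 0 ∧ ∀ y ∈ m, x * y = 0 := by
  classical
  have hex : ∃ n : ℕ, N ⊓ an m n ≠ ⊥ := by
    refine ⟨j + 1, ?_⟩
    have h1 : an m (j + 1) = ⊤ := by
      rw [eq_top_iff]
      intro x _
      rw [mem_an]
      intro y hy
      rw [h.nil] at hy
      rw [(Submodule.mem_bot A).1 hy, mul_zero]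
    rw [h1, inf_top_eq]
    exact hN
  have hn := Nat.find_spec hex
  have hmin := fun n' (h' : n' < Nat.find hex) => Nat.find_min hex h'
  obtain ⟨n, hn'⟩ : ∃ n, n = Nat.find hex := ⟨_, rfl⟩
  rw [← hn'] at hn hmin
  cases n with
  | zero =>
    exfalso
    apply hn
    rw [an_zero, inf_bot_eq]
  | succ n =>
    have h2 : N ⊓ an m n = ⊥ := by
      by_contra hcon
      exact hmin n (Nat.lt_succ_self n) hcon
    obtain ⟨x, hx, hx0⟩ := Submodule.exists_mem_ne_zero_of_ne_bot hn
    refine ⟨x, hx.1, hx0, fun y hy => ?_⟩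
    have h3 : x * y ∈ N ⊓ an m n := by
      refine ⟨Ideal.mul_mem_right y N hx.1, ?_⟩
      rw [SetLike.mem_coe, mem_an]
      intro z hz
      rw [mul_assoc]
      refine mem_an.1 hx.2 _ ?_
      rw [pow_succ']
      exact Ideal.mul_mem_mul hy hz
    rw [h2] at h3
    exact (Submodule.mem_bot A).1 h3

/-- `m^j` is the socle (`m^j ≤ (0 : m)`, `m^j ≠ 0`, `dim (0 : m) = 1`). -/
theorem pow_eq_socle {m : Ideal A} {j : ℕ} (h : IsAG k m j) : m ^ j = an m 1 := by
  have := h.fd
  have h1 : m ^ j ≤ an m 1 := pow_le_an h (Nat.lt_succ_self j)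
  have h2 : finrank k ↥(an m 1) = 1 := by
    unfold an
    rw [pow_one]
    exact h.soc
  refine eq_of_finrank_eq (k := k) h1 ?_
  have h3 := finrank_le_of_le (k := k) h1
  rw [h2] at h3 ⊢
  have h4 : 0 < finrank k ↥(m ^ j) := by
    have : FiniteDimensional k ↥(m ^ j) :=
      inferInstanceAs (FiniteDimensional k ↥((m ^ j).restrictScalars k))
    have : Nontrivial ↥(m ^ j) := Submodule.nontrivial_iff_ne_bot.2 h.top
    exact finrank_pos
  omega

/-- `A = k ⊕ m`: `dim A = dim m + 1`. -/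
theorem finrank_eq_add_one {m : Ideal A} {j : ℕ} (h : IsAG k m j) :
    finrank k A = ell k m 1 + 1 := by
  have := h.fd
  have h1 := Submodule.finrank_quotient_add_finrank (m.restrictScalars k)
  have h2 : finrank k (A ⧸ m.restrictScalars k) = 1 := by
    refine finrank_eq_one (Submodule.Quotient.mk 1) ?_ ?_
    · intro h3
      rw [Submodule.Quotient.mk_eq_zero] at h3
      exact one_notMem h h3
    · intro w
      obtain ⟨x, rfl⟩ := Submodule.Quotient.mk_surjective _ w
      obtain ⟨c, hc⟩ := h.res x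
      refine ⟨c, ?_⟩
      rw [← Submodule.Quotient.mk_smul, Submodule.Quotient.eq, ← neg_sub]
      refine neg_mem ?_
      rw [← Algebra.algebraMap_eq_smul_one]
      exact hc
  have h3 : ell k m 1 = finrank k ↥(m.restrictScalars k) := by
    unfold ell
    rw [pow_one]
    rfl
  rw [h3]
  omega

/-- `dim m^j = 1`. -/
theorem ell_top {m : Ideal A} {j : ℕ} (h : IsAG k m j) : ell k m j = 1 := by
  unfold ell
  rw [pow_eq_socle h]
  unfold an
  rw [pow_one]
  exact h.soc

/-- There is a linear form `φ` on `A` such that `φ(x y) = 0` for all `y` only for `x = 0`.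
PROOF: `φ` nonzero on a generator of the socle `(0 : m)` (dimension one; `exists_socle_mem` for the
ideal `(x)`; the socle element `x y` is a nonzero multiple of the generator). -/
theorem exists_trace {m : Ideal A} {j : ℕ} (h : IsAG k m j) :
    ∃ φ : A →ₗ[k] k, ∀ x, (∀ y, φ (x * y) = 0) → x = 0 := by
  have h1 := h.soc
  have : Nontrivial ↥(Submodule.annihilator m) := nontrivial_of_finrank_pos (R := k) (by omega)
  obtain ⟨s, hs⟩ := exists_ne (0 : ↥(Submodule.annihilator m))
  have hs' : (s : A) ≠ 0 := fun h2 => hs (Subtype.ext h2)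
  obtain ⟨φ, hφ⟩ : ∃ φ : Module.Dual k A, φ (s : A) ≠ 0 := by
    by_contra hcon
    push Not at hcon
    exact hs' ((Module.forall_dual_apply_eq_zero_iff k (s : A)).1 hcon)
  refine ⟨φ, fun x hx => ?_⟩
  by_contra hx0
  have hN : Ideal.span {x} ≠ ⊥ := by
    rw [Ne, Ideal.span_singleton_eq_bot]
    exact hx0
  obtain ⟨z, hz, hz0, hzm⟩ := exists_socle_mem h hN
  obtain ⟨y, hy⟩ := Ideal.mem_span_singleton'.1 hz
  have hzs : z ∈ Submodule.annihilator m := by
    rw [Submodule.mem_annihilator]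
    intro w hw
    exact hzm w hw
  obtain ⟨c, hc⟩ := (finrank_eq_one_iff_of_nonzero' s hs).1 h1 ⟨z, hzs⟩
  have hc' : c • (s : A) = z := congrArg Subtype.val hc
  have h2 := hx y
  rw [mul_comm, hy, ← hc', map_smul, smul_eq_mul] at h2
  rcases mul_eq_zero.1 h2 with h3 | h3
  · rw [h3, zero_smul] at hc'
    exact hz0 hc'.symm
  · exact hφ h3

end SocDeg
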