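import Pool.Agent.Lib_MP_badd8c_sd.BrA
import Pool.Agent.Lib_MP_badd8c_sd.LocB

/-!
# Piece B2: every AG algebra is a quotient of `k[[x_1,...,x_r]]`, `r = dim m/m^2`
-/

namespace SocDeg

open Module

variable {k : Type*} [Field k]

/-- Evaluation of power series at nilpotent elements. -/
private theorem exists_eval {A : Type*} [CommRing A] [Algebra k A] {r : ℕ} (a : Fin r → A) {n : ℕ}
    (ha : ∀ i, a i ^ n = 0) :
    ∃ F : MvPowerSeries (Fin r) k →ₐ[k] A, ∀ i, F (MvPowerSeries.X i) = a i := by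
  let : UniformSpace k := ⊥
  let : UniformSpace A := ⊥
  have : DiscreteTopology k := ⟨rfl⟩
  have : DiscreteTopology A := ⟨rfl⟩
  have : ContinuousSMul k A := ⟨continuous_of_discreteTopology⟩
  have hE : MvPowerSeries.HasEval a := by
    refine ⟨fun s => ?_, ?_⟩
    · refine tendsto_nhds_of_eventually_eq ?_
      rw [Filter.eventually_atTop]
      refine ⟨n, fun l hl => ?_⟩
      rw [← Nat.sub_add_cancel hl, pow_add, ha s, mul_zero]
    · rw [Filter.cofinite_eq_bot]
      exact Filter.tendsto_bot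
  refine ⟨MvPowerSeries.aeval hE, fun i => ?_⟩
  rw [← MvPolynomial.coe_X, MvPowerSeries.aeval_coe, MvPolynomial.aeval_X]

/-- Elements of `m` whose classes are a basis of `m/m^2`. -/
private theorem exists_gens {A : Type*} [CommRing A] [Algebra k A] {m : Ideal A} {j r : ℕ}
    (h : IsAG k m j) (hr : hilb k m 1 = r) :
    ∃ a : Fin r → A, (∀ i, a i ∈ m) ∧
      (∀ x ∈ m, ∃ c : Fin r → k, x - ∑ i, c i • a i ∈ m ^ 2) ∧
      (∀ c : Fin r → k, ∑ i, c i • a i ∈ m ^ 2 → c = 0) := by
  have hfd := h.fd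
  have e0 : FiniteDimensional k ↥(m ^ 1) :=
    inferInstanceAs (FiniteDimensional k ↥((m ^ 1).restrictScalars k))
  unfold hilb qdim at hr
  let p : ↥(m ^ 1) →ₗ[k] (↥(m ^ 1) ⧸ (m ^ (1 + 1)).submoduleOf (m ^ 1)) :=
    ((m ^ (1 + 1)).submoduleOf (m ^ 1)).mkQ.restrictScalars k
  have hp : Function.Surjective p := ((m ^ (1 + 1)).submoduleOf (m ^ 1)).mkQ_surjective
  have hp0 : ∀ x : ↥(m ^ 1), p x = 0 ↔ (x : A) ∈ m ^ 2 := by
    intro x
    show ((m ^ (1 + 1)).submoduleOf (m ^ 1)).mkQ x = 0 ↔ _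
    rw [Submodule.mkQ_apply, Submodule.Quotient.mk_eq_zero]
    exact Iff.rfl
  have e1 : FiniteDimensional k (↥(m ^ 1) ⧸ (m ^ (1 + 1)).submoduleOf (m ^ 1)) :=
    Module.Finite.of_surjective p hp
  let b := finBasisOfFinrankEq k (↥(m ^ 1) ⧸ (m ^ (1 + 1)).submoduleOf (m ^ 1)) hr
  choose s hs using hp
  have hsum : ∀ c : Fin r → k, ((∑ i, c i • s (b i) : ↥(m ^ 1)) : A) = ∑ i, c i • (s (b i) : A) := by
    intro c
    rw [← Submodule.coe_subtype (m ^ 1), map_sum]
    rfl
  refine ⟨fun i => (s (b i) : A), fun i => ?_, fun x hx => ?_, fun c hc => ?_⟩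
  · exact (pow_one m).le (s (b i)).2
  · have hx' : x ∈ m ^ 1 := by rwa [pow_one]
    refine ⟨fun i => b.repr (p ⟨x, hx'⟩) i, ?_⟩
    rw [← hsum]
    have h1 : p (⟨x, hx'⟩ - ∑ i, b.repr (p ⟨x, hx'⟩) i • s (b i)) = 0 := by
      rw [map_sub, map_sum]
      simp only [map_smul, hs]
      rw [b.sum_repr, sub_self]
    exact (hp0 _).1 h1
  · rw [← hsum, ← hp0, map_sum] at hc
    simp only [map_smul, hs] at hc
    have := Fintype.linearIndependent_iff.1 b.linearIndependent c hc
    exact funext this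

/-- Choose `a_1..a_r ∈ m` whose classes are a basis of `m/m^2` (`hilb k m 1 = r`).
(i) `F = MvPowerSeries.aeval` for the discrete topologies on `k` and `A` (`letI : UniformSpace k := ⊥`,
`letI : UniformSpace A := ⊥`, `DiscreteTopology`, complete, `IsLinearTopology A A`; `HasEval a` because
`a_i` is nilpotent: `a_i^(j+1) = 0`, and `Fin r` is finite), `F (X i) = a i` (`aeval_coe`).
[If the instances are troublesome: define `F f = ∑_(|d| ≤ j) coeff d f • ∏ a_i^(d_i)` by hand; it is
multiplicative because monomials of degree `> j` in the `a_i` vanish.]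
(ii) `m = (a_1..a_r)`: `m ≤ (a) + m^2`, so `m ≤ (a) + m^n` for all `n`, `m^(j+1) = 0`.
(iii) `F` is surjective: `A = k + m`, and by induction `m^i ≤ range F + m^(i+1)`: `m^i` is generated as
an ideal by products of `i` elements `a`, `A = k + m`; `m^(j+1) = 0`.
(iv) `map F mR = (F(X_i)) = (a_i) = m` (`mR_eq_span`).
(v) `F f = 0` implies `f ∈ mR^2` (`mem_mR_sq`): `f = c + ∑ c_i X_i + g`, `g ∈ mR^2`, so
`0 = c + ∑ c_i a_i + F g`, `F g ∈ m^2`; `c ∈ m` gives `c = 0` (`one_notMem`), and then `c_i = 0` by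
independence modulo `m^2`. -/
theorem exists_hom {A : Type*} [CommRing A] [Algebra k A] {m : Ideal A} {j r : ℕ}
    (h : IsAG k m j) (hr : hilb k m 1 = r) :
    ∃ F : MvPowerSeries (Fin r) k →ₐ[k] A, Function.Surjective F ∧
      (mR k r).map (F : MvPowerSeries (Fin r) k →+* A) = m ∧
      RingHom.ker (F : MvPowerSeries (Fin r) k →+* A) ≤ mR k r ^ 2 := by
  classical
  obtain ⟨a, ham, hspan, hind⟩ := exists_gens h hr
  obtain ⟨F, hF⟩ := exists_eval (k := k) a (n := j + 1) (fun i => by
    have := Ideal.pow_mem_pow (ham i) (j + 1)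
    rw [h.nil] at this
    exact (Submodule.mem_bot A).1 this)
  -- `m` is generated by the `a i`
  have hJm : Ideal.span (Set.range a) ≤ m := by
    rw [Ideal.span_le]
    rintro _ ⟨i, rfl⟩
    exact ham i
  have hstep : ∀ n : ℕ, m ≤ Ideal.span (Set.range a) ⊔ m ^ (n + 1) := by
    intro n
    induction n with
    | zero =>
      rw [zero_add, pow_one]
      exact le_sup_right
    | succ n ih =>
      have h2 : m ≤ Ideal.span (Set.range a) ⊔ m ^ 2 := by
        intro x hx
        obtain ⟨c, hc⟩ := hspan x hx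
        have h3 : ∑ i, c i • a i ∈ Ideal.span (Set.range a) := by
          refine Ideal.sum_mem _ fun i _ => ?_
          rw [Algebra.smul_def]
          exact Ideal.mul_mem_left _ _ (Ideal.subset_span ⟨i, rfl⟩)
        have h4 := Submodule.add_mem_sup h3 hc
        rwa [add_sub_cancel] at h4
      refine ih.trans (sup_le le_sup_left ?_)
      calc m ^ (n + 1) = m ^ n * m := pow_succ m n
        _ ≤ m ^ n * (Ideal.span (Set.range a) ⊔ m ^ 2) := Ideal.mul_mono_right h2
        _ = m ^ n * Ideal.span (Set.range a) ⊔ m ^ n * m ^ 2 := Ideal.mul_sup _ _ _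
        _ ≤ Ideal.span (Set.range a) ⊔ m ^ (n + 1 + 1) := by
          refine sup_le_sup Ideal.mul_le_right ?_
          rw [← pow_add]
  have hJ : Ideal.span (Set.range a) = m := by
    refine le_antisymm hJm ?_
    have := hstep j
    rwa [h.nil, sup_bot_eq] at this
  -- (iv)
  have hmap : (mR k r).map (F : MvPowerSeries (Fin r) k →+* A) = m := by
    rw [mR_eq_span, Ideal.map_span, ← Set.range_comp, ← hJ]
    congr 1
    congr 1
    funext i
    exact hF i
  have hmapn : ∀ n : ℕ, (mR k r ^ n).map (F : MvPowerSeries (Fin r) k →+* A) = m ^ n := by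
    intro n
    rw [Ideal.map_pow, hmap]
  have hFn : ∀ (n : ℕ) (f : MvPowerSeries (Fin r) k), f ∈ mR k r ^ n → F f ∈ m ^ n := by
    intro n f hf
    rw [← hmapn n]
    exact Ideal.mem_map_of_mem (F : MvPowerSeries (Fin r) k →+* A) hf
  -- (iii)
  have hsurj : ∀ (n : ℕ) (y : A), y ∈ m ^ n → ∃ f ∈ mR k r ^ n, y - F f ∈ m ^ (n + 1) := by
    intro n y hy
    rw [← hmapn n] at hy
    refine Submodule.span_induction (p := fun y _ => ∃ f ∈ mR k r ^ n, y - F f ∈ m ^ (n + 1))
      ?_ ?_ ?_ ?_ hy
    · rintro _ ⟨f, hf, rfl⟩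
      refine ⟨f, hf, ?_⟩
      have : ((F : MvPowerSeries (Fin r) k →+* A) f) - F f = 0 := sub_self _
      rw [this]
      exact Ideal.zero_mem _
    · refine ⟨0, Ideal.zero_mem _, ?_⟩
      rw [map_zero, sub_zero]
      exact Ideal.zero_mem _
    · rintro x z _ _ ⟨f, hf, hx⟩ ⟨g, hg, hz⟩
      refine ⟨f + g, Ideal.add_mem _ hf hg, ?_⟩
      rw [map_add, add_sub_add_comm]
      exact Ideal.add_mem _ hx hz
    · rintro b x _ ⟨f, hf, hx⟩
      obtain ⟨c, hc⟩ := h.res b
      refine ⟨c • f, ?_, ?_⟩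
      · rw [Algebra.smul_def]
        exact Ideal.mul_mem_left _ _ hf
      · have e : b • x - F (c • f) = b * (x - F f) + (b - algebraMap k A c) * F f := by
          rw [map_smul, Algebra.smul_def c (F f), smul_eq_mul]
          ring
        rw [e]
        refine Ideal.add_mem _ (Ideal.mul_mem_left _ _ hx) ?_
        rw [pow_succ']
        exact Ideal.mul_mem_mul hc (hFn n f hf)
  have hsurj' : ∀ (n : ℕ) (y : A), ∃ f, y - F f ∈ m ^ n := by
    intro n y
    induction n with
    | zero =>
      refine ⟨0, ?_⟩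
      rw [pow_zero, Ideal.one_eq_top]
      exact Submodule.mem_top
    | succ n ih =>
      obtain ⟨f, hf⟩ := ih
      obtain ⟨g, -, hg⟩ := hsurj n _ hf
      refine ⟨f + g, ?_⟩
      rw [map_add, ← sub_sub]
      exact hg
  refine ⟨F, fun y => ?_, hmap, fun f hf => ?_⟩
  · obtain ⟨f, hf⟩ := hsurj' (j + 1) y
    rw [h.nil] at hf
    exact ⟨f, (sub_eq_zero.1 ((Submodule.mem_bot A).1 hf)).symm⟩
  · -- (v)
    have hf0 : F f = 0 := hf
    set c0 : k := MvPowerSeries.constantCoeff f with hc0
    set c : Fin r → k := fun i => MvPowerSeries.coeff (Finsupp.single i 1) f with hc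
    set g : MvPowerSeries (Fin r) k := f - algebraMap k _ c0 - ∑ i, c i • MvPowerSeries.X i with hg
    have hgm : g ∈ mR k r ^ 2 := by
      rw [mem_mR_sq]
      constructor
      · rw [hg, map_sub, map_sub, map_sum]
        simp only [MvPowerSeries.algebraMap_apply, MvPowerSeries.constantCoeff_C,
          MvPowerSeries.constantCoeff_smul, MvPowerSeries.constantCoeff_X, smul_zero,
          Finset.sum_const_zero, sub_zero, Algebra.algebraMap_self, RingHom.id_apply]
        rw [hc0, sub_self]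
      · intro i
        rw [hg, map_sub, map_sub, map_sum]
        simp only [MvPowerSeries.algebraMap_apply, Algebra.algebraMap_self, RingHom.id_apply,
          MvPowerSeries.coeff_smul, MvPowerSeries.coeff_X, mul_ite, mul_one, mul_zero]
        rw [MvPowerSeries.coeff_C, if_neg (by simp), sub_zero]
        rw [Finset.sum_eq_single i]
        · rw [if_pos rfl, hc, sub_self]
        · intro l _ hl
          rw [if_neg]
          intro hcon
          exact hl ((Finsupp.single_left_inj one_ne_zero).1 hcon).symm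
        · intro hi
          exact absurd (Finset.mem_univ i) hi
    have hFg : F g = - algebraMap k A c0 - ∑ i, c i • a i := by
      rw [hg, map_sub, map_sub, map_sum, hf0, zero_sub]
      simp only [map_smul, hF, AlgHom.commutes]
    have hFg2 := hFn 2 g hgm
    have hm2 : m ^ 2 ≤ m := Ideal.pow_le_self two_ne_zero
    have hsm : ∑ i, c i • a i ∈ m := by
      refine Ideal.sum_mem _ fun i _ => ?_
      rw [Algebra.smul_def]
      exact Ideal.mul_mem_left _ _ (ham i)
    have hc0m : algebraMap k A c0 ∈ m := by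
      have h5 := Ideal.add_mem _ (hm2 hFg2) hsm
      rw [hFg, sub_add_cancel] at h5
      exact (Ideal.neg_mem_iff m).1 h5
    have hc00 : c0 = 0 := by
      by_contra hne
      apply one_notMem h
      have h6 := Ideal.mul_mem_left m (algebraMap k A c0⁻¹) hc0m
      rwa [← map_mul, inv_mul_cancel₀ hne, map_one] at h6
    have hci : c = 0 := by
      apply hind
      rw [hFg, hc00, map_zero, neg_zero, zero_sub] at hFg2
      exact (Ideal.neg_mem_iff (m ^ 2)).1 hFg2
    rw [mem_mR_sq]
    exact ⟨hc00, fun i => congrFun hci i⟩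

end SocDeg
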