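import Pool.Agent.Lib_MP_badd8c_sd.LocB

/-!
# Piece B3: invariance under isomorphisms
-/

namespace SocDeg

open Module

variable {k : Type*} [Field k] {A B : Type*} [CommRing A] [Algebra k A] [CommRing B] [Algebra k B]

/-- the image of an ideal under an isomorphism -/
abbrev im (e : A ≃ₐ[k] B) (N : Ideal A) : Ideal B := N.map (e : A →+* B)

theorem mem_im (e : A ≃ₐ[k] B) (N : Ideal A) (x : A) : e x ∈ im e N ↔ x ∈ N := by
  constructor
  · intro h
    have h' := (Ideal.mem_map_iff_of_surjective (e : A →+* B) e.surjective).1 h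
    obtain ⟨y, hy, hyx⟩ := h'
    have : y = x := e.injective hyx
    exact this ▸ hy
  · intro h
    exact Ideal.mem_map_of_mem (e : A →+* B) h

theorem im_restrict (e : A ≃ₐ[k] B) (N : Ideal A) :
    (N.restrictScalars k).map (e.toLinearEquiv : A →ₗ[k] B) = (im e N).restrictScalars k := by
  ext y
  obtain ⟨x, rfl⟩ := e.surjective y
  rw [Submodule.mem_map]
  constructor
  · rintro ⟨z, hz, hzx⟩
    have : z = x := e.injective hzx
    subst this
    exact (mem_im e N z).2 hz
  · intro h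
    exact ⟨x, (mem_im e N x).1 h, rfl⟩

/-- the restriction of `e` to an ideal -/
noncomputable def imEquiv (e : A ≃ₐ[k] B) (N : Ideal A) : ↥N ≃ₗ[k] ↥(im e N) :=
  LinearEquiv.ofBijective
    ({ toFun := fun x => ⟨e x, (mem_im e N x).2 x.2⟩
       map_add' := fun x y => Subtype.ext (by simp)
       map_smul' := fun c x => Subtype.ext (by simp) } : ↥N →ₗ[k] ↥(im e N))
    ⟨fun x y h => Subtype.ext (e.injective (congrArg Subtype.val h)), fun y => by
      obtain ⟨y, hy⟩ := y
      obtain ⟨x, rfl⟩ := e.surjective y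
      exact ⟨⟨x, (mem_im e N x).1 hy⟩, rfl⟩⟩

theorem imEquiv_apply (e : A ≃ₐ[k] B) (N : Ideal A) (x : ↥N) :
    (imEquiv e N x : B) = e (x : A) := rfl

theorem finrank_im (e : A ≃ₐ[k] B) (N : Ideal A) : finrank k ↥(im e N) = finrank k ↥N :=
  (imEquiv e N).symm.finrank_eq

theorem qdim_im (e : A ≃ₐ[k] B) (N M : Ideal A) : qdim k (im e N) (im e M) = qdim k N M := by
  unfold qdim
  have hmap : ((M.submoduleOf N).restrictScalars k).map (imEquiv e N : ↥N →ₗ[k] ↥(im e N)) =
      ((im e M).submoduleOf (im e N)).restrictScalars k := by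
    ext y
    rw [Submodule.mem_map]
    constructor
    · rintro ⟨z, hz, rfl⟩
      exact (mem_im e M (z : A)).2 hz
    · intro h
      obtain ⟨x, rfl⟩ := (imEquiv e N).surjective y
      exact ⟨x, (mem_im e M (x : A)).1 h, rfl⟩
  have e1 := Submodule.Quotient.equiv _ _ (imEquiv e N) hmap
  have e2 := Submodule.Quotient.restrictScalarsEquiv k (M.submoduleOf N)
  have e3 := Submodule.Quotient.restrictScalarsEquiv k ((im e M).submoduleOf (im e N))
  exact ((e2.symm.trans e1).trans e3).finrank_eq.symm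

theorem annihilator_im (e : A ≃ₐ[k] B) (N : Ideal A) :
    Submodule.annihilator (im e N) = im e (Submodule.annihilator N) := by
  ext y
  obtain ⟨x, rfl⟩ := e.surjective y
  rw [mem_im, Submodule.mem_annihilator, Submodule.mem_annihilator]
  constructor
  · intro h n hn
    have h1 := h (e n) ((mem_im e N n).2 hn)
    rw [smul_eq_mul, ← map_mul] at h1
    rw [smul_eq_mul]
    exact (map_eq_zero_iff e e.injective).1 h1
  · intro h n hn
    obtain ⟨n, rfl⟩ := e.surjective n
    have h1 := h n ((mem_im e N n).1 hn)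
    rw [smul_eq_mul] at h1 ⊢
    rw [← map_mul, h1, map_zero]

theorem inf_im (e : A ≃ₐ[k] B) (N M : Ideal A) : im e (N ⊓ M) = im e N ⊓ im e M := by
  ext y
  obtain ⟨x, rfl⟩ := e.surjective y
  rw [Submodule.mem_inf, mem_im, mem_im, mem_im, Submodule.mem_inf]

theorem sup_im (e : A ≃ₐ[k] B) (N M : Ideal A) : im e (N ⊔ M) = im e N ⊔ im e M :=
  Ideal.map_sup _ _ _

theorem pow_im (e : A ≃ₐ[k] B) (N : Ideal A) (i : ℕ) : im e (N ^ i) = im e N ^ i :=
  Ideal.map_pow _ _ _

theorem hilb_im (e : A ≃ₐ[k] B) (m : Ideal A) : hilb k (im e m) = hilb k m := by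
  funext i
  unfold hilb
  rw [← pow_im, ← pow_im, qdim_im]

theorem Cnum_im (e : A ≃ₐ[k] B) (m : Ideal A) (j a i : ℕ) :
    Cnum B (im e m) j a i = im e (Cnum A m j a i) := by
  unfold Cnum
  rw [sup_im, inf_im, ← annihilator_im, pow_im, pow_im, pow_im]

theorem symDec_im (e : A ≃ₐ[k] B) (m : Ideal A) (j : ℕ) : symDec k (im e m) j = symDec k m j := by
  funext a i
  unfold symDec symH
  rw [Cnum_im, Cnum_im, qdim_im]

theorem im_bot (e : A ≃ₐ[k] B) : im e (⊥ : Ideal A) = ⊥ := Ideal.map_bot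

theorem im_eq_bot (e : A ≃ₐ[k] B) {N : Ideal A} (h : im e N = ⊥) : N = ⊥ := by
  rw [eq_bot_iff]
  intro x hx
  have h1 := (mem_im e N x).2 hx
  rw [h, Ideal.mem_bot] at h1
  rw [Ideal.mem_bot]
  exact (map_eq_zero_iff e e.injective).1 h1

theorem IsAG.im (e : A ≃ₐ[k] B) {m : Ideal A} {j : ℕ} (h : IsAG k m j) :
    IsAG k (SocDeg.im e m) j := by
  haveI := h.fd
  refine ⟨Module.Finite.equiv e.toLinearEquiv, fun y => ?_, ?_, fun h0 => ?_, ?_⟩
  · obtain ⟨x, rfl⟩ := e.surjective y
    obtain ⟨c, hc⟩ := h.res x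
    refine ⟨c, ?_⟩
    have h1 := (mem_im e m _).2 hc
    rwa [map_sub, e.commutes] at h1
  · rw [annihilator_im, finrank_im]
    exact h.soc
  · rw [← pow_im] at h0
    exact h.top (im_eq_bot e h0)
  · rw [← pow_im, h.nil, im_bot]

end SocDeg
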