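import Pool.Agent.Lib_MP_badd8c_sd.BrB
import Pool.Agent.Lib_MP_badd8c_sd.BrC

/-!
# Piece B4: the two descriptions of AG algebras
-/

namespace SocDeg

open Module

variable {k : Type*} [Field k]

/-- `res`: a power series minus its constant term is in `mR`. -/
theorem IsAGIdeal.isAG {r j : ℕ} {I : Ideal (MvPowerSeries (Fin r) k)} (h : IsAGIdeal k r j I) :
    IsAG k (mI k I) j := by
  refine ⟨h.fd, ?_, h.soc, h.top, h.nil⟩
  intro x
  obtain ⟨f, rfl⟩ := Ideal.Quotient.mk_surjective x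
  refine ⟨MvPowerSeries.constantCoeff f, ?_⟩
  have h1 : (algebraMap k (MvPowerSeries (Fin r) k ⧸ I) (MvPowerSeries.constantCoeff f)) =
      Ideal.Quotient.mk I (MvPowerSeries.C (MvPowerSeries.constantCoeff f)) := rfl
  rw [h1, ← map_sub]
  apply Ideal.mem_map_of_mem
  rw [mem_mR]
  simp

/-- the coefficients of degree one -/
noncomputable def linCoeff (k : Type*) [Field k] (r : ℕ) :
    MvPowerSeries (Fin r) k →ₗ[k] (Fin r → k) :=
  LinearMap.pi fun i => MvPowerSeries.coeff (Finsupp.single i 1)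

theorem linCoeff_apply {r : ℕ} (f : MvPowerSeries (Fin r) k) (i : Fin r) :
    linCoeff k r f i = MvPowerSeries.coeff (Finsupp.single i 1) f := rfl

theorem mem_mR_sq_iff {r : ℕ} {f : MvPowerSeries (Fin r) k} :
    f ∈ mR k r ^ 2 ↔ MvPowerSeries.constantCoeff f = 0 ∧ linCoeff k r f = 0 := by
  rw [mem_mR_sq]
  constructor
  · rintro ⟨a, b⟩
    exact ⟨a, funext fun i => b i⟩
  · rintro ⟨a, b⟩
    exact ⟨a, fun i => congrFun b i⟩

/-- the coefficients of degree one on `R/I` -/
noncomputable def linQ {r : ℕ} (I : Ideal (MvPowerSeries (Fin r) k)) (hI : I ≤ mR k r ^ 2) :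
    (MvPowerSeries (Fin r) k ⧸ I) →ₗ[k] (Fin r → k) :=
  ((I.restrictScalars k).liftQ (linCoeff k r) (by
    intro f hf
    rw [LinearMap.mem_ker]
    exact (mem_mR_sq_iff.1 (hI hf)).2)) ∘ₗ
    (Submodule.Quotient.restrictScalarsEquiv k I).symm.toLinearMap

theorem linQ_mk {r : ℕ} (I : Ideal (MvPowerSeries (Fin r) k)) (hI : I ≤ mR k r ^ 2)
    (f : MvPowerSeries (Fin r) k) :
    linQ I hI (Ideal.Quotient.mk I f) = linCoeff k r f := rfl

/-- `dim m/m^2 = r` for `A = R/I`, `I ≤ mR^2`: the linear map `mR → k^r` (coefficients of degree one)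
has kernel `mR^2` (`mem_mR_sq`), is surjective, and the preimage of `m^2` in `mR` is `mR^2 + I = mR^2`. -/
theorem IsAGIdeal.hilb_one {r j : ℕ} {I : Ideal (MvPowerSeries (Fin r) k)}
    (h : IsAGIdeal k r j I) : hilb k (mI k I) 1 = r := by
  have hI := h.le_sq
  unfold hilb qdim
  set N : Ideal (MvPowerSeries (Fin r) k ⧸ I) := mI k I ^ 1 with hN
  set M : Ideal (MvPowerSeries (Fin r) k ⧸ I) := mI k I ^ (1 + 1) with hM
  have hNm : ∀ x, x ∈ N ↔ ∃ f ∈ mR k r, Ideal.Quotient.mk I f = x := by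
    intro x
    rw [hN, pow_one]
    unfold mI
    exact Ideal.mem_map_iff_of_surjective _ Ideal.Quotient.mk_surjective
  have hMm : ∀ x, x ∈ M ↔ ∃ f ∈ mR k r ^ 2, Ideal.Quotient.mk I f = x := by
    intro x
    rw [hM]
    unfold mI
    rw [← Ideal.map_pow]
    exact Ideal.mem_map_iff_of_surjective _ Ideal.Quotient.mk_surjective
  let L : ↥N →ₗ[k] (Fin r → k) :=
    (linQ I hI) ∘ₗ ((Submodule.subtype N).restrictScalars k)
  have hL : ∀ x : ↥N, L x = linQ I hI x.1 := fun x => rfl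
  have hker : LinearMap.ker L = (M.submoduleOf N).restrictScalars k := by
    ext x
    rw [LinearMap.mem_ker, Submodule.restrictScalars_mem, hL]
    change _ ↔ x.1 ∈ M
    obtain ⟨f, hf, hfx⟩ := (hNm x.1).1 x.2
    rw [mem_mR] at hf
    rw [← hfx, linQ_mk]
    constructor
    · intro h0
      exact (hMm _).2 ⟨f, mem_mR_sq_iff.2 ⟨hf, h0⟩, rfl⟩
    · intro h0
      obtain ⟨g, hg, hgf⟩ := (hMm _).1 h0
      have h1 : f - g ∈ I := by
        rw [← Ideal.Quotient.eq_zero_iff_mem, map_sub, hgf, sub_self]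
      have h2 := (mem_mR_sq_iff.1 (hI h1)).2
      rw [map_sub, (mem_mR_sq_iff.1 hg).2, sub_zero] at h2
      exact h2
  have hsurj : Function.Surjective L := by
    intro v
    let f : MvPowerSeries (Fin r) k := ∑ i, v i • MvPowerSeries.X i
    have hf0 : f ∈ mR k r := by
      rw [mem_mR]
      simp only [f, map_sum]
      apply Finset.sum_eq_zero
      intro i _
      rw [MvPowerSeries.smul_eq_C_mul, map_mul, MvPowerSeries.constantCoeff_X, mul_zero]
    refine ⟨⟨Ideal.Quotient.mk I f, (hNm _).2 ⟨f, hf0, rfl⟩⟩, ?_⟩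
    rw [hL, linQ_mk]
    funext i
    rw [linCoeff_apply]
    simp only [f, map_sum, LinearMap.map_smul, smul_eq_mul]
    classical
    rw [Finset.sum_eq_single i]
    · rw [MvPowerSeries.coeff_X, if_pos rfl, mul_one]
    · intro b _ hb
      rw [MvPowerSeries.coeff_X, if_neg, mul_zero]
      intro e
      apply hb
      have := Finsupp.single_left_injective (one_ne_zero : (1 : ℕ) ≠ 0) e
      exact this.symm
    · intro h0
      exact absurd (Finset.mem_univ i) h0
  have e1 : finrank k (↥N ⧸ M.submoduleOf N) =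
      finrank k (↥N ⧸ (M.submoduleOf N).restrictScalars k) :=
    (LinearEquiv.finrank_eq (Submodule.Quotient.restrictScalarsEquiv k (M.submoduleOf N))).symm
  rw [e1, ← hker, (L.quotKerEquivOfSurjective hsurj).finrank_eq]
  simp

/-- `I = ker F` for the `F` of `exists_hom`; `e : R/I ≃ₐ[k] A` (`Ideal.quotientKerAlgEquivOfSurjective`)
maps `mI` onto `m`; `BrC`. -/
theorem exists_ideal {A : Type*} [CommRing A] [Algebra k A] {m : Ideal A} {j r : ℕ}
    (h : IsAG k m j) (hr : hilb k m 1 = r) :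
    ∃ I : Ideal (MvPowerSeries (Fin r) k), IsAGIdeal k r j I ∧ hilb k (mI k I) = hilb k m ∧
      symDec k (mI k I) j = symDec k m j := by
  obtain ⟨F, hF, hm, hk⟩ := exists_hom h hr
  let I : Ideal (MvPowerSeries (Fin r) k) := RingHom.ker F
  let e : (MvPowerSeries (Fin r) k ⧸ I) ≃ₐ[k] A := Ideal.quotientKerAlgEquivOfSurjective hF
  have he : ∀ f, e (Ideal.Quotient.mk I f) = F f := fun f =>
    Ideal.quotientKerAlgEquivOfSurjective_mk hF f
  have him : SocDeg.im e (mI k I) = m := by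
    rw [← hm]
    unfold SocDeg.im mI
    rw [Ideal.map_map]
    congr 1
  have him' : SocDeg.im e.symm m = mI k I := by
    ext x
    have h1 := mem_im e.symm m (e x)
    rw [AlgEquiv.symm_apply_apply] at h1
    rw [h1, ← mem_im e (mI k I) x, him]
  have hAG := h.im e.symm
  rw [him'] at hAG
  refine ⟨I, ⟨hk, hAG.fd, hAG.soc, hAG.top, hAG.nil⟩, ?_, ?_⟩
  · rw [← hilb_im e (mI k I), him]
  · rw [← symDec_im e (mI k I) j, him]

end SocDeg
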