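import Pool.Agent.Lib_MP_badd8c_sd.ConsAlg

/-!
# Piece C4: products of the ideals `cm`, `J2`, `J3` (lower bounds)
-/

namespace SocDeg

open Module

variable {k V W : Type*} [Field k] [AddCommGroup V] [Module k V] [AddCommGroup W] [Module k W]
  [FiniteDimensional k V] [FiniteDimensional k W]

variable (Q : FormData k V W) (p q : ℕ)

section auxC4

variable {Q p q}

omit [FiniteDimensional k V] [FiniteDimensional k W] in
private theorem eq_inr {x : CAlg Q p q} (h : x.fst = 0) : x = Unitization.inr x.snd := by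
  ext
  · simpa using h
  all_goals simp

omit [FiniteDimensional k V] [FiniteDimensional k W] in
private theorem inr_cm (n : Nil Q p q) : (Unitization.inr n : CAlg Q p q) ∈ cm Q p q :=
  (mem_cm Q p q).2 (Unitization.fst_inr k n)

omit [FiniteDimensional k V] [FiniteDimensional k W] in
private theorem mul_inr_mem {I J : Ideal (CAlg Q p q)} {a b n : Nil Q p q}
    (ha : (Unitization.inr a : CAlg Q p q) ∈ I) (hb : (Unitization.inr b : CAlg Q p q) ∈ J)
    (h : n = a * b) : (Unitization.inr n : CAlg Q p q) ∈ I * J := by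
  rw [h, Unitization.inr_mul]
  exact Ideal.mul_mem_mul ha hb

omit [FiniteDimensional k V] [FiniteDimensional k W] in
private theorem add_inr_mem {I : Ideal (CAlg Q p q)} {a b n : Nil Q p q}
    (ha : (Unitization.inr a : CAlg Q p q) ∈ I) (hb : (Unitization.inr b : CAlg Q p q) ∈ I)
    (h : n = a + b) : (Unitization.inr n : CAlg Q p q) ∈ I := by
  rw [h, Unitization.inr_add]
  exact I.add_mem ha hb

omit [FiniteDimensional k V] [FiniteDimensional k W] in
private theorem smul_inr_mem {I : Ideal (CAlg Q p q)} {a n : Nil Q p q} (r : k)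
    (ha : (Unitization.inr a : CAlg Q p q) ∈ I)
    (h : n = r • a) : (Unitization.inr n : CAlg Q p q) ∈ I := by
  rw [h, Unitization.inr_smul]
  exact Submodule.smul_of_tower_mem I r ha

omit [FiniteDimensional k V] [FiniteDimensional k W] in
private theorem zero_inr_mem {I : Ideal (CAlg Q p q)} {n : Nil Q p q}
    (h : n = 0) : (Unitization.inr n : CAlg Q p q) ∈ I := by
  rw [h, Unitization.inr_zero]
  exact I.zero_mem

omit [FiniteDimensional k W] in
/-- the component `f` -/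
private theorem fpart (I : Ideal (CAlg Q p q))
    (h : ∀ v w, (Unitization.inr ⟨0, 0, 0, 0, 0, Nil.vw Q v w, 0⟩ : CAlg Q p q) ∈ I)
    (f : Dual k V) : (Unitization.inr ⟨0, 0, 0, 0, 0, f, 0⟩ : CAlg Q p q) ∈ I := by
  let F : Submodule k (Dual k V) :=
    { carrier := {f | (Unitization.inr ⟨0, 0, 0, 0, 0, f, 0⟩ : CAlg Q p q) ∈ I}
      add_mem' := by
        intro a b ha hb
        exact add_inr_mem ha hb (by ext <;> simp)
      zero_mem' := zero_inr_mem (by ext <;> simp)
      smul_mem' := by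
        intro r a ha
        exact smul_inr_mem r ha (by ext <;> simp) }
  have hco : F.dualCoannihilator = ⊥ := by
    rw [eq_bot_iff]
    intro x hx
    rw [Submodule.mem_dualCoannihilator] at hx
    rw [Submodule.mem_bot]
    refine Q.faithful x fun y => ?_
    rw [Q.mu_comm]
    refine Q.nondeg _ fun w => ?_
    have := hx (Nil.vw Q y w) (h y w)
    rwa [Nil.vw_apply] at this
  have hF : F = ⊤ := by
    have h1 := Subspace.dualCoannihilator_dualAnnihilator_eq (W := F)
    rw [hco, Submodule.dualAnnihilator_bot] at h1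
    exact h1.symm
  have : f ∈ F := by
    rw [hF]
    trivial
  exact this

omit [FiniteDimensional k V] [FiniteDimensional k W] in
/-- the component `w` -/
private theorem wpart (I : Ideal (CAlg Q p q))
    (h : ∀ x y, (Unitization.inr ⟨0, 0, 0, Q.mu x y, 0, 0, 0⟩ : CAlg Q p q) ∈ I)
    (w : W) : (Unitization.inr ⟨0, 0, 0, w, 0, 0, 0⟩ : CAlg Q p q) ∈ I := by
  let F : Submodule k W :=
    { carrier := {w | (Unitization.inr ⟨0, 0, 0, w, 0, 0, 0⟩ : CAlg Q p q) ∈ I}
      add_mem' := by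
        intro a b ha hb
        exact add_inr_mem ha hb (by ext <;> simp)
      zero_mem' := zero_inr_mem (by ext <;> simp)
      smul_mem' := by
        intro r a ha
        exact smul_inr_mem r ha (by ext <;> simp) }
  have hF : (⊤ : Submodule k W) ≤ F := by
    rw [← Q.span, Submodule.span_le]
    rintro _ ⟨x, y, rfl⟩
    exact h x y
  exact hF (x := w) trivial

omit [FiniteDimensional k V] [FiniteDimensional k W] in
private theorem J3_le_J2 : J3 Q p q ≤ J2 Q p q := fun _ hx => ⟨hx.1, hx.2.1, hx.2.2.1, hx.2.2.2.1⟩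

omit [FiniteDimensional k V] [FiniteDimensional k W] in
private theorem J2_le_cm : J2 Q p q ≤ cm Q p q := fun _ hx => hx.1

omit [FiniteDimensional k V] [FiniteDimensional k W] in
/-- the component `c` from `V` -/
private theorem cpartV (h : Nontrivial V) (c : k) :
    (Unitization.inr ⟨0, 0, 0, 0, 0, 0, c⟩ : CAlg Q p q) ∈ cm Q p q * J3 Q p q := by
  obtain ⟨v, hv⟩ := exists_ne (0 : V)
  obtain ⟨f, hf⟩ : ∃ f : Dual k V, f v ≠ 0 := by
    by_contra hno
    push Not at hno
    exact hv ((Module.forall_dual_apply_eq_zero_iff k v).1 hno)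
  refine mul_inr_mem (a := ⟨v, 0, 0, 0, 0, 0, 0⟩) (b := ⟨0, 0, 0, 0, 0, (c / f v) • f, 0⟩)
    (inr_cm _) ?_ ?_
  · refine ⟨?_, ?_, ?_, ?_, ?_, ?_⟩ <;> simp
  · ext
    · simp
    · simp
    · simp
    · simp
    · simp
    · simp
    · simp [div_mul_cancel₀ c hf]

omit [FiniteDimensional k V] [FiniteDimensional k W] in
/-- the component `c` from `z` -/
private theorem cpartz (h : 0 < p) (c : k) :
    (Unitization.inr ⟨0, 0, 0, 0, 0, 0, c⟩ : CAlg Q p q) ∈ cm Q p q * J2 Q p q := by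
  refine mul_inr_mem (a := ⟨0, Pi.single ⟨0, h⟩ 1, 0, 0, 0, 0, 0⟩)
    (b := ⟨0, 0, 0, 0, Pi.single ⟨0, h⟩ c, 0, 0⟩) (inr_cm _) ?_ ?_
  · refine ⟨?_, ?_, ?_, ?_⟩ <;> simp
  · ext
    · simp
    · simp
    · simp
    · simp
    · simp
    · simp
    · simp only [Nil.mul_c]
      rw [Finset.sum_eq_single (⟨0, h⟩ : Fin p)]
      · simp
      · intro b _ hb
        simp [Pi.single_eq_of_ne hb]
      · simp

omit [FiniteDimensional k V] [FiniteDimensional k W] in
/-- the component `c` from `y` -/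
private theorem cparty (h : 0 < q) (c : k) :
    (Unitization.inr ⟨0, 0, 0, 0, 0, 0, c⟩ : CAlg Q p q) ∈ cm Q p q * cm Q p q := by
  refine mul_inr_mem (a := ⟨0, 0, Pi.single ⟨0, h⟩ 1, 0, 0, 0, 0⟩)
    (b := ⟨0, 0, Pi.single ⟨0, h⟩ c, 0, 0, 0, 0⟩) (inr_cm _) (inr_cm _) ?_
  ext
  · simp
  · simp
  · simp
  · simp
  · simp
  · simp
  · simp only [Nil.mul_c]
    rw [Finset.sum_eq_single (⟨0, h⟩ : Fin q) (f := fun i =>
      (Pi.single (M := fun _ => k) ⟨0, h⟩ 1 i : k) * Pi.single (M := fun _ => k) ⟨0, h⟩ c i)]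
    · simp
    · intro b _ hb
      simp [Pi.single_eq_of_ne hb]
    · simp

omit [FiniteDimensional k W] in
private theorem fpart' (f : Dual k V) :
    (Unitization.inr ⟨0, 0, 0, 0, 0, f, 0⟩ : CAlg Q p q) ∈ cm Q p q * J2 Q p q := by
  refine fpart _ (fun v w => ?_) f
  refine mul_inr_mem (a := ⟨v, 0, 0, 0, 0, 0, 0⟩) (b := ⟨0, 0, 0, w, 0, 0, 0⟩) (inr_cm _) ?_ ?_
  · refine ⟨?_, ?_, ?_, ?_⟩ <;> simp
  · ext <;> simp

end auxC4

/-- PROOF of the three statements: write an element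
as the sum of its components; `w`: products `v v'` span `W` (`Q.span`; the set of `w` with
`(w,0,0,0) ∈` the ideal is a subspace; the product of `(v,0..)` and `(v',0,..)` is `(w = mu v v')`);
`zz`: `z_i² = zz_i`; `f`: `v w = be (v ·) w`, these functionals span `V*` because a common zero `x ∈ V`
has `be (mu v x) w = 0` for all `v, w`, so `mu v x = 0`, `x = 0` (`faithful`, finite dimension);
`c`: `v f = f(v)`, `z_i zz_i = 1`, `y_i² = 1`. -/
theorem le_cm_J3 (h : Nontrivial V) : J4 Q p q ≤ cm Q p q * J3 Q p q := by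
  rintro x ⟨h1, h2, h3, h4, h5, h6, h7⟩
  have h8 := cpartV (Q := Q) (p := p) (q := q) h x.snd.c
  have h9 : x = Unitization.inr ⟨0, 0, 0, 0, 0, 0, x.snd.c⟩ := by
    rw [eq_inr h1]
    congr 1
    ext <;> simp [h2, h3, h4, h5, h6, h7]
  rw [h9]
  exact h8

theorem le_cm_J2 (h : Nontrivial V ∨ 0 < p) : J3 Q p q ≤ cm Q p q * J2 Q p q := by
  rintro x ⟨h1, h2, h3, h4, h5, h6⟩
  rw [eq_inr h1]
  have hc : (Unitization.inr ⟨0, 0, 0, 0, 0, 0, x.snd.c⟩ : CAlg Q p q) ∈ cm Q p q * J2 Q p q := by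
    rcases h with h | h
    · exact Ideal.mul_mono le_rfl J3_le_J2 (cpartV h _)
    · exact cpartz h _
  exact add_inr_mem (fpart' x.snd.f) hc (by ext <;> simp [h2, h3, h4, h5, h6])

theorem le_cm_sq (h : Nontrivial V ∨ 0 < p ∨ 0 < q) : J2 Q p q ≤ cm Q p q * cm Q p q := by
  rintro x ⟨h1, h2, h3, h4⟩
  rw [eq_inr h1]
  have hle : cm Q p q * J2 Q p q ≤ cm Q p q * cm Q p q := Ideal.mul_mono le_rfl J2_le_cm
  have hc : (Unitization.inr ⟨0, 0, 0, 0, 0, 0, x.snd.c⟩ : CAlg Q p q) ∈ cm Q p q * cm Q p q := by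
    rcases h with h | h | h
    · exact hle (Ideal.mul_mono le_rfl J3_le_J2 (cpartV h _))
    · exact hle (cpartz h _)
    · exact cparty h _
  have hf := hle (fpart' (Q := Q) (p := p) (q := q) x.snd.f)
  have hw : (Unitization.inr ⟨0, 0, 0, x.snd.w, 0, 0, 0⟩ : CAlg Q p q) ∈ cm Q p q * cm Q p q := by
    refine wpart _ (fun a b => ?_) _
    refine mul_inr_mem (a := ⟨a, 0, 0, 0, 0, 0, 0⟩) (b := ⟨b, 0, 0, 0, 0, 0, 0⟩) (inr_cm _)
      (inr_cm _) ?_
    ext <;> simp
  have hz : (Unitization.inr ⟨0, 0, 0, 0, x.snd.zz, 0, 0⟩ : CAlg Q p q) ∈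
      cm Q p q * cm Q p q := by
    refine mul_inr_mem (a := ⟨0, x.snd.zz, 0, 0, 0, 0, 0⟩) (b := ⟨0, 1, 0, 0, 0, 0, 0⟩) (inr_cm _)
      (inr_cm _) ?_
    ext <;> simp
  have h5 : (Unitization.inr ⟨0, 0, 0, 0, 0, x.snd.f, x.snd.c⟩ : CAlg Q p q) ∈
      cm Q p q * cm Q p q := add_inr_mem hf hc (by ext <;> simp)
  have h6 : (Unitization.inr ⟨0, 0, 0, x.snd.w, x.snd.zz, 0, 0⟩ : CAlg Q p q) ∈
      cm Q p q * cm Q p q := add_inr_mem hw hz (by ext <;> simp)
  exact add_inr_mem h6 h5 (by ext <;> simp [h2, h3, h4])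

end SocDeg
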