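import Pool.Agent.Lib_MP_badd8c_sd.Defs

/-!
# MP_badd8c: the numbers `l_i = dim m^i` and `r(i,l) = dim m^i/(m^i ∩ (0 : m^l))`
-/

namespace SocDeg

open Module

variable (k : Type*) [Field k] {A : Type*} [CommRing A] [Algebra k A]

/-- `(0 : m^l)`. -/
def an (m : Ideal A) (l : ℕ) : Ideal A := Submodule.annihilator (m ^ l)

/-- `l_i = dim m^i`. -/
noncomputable def ell (m : Ideal A) (i : ℕ) : ℕ := finrank k ↥(m ^ i)

/-- `r(i,l) = dim m^i - dim (m^i ∩ (0 : m^l))`. -/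
noncomputable def rr (m : Ideal A) (i l : ℕ) : ℕ :=
  finrank k ↥(m ^ i) - finrank k ↥(m ^ i ⊓ an m l)

theorem mem_an {m : Ideal A} {l : ℕ} {x : A} : x ∈ an m l ↔ ∀ y ∈ m ^ l, x * y = 0 := by
  unfold an
  rw [Submodule.mem_annihilator]
  simp

end SocDeg
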