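import Pool.Agent.Lib_MP_badd8c_sd.ConsDim
import Pool.Agent.Lib_MP_badd8c_sd.LocDefs

/-!
# Piece C3: socle and annihilator of `J2`
-/

namespace SocDeg

open Module

variable {k V W : Type*} [Field k] [AddCommGroup V] [Module k V] [AddCommGroup W] [Module k W]
  [FiniteDimensional k V] [FiniteDimensional k W]

variable (Q : FormData k V W) (p q : ℕ)

/-- `x = (r, n)` with `x m = 0`: the product with `c = 1` gives `r = 0`; then `n n' = 0` for all `n'`:
`v` by `n' = w'` (`be (mu v ·) w' = 0`, `nondeg`, `faithful`), `z` by `zz'`, `y` by `y'`, `w` by `w'`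
(`nondeg`), `zz` by `z'`, `f` by `v'`. -/
theorem annihilator_cm : Submodule.annihilator (cm Q p q) = J4 Q p q := by
  classical
  ext x
  rw [Submodule.mem_annihilator]
  constructor
  · intro hx
    have key : ∀ n : Nil Q p q, x.fst • n + x.snd * n = 0 := by
      intro n
      have h := hx (Unitization.inr n) (show (Unitization.inr n : CAlg Q p q).fst = 0 from rfl)
      have h2 := congrArg (fun t : CAlg Q p q => t.snd) h
      rw [smul_eq_mul, Unitization.snd_mul, Unitization.fst_inr, Unitization.snd_inr, zero_smul,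
        add_zero, Unitization.snd_zero] at h2
      exact h2
    have hr : x.fst = 0 := by
      have h := congrArg Nil.c (key ⟨0, 0, 0, 0, 0, 0, 1⟩)
      simpa using h
    have key' : ∀ n : Nil Q p q, x.snd * n = 0 := by
      intro n
      have h := key n
      rwa [hr, zero_smul, zero_add] at h
    have hz : x.snd.z = 0 := by
      funext i
      have h := congrArg Nil.c (key' ⟨0, 0, 0, 0, Pi.single i 1, 0, 0⟩)
      simpa [Pi.single_apply] using h
    have hzz : x.snd.zz = 0 := by
      funext i
      have h := congrArg Nil.c (key' ⟨0, Pi.single i 1, 0, 0, 0, 0, 0⟩)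
      simpa [Pi.single_apply] using h
    have hy : x.snd.y = 0 := by
      funext i
      have h := congrArg Nil.c (key' ⟨0, 0, Pi.single i 1, 0, 0, 0, 0⟩)
      simpa [Pi.single_apply] using h
    have hw : x.snd.w = 0 := by
      apply Q.nondeg
      intro u
      have h := congrArg Nil.c (key' ⟨0, 0, 0, u, 0, 0, 0⟩)
      simpa using h
    have hf : x.snd.f = 0 := by
      ext u
      have h := congrArg Nil.c (key' ⟨u, 0, 0, 0, 0, 0, 0⟩)
      simpa using h
    have hv : x.snd.v = 0 := by
      apply Q.faithful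
      intro y
      apply Q.nondeg
      intro u
      have h := congrArg Nil.f (key' ⟨0, 0, 0, u, 0, 0, 0⟩)
      have h2 := LinearMap.congr_fun h y
      simpa [Nil.vw_apply] using h2
    exact ⟨hr, hv, hz, hy, hw, hzz, hf⟩
  · rintro ⟨h1, h2, h3, h4, h5, h6, h7⟩ y hy
    rw [mem_cm] at hy
    rw [smul_eq_mul]
    apply Unitization.ext
    · rw [Unitization.fst_mul, h1, zero_mul, Unitization.fst_zero]
    · rw [Unitization.snd_mul, h1, hy, zero_smul, zero_smul, zero_add, zero_add,
        Unitization.snd_zero]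
      ext <;> simp [h2, h3, h4, h5, h6, h7]

/-- the component `w` of the elements of `J2` -/
private def wMap : ↥(J2 Q p q) →ₗ[k] W where
  toFun x := x.1.snd.w
  map_add' _ _ := rfl
  map_smul' _ _ := rfl

omit [FiniteDimensional k V] [FiniteDimensional k W] in
private theorem wMap_surj : Function.Surjective (wMap Q p q) := by
  intro w
  exact ⟨⟨Unitization.inr ⟨0, 0, 0, w, 0, 0, 0⟩, rfl, rfl, rfl, rfl⟩, rfl⟩

omit [FiniteDimensional k V] [FiniteDimensional k W] in
private theorem mem_ann_J2 {x : CAlg Q p q} (hx : x ∈ J2 Q p q) :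
    x ∈ Submodule.annihilator (J2 Q p q) ↔ x.snd.w = 0 := by
  obtain ⟨h1, h2, h3, h4⟩ := hx
  rw [Submodule.mem_annihilator]
  constructor
  · intro h
    apply Q.nondeg
    intro u
    have h5 := h (Unitization.inr ⟨0, 0, 0, u, 0, 0, 0⟩) ⟨rfl, rfl, rfl, rfl⟩
    have h6 := congrArg (fun t : CAlg Q p q => t.snd.c) h5
    simpa [Unitization.snd_mul, h1] using h6
  · rintro h5 y ⟨g1, g2, g3, g4⟩
    rw [smul_eq_mul]
    apply Unitization.ext
    · rw [Unitization.fst_mul, h1, zero_mul, Unitization.fst_zero]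
    · rw [Unitization.snd_mul, h1, g1, zero_smul, zero_smul, zero_add, zero_add,
        Unitization.snd_zero]
      ext <;> simp [h2, h3, h4, h5, g2, g3, g4]

/-- `(0 : J2) ∩ J2 = J3 + {zz}`: for `n = (0,0,0,w,zz,f,c)` and `n' = (0,0,0,w',zz',f',c')` the product
is `be w w'`. So `dim J2 - dim (J2 ∩ (0 : J2)) = dim W`. -/
theorem finrank_J2_inf : finrank k ↥(J2 Q p q ⊓ Submodule.annihilator (J2 Q p q)) + finrank k W =
    finrank k ↥(J2 Q p q) := by
  have : FiniteDimensional k ↥(J2 Q p q) :=
    inferInstanceAs (FiniteDimensional k ↥((J2 Q p q).restrictScalars k))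
  have h1 := LinearMap.finrank_range_add_finrank_ker (wMap Q p q)
  rw [LinearMap.range_eq_top.2 (wMap_surj Q p q), finrank_top] at h1
  have e : ↥(J2 Q p q ⊓ Submodule.annihilator (J2 Q p q)) ≃ₗ[k] ↥(LinearMap.ker (wMap Q p q)) :=
    { toFun := fun x => ⟨⟨x.1, x.2.1⟩, (mem_ann_J2 Q p q x.2.1).1 x.2.2⟩
      map_add' := fun x y => rfl
      map_smul' := fun c x => rfl
      invFun := fun y => ⟨y.1.1, y.1.2, (mem_ann_J2 Q p q y.1.2).2 y.2⟩
      left_inv := fun x => rfl
      right_inv := fun y => rfl }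
  rw [e.finrank_eq]
  omega

/-- every element is a scalar plus an element of `cm` -/
theorem res_cm (x : CAlg Q p q) : ∃ c : k, x - algebraMap k (CAlg Q p q) c ∈ cm Q p q := by
  refine ⟨x.fst, ?_⟩
  rw [mem_cm, Unitization.algebraMap_eq_inl, sub_eq_add_neg, Unitization.fst_add,
    Unitization.fst_neg, Unitization.fst_inl]
  exact add_neg_cancel _

end SocDeg
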