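import Pool.Agent.Lib_MP_badd8c_sd.ConsPow
import Pool.Agent.Lib_MP_badd8c_sd.ConsGe
import Pool.Agent.Lib_MP_badd8c_sd.ConsSoc

/-!
# The constructed algebras
-/

namespace SocDeg

open Module

variable {k V W : Type*} [Field k] [AddCommGroup V] [Module k V] [AddCommGroup W] [Module k W]
  [FiniteDimensional k V] [FiniteDimensional k W]

theorem cm_pow_two (Q : FormData k V W) (p q : ℕ) (h : Nontrivial V ∨ 0 < p ∨ 0 < q) :
    cm Q p q ^ 2 = J2 Q p q := by
  rw [pow_two]
  exact le_antisymm (cm_sq_le Q p q) (le_cm_sq Q p q h)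

theorem cm_pow_three (Q : FormData k V W) (p q : ℕ) (h : Nontrivial V ∨ 0 < p) :
    cm Q p q ^ 3 = J3 Q p q := by
  rw [pow_succ', cm_pow_two Q p q (by tauto)]
  exact le_antisymm (cm_J2_le Q p q) (le_cm_J2 Q p q h)

theorem cm_pow_four (Q : FormData k V W) (p q : ℕ) (h : Nontrivial V) :
    cm Q p q ^ 4 = J4 Q p q := by
  rw [pow_succ', cm_pow_three Q p q (by tauto)]
  exact le_antisymm (cm_J3_le Q p q) (le_cm_J3 Q p q h)

theorem cons_four (Q : FormData k V W) (p q : ℕ) (hV : 1 ≤ finrank k V) :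
    IsAG k (cm Q p q) 4 ∧ ell k (cm Q p q) 3 = finrank k V + 1 ∧
      rr k (cm Q p q) 2 2 = finrank k W ∧
      ell k (cm Q p q) 2 = finrank k V + finrank k W + p + 1 ∧
      ell k (cm Q p q) 1 = 2 * finrank k V + finrank k W + 2 * p + q + 1 := by
  have hn : Nontrivial V := Module.nontrivial_of_finrank_pos (R := k) (by omega)
  have h2 := cm_pow_two Q p q (Or.inl hn)
  have h3 := cm_pow_three Q p q (Or.inl hn)
  have h4 := cm_pow_four Q p q hn
  refine ⟨⟨inferInstance, res_cm Q p q, ?_, ?_, ?_⟩, ?_, ?_, ?_, ?_⟩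
  · rw [annihilator_cm, finrank_J4]
  · rw [h4]
    exact J4_ne_bot Q p q
  · rw [pow_succ', h4]
    exact le_bot_iff.mp (cm_J4_le Q p q)
  · unfold ell
    rw [h3, finrank_J3]
  · unfold rr an
    rw [h2]
    have := finrank_J2_inf Q p q
    omega
  · unfold ell
    rw [h2, finrank_J2]
  · unfold ell
    rw [pow_one, finrank_cm]

/-- The zero form data on `V = W = 0`. -/
noncomputable def zeroForm (k : Type*) [Field k] : FormData k (Fin 0 → k) (Fin 0 → k) where
  mu := 0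
  be := 0
  mu_comm _ _ := rfl
  be_comm _ _ := rfl
  nondeg _ _ := Subsingleton.elim _ _
  symm4 _ _ _ _ := rfl
  span := Subsingleton.elim _ _
  faithful _ _ := Subsingleton.elim _ _

theorem cons_three (k : Type*) [Field k] {p : ℕ} (q : ℕ) (hp : 1 ≤ p) :
    IsAG k (cm (zeroForm k) p q) 3 ∧ ell k (cm (zeroForm k) p q) 2 = p + 1 ∧
      ell k (cm (zeroForm k) p q) 1 = 2 * p + q + 1 := by
  have h2 := cm_pow_two (zeroForm k) p q (Or.inr (Or.inl hp))
  have h3 := cm_pow_three (zeroForm k) p q (Or.inr hp)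
  have e := J3_eq (zeroForm k) p q inferInstance
  refine ⟨⟨inferInstance, res_cm _ p q, ?_, ?_, ?_⟩, ?_, ?_⟩
  · rw [annihilator_cm, finrank_J4]
  · rw [h3, e]
    exact J4_ne_bot _ p q
  · rw [pow_succ', h3, e]
    exact le_bot_iff.mp (cm_J4_le _ p q)
  · unfold ell
    rw [h2, finrank_J2]
    simp
  · unfold ell
    rw [pow_one, finrank_cm]
    simp

theorem cons_two (k : Type*) [Field k] {q : ℕ} (hq : 1 ≤ q) :
    IsAG k (cm (zeroForm k) 0 q) 2 ∧ ell k (cm (zeroForm k) 0 q) 1 = q + 1 := by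
  have h2 := cm_pow_two (zeroForm k) 0 q (Or.inr (Or.inr hq))
  have e := J2_eq (zeroForm k) q inferInstance
  refine ⟨⟨inferInstance, res_cm _ 0 q, ?_, ?_, ?_⟩, ?_⟩
  · rw [annihilator_cm, finrank_J4]
  · rw [h2, e]
    exact J4_ne_bot _ 0 q
  · rw [pow_succ', h2, e]
    exact le_bot_iff.mp (cm_J4_le _ 0 q)
  · unfold ell
    rw [pow_one, finrank_cm]
    simp

theorem cons_one (k : Type*) [Field k] : IsAG k (cm (zeroForm k) 0 0) 1 := by
  have e := cm_eq (zeroForm k) inferInstance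
  refine ⟨inferInstance, res_cm _ 0 0, ?_, ?_, ?_⟩
  · rw [annihilator_cm, finrank_J4]
  · rw [pow_one, e]
    exact J4_ne_bot _ 0 0
  · rw [pow_succ', pow_one]
    nth_rewrite 2 [e]
    exact le_bot_iff.mp (cm_J4_le _ 0 0)

theorem cons_zero (k : Type*) [Field k] : IsAG k (⊥ : Ideal k) 0 := by
  refine ⟨inferInstance, fun x => ⟨x, by simp⟩, ?_, by simp, by simp⟩
  rw [Submodule.annihilator_bot]
  have : finrank k ↥(⊤ : Ideal k) = finrank k k := finrank_top k k
  rw [this, finrank_self]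

end SocDeg
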