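import Pool.Agent.Lib_MP_badd8c_sd.ConsDefs

/-!
# MP_badd8c: the algebra `k ⊕ Nil Q p q` and its filtration
-/

namespace SocDeg

open Module

variable {k V W : Type*} [Field k] [AddCommGroup V] [Module k V] [AddCommGroup W] [Module k W]

instance (Q : FormData k V W) (p q : ℕ) : IsScalarTower k (Nil Q p q) (Nil Q p q) where
  smul_assoc r a b := by
    ext
    · simp
    · simp
    · simp
    · simp
    · simp [mul_assoc]
    · simp
    · simp [mul_add, Finset.mul_sum, mul_assoc, mul_left_comm]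

instance (Q : FormData k V W) (p q : ℕ) : SMulCommClass k (Nil Q p q) (Nil Q p q) where
  smul_comm r a b := by
    rw [smul_eq_mul, smul_eq_mul, mul_comm a (r • b), mul_comm a b]
    exact (smul_mul_assoc r b a).symm

/-- The algebra. -/
abbrev CAlg (Q : FormData k V W) (p q : ℕ) := Unitization k (Nil Q p q)

variable (Q : FormData k V W) (p q : ℕ)

/-- Its maximal ideal. -/
def cm : Ideal (CAlg Q p q) where
  carrier := {x | x.fst = 0}
  add_mem' := by
    intro a b ha hb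
    simp only [Set.mem_setOf_eq, Unitization.fst_add] at *
    rw [ha, hb, add_zero]
  zero_mem' := rfl
  smul_mem' := by
    intro c x hx
    simp only [Set.mem_setOf_eq, smul_eq_mul, Unitization.fst_mul] at *
    rw [hx, mul_zero]

theorem mem_cm {x : CAlg Q p q} : x ∈ cm Q p q ↔ x.fst = 0 := Iff.rfl

/-- The components `w, zz, f, c`. -/
def J2 : Ideal (CAlg Q p q) where
  carrier := {x | x.fst = 0 ∧ x.snd.v = 0 ∧ x.snd.z = 0 ∧ x.snd.y = 0}
  add_mem' := by
    rintro a b ⟨h1, h2, h3, h4⟩ ⟨h5, h6, h7, h8⟩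
    refine ⟨by simp [h1, h5], by simp [h2, h6], by simp [h3, h7], by simp [h4, h8]⟩
  zero_mem' := ⟨rfl, rfl, rfl, rfl⟩
  smul_mem' := by
    rintro c x ⟨h1, h2, h3, h4⟩
    refine ⟨by simp [h1], by simp [h1, h2], by simp [h1, h3], by simp [h1, h4]⟩

/-- The components `f, c`. -/
def J3 : Ideal (CAlg Q p q) where
  carrier := {x | x.fst = 0 ∧ x.snd.v = 0 ∧ x.snd.z = 0 ∧ x.snd.y = 0 ∧ x.snd.w = 0 ∧ x.snd.zz = 0}
  add_mem' := by
    rintro a b ⟨h1, h2, h3, h4, h9, h10⟩ ⟨h5, h6, h7, h8, h11, h12⟩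
    refine ⟨by simp [h1, h5], by simp [h2, h6], by simp [h3, h7], by simp [h4, h8],
      by simp [h9, h11], by simp [h10, h12]⟩
  zero_mem' := ⟨rfl, rfl, rfl, rfl, rfl, rfl⟩
  smul_mem' := by
    rintro c x ⟨h1, h2, h3, h4, h5, h6⟩
    refine ⟨by simp [h1], by simp [h1, h2], by simp [h1, h3], by simp [h1, h4],
      by simp [h1, h2, h5], by simp [h1, h3, h6]⟩

/-- The component `c`. -/
def J4 : Ideal (CAlg Q p q) where
  carrier := {x | x.fst = 0 ∧ x.snd.v = 0 ∧ x.snd.z = 0 ∧ x.snd.y = 0 ∧ x.snd.w = 0 ∧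
    x.snd.zz = 0 ∧ x.snd.f = 0}
  add_mem' := by
    rintro a b ⟨h1, h2, h3, h4, h9, h10, h13⟩ ⟨h5, h6, h7, h8, h11, h12, h14⟩
    refine ⟨by simp [h1, h5], by simp [h2, h6], by simp [h3, h7], by simp [h4, h8],
      by simp [h9, h11], by simp [h10, h12], by simp [h13, h14]⟩
  zero_mem' := ⟨rfl, rfl, rfl, rfl, rfl, rfl, rfl⟩
  smul_mem' := by
    rintro c x ⟨h1, h2, h3, h4, h5, h6, h7⟩
    refine ⟨by simp [h1], by simp [h1, h2], by simp [h1, h3], by simp [h1, h4],
      by simp [h1, h2, h5], by simp [h1, h3, h6], by simp [h1, h2, h5, h7]⟩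

end SocDeg
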