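import Pool.Agent.Lib_MP_badd8c_sd.GoodSets

/-!
# Quartic form data

A graded Gorenstein algebra `A = k ⊕ V ⊕ W ⊕ V* ⊕ k` of socle degree four, generated in degree one:
`mu : V × V → W` is the multiplication `A₁ × A₁ → A₂` and `be` the pairing `A₂ × A₂ → A₄ = k`.
-/

namespace SocDeg

open Module Filter

/-- Form data. -/
structure FormData (k V W : Type*) [Field k] [AddCommGroup V] [Module k V] [AddCommGroup W]
    [Module k W] where
  mu : V →ₗ[k] V →ₗ[k] W
  be : W →ₗ[k] W →ₗ[k] k
  mu_comm : ∀ x y, mu x y = mu y x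
  be_comm : ∀ u v, be u v = be v u
  nondeg : ∀ u, (∀ v, be u v = 0) → u = 0
  symm4 : ∀ x y z w, be (mu x y) (mu z w) = be (mu x z) (mu y w)
  span : Submodule.span k {w | ∃ x y, w = mu x y} = ⊤
  faithful : ∀ x, (∀ y, mu x y = 0) → x = 0

variable {k V W : Type*} [Field k] [AddCommGroup V] [Module k V] [AddCommGroup W] [Module k W]

namespace FormData

variable (Q : FormData k V W)

/-- The orthogonal space of a subspace of `W`. -/
def perp (U : Submodule k W) : Submodule k W where
  carrier := {w | ∀ u ∈ U, Q.be u w = 0}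
  add_mem' := by
    intro a b ha hb u hu
    rw [map_add, ha u hu, hb u hu, add_zero]
  zero_mem' := by
    intro u _
    rw [map_zero]
  smul_mem' := by
    intro c a ha u hu
    rw [map_smul, ha u hu, smul_zero]

theorem mem_perp {U : Submodule k W} {w : W} : w ∈ Q.perp U ↔ ∀ u ∈ U, Q.be u w = 0 := Iff.rfl

/-- `K_m = {x | m x = 0}`. -/
def K (m : V) : Submodule k V := LinearMap.ker (Q.mu m)

theorem mem_K {m x : V} : x ∈ Q.K m ↔ Q.mu m x = 0 := LinearMap.mem_ker

/-- `P P'`, the span of the products, in `W`. -/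
def prod (P P' : Submodule k V) : Submodule k W := Submodule.map₂ Q.mu P P'

/-- `P V`. -/
def PV (P : Submodule k V) : Submodule k W := Q.prod P ⊤

/-- `m V`. -/
def mV (m : V) : Submodule k W := LinearMap.range (Q.mu m)

/-- The quartic form `Φ(x,y,z,w) = be (x y) (z w)`. -/
def Phi (x y z w : V) : k := Q.be (Q.mu x y) (Q.mu z w)

/-- The family `x ↦ (V → W/U, y ↦ x y)`. -/
noncomputable def famU (U : Submodule k W) : V →ₗ[k] V →ₗ[k] (W ⧸ U) :=
  Q.mu.compr₂ U.mkQ

/-- The family `x ↦ (S → W/U, y ↦ x y)`. -/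
noncomputable def fam (S : Submodule k V) (U : Submodule k W) : V →ₗ[k] S →ₗ[k] (W ⧸ U) where
  toFun x := (Q.famU U x).domRestrict S
  map_add' x y := by ext z; simp
  map_smul' c x := by ext z; simp

/-- The bilinear family `(x,y) ↦ (S → Dual P, z ↦ (w ↦ Φ(z,w,x,y)))`. -/
noncomputable def om (S P : Submodule k V) : V →ₗ[k] V →ₗ[k] S →ₗ[k] Module.Dual k P :=
  LinearMap.mk₂ k (fun x y => LinearMap.mk₂ k (fun (z : S) (w : P) => Q.be (Q.mu z w) (Q.mu x y))
      (by intros; simp) (by intros; simp) (by intros; simp) (by intros; simp))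
    (by intros; ext; simp) (by intros; ext; simp) (by intros; ext; simp) (by intros; ext; simp)

end FormData

end SocDeg
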