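import Pool.Agent.Lib_MP_badd8c_sd.Defs
import Pool.Agent.Lib_MP_badd8c_sd.Form

/-!
# MP_badd8c: the algebra `k ⊕ (V ⊕ k^p ⊕ k^q) ⊕ (W ⊕ k^p) ⊕ V* ⊕ k` of a form data
(dual generator `F_4 + ∑ Z_i^[3] + ∑ Y_i^[2]`)
-/

namespace SocDeg

open Module

variable {k V W : Type*} [Field k] [AddCommGroup V] [Module k V] [AddCommGroup W] [Module k W]

/-- The maximal ideal (a nilpotent ring without unit):
components `v, z, y` (degree one), `w, zz` (degree two), `f` (degree three), `c` (socle). -/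
@[ext] structure Nil (Q : FormData k V W) (p q : ℕ) where
  v : V
  z : Fin p → k
  y : Fin q → k
  w : W
  zz : Fin p → k
  f : Dual k V
  c : k

namespace Nil

variable {Q : FormData k V W} {p q : ℕ}

/-- `x ↦ be (v x) w`, the product `V × W → V*`. -/
def vw (Q : FormData k V W) : V →ₗ[k] W →ₗ[k] Dual k V :=
  LinearMap.mk₂ k (fun v w => (Q.be.flip w).comp (Q.mu v))
    (by intros; ext; simp) (by intros; ext; simp) (by intros; ext; simp) (by intros; ext; simp)

theorem vw_apply (v x : V) (w : W) : vw Q v w x = Q.be (Q.mu v x) w := rfl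

instance : Zero (Nil Q p q) := ⟨⟨0, 0, 0, 0, 0, 0, 0⟩⟩
instance : Add (Nil Q p q) := ⟨fun a b => ⟨a.v + b.v, a.z + b.z, a.y + b.y, a.w + b.w, a.zz + b.zz,
  a.f + b.f, a.c + b.c⟩⟩
instance : Neg (Nil Q p q) := ⟨fun a => ⟨-a.v, -a.z, -a.y, -a.w, -a.zz, -a.f, -a.c⟩⟩
instance : SMul k (Nil Q p q) := ⟨fun r a => ⟨r • a.v, r • a.z, r • a.y, r • a.w, r • a.zz,
  r • a.f, r • a.c⟩⟩

/-- The multiplication. -/
instance : Mul (Nil Q p q) := ⟨fun a b =>
  { v := 0
    z := 0
    y := 0
    w := Q.mu a.v b.v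
    zz := a.z * b.z
    f := vw Q a.v b.w + vw Q b.v a.w
    c := b.f a.v + a.f b.v + Q.be a.w b.w + (∑ i, a.z i * b.zz i) + (∑ i, b.z i * a.zz i)
      + ∑ i, a.y i * b.y i }⟩

@[simp] theorem zero_v : (0 : Nil Q p q).v = 0 := rfl
@[simp] theorem zero_z : (0 : Nil Q p q).z = 0 := rfl
@[simp] theorem zero_y : (0 : Nil Q p q).y = 0 := rfl
@[simp] theorem zero_w : (0 : Nil Q p q).w = 0 := rfl
@[simp] theorem zero_zz : (0 : Nil Q p q).zz = 0 := rfl
@[simp] theorem zero_f : (0 : Nil Q p q).f = 0 := rfl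
@[simp] theorem zero_c : (0 : Nil Q p q).c = 0 := rfl
@[simp] theorem add_v (a b : Nil Q p q) : (a + b).v = a.v + b.v := rfl
@[simp] theorem add_z (a b : Nil Q p q) : (a + b).z = a.z + b.z := rfl
@[simp] theorem add_y (a b : Nil Q p q) : (a + b).y = a.y + b.y := rfl
@[simp] theorem add_w (a b : Nil Q p q) : (a + b).w = a.w + b.w := rfl
@[simp] theorem add_zz (a b : Nil Q p q) : (a + b).zz = a.zz + b.zz := rfl
@[simp] theorem add_f (a b : Nil Q p q) : (a + b).f = a.f + b.f := rfl
@[simp] theorem add_c (a b : Nil Q p q) : (a + b).c = a.c + b.c := rfl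
@[simp] theorem neg_v (a : Nil Q p q) : (-a).v = -a.v := rfl
@[simp] theorem neg_z (a : Nil Q p q) : (-a).z = -a.z := rfl
@[simp] theorem neg_y (a : Nil Q p q) : (-a).y = -a.y := rfl
@[simp] theorem neg_w (a : Nil Q p q) : (-a).w = -a.w := rfl
@[simp] theorem neg_zz (a : Nil Q p q) : (-a).zz = -a.zz := rfl
@[simp] theorem neg_f (a : Nil Q p q) : (-a).f = -a.f := rfl
@[simp] theorem neg_c (a : Nil Q p q) : (-a).c = -a.c := rfl
@[simp] theorem smul_v (r : k) (a : Nil Q p q) : (r • a).v = r • a.v := rfl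
@[simp] theorem smul_z (r : k) (a : Nil Q p q) : (r • a).z = r • a.z := rfl
@[simp] theorem smul_y (r : k) (a : Nil Q p q) : (r • a).y = r • a.y := rfl
@[simp] theorem smul_w (r : k) (a : Nil Q p q) : (r • a).w = r • a.w := rfl
@[simp] theorem smul_zz (r : k) (a : Nil Q p q) : (r • a).zz = r • a.zz := rfl
@[simp] theorem smul_f (r : k) (a : Nil Q p q) : (r • a).f = r • a.f := rfl
@[simp] theorem smul_c (r : k) (a : Nil Q p q) : (r • a).c = r • a.c := rfl
@[simp] theorem mul_v (a b : Nil Q p q) : (a * b).v = 0 := rfl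
@[simp] theorem mul_z (a b : Nil Q p q) : (a * b).z = 0 := rfl
@[simp] theorem mul_y (a b : Nil Q p q) : (a * b).y = 0 := rfl
@[simp] theorem mul_w (a b : Nil Q p q) : (a * b).w = Q.mu a.v b.v := rfl
@[simp] theorem mul_zz (a b : Nil Q p q) : (a * b).zz = a.z * b.z := rfl
@[simp] theorem mul_f (a b : Nil Q p q) : (a * b).f = vw Q a.v b.w + vw Q b.v a.w := rfl
@[simp] theorem mul_c (a b : Nil Q p q) : (a * b).c =
    b.f a.v + a.f b.v + Q.be a.w b.w + (∑ i, a.z i * b.zz i) + (∑ i, b.z i * a.zz i)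
      + ∑ i, a.y i * b.y i := rfl

instance : AddCommGroup (Nil Q p q) where
  add_assoc a b c := by ext <;> simp [add_assoc]
  zero_add a := by ext <;> simp
  add_zero a := by ext <;> simp
  nsmul := nsmulRec
  neg := fun a => -a
  zsmul := zsmulRec
  neg_add_cancel a := by ext <;> simp
  add_comm a b := by ext <;> simp [add_comm]

instance : Module k (Nil Q p q) where
  one_smul a := by ext <;> simp
  mul_smul r s a := by ext <;> simp [mul_smul, mul_assoc]
  smul_zero r := by ext <;> simp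
  smul_add r a b := by ext <;> simp [mul_add]
  add_smul r s a := by ext <;> simp [add_smul, add_mul]
  zero_smul a := by ext <;> simp

theorem mu_vw (Q : FormData k V W) (a b c : V) : vw Q a (Q.mu b c) = vw Q c (Q.mu a b) := by
  ext x
  rw [vw_apply, vw_apply]
  have h1 := Q.symm4 a x b c
  have h3 := Q.symm4 c x a b
  rw [h1, Q.be_comm, Q.mu_comm x c]

instance : NonUnitalCommRing (Nil Q p q) where
  left_distrib a b c := by
    ext <;> simp [mul_add, add_mul, Finset.sum_add_distrib] <;> ring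
  right_distrib a b c := by
    ext <;> simp [mul_add, add_mul, Finset.sum_add_distrib] <;> ring
  zero_mul a := by ext <;> simp
  mul_zero a := by ext <;> simp
  mul_assoc a b c := by
    ext
    · simp
    · simp
    · simp
    · simp
    · simp
    · simp only [mul_f, mul_v, mul_w, map_zero, LinearMap.zero_apply, zero_add, add_zero]
      rw [mu_vw Q a.v b.v c.v]
    · simp only [mul_c, mul_f, mul_v, mul_w, mul_z, mul_y, mul_zz, map_zero, LinearMap.zero_apply,
        LinearMap.add_apply, vw_apply, Pi.zero_apply, Pi.mul_apply, zero_mul, mul_zero,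
        Finset.sum_const_zero, add_zero, zero_add]
      rw [Q.mu_comm a.v c.v, Q.mu_comm b.v a.v, Q.be_comm a.w (Q.mu b.v c.v)]
      have e : ∑ i, c.z i * (a.z i * b.z i) = ∑ i, a.z i * (b.z i * c.z i) :=
        Finset.sum_congr rfl (fun i _ => by ring)
      rw [e]
      ring
  mul_comm a b := by
    ext
    · simp
    · simp
    · simp
    · simp [Q.mu_comm b.v a.v]
    · simp [mul_comm]
    · simp [add_comm]
    · simp only [mul_c]
      rw [Q.be_comm b.w a.w]
      simp only [mul_comm (b.y _)]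
      ring

end Nil

end SocDeg
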