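import Pool.Agent.Lib_MP_badd8c_sd.LocDefs

/-!
# Piece L1: dimensions of ideals
-/

namespace SocDeg

open Module

variable {k : Type*} [Field k] {A : Type*} [CommRing A] [Algebra k A]

theorem finrank_le_of_le [FiniteDimensional k A] {N M : Ideal A} (h : M ≤ N) :
    finrank k ↥M ≤ finrank k ↥N :=
  Submodule.finrank_mono (s := M.restrictScalars k) (t := N.restrictScalars k) h

theorem eq_of_finrank_eq [FiniteDimensional k A] {N M : Ideal A} (h : M ≤ N)
    (e : finrank k ↥M = finrank k ↥N) : M = N := by
  have h1 : M.restrictScalars k = N.restrictScalars k :=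
    Submodule.eq_of_le_of_finrank_eq (S₁ := M.restrictScalars k) (S₂ := N.restrictScalars k) h e
  exact Submodule.restrictScalars_injective k A A h1

/-- `dim N/(N ∩ M) = dim N - dim M` for `M ≤ N`. -/
theorem qdim_add [FiniteDimensional k A] {N M : Ideal A} (h : M ≤ N) :
    qdim k N M + finrank k ↥M = finrank k ↥N := by
  have e0 : FiniteDimensional k ↥N := inferInstanceAs (FiniteDimensional k ↥(N.restrictScalars k))
  let f : ↥N →ₗ[k] (↥N ⧸ M.submoduleOf N) := (M.submoduleOf N).mkQ.restrictScalars k
  have hf : Function.Surjective f := (M.submoduleOf N).mkQ_surjective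
  have h1 := LinearMap.finrank_range_add_finrank_ker f
  rw [LinearMap.range_eq_top.2 hf, finrank_top] at h1
  have h2 : finrank k ↥(LinearMap.ker f) = finrank k ↥M := by
    refine LinearEquiv.finrank_eq ?_
    have e1 : LinearMap.ker f = (M.submoduleOf N).restrictScalars k := by
      ext x
      show (M.submoduleOf N).mkQ x = 0 ↔ x ∈ M.submoduleOf N
      rw [Submodule.mkQ_apply, Submodule.Quotient.mk_eq_zero]
    exact (LinearEquiv.ofEq _ _ e1).trans ((Submodule.submoduleOfEquivOfLe h).restrictScalars k)
  rw [h2] at h1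
  exact h1

theorem finrank_sup_inf [FiniteDimensional k A] (N M : Ideal A) :
    finrank k ↥(N ⊔ M) + finrank k ↥(N ⊓ M) = finrank k ↥N + finrank k ↥M := by
  have h := Submodule.finrank_sup_add_finrank_inf_eq (N.restrictScalars k) (M.restrictScalars k)
  rw [← Submodule.restrictScalars_sup, ← Submodule.restrictScalars_inf] at h
  exact h

theorem finrank_bot_ideal : finrank k ↥(⊥ : Ideal A) = 0 :=
  finrank_zero_of_subsingleton

theorem finrank_top_ideal [FiniteDimensional k A] : finrank k ↥(⊤ : Ideal A) = finrank k A :=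
  finrank_top k A

end SocDeg
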