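import Pool.Agent.Lib_MP_badd8c_sd.ConsAlg
import Pool.Agent.Lib_MP_badd8c_sd.LocA

/-!
# Piece C1: dimensions
-/

namespace SocDeg

open Module

variable {k V W : Type*} [Field k] [AddCommGroup V] [Module k V] [AddCommGroup W] [Module k W]
  [FiniteDimensional k V] [FiniteDimensional k W]

variable (Q : FormData k V W) (p q : ℕ)

omit [FiniteDimensional k V] [FiniteDimensional k W] in
private def c1Equiv : CAlg Q p q ≃ₗ[k]
    (k × V × (Fin p → k) × (Fin q → k) × W × (Fin p → k) × Dual k V × k) where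
  toFun x := (x.fst, x.snd.v, x.snd.z, x.snd.y, x.snd.w, x.snd.zz, x.snd.f, x.snd.c)
  invFun y := (Unitization.inl y.1 : CAlg Q p q) +
    (Unitization.inr ⟨y.2.1, y.2.2.1, y.2.2.2.1, y.2.2.2.2.1, y.2.2.2.2.2.1, y.2.2.2.2.2.2.1,
      y.2.2.2.2.2.2.2⟩ : CAlg Q p q)
  map_add' x y := by simp
  map_smul' r x := by simp
  left_inv x := by
    ext <;> simp
  right_inv y := by
    simp

/-- `CAlg Q p q ≃ k × (V × (Fin p → k) × (Fin q → k) × W × (Fin p → k) × Dual k V × k)`. -/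
instance finiteDimensional_CAlg : FiniteDimensional k (CAlg Q p q) :=
  (c1Equiv Q p q).symm.finiteDimensional

omit [FiniteDimensional k V] [FiniteDimensional k W] in
private def c1cm : ↥(cm Q p q) ≃ₗ[k]
    (V × (Fin p → k) × (Fin q → k) × W × (Fin p → k) × Dual k V × k) where
  toFun x := (x.1.snd.v, x.1.snd.z, x.1.snd.y, x.1.snd.w, x.1.snd.zz, x.1.snd.f, x.1.snd.c)
  invFun y := ⟨(Unitization.inr ⟨y.1, y.2.1, y.2.2.1, y.2.2.2.1, y.2.2.2.2.1, y.2.2.2.2.2.1,
      y.2.2.2.2.2.2⟩ : CAlg Q p q), rfl⟩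
  map_add' x y := by simp
  map_smul' r x := by simp
  left_inv x := by
    have hx : x.1.fst = 0 := x.2
    apply Subtype.ext
    ext <;> simp [hx]
  right_inv y := by
    simp

omit [FiniteDimensional k V] [FiniteDimensional k W] in
private def c1J2 : ↥(J2 Q p q) ≃ₗ[k] (W × (Fin p → k) × Dual k V × k) where
  toFun x := (x.1.snd.w, x.1.snd.zz, x.1.snd.f, x.1.snd.c)
  invFun y := ⟨(Unitization.inr ⟨0, 0, 0, y.1, y.2.1, y.2.2.1, y.2.2.2⟩ : CAlg Q p q),
    ⟨rfl, rfl, rfl, rfl⟩⟩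
  map_add' x y := by simp
  map_smul' r x := by simp
  left_inv x := by
    obtain ⟨h1, h2, h3, h4⟩ := x.2
    apply Subtype.ext
    ext <;> simp [h1, h2, h3, h4]
  right_inv y := by
    simp

omit [FiniteDimensional k V] [FiniteDimensional k W] in
private def c1J3 : ↥(J3 Q p q) ≃ₗ[k] (Dual k V × k) where
  toFun x := (x.1.snd.f, x.1.snd.c)
  invFun y := ⟨(Unitization.inr ⟨0, 0, 0, 0, 0, y.1, y.2⟩ : CAlg Q p q),
    ⟨rfl, rfl, rfl, rfl, rfl, rfl⟩⟩
  map_add' x y := by simp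
  map_smul' r x := by simp
  left_inv x := by
    obtain ⟨h1, h2, h3, h4, h5, h6⟩ := x.2
    apply Subtype.ext
    ext <;> simp [h1, h2, h3, h4, h5, h6]
  right_inv y := by
    simp

omit [FiniteDimensional k V] [FiniteDimensional k W] in
private def c1J4 : ↥(J4 Q p q) ≃ₗ[k] k where
  toFun x := x.1.snd.c
  invFun y := ⟨(Unitization.inr ⟨0, 0, 0, 0, 0, 0, y⟩ : CAlg Q p q),
    ⟨rfl, rfl, rfl, rfl, rfl, rfl, rfl⟩⟩
  map_add' x y := by simp
  map_smul' r x := by simp
  left_inv x := by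
    obtain ⟨h1, h2, h3, h4, h5, h6, h7⟩ := x.2
    apply Subtype.ext
    ext <;> simp [h1, h2, h3, h4, h5, h6, h7]
  right_inv y := by
    simp

theorem finrank_cm : finrank k ↥(cm Q p q) = 2 * finrank k V + finrank k W + 2 * p + q + 1 := by
  rw [(c1cm Q p q).finrank_eq]
  simp only [finrank_prod, finrank_fin_fun, finrank_self, Subspace.dual_finrank_eq]
  ring

theorem finrank_J2 : finrank k ↥(J2 Q p q) = finrank k V + finrank k W + p + 1 := by
  rw [(c1J2 Q p q).finrank_eq]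
  simp only [finrank_prod, finrank_fin_fun, finrank_self, Subspace.dual_finrank_eq]
  ring

theorem finrank_J3 : finrank k ↥(J3 Q p q) = finrank k V + 1 := by
  rw [(c1J3 Q p q).finrank_eq]
  simp only [finrank_prod, finrank_self, Subspace.dual_finrank_eq]

theorem finrank_J4 : finrank k ↥(J4 Q p q) = 1 := by
  rw [(c1J4 Q p q).finrank_eq, finrank_self]

end SocDeg
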