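import Pool.Agent.Lib_MP_badd8c_sd.ConsAlg

/-!
# Piece C2: products of the ideals `cm`, `J2`, `J3`, `J4` (upper bounds)
-/

namespace SocDeg

open Module

variable {k V W : Type*} [Field k] [AddCommGroup V] [Module k V] [AddCommGroup W] [Module k W]
  [FiniteDimensional k V] [FiniteDimensional k W]

variable (Q : FormData k V W) (p q : ℕ)

/-- (`Ideal.mul_le` and the multiplication formulas) -/
theorem cm_sq_le : cm Q p q * cm Q p q ≤ J2 Q p q := by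
  refine Ideal.mul_le.2 fun r hr s hs => ?_
  have hr : r.fst = 0 := hr
  have hs : s.fst = 0 := hs
  have h : (r * s).fst = 0 ∧ (r * s).snd.v = 0 ∧ (r * s).snd.z = 0 ∧ (r * s).snd.y = 0 := by
    refine ⟨?_, ?_, ?_, ?_⟩ <;> simp [hr, hs]
  exact h

theorem cm_J2_le : cm Q p q * J2 Q p q ≤ J3 Q p q := by
  refine Ideal.mul_le.2 fun r hr s hs => ?_
  have hr : r.fst = 0 := hr
  obtain ⟨h1, h2, h3, h4⟩ := hs
  have h : (r * s).fst = 0 ∧ (r * s).snd.v = 0 ∧ (r * s).snd.z = 0 ∧ (r * s).snd.y = 0 ∧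
      (r * s).snd.w = 0 ∧ (r * s).snd.zz = 0 := by
    refine ⟨?_, ?_, ?_, ?_, ?_, ?_⟩ <;> simp [hr, h1, h2, h3]
  exact h

theorem cm_J3_le : cm Q p q * J3 Q p q ≤ J4 Q p q := by
  refine Ideal.mul_le.2 fun r hr s hs => ?_
  have hr : r.fst = 0 := hr
  obtain ⟨h1, h2, h3, h4, h5, h6⟩ := hs
  have h : (r * s).fst = 0 ∧ (r * s).snd.v = 0 ∧ (r * s).snd.z = 0 ∧ (r * s).snd.y = 0 ∧
      (r * s).snd.w = 0 ∧ (r * s).snd.zz = 0 ∧ (r * s).snd.f = 0 := by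
    refine ⟨?_, ?_, ?_, ?_, ?_, ?_, ?_⟩ <;> simp [hr, h1, h2, h3, h5]
  exact h

theorem cm_J4_le : cm Q p q * J4 Q p q ≤ ⊥ := by
  refine Ideal.mul_le.2 fun r hr s hs => ?_
  have hr : r.fst = 0 := hr
  obtain ⟨h1, h2, h3, h4, h5, h6, h7⟩ := hs
  rw [Ideal.mem_bot]
  refine Unitization.ext ?_ ?_
  · simp [hr]
  · refine Nil.ext ?_ ?_ ?_ ?_ ?_ ?_ ?_ <;> simp [hr, h1, h2, h3, h4, h5, h6, h7]

/-- `V = 0`: `J3 = J4` (and `W = 0`). -/
theorem J3_eq (h : Subsingleton V) : J3 Q p q = J4 Q p q := by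
  refine le_antisymm ?_ ?_
  · rintro x ⟨h1, h2, h3, h4, h5, h6⟩
    exact ⟨h1, h2, h3, h4, h5, h6, LinearMap.ext fun v => by
      rw [Subsingleton.elim v 0, map_zero, map_zero]⟩
  · rintro x ⟨h1, h2, h3, h4, h5, h6, h7⟩
    exact ⟨h1, h2, h3, h4, h5, h6⟩

private theorem C2_subW (Q : FormData k V W) (h : Subsingleton V) : Subsingleton W := by
  have hs := Q.span
  rw [← Submodule.subsingleton_iff k, ← subsingleton_iff_bot_eq_top]
  rw [← hs, eq_comm, Submodule.span_eq_bot]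
  rintro w ⟨x, y, rfl⟩
  rw [Subsingleton.elim x 0, map_zero, LinearMap.zero_apply]

/-- `V = 0`, `p = 0`: `J2 = J4` (`W = 0` by `span`). -/
theorem J2_eq (h : Subsingleton V) : J2 Q 0 q = J4 Q 0 q := by
  have hW := C2_subW Q h
  rw [← J3_eq Q 0 q h]
  refine le_antisymm ?_ ?_
  · rintro x ⟨h1, h2, h3, h4⟩
    exact ⟨h1, h2, h3, h4, Subsingleton.elim _ _, Subsingleton.elim _ _⟩
  · rintro x ⟨h1, h2, h3, h4, h5, h6⟩
    exact ⟨h1, h2, h3, h4⟩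

theorem cm_eq (h : Subsingleton V) : cm Q 0 0 = J4 Q 0 0 := by
  rw [← J2_eq Q 0 h]
  refine le_antisymm ?_ ?_
  · intro x hx
    exact ⟨hx, Subsingleton.elim _ _, Subsingleton.elim _ _, Subsingleton.elim _ _⟩
  · rintro x ⟨h1, h2, h3, h4⟩
    exact h1

theorem J4_ne_bot : J4 Q p q ≠ ⊥ := by
  intro h
  have h1 : (Unitization.inr (⟨0, 0, 0, 0, 0, 0, 1⟩ : Nil Q p q) : CAlg Q p q) ∈ J4 Q p q :=
    ⟨rfl, rfl, rfl, rfl, rfl, rfl, rfl⟩
  rw [h, Ideal.mem_bot] at h1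
  have h2 := congrArg (fun x : CAlg Q p q => x.snd.c) h1
  exact one_ne_zero (α := k) h2

end SocDeg
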