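import Pool.Agent.Lib_MP_badd8c_sd.Num

/-! # Piece N2: the numerical lemma -/

namespace SocDeg

private theorem nl_ch (a d : ℕ) : (a + d).choose 2 = a.choose 2 + a * d + d.choose 2 := by
  induction d with
  | zero => simp
  | succ d ih =>
    have h1 : (a + (d + 1)).choose 2 = (a + d).choose 1 + (a + d).choose 2 := Nat.choose_succ_succ' _ _
    have h2 : (d + 1).choose 2 = d.choose 1 + d.choose 2 := Nat.choose_succ_succ' _ _
    rw [h1, h2, ih, Nat.choose_one_right, Nat.choose_one_right]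
    ring

/-- `∑_{i ≤ j < N} lam j ≤ C(lam i + 1, 2)` if `lam (j+1) ≤ lam j - 1`. -/
theorem tail_le {lam : ℕ → ℕ} (h : ∀ i, lam (i + 1) ≤ lam i - 1) (i N : ℕ) :
    ∑ j ∈ Finset.Ico i N, lam j ≤ (lam i + 1).choose 2 := by
  have key : ∀ n i, ∑ j ∈ Finset.Ico i (i + n), lam j ≤ (lam i + 1).choose 2 := by
    intro n
    induction n with
    | zero => intro i; simp
    | succ n ih =>
      intro i
      rw [Finset.sum_eq_sum_Ico_succ_bot (by omega), show i + (n + 1) = (i + 1) + n by ring]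
      have h1 := ih (i + 1)
      have h2 := h i
      have h3 : (lam (i + 1) + 1).choose 2 + lam i ≤ (lam i + 1).choose 2 := by
        rcases Nat.eq_zero_or_pos (lam i) with h0 | h0
        · have h4 : lam (i + 1) = 0 := by omega
          rw [h4, h0]
          simp
        · have h4 : (lam (i + 1) + 1).choose 2 ≤ (lam i).choose 2 := Nat.choose_le_choose 2 (by omega)
          have h5 : (lam i + 1).choose 2 = (lam i).choose 1 + (lam i).choose 2 := Nat.choose_succ_succ' _ _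
          rw [Nat.choose_one_right] at h5
          omega
      omega
  rcases le_total i N with h1 | h1
  · obtain ⟨n, rfl⟩ := Nat.exists_eq_add_of_le h1
    exact key n i
  · rw [Finset.Ico_eq_empty_of_le h1, Finset.sum_empty]
    exact Nat.zero_le _

private theorem nl_ge {x b p y : ℕ} (hx : x ≤ b) (hp : x ≤ (p + 1).choose 2) (hy : y + p ≤ x) : y ≤ muN b := by
  have h1 := muN_le hp
  have h2 := muN_mono hx
  omega

private theorem nl_sum (lam : ℕ → ℕ) (N : ℕ) :
    ∑ j ∈ Finset.range N, ∑ i ∈ Finset.Ico (j + 1) N, lam i = ∑ i ∈ Finset.range N, i * lam i := by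
  induction N with
  | zero => simp
  | succ N ih =>
    rw [Finset.sum_range_succ, Finset.sum_range_succ, Finset.Ico_self, Finset.sum_empty, add_zero, ← ih]
    have h1 : ∀ j ∈ Finset.range N, ∑ i ∈ Finset.Ico (j + 1) (N + 1), lam i =
        ∑ i ∈ Finset.Ico (j + 1) N, lam i + lam N := by
      intro j hj
      exact Finset.sum_Ico_succ_top (by have := Finset.mem_range.mp hj; omega) _
    rw [Finset.sum_congr rfl h1, Finset.sum_add_distrib, Finset.sum_const, Finset.card_range, smul_eq_mul]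

/-- N2.  PROOF.  `L j := ∑_{j ≤ i < N} lam i ≤ C(lam j + 1, 2)` (`tail_le`), `w = w 2`.
Step 0: `muN b ≥ L 0 + tau 2 + w`: let `X = L 0 + lam 0 + 1 + tau 2 + 2 w ≤ b`,
`p = lam 0 + 1 + w`; `X ≤ C(lam 0 + 2, 2) + w (lam 2 + 2) ≤ C(p+1, 2)`
(`lam 2 + 2 ≤ lam 0` if `lam 2 > 0`; if `lam 2 = 0` then `tau 2 = 0` and `w = 0` by `h2`), so
`muN b ≥ muN X ≥ X - p`.
Step 1: `muN (muN b) ≥ L 1 + tau 2` with `X = L 0 + tau 2 + w`, `p = lam 0 + w`.
Step j (`j ≥ 1`): `muN^[j+1] b ≥ L j + tau (j+1)` implies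
`muN^[j+2] b ≥ L (j+1) + tau (j+2)` with `p = lam j + (tau (j+1) - tau (j+2))`:
`L j + tau (j+1) ≤ C(lam j + 1,2) + (p - lam j) lam j ≤ C(p+1,2)` because
`tau (j+1) ≤ w (j+1) lam (j+1) ≤ (tau (j+1) - tau (j+2)) lam j`.
Summation over `1 ≤ j < N`: `∑_{1≤j<N} L j = ∑ i lam i`, and `sum_iterate_le`. -/
theorem NL {lam tau w : ℕ → ℕ} {N b : ℕ} (hlam : ∀ i, lam (i + 1) ≤ lam i - 1)
    (hN : ∀ i, N ≤ i → lam i = 0) (h1 : ∀ i, 2 ≤ i → tau i ≤ w i * lam i)
    (h2 : ∀ i, 2 ≤ i → tau (i + 1) + w i ≤ tau i)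
    (hb : ∑ i ∈ Finset.range N, lam i + lam 0 + 1 + tau 2 + 2 * w 2 ≤ b) :
    ∑ i ∈ Finset.range N, i * lam i + ∑ i ∈ Finset.Ico 2 N, tau i ≤ E b := by
  have hL : ∀ j, ∑ i ∈ Finset.Ico j N, lam i = lam j + ∑ i ∈ Finset.Ico (j + 1) N, lam i := by
    intro j
    rcases lt_or_ge j N with hj | hj
    · exact Finset.sum_eq_sum_Ico_succ_bot hj _
    · rw [Finset.Ico_eq_empty_of_le hj, Finset.Ico_eq_empty_of_le (by omega), hN j hj]
      simp
  have hT := fun j => tail_le hlam j N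
  have h20 : lam 2 ≤ lam 0 := by
    have h3 : lam 1 ≤ lam 0 - 1 := hlam 0
    have h4 : lam 2 ≤ lam 1 - 1 := hlam 1
    omega
  have ht2 : tau 2 ≤ w 2 * lam 0 := (h1 2 le_rfl).trans (Nat.mul_le_mul_left _ h20)
  -- Step 0
  have step0 : ∑ i ∈ Finset.Ico 0 N, lam i + tau 2 + w 2 ≤ muN b := by
    refine nl_ge (x := ∑ i ∈ Finset.Ico 0 N, lam i + lam 0 + 1 + tau 2 + 2 * w 2) (p := lam 0 + 1 + w 2)
      (by rw [← Finset.range_eq_Ico]; exact hb) ?_ (by omega)
    have h3 := hT 0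
    have h4 : (lam 0 + 1 + w 2 + 1).choose 2 = (lam 0 + 1).choose 2 + (lam 0 + 1) * (w 2 + 1) + (w 2 + 1).choose 2 := by
      rw [← nl_ch]
      ring_nf
    have h5 : (w 2 + 1).choose 2 = (w 2).choose 1 + (w 2).choose 2 := Nat.choose_succ_succ' _ _
    rw [Nat.choose_one_right] at h5
    rw [h4, h5]
    have h6 : (lam 0 + 1) * (w 2 + 1) = w 2 * lam 0 + w 2 + lam 0 + 1 := by ring
    rw [h6]
    omega
  -- Step 1
  have step1 : ∑ i ∈ Finset.Ico 1 N, lam i + tau 2 ≤ muN (muN b) := by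
    have h7 := hL 0
    rw [zero_add] at h7
    refine nl_ge (p := lam 0 + w 2) step0 ?_ (by omega)
    have h3 := hT 0
    have h4 : (lam 0 + w 2 + 1).choose 2 = (lam 0 + 1).choose 2 + (lam 0 + 1) * w 2 + (w 2).choose 2 := by
      rw [← nl_ch]
      ring_nf
    rw [h4]
    have h6 : (lam 0 + 1) * w 2 = w 2 * lam 0 + w 2 := by ring
    rw [h6]
    omega
  -- Step j
  have stepj : ∀ j, ∑ i ∈ Finset.Ico (j + 1) N, lam i + tau (j + 2) ≤ muN^[j + 2] b := by
    intro j
    induction j with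
    | zero => exact step1
    | succ j ih =>
      rw [show j + 1 + 2 = (j + 2) + 1 by ring, Function.iterate_succ_apply']
      have h7 := hL (j + 1)
      have h8 := h2 (j + 2) (by omega)
      have h9 := h1 (j + 2) (by omega)
      have h10 : lam (j + 2) ≤ lam (j + 1) := by
        have h12 : lam (j + 2) ≤ lam (j + 1) - 1 := hlam (j + 1)
        omega
      obtain ⟨D, hD⟩ : ∃ D, tau (j + 2) = tau (j + 3) + D := ⟨tau (j + 2) - tau (j + 3), by
        have : tau (j + 2 + 1) = tau (j + 3) := rfl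
        omega⟩
      have hwD : w (j + 2) ≤ D := by
        have : tau (j + 2 + 1) = tau (j + 3) := rfl
        omega
      have h11 : tau (j + 2) ≤ D * lam (j + 1) := h9.trans (Nat.mul_le_mul hwD h10)
      refine nl_ge (p := lam (j + 1) + D) ih ?_ ?_
      · have h3 := hT (j + 1)
        have h4 : (lam (j + 1) + D + 1).choose 2 =
            (lam (j + 1) + 1).choose 2 + (lam (j + 1) + 1) * D + D.choose 2 := by
          rw [← nl_ch]
          ring_nf
        rw [h4]
        have h6 : (lam (j + 1) + 1) * D = D * lam (j + 1) + D := by ring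
        rw [h6]
        omega
      · have e1 : tau (j + 2 + 1) = tau (j + 3) := rfl
        have e2 : ∑ i ∈ Finset.Ico (j + 1 + 1) N, lam i = ∑ i ∈ Finset.Ico (j + 2) N, lam i := rfl
        omega
  -- Summation
  have hsum : ∑ j ∈ Finset.range N, (∑ i ∈ Finset.Ico (j + 1) N, lam i + tau (j + 2)) ≤ E b :=
    (Finset.sum_le_sum fun j _ => stepj j).trans (sum_iterate_le b N)
  rw [Finset.sum_add_distrib, nl_sum] at hsum
  have htau : ∑ i ∈ Finset.Ico 2 N, tau i ≤ ∑ j ∈ Finset.range N, tau (j + 2) := by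
    rw [Finset.sum_Ico_eq_sum_range]
    calc ∑ k ∈ Finset.range (N - 2), tau (2 + k) = ∑ k ∈ Finset.range (N - 2), tau (k + 2) :=
          Finset.sum_congr rfl fun k _ => by rw [Nat.add_comm]
      _ ≤ ∑ j ∈ Finset.range N, tau (j + 2) :=
          Finset.sum_le_sum_of_subset (Finset.range_mono (Nat.sub_le _ _))
  omega

/-- The special case `tau = w = 0`. -/
theorem NL1 {lam : ℕ → ℕ} {N b : ℕ} (hlam : ∀ i, lam (i + 1) ≤ lam i - 1)
    (hN : ∀ i, N ≤ i → lam i = 0)
    (hb : ∑ i ∈ Finset.range N, lam i + lam 0 + 1 ≤ b) :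
    ∑ i ∈ Finset.range N, i * lam i ≤ E b := by
  have h := NL (tau := fun _ => 0) (w := fun _ => 0) hlam hN (by simp) (by simp) (by simpa using hb)
  simpa using h

end SocDeg
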