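import Pool.Agent.Lib_MP_badd8c_sd.Alg
import Pool.Agent.Lib_MP_badd8c_sd.NumNL

/-! # Core of case I -/

namespace SocDeg

open Module Filter

variable {k V W : Type*} [Field k] [Infinite k] [AddCommGroup V] [Module k V] [AddCommGroup W]
  [Module k W] [FiniteDimensional k V] [FiniteDimensional k W]

namespace FormData

variable (Q : FormData k V W)

/-- PROOF: `exists_seq` with `O m i = {x | IsMax (famU (seqU U₀ m i)) x}` (`exists_isMax`;
`seqU U₀ m i` depends only on `m j`, `j < i`). -/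
theorem exists_GenU (U₀ : Submodule k W) : ∃ m : ℕ → V, Q.GenU U₀ m := by
  have hseq : ∀ (m m' : ℕ → V) (i : ℕ), (∀ j < i, m j = m' j) →
      Q.seqU U₀ m i = Q.seqU U₀ m' i := by
    intro m m' i
    induction i with
    | zero => intro _; rfl
    | succ i ih =>
      intro h
      rw [seqU, seqU, ih fun j hj => h j (hj.trans (Nat.lt_succ_self i)), h i (Nat.lt_succ_self i)]
  obtain ⟨m, hm⟩ := exists_seq (X := V)
    (fun m i => {x | IsMax (fun y => Q.famU (Q.seqU U₀ m i) y) x})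
    (fun m m' i h => by rw [hseq m m' i h])
    (fun m i _ => exists_isMax (fun y : V => Q.famU (Q.seqU U₀ m i) y))
  exact ⟨m, hm⟩

/-- Core of case I.  PROOF.  `B := PV KK`, `H := PV P ≤ B`, `λ₀ := rk (famU (perp B) m)` (maximal).
If `λ₀ = 0`: all products lie in `perp B`, they span `W`, so `perp B = ⊤`, `B = ⊥` (`finrank_perp`),
so `z x = 0` for `z ∈ P`, `P = ⊥` (`faithful`).
Otherwise: `perp B ⊔ m V ≤ perp H` (`be (z x') (m x) = be (m z) (x x') = 0`), so by
`rk_famU_mono` and `drop_famU` every `x` has `rk (famU (perp H) x) ≤ λ₀ - 1`.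
`dim H = dim W - dim (perp H) ≤ dim W - dim (perp B ⊔ m V) = dim B - λ₀`
(`finrank_sup_mV`, `finrank_perp`).
Take a generic sequence `n` for `U₀ = perp H` (`exists_GenU`), `γ = lam U₀ n`, `N` with `γ i = 0` for
`i ≥ N` (`lam_eventually`): `γ 0 ≤ λ₀ - 1`, `∑_{i<N} γ i = dim W - dim (perp H) = dim H`
(`seqU_top`, `finrank_seqU`), `dim P ≤ ∑ (i+1) γ i` (`finrank_le_sum`, `perp_perp`).
So `∑ γ + γ 0 + 1 ≤ dim B ≤ b` and `NL1` gives `∑ i γ i ≤ E b`, `dim P ≤ dim H + E b`. -/
theorem core_I {KK P : Submodule k V} {m : V} {b : ℕ}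
    (hP : P ≤ KK) (hmP : ∀ z ∈ P, Q.mu m z = 0)
    (hm : IsMax (fun x => Q.famU (Q.perp (Q.PV KK)) x) m) (hb : finrank k (Q.PV KK) ≤ b) :
    finrank k P ≤ finrank k (Q.PV P) + E b := by
  have hHB : Q.PV P ≤ Q.PV KK := by
    rw [PV_le]
    exact fun x hx y => Q.mul_mem_PV (hP hx) y
  rcases Nat.eq_zero_or_pos (rk (Q.famU (Q.perp (Q.PV KK)) m)) with h0 | h0
  · -- all products are orthogonal to `B`
    have h1 : ∀ x y, Q.mu x y ∈ Q.perp (Q.PV KK) := by
      intro x y
      have h2 : rk (Q.famU (Q.perp (Q.PV KK)) x) ≤ rk (Q.famU (Q.perp (Q.PV KK)) m) := hm x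
      rw [h0, Nat.le_zero, rk, Submodule.finrank_eq_zero] at h2
      have h3 : Q.famU (Q.perp (Q.PV KK)) x y ∈
          LinearMap.range (Q.famU (Q.perp (Q.PV KK)) x) := ⟨y, rfl⟩
      rw [h2, Submodule.mem_bot] at h3
      have e : Q.famU (Q.perp (Q.PV KK)) x y = (Q.perp (Q.PV KK)).mkQ (Q.mu x y) := rfl
      rwa [e, Submodule.mkQ_apply, Submodule.Quotient.mk_eq_zero] at h3
    have h2 : Q.perp (Q.PV KK) = ⊤ := by
      rw [eq_top_iff, ← Q.span, Submodule.span_le]
      rintro w ⟨x, y, rfl⟩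
      exact h1 x y
    have h3 := Q.finrank_perp (Q.PV KK)
    rw [h2, finrank_top] at h3
    have h4 : finrank k (Q.PV KK) = 0 := by omega
    rw [Submodule.finrank_eq_zero] at h4
    have h5 : P = ⊥ := by
      rw [eq_bot_iff]
      intro z hz
      rw [Submodule.mem_bot]
      refine Q.faithful z fun y => ?_
      have := hHB (Q.mul_mem_PV hz y)
      rwa [h4, Submodule.mem_bot] at this
    rw [h5, finrank_bot]
    exact Nat.zero_le _
  · have hle : Q.perp (Q.PV KK) ⊔ Q.mV m ≤ Q.perp (Q.PV P) := by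
      refine sup_le (Q.perp_anti hHB) ?_
      rw [le_perp_comm, PV_le]
      rintro z hz y u ⟨w, rfl⟩
      rw [Q.symm4, hmP z hz, map_zero, LinearMap.zero_apply]
    have hr : ∀ x, rk (Q.famU (Q.perp (Q.PV P)) x) ≤
        rk (Q.famU (Q.perp (Q.PV KK)) m) - 1 := fun x =>
      (Q.rk_famU_mono hle x).trans (Q.drop_famU hm x)
    have e1 := Q.finrank_perp (Q.PV P)
    have e2 := Q.finrank_perp (Q.PV KK)
    have e3 := Q.finrank_sup_mV (Q.perp (Q.PV KK)) m
    have e4 := Submodule.finrank_mono hle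
    obtain ⟨n, hn⟩ := Q.exists_GenU (Q.perp (Q.PV P))
    obtain ⟨N, hN⟩ := Q.lam_eventually hn
    have htop := Q.seqU_top hn (hN N le_rfl)
    have e5 := Q.finrank_seqU (Q.perp (Q.PV P)) n N
    rw [htop, finrank_top] at e5
    have e6 : Q.lam (Q.perp (Q.PV P)) n 0 ≤ rk (Q.famU (Q.perp (Q.PV KK)) m) - 1 := hr (n 0)
    have e7 := NL1 (lam := Q.lam (Q.perp (Q.PV P)) n) (N := N) (b := b)
      (fun i => Q.lam_succ hn i) hN (by omega)
    have e8 := Q.finrank_le_sum htop (Z := P) (fun z hz x => by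
      rw [perp_perp]; exact Q.mul_mem_PV hz x)
    have e9 : ∑ i ∈ Finset.range N, (i + 1) * Q.lam (Q.perp (Q.PV P)) n i =
        ∑ i ∈ Finset.range N, i * Q.lam (Q.perp (Q.PV P)) n i +
          ∑ i ∈ Finset.range N, Q.lam (Q.perp (Q.PV P)) n i := by
      rw [← Finset.sum_add_distrib]
      exact Finset.sum_congr rfl fun i _ => by ring
    omega

end FormData

end SocDeg
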