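import Pool.Agent.Lib_MP_badd8c_sd.Gen

/-! # Piece G1: polynomial curves -/

namespace SocDeg

open Module Filter

variable {k : Type*} [Field k] {E E' E'' : Type*} [AddCommGroup E] [Module k E]
  [AddCommGroup E'] [Module k E'] [AddCommGroup E''] [Module k E'']

theorem PolyCurve.const (v : E) : PolyCurve (k := k) (fun _ => v) := by
  refine ⟨1, fun _ => v, fun t => ?_⟩
  simp

/-- the affine line (`n = 2`). -/
theorem PolyCurve.line (p q : E) : PolyCurve (k := k) (fun t => p + t • q) := by
  refine ⟨2, fun i => if i = 0 then p else q, fun t => ?_⟩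
  simp [Finset.sum_range_succ]

private theorem sum_trunc {n N : ℕ} (h : n ≤ N) (c : ℕ → E) (t : k) :
    ∑ i ∈ Finset.range N, t ^ i • (if i < n then c i else 0) = ∑ i ∈ Finset.range n, t ^ i • c i := by
  rw [← Finset.sum_subset (Finset.range_subset_range.2 h) (fun i _ hi => ?_)]
  · refine Finset.sum_congr rfl (fun i hi => ?_)
    rw [if_pos (Finset.mem_range.1 hi)]
  · rw [if_neg (fun h' => hi (Finset.mem_range.2 h')), smul_zero]

theorem PolyCurve.add {f g : k → E} (hf : PolyCurve f) (hg : PolyCurve g) :
    PolyCurve (fun t => f t + g t) := by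
  obtain ⟨n, c, hc⟩ := hf
  obtain ⟨m, d, hd⟩ := hg
  refine ⟨n + m, fun i => (if i < n then c i else 0) + (if i < m then d i else 0), fun t => ?_⟩
  simp only [smul_add, Finset.sum_add_distrib]
  rw [sum_trunc (Nat.le_add_right n m), sum_trunc (Nat.le_add_left m n), hc, hd]

private theorem PolyCurve.monomial (n : ℕ) (v : E) : PolyCurve (k := k) (fun t => t ^ n • v) := by
  refine ⟨n + 1, fun i => if i = n then v else 0, fun t => ?_⟩
  rw [Finset.sum_eq_single_of_mem n (Finset.mem_range.2 (Nat.lt_succ_self n))]
  · beta_reduce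
    rw [if_pos rfl]
  · intro i _ hi
    beta_reduce
    rw [if_neg hi, smul_zero]

theorem PolyCurve.sum {ι : Type*} (s : Finset ι) {f : ι → k → E} (hf : ∀ i ∈ s, PolyCurve (f i)) :
    PolyCurve (fun t => ∑ i ∈ s, f i t) := by
  classical
  induction s using Finset.induction_on with
  | empty =>
    simp only [Finset.sum_empty]
    exact PolyCurve.const 0
  | insert a s ha ih =>
    simp only [Finset.sum_insert ha]
    exact (hf a (Finset.mem_insert_self a s)).add (ih (fun i hi => hf i (Finset.mem_insert_of_mem hi)))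

theorem PolyCurve.map {f : k → E} (hf : PolyCurve f) (L : E →ₗ[k] E') :
    PolyCurve (fun t => L (f t)) := by
  obtain ⟨n, c, hc⟩ := hf
  refine ⟨n, fun i => L (c i), fun t => ?_⟩
  beta_reduce
  rw [hc, map_sum]
  simp only [map_smul]

/-- bilinear images; `smul` is the special case `LinearMap.lsmul`. -/
theorem PolyCurve.bilin {f : k → E} {g : k → E'} (hf : PolyCurve f) (hg : PolyCurve g)
    (B : E →ₗ[k] E' →ₗ[k] E'') : PolyCurve (fun t => B (f t) (g t)) := by
  obtain ⟨n, c, hc⟩ := hf
  obtain ⟨m, d, hd⟩ := hg
  have h : (fun t => B (f t) (g t)) =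
      fun t => ∑ i ∈ Finset.range n, ∑ j ∈ Finset.range m, t ^ (i + j) • B (c i) (d j) := by
    funext t
    rw [hc, hd, map_sum B, LinearMap.sum_apply]
    refine Finset.sum_congr rfl (fun i _ => ?_)
    rw [map_smul, LinearMap.smul_apply, map_sum, Finset.smul_sum]
    refine Finset.sum_congr rfl (fun j _ => ?_)
    rw [map_smul, smul_smul, pow_add]
  rw [h]
  exact PolyCurve.sum _ (fun i _ => PolyCurve.sum _ (fun j _ => PolyCurve.monomial _ _))

theorem PolyCurve.smul {f : k → k} {g : k → E} (hf : PolyCurve f) (hg : PolyCurve g) :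
    PolyCurve (fun t => f t • g t) :=
  hf.bilin hg (LinearMap.lsmul k E)

/-- A scalar curve is evaluation of a polynomial. -/
theorem PolyCurve.exists_poly {f : k → k} (hf : PolyCurve f) :
    ∃ P : Polynomial k, ∀ t, f t = P.eval t := by
  obtain ⟨n, c, hc⟩ := hf
  refine ⟨∑ i ∈ Finset.range n, Polynomial.C (c i) * Polynomial.X ^ i, fun t => ?_⟩
  rw [hc, Polynomial.eval_finsetSum]
  refine Finset.sum_congr rfl (fun i _ => ?_)
  rw [Polynomial.eval_mul, Polynomial.eval_C, Polynomial.eval_pow, Polynomial.eval_X, smul_eq_mul, mul_comm]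

theorem PolyCurve.of_poly (P : Polynomial k) : PolyCurve (fun t : k => P.eval t) := by
  refine ⟨P.natDegree + 1, fun i => P.coeff i, fun t => ?_⟩
  beta_reduce
  rw [Polynomial.eval_eq_sum_range]
  refine Finset.sum_congr rfl (fun i _ => ?_)
  rw [smul_eq_mul, mul_comm]

/-- PROOF: roots of a nonzero polynomial. -/
theorem PolyCurve.eventually_ne {f : k → k} (hf : PolyCurve f) (h0 : f 0 ≠ 0) :
    ∀ᶠ t in cofinite, f t ≠ 0 := by
  obtain ⟨P, hP⟩ := hf.exists_poly
  have hP0 : P ≠ 0 := by
    rintro rfl
    exact h0 (by rw [hP]; simp)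
  rw [Filter.eventually_cofinite]
  refine (Polynomial.finite_setOfPred_isRoot hP0).subset (fun t ht => ?_)
  have ht' : f t = 0 := not_not.1 ht
  rw [hP] at ht'
  exact ht'

/-- PROOF: `det` of the matrix over `k[X]`, `RingHom.map_det` for `Polynomial.evalRingHom t`. -/
theorem PolyCurve.det {n : Type*} [Fintype n] [DecidableEq n] {M : k → Matrix n n k}
    (hM : ∀ i j, PolyCurve (fun t => M t i j)) : PolyCurve (fun t => (M t).det) := by
  choose P hP using fun i j => (hM i j).exists_poly
  have h : (fun t => (M t).det) = fun t => (Matrix.of P).det.eval t := by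
    funext t
    have h1 := RingHom.map_det (Polynomial.evalRingHom t) (Matrix.of P)
    rw [Polynomial.coe_evalRingHom] at h1
    rw [h1]
    congr 1
    ext i j
    exact hP i j t
  rw [h]
  exact PolyCurve.of_poly _

/-- Entries of the adjugate are polynomial. -/
theorem PolyCurve.adjugate {n : Type*} [Fintype n] [DecidableEq n] {M : k → Matrix n n k}
    (hM : ∀ i j, PolyCurve (fun t => M t i j)) (i j : n) :
    PolyCurve (fun t => (M t).adjugate i j) := by
  choose P hP using fun i j => (hM i j).exists_poly
  have h : (fun t => (M t).adjugate i j) = fun t => ((Matrix.of P).adjugate i j).eval t := by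
    funext t
    have h1 := RingHom.map_adjugate (Polynomial.evalRingHom t) (Matrix.of P)
    have h2 : (Polynomial.evalRingHom t).mapMatrix (Matrix.of P) = M t := by
      ext i j
      exact (hP i j t).symm
    rw [h2] at h1
    rw [← h1]
    rfl
  rw [h]
  exact PolyCurve.of_poly _

private theorem exists_dual {n : Type*} [DecidableEq n] {v : n → E} (h : LinearIndependent k v) :
    ∃ l : n → E →ₗ[k] k, ∀ i j, l i (v j) = if i = j then 1 else 0 := by
  obtain ⟨g, hg⟩ := LinearMap.exists_leftInverse_of_injective (Finsupp.linearCombination k v)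
    (LinearMap.ker_eq_bot.2 h)
  refine ⟨fun i => (Finsupp.lapply i).comp g, fun i j => ?_⟩
  have h1 := LinearMap.congr_fun hg (Finsupp.single j 1)
  simp only [LinearMap.comp_apply, Finsupp.linearCombination_single, one_smul, LinearMap.id_apply] at h1
  simp [h1, Finsupp.single_apply, eq_comm]

private theorem indep_of_det {n : Type*} [Fintype n] [DecidableEq n] {v : n → E} {l : n → E →ₗ[k] k}
    (h : (Matrix.of fun i j => l i (v j)).det ≠ 0) : LinearIndependent k v := by
  rw [Fintype.linearIndependent_iff]
  intro a ha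
  have h1 : (Matrix.of fun i j => l i (v j)).mulVec a = 0 := by
    ext i
    have h2 := congrArg (l i) ha
    simp only [map_sum, map_smul, smul_eq_mul, map_zero] at h2
    simp only [Matrix.mulVec, dotProduct, Matrix.of_apply, Pi.zero_apply]
    rw [← h2]
    exact Finset.sum_congr rfl (fun j _ => mul_comm _ _)
  have h2 := Matrix.eq_zero_of_mulVec_eq_zero h h1
  intro i
  rw [h2]
  rfl

/-- Independence is generic.  PROOF: choose functionals `l_i` on `E` with `l_i (v_j 0) = δ_ij`
(linear independence, extend the dual basis of the span: e.g. `LinearIndependent` gives a left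
inverse of `(Fin n → k) → E`).  `det (l_i (v_j t))` is a polynomial in `t` with value `1` at `0`;
where it does not vanish the `v_j t` are independent. -/
theorem PolyCurve.linearIndependent {n : Type*} [Finite n] {v : n → k → E}
    (hv : ∀ i, PolyCurve (v i)) (h0 : LinearIndependent k (fun i => v i 0)) :
    ∀ᶠ t in cofinite, LinearIndependent k (fun i => v i t) := by
  classical
  have := Fintype.ofFinite n
  obtain ⟨l, hl⟩ := exists_dual h0
  have h1 : PolyCurve (fun t => (Matrix.of fun i j => l i (v j t)).det) :=
    PolyCurve.det (fun i j => (hv j).map (l i))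
  have h2 : (Matrix.of fun i j => l i (v j 0)).det ≠ 0 := by
    have h3 : (Matrix.of fun i j => l i (v j 0)) = 1 := by
      ext i j
      rw [Matrix.of_apply, hl, Matrix.one_apply]
    rw [h3, Matrix.det_one]
    exact one_ne_zero
  filter_upwards [h1.eventually_ne h2] with t ht
  exact indep_of_det ht

end SocDeg
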