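import Pool.Agent.Lib_MP_badd8c_sd.Num

/-!
# MP_badd8c: definitions for the final statement

For a field `k` and an ideal `I` of `R = k[[x_1,...,x_r]]` we put `A = R/I` and `m` = the image of the
maximal ideal of `R`.  All invariants are defined for a pair `(A, m)`.
-/

namespace SocDeg

open Module

section Invariants

variable (k : Type*) [Field k] {A : Type*} [CommRing A] [Algebra k A]

/-- `dim_k N/(N ∩ M)` for ideals `M`, `N` of `A`. -/
noncomputable def qdim (N M : Ideal A) : ℕ := finrank k (N ⧸ M.submoduleOf N)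

/-- The Hilbert function `h_i = dim m^i/m^(i+1)`. -/
noncomputable def hilb (m : Ideal A) (i : ℕ) : ℕ := qdim k (m ^ i) (m ^ (i + 1))

omit [Algebra k A] in
variable (A) in
/-- The ideal `((0 : m^(j+1-a-i)) ∩ m^i) + m^(i+1)` of `A`; its image in `m^i/m^(i+1)` is `C(a)_i`.
(For `a + i ≥ j + 1` the exponent is read as `0`, `m^0 = A`, and `(0 : A) = 0`.) -/
noncomputable def Cnum (m : Ideal A) (j a i : ℕ) : Ideal A :=
  (Submodule.annihilator (m ^ (j + 1 - a - i)) ⊓ m ^ i) ⊔ m ^ (i + 1)

/-- `H_A(a)_i = dim C(a)_i/C(a+1)_i`. -/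
noncomputable def symH (m : Ideal A) (j a i : ℕ) : ℕ :=
  qdim k (Cnum A m j a i) (Cnum A m j (a + 1) i)

/-- The symmetric decomposition `(H_A(0), ..., H_A(j-2))`. -/
noncomputable def symDec (m : Ideal A) (j : ℕ) : Fin (j - 1) → ℕ → ℕ :=
  fun a i => symH k m j a i

/-- `A` is a finite dimensional local Gorenstein algebra with maximal ideal `m`, residue field `k` and
socle degree `j` (working notion; no `IsLocalRing` instance needed). -/
structure IsAG (m : Ideal A) (j : ℕ) : Prop where
  fd : FiniteDimensional k A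
  res : ∀ x : A, ∃ c : k, x - algebraMap k A c ∈ m
  soc : finrank k (Submodule.annihilator m) = 1
  top : m ^ j ≠ ⊥
  nil : m ^ (j + 1) = ⊥

end Invariants

section Literal

variable (k : Type*) [Field k]

/-- The maximal ideal of `k[[x_1,...,x_r]]`. -/
noncomputable def mR (r : ℕ) : Ideal (MvPowerSeries (Fin r) k) :=
  IsLocalRing.maximalIdeal (MvPowerSeries (Fin r) k)

/-- The image of the maximal ideal in `A = k[[x_1,...,x_r]]/I`. -/
noncomputable def mI {r : ℕ} (I : Ideal (MvPowerSeries (Fin r) k)) :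
    Ideal (MvPowerSeries (Fin r) k ⧸ I) :=
  (mR k r).map (Ideal.Quotient.mk I)

/-- `A = k[[x_1,...,x_r]]/I` is an AG algebra of embedding dimension `r` and socle degree `j`:
`I ⊆ m^2`, `dim A < ∞`, the socle `(0 : m)` of `A` is one-dimensional, and `j` is the largest number with
`m^j ≠ 0` in `A`. -/
structure IsAGIdeal (r j : ℕ) (I : Ideal (MvPowerSeries (Fin r) k)) : Prop where
  le_sq : I ≤ mR k r ^ 2
  fd : FiniteDimensional k (MvPowerSeries (Fin r) k ⧸ I)
  soc : finrank k (Submodule.annihilator (mI k I)) = 1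
  top : mI k I ^ j ≠ ⊥
  nil : mI k I ^ (j + 1) = ⊥

/-- The set `S_k(r,j)` of symmetric decompositions. -/
def SymDecs (r j : ℕ) : Set (Fin (j - 1) → ℕ → ℕ) :=
  {D | ∃ I : Ideal (MvPowerSeries (Fin r) k), IsAGIdeal k r j I ∧ D = symDec k (mI k I) j}

/-- The set `H_k(r,j)` of Hilbert functions. -/
def HilbFns (r j : ℕ) : Set (ℕ → ℕ) :=
  {h | ∃ I : Ideal (MvPowerSeries (Fin r) k), IsAGIdeal k r j I ∧ h = hilb k (mI k I)}

/-- The finite sequence `L`, continued by zeros. -/
def sq (L : List ℕ) : ℕ → ℕ := fun i => L.getD i 0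

end Literal

end SocDeg
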