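import Mathlib

/-!
# Piece E3: counting the monomials
-/

namespace SocDeg

/-- monomials of degree `d` in the first `k` of `n` variables -/
private def monos (n k d : ℕ) (h : k ≤ n) : Finset (Multiset (Fin n)) :=
  (Finset.univ : Finset (Sym (Fin k) d)).image
    (fun t : Sym (Fin k) d => Multiset.map (Fin.castLE h) t.1)

private lemma card_monos (n k d : ℕ) (h : k ≤ n) :
    (monos n k d h).card = (k + d - 1).choose d := by
  unfold monos
  rw [Finset.card_image_of_injective, Finset.card_univ, Sym.card_sym_eq_choose, Fintype.card_fin]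
  intro s t hst
  apply Subtype.ext
  exact Multiset.map_injective (Fin.castLE_injective h) hst

private lemma mem_monos {n k d : ℕ} {h : k ≤ n} {s : Multiset (Fin n)} :
    s ∈ monos n k d h ↔ Multiset.card s = d ∧ ∀ i ∈ s, i.val < k := by
  unfold monos
  simp only [Finset.mem_image, Finset.mem_univ, true_and]
  constructor
  · rintro ⟨t, rfl⟩
    refine ⟨by rw [Multiset.card_map]; exact t.2, ?_⟩
    intro i hi
    rw [Multiset.mem_map] at hi
    obtain ⟨j, _, rfl⟩ := hi
    exact j.2
  · rintro ⟨h1, h2⟩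
    refine ⟨⟨s.attach.map (fun i => (⟨i.1.1, h2 i.1 i.2⟩ : Fin k)), by simp [h1]⟩, ?_⟩
    show (s.attach.map (fun i => (⟨i.1.1, h2 i.1 i.2⟩ : Fin k))).map (Fin.castLE h) = s
    rw [Multiset.map_map]
    conv_rhs => rw [← Multiset.attach_map_val s]
    apply Multiset.map_congr rfl
    intro x _
    rfl

private lemma key (n a c z : ℕ) (hn : a ≤ n) (hz : (a + 1).choose 2 + c ≤ z)
    (hz' : z ≤ (a + 2).choose 3 + (c + 1).choose 2)
    (Q2 C2 : Finset (Multiset (Fin n))) (hQc : Q2.card = c) (hCc : C2.card = (c + 1).choose 2)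
    (hQd : ∀ q ∈ Q2, ∃ i ∈ q, a ≤ i.val) (hCd : ∀ q ∈ C2, ∃ i ∈ q, a ≤ i.val)
    (hQ2 : ∀ q ∈ Q2, Multiset.card q = 2) (hC2 : ∀ q ∈ C2, Multiset.card q = 3)
    (down : ∀ m ∈ C2, ∀ q ≤ m, Multiset.card q = 2 → q ∈ Q2 ∨ ∀ i ∈ q, i.val < a)
    (cov : ∀ q ∈ Q2, ∃ m ∈ C2, q ≤ m)
    (vars : ∀ i : Fin n, i.val < a ∨ ∃ q ∈ Q2, i ∈ q) :
    ∃ Q C : Finset (Multiset (Fin n)),
      (∀ q ∈ Q, Multiset.card q = 2) ∧ (∀ c ∈ C, Multiset.card c = 3) ∧
      (∀ c ∈ C, ∀ q ≤ c, Multiset.card q = 2 → q ∈ Q) ∧ (∀ q ∈ Q, ∃ c ∈ C, q ≤ c) ∧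
      (∀ i, ∃ q ∈ Q, i ∈ q) ∧ Q.card = (a + 1).choose 2 + c ∧ C.card = z := by
  classical
  set Q := monos n a 2 hn ∪ Q2 with hQ
  set CC := monos n a 3 hn ∪ C2 with hCC
  have hQcard : Q.card = (a + 1).choose 2 + c := by
    rw [hQ, Finset.card_union_of_disjoint, card_monos, hQc]
    · rfl
    · rw [Finset.disjoint_left]
      intro q h1 h2
      obtain ⟨i, hi, hia⟩ := hQd q h2
      have := (mem_monos.1 h1).2 i hi
      omega
  have hCcard : CC.card = (a + 2).choose 3 + (c + 1).choose 2 := by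
    rw [hCC, Finset.card_union_of_disjoint, card_monos, hCc]
    · rfl
    · rw [Finset.disjoint_left]
      intro q h1 h2
      obtain ⟨i, hi, hia⟩ := hCd q h2
      have := (mem_monos.1 h1).2 i hi
      omega
  have hcov : ∀ q ∈ Q, ∃ m ∈ CC, q ≤ m := by
    intro q hq
    rcases Finset.mem_union.1 hq with h | h
    · obtain ⟨h1, h2⟩ := mem_monos.1 h
      have hpos : 0 < Multiset.card q := by omega
      obtain ⟨i, hi⟩ := Multiset.card_pos_iff_exists_mem.1 hpos
      refine ⟨i ::ₘ q, Finset.mem_union_left _ (mem_monos.2 ⟨by rw [Multiset.card_cons, h1], ?_⟩),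
        Multiset.le_cons_self q i⟩
      intro j hj
      rcases Multiset.mem_cons.1 hj with rfl | hj
      · exact h2 _ hi
      · exact h2 _ hj
    · obtain ⟨m, hm, hqm⟩ := cov q h
      exact ⟨m, Finset.mem_union_right _ hm, hqm⟩
  choose f hf1 hf2 using hcov
  set C0 : Finset (Multiset (Fin n)) := Q.attach.image (fun q => f q.1 q.2) with hC0
  have hC0sub : C0 ⊆ CC := by
    intro m hm
    obtain ⟨q, _, rfl⟩ := Finset.mem_image.1 hm
    exact hf1 q.1 q.2
  have hC0card : C0.card ≤ z := by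
    refine le_trans Finset.card_image_le ?_
    rw [Finset.card_attach, hQcard]
    exact hz
  obtain ⟨C, hC1, hC2', hC3⟩ := Finset.exists_subsuperset_card_eq hC0sub hC0card
    (by rw [hCcard]; exact hz')
  refine ⟨Q, C, ?_, ?_, ?_, ?_, ?_, hQcard, hC3⟩
  · intro q hq
    rcases Finset.mem_union.1 hq with h | h
    · exact (mem_monos.1 h).1
    · exact hQ2 q h
  · intro m hm
    rcases Finset.mem_union.1 (hC2' hm) with h | h
    · exact (mem_monos.1 h).1
    · exact hC2 m h
  · intro m hm q hqm hq2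
    rcases Finset.mem_union.1 (hC2' hm) with h | h
    · refine Finset.mem_union_left _ (mem_monos.2 ⟨hq2, ?_⟩)
      intro i hi
      exact (mem_monos.1 h).2 i (Multiset.mem_of_le hqm hi)
    · rcases down m h q hqm hq2 with h' | h'
      · exact Finset.mem_union_right _ h'
      · exact Finset.mem_union_left _ (mem_monos.2 ⟨hq2, h'⟩)
  · intro q hq
    exact ⟨f q hq, hC1 (Finset.mem_image.2 ⟨⟨q, hq⟩, Finset.mem_attach _ _, rfl⟩), hf2 q hq⟩
  · intro i
    rcases vars i with h | ⟨q, hq, hi⟩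
    · refine ⟨{i, i}, Finset.mem_union_left _ (mem_monos.2 ⟨by simp, ?_⟩), by simp⟩
      intro j hj
      have : j = i := by simpa using hj
      rw [this]
      exact h
    · exact ⟨q, Finset.mem_union_right _ hq, hi⟩

/-- `Q` = all quadratic monomials in `x_0..x_(a-1)` and `x_a x_i`, `i < c` (`n = a` variables if
`c = 0`, `n = a + 1` if `c > 0`); the cubic monomials all of whose quadratic divisors are in `Q` contain
the `C(a+2,3)` monomials in `x_0..x_(a-1)` and the `C(c+1,2)` monomials `x_a x_i x_j`, `i ≤ j < c`;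
`{i,j} ∈ Q` divides `{i,j,i}`, `{a,i}` divides `{a,i,i}`, so there is a cover with at most
`b = C(a+1,2) + c` elements, hence a covering set of any size between `b` and the maximum
(`Finset.exists_subsuperset_card_eq`).  Number of multisets: `Sym.card_sym_eq_choose`/
`Multiset.card_sym`... `(Finset.sym s n)`. -/
theorem exists_monomials (a c z : ℕ) (ha : 1 ≤ a) (hc : c ≤ a)
    (hz : (a + 1).choose 2 + c ≤ z) (hz' : z ≤ (a + 2).choose 3 + (c + 1).choose 2) :
    ∃ Q C : Finset (Multiset (Fin (a + if c = 0 then 0 else 1))),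
      (∀ q ∈ Q, Multiset.card q = 2) ∧ (∀ c ∈ C, Multiset.card c = 3) ∧
      (∀ c ∈ C, ∀ q ≤ c, Multiset.card q = 2 → q ∈ Q) ∧ (∀ q ∈ Q, ∃ c ∈ C, q ≤ c) ∧
      (∀ i, ∃ q ∈ Q, i ∈ q) ∧ Q.card = (a + 1).choose 2 + c ∧ C.card = z := by
  classical
  have main : ∀ n : ℕ, (c = 0 → n = a) → (0 < c → n = a + 1) →
      ∃ Q C : Finset (Multiset (Fin n)),
        (∀ q ∈ Q, Multiset.card q = 2) ∧ (∀ c ∈ C, Multiset.card c = 3) ∧
        (∀ c ∈ C, ∀ q ≤ c, Multiset.card q = 2 → q ∈ Q) ∧ (∀ q ∈ Q, ∃ c ∈ C, q ≤ c) ∧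
        (∀ i, ∃ q ∈ Q, i ∈ q) ∧ Q.card = (a + 1).choose 2 + c ∧ C.card = z := by
    intro n h0 h1
    rcases Nat.eq_zero_or_pos c with rfl | hc0
    · obtain rfl := h0 rfl
      refine key n n 0 z le_rfl hz hz' ∅ ∅ rfl rfl ?_ ?_ ?_ ?_ ?_ ?_ ?_
      · simp
      · simp
      · simp
      · simp
      · simp
      · simp
      · intro i
        exact Or.inl i.2
    · obtain rfl := h1 hc0
      set l : Fin (a + 1) := Fin.last a with hl
      have hca : c ≤ a + 1 := by omega
      have hcons : Function.Injective (fun m : Multiset (Fin (a + 1)) => l ::ₘ m) := by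
        intro s t hst
        exact (Multiset.cons_inj_right l).1 hst
      refine key (a + 1) a c z (Nat.le_succ a) hz hz'
        ((monos (a + 1) c 1 hca).image (fun m => l ::ₘ m))
        ((monos (a + 1) c 2 hca).image (fun m => l ::ₘ m)) ?_ ?_ ?_ ?_ ?_ ?_ ?_ ?_ ?_
      · rw [Finset.card_image_of_injective _ hcons, card_monos]
        simp
      · rw [Finset.card_image_of_injective _ hcons, card_monos]
        rfl
      · intro q hq
        obtain ⟨m, _, rfl⟩ := Finset.mem_image.1 hq
        exact ⟨l, Multiset.mem_cons_self l m, le_rfl⟩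
      · intro q hq
        obtain ⟨m, _, rfl⟩ := Finset.mem_image.1 hq
        exact ⟨l, Multiset.mem_cons_self l m, le_rfl⟩
      · intro q hq
        obtain ⟨m, hm, rfl⟩ := Finset.mem_image.1 hq
        rw [Multiset.card_cons, (mem_monos.1 hm).1]
      · intro q hq
        obtain ⟨m, hm, rfl⟩ := Finset.mem_image.1 hq
        rw [Multiset.card_cons, (mem_monos.1 hm).1]
      · intro m' hm' q hqm hq2
        obtain ⟨m, hm, rfl⟩ := Finset.mem_image.1 hm'
        obtain ⟨hm2, hmc⟩ := mem_monos.1 hm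
        by_cases hlq : l ∈ q
        · left
          refine Finset.mem_image.2 ⟨q.erase l, mem_monos.2 ⟨?_, ?_⟩, Multiset.cons_erase hlq⟩
          · rw [Multiset.card_erase_of_mem hlq, hq2]
            rfl
          · intro i hi
            have hle : q.erase l ≤ m := Multiset.erase_le_iff_le_cons.2 hqm
            exact hmc i (Multiset.mem_of_le hle hi)
        · right
          have hle : q ≤ m := (Multiset.le_cons_of_notMem hlq).1 hqm
          intro i hi
          exact lt_of_lt_of_le (hmc i (Multiset.mem_of_le hle hi)) hc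
      · intro q hq
        obtain ⟨m, hm, rfl⟩ := Finset.mem_image.1 hq
        obtain ⟨hm1, hmc⟩ := mem_monos.1 hm
        have hpos : 0 < Multiset.card m := by omega
        obtain ⟨i, hi⟩ := Multiset.card_pos_iff_exists_mem.1 hpos
        refine ⟨l ::ₘ (i ::ₘ m), Finset.mem_image.2 ⟨i ::ₘ m, mem_monos.2
          ⟨by rw [Multiset.card_cons, hm1], ?_⟩, rfl⟩,
          Multiset.cons_le_cons l (Multiset.le_cons_self m i)⟩
        intro j hj
        rcases Multiset.mem_cons.1 hj with rfl | hj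
        · exact hmc _ hi
        · exact hmc _ hj
      · intro i
        by_cases hi : i.val < a
        · exact Or.inl hi
        · right
          have hil : i = l := by
            apply Fin.ext
            have := i.2
            show i.val = a
            omega
          refine ⟨l ::ₘ {(⟨0, by omega⟩ : Fin (a + 1))}, Finset.mem_image.2
            ⟨_, mem_monos.2 ⟨by simp, ?_⟩, rfl⟩, ?_⟩
          · intro j hj
            have : j = (⟨0, by omega⟩ : Fin (a + 1)) := by simpa using hj
            rw [this]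
            exact hc0
          · exact Multiset.mem_cons.2 (Or.inl hil)
  apply main
  · intro h
    simp [h]
  · intro h
    simp [h.ne']

end SocDeg
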