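import Mathlib

/-! # Piece N1: the function E -/

namespace SocDeg

/-- The largest `a` with `a(a+1)/2 ≤ b`. -/
def tri (b : ℕ) : ℕ := Nat.findGreatest (fun a => (a + 1).choose 2 ≤ b) b

/-- `E(b) = C(a,3) + C(c-1,2)` for `b = C(a+1,2) + c`, `0 ≤ c ≤ a` (`C(-1,2) = 0`). -/
def E (b : ℕ) : ℕ := (tri b).choose 3 + (b - (tri b + 1).choose 2 - 1).choose 2

/-- `b` minus the least `p` with `b ≤ p(p+1)/2`. -/
noncomputable def muN (b : ℕ) : ℕ := b - sInf {p : ℕ | b ≤ (p + 1).choose 2}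

/-! ### N1 -/

private theorem ch2 (a : ℕ) : (a + 1).choose 2 = a + a.choose 2 := by
  rw [Nat.choose_succ_succ' a 1, Nat.choose_one_right]

theorem tri_spec {a c : ℕ} (hc : c ≤ a) : tri ((a + 1).choose 2 + c) = a := by
  rw [tri, Nat.findGreatest_eq_iff]
  refine ⟨?_, fun _ => Nat.le_add_right _ _, ?_⟩
  · have := ch2 a
    omega
  · intro n hn _ hP
    have h1 : (a + 1 + 1).choose 2 ≤ (n + 1).choose 2 :=
      Nat.choose_le_choose 2 (by omega)
    have h2 := ch2 (a + 1)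
    omega

theorem exists_tri (b : ℕ) : ∃ a c, c ≤ a ∧ b = (a + 1).choose 2 + c := by
  induction b with
  | zero => exact ⟨0, 0, le_rfl, rfl⟩
  | succ b ih =>
    obtain ⟨a, c, hc, hb⟩ := ih
    rcases Nat.lt_or_ge c a with h | h
    · exact ⟨a, c + 1, h, by omega⟩
    · refine ⟨a + 1, 0, Nat.zero_le _, ?_⟩
      have := ch2 (a + 1)
      omega

theorem E_eq {a c : ℕ} (hc : c ≤ a) :
    E ((a + 1).choose 2 + c) = a.choose 3 + (c - 1).choose 2 := by
  rw [E, tri_spec hc, Nat.add_sub_cancel_left]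

private theorem sInf_eq {b p : ℕ} (h1 : b ≤ (p + 1).choose 2)
    (h2 : ∀ q < p, (q + 1).choose 2 < b) : sInf {p : ℕ | b ≤ (p + 1).choose 2} = p := by
  refine le_antisymm (Nat.sInf_le h1) (not_lt.1 fun hlt => ?_)
  have h3 : sInf {p : ℕ | b ≤ (p + 1).choose 2} ∈ {p : ℕ | b ≤ (p + 1).choose 2} :=
    Nat.sInf_mem ⟨p, h1⟩
  exact absurd h3 (not_le.2 (h2 _ hlt))

/-- `muN (C(a+1,2) + c) = C(a,2) + (c - 1)` for `0 ≤ c ≤ a + 1`. -/
theorem muN_eq {a c : ℕ} (hc : c ≤ a + 1) :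
    muN ((a + 1).choose 2 + c) = a.choose 2 + (c - 1) := by
  have h0 := ch2 a
  rcases Nat.eq_zero_or_pos c with h | h
  · subst h
    rw [muN, Nat.add_zero, sInf_eq (p := a) le_rfl]
    · omega
    · intro q hq
      have h1 : (q + 1).choose 2 ≤ a.choose 2 := Nat.choose_le_choose 2 (by omega)
      omega
  · have h4 := ch2 (a + 1)
    rw [muN, sInf_eq (p := a + 1)]
    · omega
    · omega
    · intro q hq
      have h1 : (q + 1).choose 2 ≤ (a + 1).choose 2 := Nat.choose_le_choose 2 (by omega)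
      omega

theorem muN_mono {x y : ℕ} (h : x ≤ y) : muN x ≤ muN y := by
  have h1 : Monotone muN := by
    refine monotone_nat_of_le_succ fun b => ?_
    obtain ⟨a, c, hc, rfl⟩ := exists_tri b
    rw [Nat.add_assoc, muN_eq (by omega : c ≤ a + 1), muN_eq (by omega : c + 1 ≤ a + 1)]
    omega
  exact h1 h

theorem muN_le {b p : ℕ} (h : b ≤ (p + 1).choose 2) : b - p ≤ muN b := by
  have h1 : sInf {p : ℕ | b ≤ (p + 1).choose 2} ≤ p := Nat.sInf_le h
  rw [muN]
  omega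

/-- `E b = muN (muN b) + E (muN b)`.  PROOF: with `b = C(a+1,2)+c`, `c ≤ a`: for `a ≥ 1`
`muN b = C(a,2) + (c-1)`, `(c - 1) ≤ a - 1`, `E (muN b) = C(a-1,3) + C(c-2,2)`,
`muN (muN b) = C(a-1,2) + (c-2)`; add. -/
theorem E_rec (b : ℕ) : E b = muN (muN b) + E (muN b) := by
  obtain ⟨a, c, hc, rfl⟩ := exists_tri b
  rcases Nat.eq_zero_or_pos a with h | h
  · subst h
    obtain rfl : c = 0 := by omega
    have h1 : muN ((0 + 1).choose 2 + 0) = 0 := muN_eq (by omega)
    rw [h1]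
    have h2 : muN 0 = 0 := h1
    rw [h2]
    rfl
  · obtain ⟨d, rfl⟩ : ∃ d, a = d + 1 := ⟨a - 1, by omega⟩
    rw [muN_eq (by omega : c ≤ d + 1 + 1), muN_eq (by omega : c - 1 ≤ d + 1),
      E_eq (by omega : c - 1 ≤ d), E_eq hc, Nat.choose_succ_succ' d 2]
    rcases Nat.lt_or_ge c 2 with h2 | h2
    · have e1 : c - 1 = 0 := by omega
      rw [e1]
      simp
    · obtain ⟨e, rfl⟩ : ∃ e, c = e + 2 := ⟨c - 2, by omega⟩
      have e1 : e + 2 - 1 = e + 1 := rfl
      have e2 : (2 + 1 : ℕ) = 3 := rfl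
      rw [e1, Nat.add_sub_cancel, ch2 e, e2]
      omega

/-- `∑_{2 ≤ j ≤ n} muN^j b ≤ E b`. -/
theorem sum_iterate_le (b n : ℕ) : ∑ j ∈ Finset.range n, muN^[j + 2] b ≤ E b := by
  induction n generalizing b with
  | zero => simp
  | succ n ih =>
    rw [Finset.sum_range_succ', E_rec b]
    have h1 := ih (muN b)
    have h2 : ∑ j ∈ Finset.range n, muN^[j + 1 + 2] b =
        ∑ j ∈ Finset.range n, muN^[j + 2] (muN b) := by
      refine Finset.sum_congr rfl fun j _ => ?_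
      rw [← Function.iterate_succ_apply]
    rw [h2]
    have h3 : muN^[0 + 2] b = muN (muN b) := rfl
    rw [h3]
    omega

theorem E_mono {x y : ℕ} (h : x ≤ y) : E x ≤ E y := by
  have h1 : Monotone E := by
    refine monotone_nat_of_le_succ fun b => ?_
    obtain ⟨a, c, hc, rfl⟩ := exists_tri b
    rw [E_eq hc]
    rcases Nat.lt_or_ge c a with h | h
    · rw [Nat.add_assoc, E_eq (by omega : c + 1 ≤ a)]
      exact Nat.add_le_add_left (Nat.choose_le_choose 2 (by omega)) _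
    · have e : (a + 1).choose 2 + c + 1 = (a + 1 + 1).choose 2 + 0 := by
        have := ch2 (a + 1)
        omega
      rw [e, E_eq (Nat.zero_le _), Nat.choose_succ_succ' a 2]
      have h2 : (c - 1).choose 2 ≤ a.choose 2 := Nat.choose_le_choose 2 (by omega)
      have e2 : (2 + 1 : ℕ) = 3 := rfl
      rw [e2]
      omega
  exact h1 h

end SocDeg
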