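import Pool.Agent.Lib_MP_badd8c_sd.ExistMono
import Pool.Agent.Lib_MP_badd8c_sd.ExistCount
import Pool.Agent.Lib_MP_badd8c_sd.Num

/-!
# Piece E4: form data with `t < s ≤ t + E(t/2)`
-/

namespace SocDeg

open Module

/-- transport by dimensions -/
private theorem form_of_finrank {k V W : Type*} [Field k] [AddCommGroup V] [Module k V]
    [AddCommGroup W] [Module k W] [FiniteDimensional k V] [FiniteDimensional k W] {s t : ℕ}
    (Q : FormData k V W) (hV : finrank k V = s) (hW : finrank k W = t) :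
    Nonempty (FormData k (Fin s → k) (Fin t → k)) :=
  Q.congr (LinearEquiv.ofFinrankEq V (Fin s → k) (by rw [hV, Module.finrank_fin_fun]))
    (LinearEquiv.ofFinrankEq W (Fin t → k) (by rw [hW, Module.finrank_fin_fun]))

/-- `V = k^n × (k^C)*`, `W = k^Q × (k^Q)*` from `exists_monomials`, `exists_triv`, `TrivData.form`,
transported by `FormData.congr`: `dim V = n + z`, `dim W = 2 ((a+1).choose 2 + c)`. -/
theorem exists_form_even {k : Type*} [Field k] {a c z : ℕ} (ha : 1 ≤ a) (hc : c ≤ a)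
    (hz : (a + 1).choose 2 + c ≤ z) (hz' : z ≤ (a + 2).choose 3 + (c + 1).choose 2) :
    Nonempty (FormData k (Fin (a + (if c = 0 then 0 else 1) + z) → k)
      (Fin (2 * ((a + 1).choose 2 + c)) → k)) := by
  obtain ⟨Q, C, hQ, hC, hdiv, hcov, hvar, hQc, hCc⟩ := exists_monomials a c z ha hc hz hz'
  obtain ⟨T⟩ := exists_triv (k := k) Q C hQ hC hdiv hcov hvar
  obtain ⟨F⟩ := T.form
  refine form_of_finrank F ?_ ?_
  · rw [Module.finrank_prod, Subspace.dual_finrank_eq, Module.finrank_fin_fun,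
      Module.finrank_fintype_fun_eq_card, Fintype.card_coe, hCc]
  · rw [Module.finrank_prod, Subspace.dual_finrank_eq, Module.finrank_fintype_fun_eq_card,
      Fintype.card_coe, hQc]
    ring

private theorem c2 (a : ℕ) : (a + 1).choose 2 = a + a.choose 2 := by
  rw [Nat.choose_succ_succ' a 1, Nat.choose_one_right]

private theorem c3 (a : ℕ) : (a + 2).choose 3 = a.choose 3 + 2 * a.choose 2 + a := by
  have h1 : (a + 2).choose 3 = (a + 1).choose 2 + (a + 1).choose 3 :=
    Nat.choose_succ_succ' (a + 1) 2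
  have h2 : (a + 1).choose 3 = a.choose 2 + a.choose 3 := Nat.choose_succ_succ' a 2
  have h3 := c2 a
  omega

/-- NUMERICS: write `t / 2 = C(a+1,2) + c`, `c ≤ a` (`exists_tri`), so `E (t/2) = C(a,3) + C(c-1,2)`
(`E_eq`); `n = a + [c > 0]`, `z = s - (t mod 2) - n`.  Because `t < s`: `E ≥ 1`, so `a ≥ 1`, and
`z ≥ 2b + 1 - n ≥ b` for `b = t/2` (`b + 1 ≥ n`); `z ≤ 2b + E(b) - n = C(a+2,3) + C(c+1,2)`
(`C(a+2,3) = C(a,3) + 2 C(a,2) + a`, `C(c+1,2) = C(c-1,2) + 2c - 1` for `c ≥ 1`).
For odd `t` add a point (`FormData.addPoint`). -/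
theorem exists_form_lt {k : Type*} [Field k] {s t : ℕ} (h1 : t < s) (h2 : s ≤ t + E (t / 2)) :
    Nonempty (FormData k (Fin s → k) (Fin t → k)) := by
  obtain ⟨a, c, hc, hb⟩ := exists_tri (t / 2)
  have hE : E (t / 2) = a.choose 3 + (c - 1).choose 2 := by rw [hb, E_eq hc]
  have ha : 1 ≤ a := by
    rcases Nat.eq_zero_or_pos a with h | h
    · subst h
      obtain rfl : c = 0 := by omega
      have h3 : (0 : ℕ).choose 3 + (0 - 1).choose 2 = 0 := rfl
      omega
    · exact h
  have e2 := c2 a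
  have e3 := c3 a
  obtain ⟨n, hn⟩ : ∃ n, n = a + (if c = 0 then 0 else 1) := ⟨_, rfl⟩
  have key : n ≤ t / 2 ∧ n ≤ s - t % 2 ∧ (a + 1).choose 2 + c ≤ s - t % 2 - n ∧
      s - t % 2 - n ≤ (a + 2).choose 3 + (c + 1).choose 2 := by
    rcases Nat.eq_zero_or_pos c with h | h
    · subst h
      have h4 : ((0 : ℕ) - 1).choose 2 = 0 := rfl
      have h5 : ((0 : ℕ) + 1).choose 2 = 0 := rfl
      rw [if_pos rfl] at hn
      rw [h4] at hE
      rw [h5]
      omega
    · obtain ⟨d, rfl⟩ : ∃ d, c = d + 1 := ⟨c - 1, by omega⟩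
      have e4 := c2 (d + 1)
      have e5 := c2 d
      rw [if_neg (by omega)] at hn
      rw [Nat.add_sub_cancel] at hE
      omega
  obtain ⟨k1, k2, k3, k4⟩ := key
  obtain ⟨F⟩ := exists_form_even (k := k) ha hc k3 k4
  rw [← hn] at F
  rcases Nat.mod_two_eq_zero_or_one t with h | h
  · refine form_of_finrank F ?_ ?_
    · rw [Module.finrank_fin_fun]
      omega
    · rw [Module.finrank_fin_fun]
      omega
  · obtain ⟨F'⟩ := F.addPoint
    refine form_of_finrank F' ?_ ?_
    · rw [Module.finrank_prod, Module.finrank_fin_fun, Module.finrank_self]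
      omega
    · rw [Module.finrank_prod, Module.finrank_fin_fun, Module.finrank_self]
      omega

end SocDeg
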