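import Pool.Agent.Lib_MP_badd8c_sd.ExistA
import Pool.Agent.Lib_MP_badd8c_sd.ExistB

/-!
# Existence of form data for all admissible `(s,t)`
-/

namespace SocDeg

theorem exists_form {k : Type*} [Field k] [Infinite k] {s t : ℕ} (h1 : t ≤ (s + 1).choose 2)
    (h2 : s ≤ t + E (t / 2)) : Nonempty (FormData k (Fin s → k) (Fin t → k)) := by
  rcases Nat.lt_or_ge t s with h | h
  · exact exists_form_lt h h2
  · exact exists_form_ge h h1

end SocDeg
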