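import Pool.Agent.Lib_MP_badd8c_sd.FormIso

/-!
# Piece E5: form data with `s ≤ t`
-/

namespace SocDeg

open Module

/-- the multiplication -/
private def geMu {k : Type*} [Field k] {s : ℕ} {ι : Type} (lo hi : ι → Fin s) :
    (Fin s → k) →ₗ[k] (Fin s → k) →ₗ[k] ((Fin s → k) × (ι → k)) :=
  LinearMap.mk₂ k (fun x y => (fun i => x i * y i, fun p => x (lo p) * y (hi p) + x (hi p) * y (lo p)))
    (by
      intro x x' y
      ext i
      · simp [add_mul]
      · simp only [Pi.add_apply, Prod.snd_add]
        ring)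
    (by
      intro c x y
      ext i
      · simp [mul_assoc]
      · simp only [Pi.smul_apply, smul_eq_mul, Prod.smul_snd]
        ring)
    (by
      intro x y y'
      ext i
      · simp [mul_add]
      · simp only [Pi.add_apply, Prod.snd_add]
        ring)
    (by
      intro c x y
      ext i
      · simp only [Pi.smul_apply, smul_eq_mul, Prod.smul_fst]
        ring
      · simp only [Pi.smul_apply, smul_eq_mul, Prod.smul_snd]
        ring)

/-- the pairing -/
private def geBe {k : Type*} [Field k] {s : ℕ} {ι : Type} [Fintype ι] (lo hi : ι → Fin s) (c : k) :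
    ((Fin s → k) × (ι → k)) →ₗ[k] ((Fin s → k) × (ι → k)) →ₗ[k] k :=
  LinearMap.mk₂ k (fun u v => c * ∑ i, u.1 i * v.1 i +
      ∑ p, (u.1 (lo p) * v.1 (hi p) + u.1 (hi p) * v.1 (lo p)) + ∑ p, u.2 p * v.2 p)
    (by
      intro u u' v
      have h1 : ∑ i, (u + u').1 i * v.1 i = ∑ i, u.1 i * v.1 i + ∑ i, u'.1 i * v.1 i := by
        rw [← Finset.sum_add_distrib]
        exact Finset.sum_congr rfl fun i _ => by simp [add_mul]
      have h2 : ∑ p, ((u + u').1 (lo p) * v.1 (hi p) + (u + u').1 (hi p) * v.1 (lo p)) =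
          ∑ p, (u.1 (lo p) * v.1 (hi p) + u.1 (hi p) * v.1 (lo p)) +
          ∑ p, (u'.1 (lo p) * v.1 (hi p) + u'.1 (hi p) * v.1 (lo p)) := by
        rw [← Finset.sum_add_distrib]
        exact Finset.sum_congr rfl fun i _ => by simp only [Prod.fst_add, Pi.add_apply]; ring
      have h3 : ∑ p, (u + u').2 p * v.2 p = ∑ p, u.2 p * v.2 p + ∑ p, u'.2 p * v.2 p := by
        rw [← Finset.sum_add_distrib]
        exact Finset.sum_congr rfl fun i _ => by simp [add_mul]
      rw [h1, h2, h3]
      ring)
    (by
      intro a u v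
      have h1 : ∑ i, (a • u).1 i * v.1 i = a * ∑ i, u.1 i * v.1 i := by
        rw [Finset.mul_sum]
        exact Finset.sum_congr rfl fun i _ => by simp [mul_assoc]
      have h2 : ∑ p, ((a • u).1 (lo p) * v.1 (hi p) + (a • u).1 (hi p) * v.1 (lo p)) =
          a * ∑ p, (u.1 (lo p) * v.1 (hi p) + u.1 (hi p) * v.1 (lo p)) := by
        rw [Finset.mul_sum]
        exact Finset.sum_congr rfl fun i _ => by
          simp only [Prod.smul_fst, Pi.smul_apply, smul_eq_mul]; ring
      have h3 : ∑ p, (a • u).2 p * v.2 p = a * ∑ p, u.2 p * v.2 p := by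
        rw [Finset.mul_sum]
        exact Finset.sum_congr rfl fun i _ => by simp [mul_assoc]
      rw [h1, h2, h3, smul_eq_mul]
      ring)
    (by
      intro v u u'
      have h1 : ∑ i, v.1 i * (u + u').1 i = ∑ i, v.1 i * u.1 i + ∑ i, v.1 i * u'.1 i := by
        rw [← Finset.sum_add_distrib]
        exact Finset.sum_congr rfl fun i _ => by simp [mul_add]
      have h2 : ∑ p, (v.1 (lo p) * (u + u').1 (hi p) + v.1 (hi p) * (u + u').1 (lo p)) =
          ∑ p, (v.1 (lo p) * u.1 (hi p) + v.1 (hi p) * u.1 (lo p)) +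
          ∑ p, (v.1 (lo p) * u'.1 (hi p) + v.1 (hi p) * u'.1 (lo p)) := by
        rw [← Finset.sum_add_distrib]
        exact Finset.sum_congr rfl fun i _ => by simp only [Prod.fst_add, Pi.add_apply]; ring
      have h3 : ∑ p, v.2 p * (u + u').2 p = ∑ p, v.2 p * u.2 p + ∑ p, v.2 p * u'.2 p := by
        rw [← Finset.sum_add_distrib]
        exact Finset.sum_congr rfl fun i _ => by simp [mul_add]
      rw [h1, h2, h3]
      ring)
    (by
      intro a v u
      have h1 : ∑ i, v.1 i * (a • u).1 i = a * ∑ i, v.1 i * u.1 i := by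
        rw [Finset.mul_sum]
        exact Finset.sum_congr rfl fun i _ => by
          simp only [Prod.smul_fst, Pi.smul_apply, smul_eq_mul]; ring
      have h2 : ∑ p, (v.1 (lo p) * (a • u).1 (hi p) + v.1 (hi p) * (a • u).1 (lo p)) =
          a * ∑ p, (v.1 (lo p) * u.1 (hi p) + v.1 (hi p) * u.1 (lo p)) := by
        rw [Finset.mul_sum]
        exact Finset.sum_congr rfl fun i _ => by
          simp only [Prod.smul_fst, Pi.smul_apply, smul_eq_mul]; ring
      have h3 : ∑ p, v.2 p * (a • u).2 p = a * ∑ p, v.2 p * u.2 p := by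
        rw [Finset.mul_sum]
        exact Finset.sum_congr rfl fun i _ => by
          simp only [Prod.smul_snd, Pi.smul_apply, smul_eq_mul]; ring
      rw [h1, h2, h3, smul_eq_mul]
      ring)

/-- the adjacency operator -/
private def geAdj {k : Type*} [Field k] {s : ℕ} {ι : Type} [Fintype ι] (lo hi : ι → Fin s) :
    (Fin s → k) →ₗ[k] (Fin s → k) where
  toFun u i := ∑ p, (u (lo p) * (if hi p = i then 1 else 0) + u (hi p) * (if lo p = i then 1 else 0))
  map_add' := by
    intro u v
    ext i
    rw [Pi.add_apply, ← Finset.sum_add_distrib]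
    exact Finset.sum_congr rfl fun p _ => by simp only [Pi.add_apply]; ring
  map_smul' := by
    intro a u
    ext i
    rw [Pi.smul_apply, smul_eq_mul, RingHom.id_apply, Finset.mul_sum]
    exact Finset.sum_congr rfl fun p _ => by simp only [Pi.smul_apply, smul_eq_mul]; ring

private theorem geForm {k : Type*} [Field k] [Infinite k] {s : ℕ} {ι : Type} [Fintype ι]
    [DecidableEq ι] (lo hi : ι → Fin s) (hlt : ∀ p, lo p < hi p)
    (hinj : ∀ p q, lo p = lo q → hi p = hi q → p = q) :
    Nonempty (FormData k (Fin s → k) ((Fin s → k) × (ι → k))) := by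
  classical
  obtain ⟨c, hc⟩ : ∃ c : k, ¬ Module.End.HasEigenvalue (-(geAdj (k := k) lo hi)) c :=
    (Set.Finite.infinite_compl (Module.End.finite_hasEigenvalue (-(geAdj (k := k) lo hi)))).nonempty
  have hbe : ∀ u v : (Fin s → k) × (ι → k), geBe lo hi c u v = c * ∑ i, u.1 i * v.1 i +
      ∑ p, (u.1 (lo p) * v.1 (hi p) + u.1 (hi p) * v.1 (lo p)) + ∑ p, u.2 p * v.2 p := fun u v => rfl
  have hmu1 : ∀ x y : Fin s → k, ∀ i, (geMu lo hi x y).1 i = x i * y i := fun x y i => rfl
  have hmu2 : ∀ x y : Fin s → k, ∀ p, (geMu lo hi x y).2 p = x (lo p) * y (hi p) + x (hi p) * y (lo p) :=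
    fun x y i => rfl
  refine ⟨{
    mu := geMu lo hi
    be := geBe lo hi c
    mu_comm := ?_
    be_comm := ?_
    nondeg := ?_
    symm4 := ?_
    span := ?_
    faithful := ?_ }⟩
  · intro x y
    ext i
    · rw [hmu1, hmu1, mul_comm]
    · rw [hmu2, hmu2]
      ring
  · intro u v
    rw [hbe, hbe]
    congr 1
    · congr 1
      · congr 1
        exact Finset.sum_congr rfl fun i _ => mul_comm _ _
      · exact Finset.sum_congr rfl fun p _ => by ring
    · exact Finset.sum_congr rfl fun p _ => mul_comm _ _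
  · rintro ⟨u, g⟩ h
    have hg : g = 0 := by
      ext p
      have h1 := h (0, Pi.single p 1)
      rw [hbe] at h1
      simpa [Pi.single_apply] using h1
    have hu : c • u + geAdj lo hi u = 0 := by
      ext i
      have h1 := h (Pi.single i 1, 0)
      rw [hbe] at h1
      simp only [Pi.single_apply, mul_ite, mul_one, mul_zero, Finset.sum_ite_eq', Finset.mem_univ,
        if_true, Pi.zero_apply, Finset.sum_const_zero, add_zero, Finset.sum_ite_eq] at h1
      rw [Pi.add_apply, Pi.smul_apply, smul_eq_mul, Pi.zero_apply, ← h1]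
      congr 1
      show ∑ p, (u (lo p) * (if hi p = i then 1 else 0) + u (hi p) * (if lo p = i then 1 else 0)) = _
      exact Finset.sum_congr rfl fun p _ => by simp only [mul_ite, mul_one, mul_zero]
    have hu0 : u = 0 := by
      by_contra hne
      apply hc
      refine Module.End.hasEigenvalue_of_hasEigenvector (x := u) ⟨?_, hne⟩
      rw [Module.End.mem_eigenspace_iff, LinearMap.neg_apply]
      exact (eq_neg_of_add_eq_zero_left hu).symm
    rw [hg, hu0]
    rfl
  · intro x y z w
    rw [hbe, hbe]
    simp only [hmu1, hmu2]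
    rw [add_assoc, add_assoc, ← Finset.sum_add_distrib, ← Finset.sum_add_distrib]
    congr 1
    · congr 1
      exact Finset.sum_congr rfl fun i _ => by ring
    · exact Finset.sum_congr rfl fun p _ => by ring
  · have h1 : ∀ i : Fin s, ((Pi.single i 1, 0) : (Fin s → k) × (ι → k)) ∈
        Submodule.span k {w | ∃ x y, w = geMu lo hi x y} := by
      intro i
      refine Submodule.subset_span ⟨Pi.single i 1, Pi.single i 1, ?_⟩
      ext j
      · rw [hmu1]
        by_cases hj : j = i
        · subst hj
          simp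
        · simp [Pi.single_apply, hj]
      · rw [hmu2]
        have h2 := (hlt j).ne
        by_cases hj : lo j = i
        · have h3 : hi j ≠ i := fun h => h2 (hj.trans h.symm)
          simp [Pi.single_apply, h3]
        · simp [Pi.single_apply, hj]
    have h2 : ∀ p : ι, ((0, Pi.single p 1) : (Fin s → k) × (ι → k)) ∈
        Submodule.span k {w | ∃ x y, w = geMu lo hi x y} := by
      intro p
      refine Submodule.subset_span ⟨Pi.single (lo p) 1, Pi.single (hi p) 1, ?_⟩
      ext j
      · rw [hmu1]
        by_cases hj : j = lo p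
        · have h3 : j ≠ hi p := fun h => (hlt p).ne (hj.symm.trans h)
          simp [Pi.single_apply, h3]
        · simp [Pi.single_apply, hj]
      · rw [hmu2]
        by_cases hj : j = p
        · subst hj
          simp [Pi.single_apply, (hlt j).ne]
        · have h3 : ¬ (lo j = lo p ∧ hi j = hi p) := fun h => hj (hinj j p h.1 h.2)
          have h4 : ¬ (hi j = lo p ∧ lo j = hi p) := by
            rintro ⟨h5, h6⟩
            have h7 := hlt j
            have h8 := hlt p
            rw [h5, h6] at h7
            exact lt_asymm h7 h8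
          have h5 : (Pi.single (lo p) (1 : k) : Fin s → k) (lo j) * (Pi.single (hi p) (1 : k) : Fin s → k) (hi j) = 0 := by
            by_cases h6 : lo j = lo p
            · have h7 : hi j ≠ hi p := fun h => h3 ⟨h6, h⟩
              simp [Pi.single_apply, h7]
            · simp [Pi.single_apply, h6]
          have h6 : (Pi.single (lo p) (1 : k) : Fin s → k) (hi j) * (Pi.single (hi p) (1 : k) : Fin s → k) (lo j) = 0 := by
            by_cases h6 : hi j = lo p
            · have h7 : lo j ≠ hi p := fun h => h4 ⟨h6, h⟩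
              simp [Pi.single_apply, h7]
            · simp [Pi.single_apply, h6]
          rw [h5, h6]
          simp [Pi.single_apply, hj]
    rw [eq_top_iff]
    rintro ⟨u, g⟩ -
    have h3 : ((u, g) : (Fin s → k) × (ι → k)) = ∑ i, u i • (Pi.single i 1, 0) + ∑ p, g p • (0, Pi.single p 1) := by
      ext j
      · simp [Prod.fst_sum, Pi.single_apply, Finset.sum_apply]
      · simp [Prod.snd_sum, Pi.single_apply, Finset.sum_apply]
    rw [h3]
    exact add_mem (sum_mem fun i _ => Submodule.smul_mem _ _ (h1 i))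
      (sum_mem fun p _ => Submodule.smul_mem _ _ (h2 p))
  · intro x h
    ext i
    have h1 := congrArg (fun w : (Fin s → k) × (ι → k) => w.1 i) (h (Pi.single i 1))
    simpa [hmu1] using h1

/-- For a set `S` of pairs `a < b` and `c` with `c 1 + Adj(S)` invertible: `V = k^s`, `W = k^s × k^S`,
`mu x y = (i ↦ x_i y_i, p ↦ x_(p.1) y_(p.2) + x_(p.2) y_(p.1))`,
`be ((u,g),(u',g')) = c ∑ u_i u'_i + ∑_p (u_(p.1) u'_(p.2) + u_(p.2) u'_(p.1)) + ∑_p g_p g'_p`
(it is the quartic form with coefficients `c` at `X_i^[4]` and `1` at `X_a^[2] X_b^[2]`, `(a,b) ∈ S`).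
`c` exists: `c` is not a root of the characteristic polynomial of `-Adj(S)` (`k` infinite).
`span`: `mu x_i x_i = (e_i, 0)`, `mu x_a x_b = (0, g_(a,b))` for unit vectors.  Choose `S` with `t - s`
elements: there are `C(s,2)` pairs and `C(s+1,2) = C(s,2) + s`. -/
theorem exists_form_ge {k : Type*} [Field k] [Infinite k] {s t : ℕ} (h1 : s ≤ t)
    (h2 : t ≤ (s + 1).choose 2) : Nonempty (FormData k (Fin s → k) (Fin t → k)) := by
  have hcard : Fintype.card (Fin (t - s)) ≤ Fintype.card (Σ b : Fin s, Fin b.val) := by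
    rw [Fintype.card_fin, Fintype.card_sigma]
    simp only [Fintype.card_fin]
    rw [Fin.sum_univ_eq_sum_range (fun i => i) s, Finset.sum_range_id, ← Nat.choose_two_right]
    have h3 : (s + 1).choose 2 = s.choose 1 + s.choose 2 := Nat.choose_succ_succ s 1
    rw [Nat.choose_one_right] at h3
    omega
  obtain ⟨e⟩ := Function.Embedding.nonempty_of_card_le hcard
  obtain ⟨Q⟩ := geForm (k := k) (s := s) (ι := Fin (t - s))
    (fun p => ⟨(e p).2.val, (e p).2.2.trans (e p).1.2⟩) (fun p => (e p).1)
    (fun p => (e p).2.2) (by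
      intro p q hlo hhi
      apply e.injective
      have h4 : (e p).2.val = (e q).2.val := congrArg Fin.val hlo
      have h5 : (e p).1 = (e q).1 := hhi
      exact Sigma.ext h5 ((Fin.heq_ext_iff (congrArg Fin.val h5)).2 h4))
  refine Q.congr (LinearEquiv.refl k _) (LinearEquiv.ofFinrankEq _ _ ?_)
  rw [Module.finrank_prod, Module.finrank_fin_fun, Module.finrank_fin_fun, Module.finrank_fin_fun]
  omega

end SocDeg
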