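import Pool.Agent.Lib_MP_badd8c_sd.ExistPt

/-!
# Piece E2: monomial data
-/

namespace SocDeg

open Module

section bil

variable {k : Type*} [Field k] {I J K : Type*} [Fintype I] [Fintype J]

/-- the bilinear map with the coefficients `cf` -/
private def emBil (cf : I → J → K → k) : (I → k) →ₗ[k] (J → k) →ₗ[k] (K → k) :=
  LinearMap.mk₂ k (fun x y t => ∑ i, ∑ j, cf i j t * (x i * y j))
    (fun x x' y => by
      funext t
      simp only [Pi.add_apply, add_mul, mul_add, Finset.sum_add_distrib])
    (fun c x y => by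
      funext t
      simp only [Pi.smul_apply, smul_eq_mul, Finset.mul_sum]
      exact Finset.sum_congr rfl fun i _ => Finset.sum_congr rfl fun j _ => by ring)
    (fun x y y' => by
      funext t
      simp only [Pi.add_apply, mul_add, Finset.sum_add_distrib])
    (fun c x y => by
      funext t
      simp only [Pi.smul_apply, smul_eq_mul, Finset.mul_sum]
      exact Finset.sum_congr rfl fun i _ => Finset.sum_congr rfl fun j _ => by ring)

private theorem emBil_apply (cf : I → J → K → k) (x : I → k) (y : J → k) (t : K) :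
    emBil cf x y t = ∑ i, ∑ j, cf i j t * (x i * y j) := rfl

private theorem emBil_left [DecidableEq I] (cf : I → J → K → k) (i : I) (y : J → k) (t : K) :
    emBil cf (Pi.single i 1) y t = ∑ j, cf i j t * y j := by
  rw [emBil_apply, Finset.sum_eq_single i]
  · simp
  · intro a _ ha
    simp [Pi.single_eq_of_ne ha]
  · intro h
    exact absurd (Finset.mem_univ i) h

private theorem emBil_right [DecidableEq J] (cf : I → J → K → k) (x : I → k) (j : J) (t : K) :
    emBil cf x (Pi.single j 1) t = ∑ i, cf i j t * x i := by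
  rw [emBil_apply]
  refine Finset.sum_congr rfl fun i _ => ?_
  rw [Finset.sum_eq_single j]
  · simp
  · intro a _ ha
    simp [Pi.single_eq_of_ne ha]
  · intro h
    exact absurd (Finset.mem_univ j) h

private theorem emBil_both [DecidableEq I] [DecidableEq J] (cf : I → J → K → k) (i : I) (j : J) (t : K) :
    emBil cf (Pi.single i 1) (Pi.single j 1) t = cf i j t := by
  rw [emBil_left, Finset.sum_eq_single j]
  · simp
  · intro a _ ha
    simp [Pi.single_eq_of_ne ha]
  · intro h
    exact absurd (Finset.mem_univ j) h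

private theorem emSpan {K : Type*} [Fintype K] [DecidableEq K] (P : Submodule k (K → k))
    (h : ∀ t, (Pi.single t 1 : K → k) ∈ P) : P = ⊤ := by
  rw [Submodule.eq_top_iff']
  intro w
  have h1 : w = ∑ t, w t • (Pi.single t 1 : K → k) := by
    funext s
    rw [Finset.sum_apply, Finset.sum_eq_single s]
    · simp
    · intro a _ ha
      simp [Pi.single_eq_of_ne (Ne.symm ha)]
    · intro h
      exact absurd (Finset.mem_univ s) h
  rw [h1]
  exact Submodule.sum_mem _ fun t _ => P.smul_mem _ (h t)

end bil

section mono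

variable {k : Type*} [Field k] {n : ℕ} (Q C : Finset (Multiset (Fin n)))

private def emc2 (i j : Fin n) (q : Q) : k := if ({i, j} : Multiset (Fin n)) = q then 1 else 0

private def emc3 (i : Fin n) (q : Q) (c : C) : k := if i ::ₘ (q : Multiset (Fin n)) = c then 1 else 0

private theorem emCoeff (hdiv : ∀ c ∈ C, ∀ q ≤ c, Multiset.card q = 2 → q ∈ Q) (i j l : Fin n) (c : C) :
    ∑ q : Q, (emc3 Q C i q c : k) * emc2 Q j l q =
      if i ::ₘ ({j, l} : Multiset (Fin n)) = c then 1 else 0 := by
  split_ifs with h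
  · have h1 : ({j, l} : Multiset (Fin n)) ∈ Q :=
      hdiv c c.2 _ (by rw [← h]; exact Multiset.le_cons_self _ _) (by simp)
    rw [Finset.sum_eq_single (⟨{j, l}, h1⟩ : Q)]
    · have e1 : (emc3 Q C i (⟨{j, l}, h1⟩ : Q) c : k) = 1 := if_pos h
      have e2 : (emc2 Q j l (⟨{j, l}, h1⟩ : Q) : k) = 1 := if_pos rfl
      rw [e1, e2, mul_one]
    · intro q _ hq
      have h2 : (emc2 Q j l q : k) = 0 := by
        unfold emc2
        rw [if_neg]
        intro h3
        exact hq (Subtype.ext h3.symm)
      rw [h2, mul_zero]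
    · intro h
      exact absurd (Finset.mem_univ _) h
  · refine Finset.sum_eq_zero fun q _ => ?_
    unfold emc3 emc2
    by_cases h1 : ({j, l} : Multiset (Fin n)) = q
    · rw [if_neg, zero_mul]
      rw [← h1]
      exact h
    · rw [if_neg h1, mul_zero]

private theorem emTriple (hdiv : ∀ c ∈ C, ∀ q ≤ c, Multiset.card q = 2 → q ∈ Q) (x y z : Fin n → k) (c : C) :
    emBil (emc3 Q C) x (emBil (emc2 Q) y z) c =
      ∑ i, ∑ j, ∑ l, (if i ::ₘ ({j, l} : Multiset (Fin n)) = c then (1 : k) else 0) * (x i * (y j * z l)) := by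
  rw [emBil_apply]
  refine Finset.sum_congr rfl fun i _ => ?_
  have h1 : ∀ q : Q, (emc3 Q C i q c : k) * (x i * emBil (emc2 Q) y z q) =
      ∑ j, ∑ l, (emc3 Q C i q c * emc2 Q j l q) * (x i * (y j * z l)) := by
    intro q
    rw [emBil_apply]
    simp only [Finset.mul_sum]
    exact Finset.sum_congr rfl fun j _ => Finset.sum_congr rfl fun l _ => by ring
  rw [Finset.sum_congr rfl fun q _ => h1 q, Finset.sum_comm]
  refine Finset.sum_congr rfl fun j _ => ?_
  rw [Finset.sum_comm]
  refine Finset.sum_congr rfl fun l _ => ?_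
  rw [← Finset.sum_mul, emCoeff Q C hdiv]

end mono

/-- Monomials in `x_0, ..., x_(n-1)` are multisets of elements of `Fin n`.  `Q` = quadratic, `C` = cubic
monomials, all quadratic divisors of elements of `C` are in `Q`, every element of `Q` divides an
element of `C`, every variable divides an element of `Q`.
`m2 x y = (q ↦ ∑_(i,j : {i,j} = q) x_i y_j)`, `m3 x u = (ν ↦ ∑_(i, q : i ::ₘ q = ν) x_i u_q)`.
`symm3`: the coefficient of `ν ∈ C` in `x(yz)` is `∑_((i,j,l) : {i,j,l} = ν) x_i y_j z_l`
(`{j,l} ∈ Q` holds automatically).  `faithful1`: the coefficient of `{i,j} ∈ Q` in `x · x_j` (unit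
vector) is `x_i` (also for `i = j`).  `faithful2`: for `q ≤ ν = i ::ₘ q` the coefficient of `ν` in
`x_i · u` is `u_q`.  `span2`, `span3`: unit vectors. -/
theorem exists_triv {k : Type*} [Field k] {n : ℕ} (Q C : Finset (Multiset (Fin n)))
    (hQ : ∀ q ∈ Q, Multiset.card q = 2) (hC : ∀ c ∈ C, Multiset.card c = 3)
    (hdiv : ∀ c ∈ C, ∀ q ≤ c, Multiset.card q = 2 → q ∈ Q)
    (hcov : ∀ q ∈ Q, ∃ c ∈ C, q ≤ c) (hvar : ∀ i, ∃ q ∈ Q, i ∈ q) :
    Nonempty (TrivData k (Fin n → k) (Q → k) (C → k)) := by
  classical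
  refine ⟨{ m2 := emBil (emc2 Q), m3 := emBil (emc3 Q C), comm := ?_, symm3 := ?_, span2 := ?_, span3 := ?_,
            faithful1 := ?_, faithful2 := ?_ }⟩
  · intro x y
    funext q
    rw [emBil_apply, emBil_apply, Finset.sum_comm]
    refine Finset.sum_congr rfl fun i _ => Finset.sum_congr rfl fun j _ => ?_
    unfold emc2
    rw [Multiset.pair_comm j i, mul_comm (x j)]
  · intro x y z
    funext c
    rw [emTriple Q C hdiv, emTriple Q C hdiv, Finset.sum_comm]
    refine Finset.sum_congr rfl fun i _ => Finset.sum_congr rfl fun j _ => Finset.sum_congr rfl fun l _ => ?_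
    have h1 : j ::ₘ ({i, l} : Multiset (Fin n)) = i ::ₘ ({j, l} : Multiset (Fin n)) :=
      Multiset.cons_swap _ _ _
    rw [h1]
    ring
  · refine emSpan _ fun q => Submodule.subset_span ?_
    obtain ⟨i, j, hij⟩ := Multiset.card_eq_two.mp (hQ q q.2)
    refine ⟨Pi.single i 1, Pi.single j 1, ?_⟩
    funext t
    rw [emBil_both]
    unfold emc2
    rw [← hij]
    by_cases h : t = q
    · rw [h, Pi.single_eq_same, if_pos rfl]
    · rw [Pi.single_eq_of_ne h, if_neg fun h2 => h (Subtype.ext h2.symm)]
  · refine emSpan _ fun c => Submodule.subset_span ?_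
    have h0 : (c : Multiset (Fin n)) ≠ 0 := by
      intro h
      have := hC c c.2
      rw [h] at this
      simp at this
    obtain ⟨i, hi⟩ := Multiset.exists_mem_of_ne_zero h0
    obtain ⟨q, hq⟩ := Multiset.exists_cons_of_mem hi
    have hqc : Multiset.card q = 2 := by
      have := hC c c.2
      rw [hq, Multiset.card_cons] at this
      omega
    have hqQ : q ∈ Q := hdiv c c.2 q (by rw [hq]; exact Multiset.le_cons_self _ _) hqc
    refine ⟨Pi.single i 1, Pi.single ⟨q, hqQ⟩ 1, ?_⟩
    funext t
    rw [emBil_both]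
    unfold emc3
    rw [← hq]
    by_cases h : t = c
    · rw [h, Pi.single_eq_same, if_pos rfl]
    · rw [Pi.single_eq_of_ne h, if_neg fun h2 => h (Subtype.ext h2.symm)]
  · intro x hx
    funext i
    obtain ⟨q, hqQ, hiq⟩ := hvar i
    obtain ⟨q', hq'⟩ := Multiset.exists_cons_of_mem hiq
    have hc1 : Multiset.card q' = 1 := by
      have := hQ q hqQ
      rw [hq', Multiset.card_cons] at this
      omega
    obtain ⟨j, rfl⟩ := Multiset.card_eq_one.mp hc1
    have h1 := congrFun (hx (Pi.single j 1)) ⟨q, hqQ⟩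
    rw [emBil_right, Finset.sum_eq_single i] at h1
    · unfold emc2 at h1
      rw [if_pos (show ({i, j} : Multiset (Fin n)) = ((⟨q, hqQ⟩ : Q) : Multiset (Fin n)) from hq'.symm), one_mul] at h1
      exact h1
    · intro a _ ha
      unfold emc2
      rw [if_neg, zero_mul]
      intro h2
      have h3 : a ::ₘ ({j} : Multiset (Fin n)) = i ::ₘ {j} := by
        rw [← hq']
        exact h2
      exact ha ((Multiset.cons_inj_left _).mp h3)
    · intro h
      exact absurd (Finset.mem_univ _) h
  · intro u hu
    funext q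
    obtain ⟨c, hcC, hqc⟩ := hcov q q.2
    obtain ⟨d, hd⟩ := Multiset.le_iff_exists_add.mp hqc
    have hc1 : Multiset.card d = 1 := by
      have h2 := hC c hcC
      have h3 := hQ q q.2
      rw [hd, Multiset.card_add, h3] at h2
      omega
    obtain ⟨i, rfl⟩ := Multiset.card_eq_one.mp hc1
    have hci : i ::ₘ (q : Multiset (Fin n)) = c := by
      rw [hd, add_comm]
      rfl
    have h1 := congrFun (hu (Pi.single i 1)) ⟨c, hcC⟩
    rw [emBil_left, Finset.sum_eq_single q] at h1
    · unfold emc3 at h1
      rw [if_pos hci, one_mul] at h1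
      exact h1
    · intro a _ ha
      unfold emc3
      rw [if_neg, zero_mul]
      intro h2
      have h3 : i ::ₘ (a : Multiset (Fin n)) = i ::ₘ (q : Multiset (Fin n)) := by
        rw [hci]
        exact h2
      exact ha (Subtype.ext ((Multiset.cons_inj_right _).mp h3))
    · intro h
      exact absurd (Finset.mem_univ _) h

end SocDeg
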