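import Pool.Agent.Lib_MP_badd8c_sd.FormIso

/-!
# Piece E1: adding a point; the trivial extension
-/

namespace SocDeg

open Module

/-- Adding a point: `mu ((x,a),(y,b)) = (mu x y, a b)`, `be ((u,a),(v,b)) = be u v + a b`. -/
theorem FormData.addPoint {k V W : Type*} [Field k] [AddCommGroup V] [Module k V] [AddCommGroup W]
    [Module k W] (Q : FormData k V W) : Nonempty (FormData k (V × k) (W × k)) := by
  refine ⟨{
    mu := LinearMap.mk₂ k (fun p q => (Q.mu p.1 q.1, p.2 * q.2)) ?_ ?_ ?_ ?_
    be := LinearMap.mk₂ k (fun u v => Q.be u.1 v.1 + u.2 * v.2) ?_ ?_ ?_ ?_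
    mu_comm := ?_
    be_comm := ?_
    nondeg := ?_
    symm4 := ?_
    span := ?_
    faithful := ?_ }⟩
  · intro a b c
    simp [add_mul]
  · intro c a b
    simp [mul_assoc]
  · intro a b c
    simp [mul_add]
  · intro c a b
    simp [mul_left_comm]
  · intro a b c
    simp only [Prod.fst_add, Prod.snd_add, map_add, LinearMap.add_apply]
    ring
  · intro c a b
    simp only [Prod.smul_fst, Prod.smul_snd, map_smul, LinearMap.smul_apply, smul_eq_mul]
    ring
  · intro a b c
    simp only [Prod.fst_add, Prod.snd_add, map_add]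
    ring
  · intro c a b
    simp only [Prod.smul_fst, Prod.smul_snd, map_smul, smul_eq_mul]
    ring
  · intro x y
    simp only [LinearMap.mk₂_apply]
    rw [Q.mu_comm x.1 y.1, mul_comm]
  · intro x y
    simp only [LinearMap.mk₂_apply]
    rw [Q.be_comm x.1 y.1, mul_comm x.2]
  · intro u hu
    simp only [LinearMap.mk₂_apply] at hu
    have h1 : u.1 = 0 := Q.nondeg _ fun v => by simpa using hu (v, 0)
    have h2 : u.2 = 0 := by simpa using hu (0, 1)
    exact Prod.ext h1 h2
  · intro x y z w
    simp only [LinearMap.mk₂_apply]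
    rw [Q.symm4 x.1 y.1 z.1 w.1]
    ring
  · rw [eq_top_iff]
    rintro ⟨w, c⟩ -
    have h1 : ((w, 0) : W × k) ∈ Submodule.span k {w : W × k | ∃ x y : V × k, w =
        (LinearMap.mk₂ k (fun p q : V × k => (Q.mu p.1 q.1, p.2 * q.2)) (by intro a b c; simp [add_mul])
          (by intro c a b; simp [mul_assoc]) (by intro a b c; simp [mul_add])
          (by intro c a b; simp [mul_left_comm]) : V × k →ₗ[k] V × k →ₗ[k] W × k) x y} := by
      have hw : w ∈ Submodule.span k {w | ∃ x y, w = Q.mu x y} := by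
        rw [Q.span]
        exact Submodule.mem_top
      have h2 := Submodule.mem_map_of_mem (f := LinearMap.inl k W k) hw
      rw [Submodule.map_span] at h2
      refine Submodule.span_mono ?_ h2
      rintro _ ⟨_, ⟨x, y, rfl⟩, rfl⟩
      exact ⟨(x, 0), (y, 0), by simp⟩
    have h2 : ((0, c) : W × k) ∈ Submodule.span k {w : W × k | ∃ x y : V × k, w =
        (LinearMap.mk₂ k (fun p q : V × k => (Q.mu p.1 q.1, p.2 * q.2)) (by intro a b c; simp [add_mul])
          (by intro c a b; simp [mul_assoc]) (by intro a b c; simp [mul_add])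
          (by intro c a b; simp [mul_left_comm]) : V × k →ₗ[k] V × k →ₗ[k] W × k) x y} :=
      Submodule.subset_span ⟨(0, c), (0, 1), by simp⟩
    have h3 := add_mem h1 h2
    simpa using h3
  · intro x hx
    simp only [LinearMap.mk₂_apply] at hx
    have h1 : x.1 = 0 := Q.faithful _ fun y => by
      have := congrArg Prod.fst (hx (y, 0))
      simpa using this
    have h2 : x.2 = 0 := by
      have := congrArg Prod.snd (hx (0, 1))
      simpa using this
    exact Prod.ext h1 h2

/-- The part `B₁, B₂, B₃` of a graded commutative algebra generated in degree one, without socle in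
degrees one and two. -/
structure TrivData (k B₁ B₂ B₃ : Type*) [Field k] [AddCommGroup B₁] [Module k B₁]
    [AddCommGroup B₂] [Module k B₂] [AddCommGroup B₃] [Module k B₃] where
  m2 : B₁ →ₗ[k] B₁ →ₗ[k] B₂
  m3 : B₁ →ₗ[k] B₂ →ₗ[k] B₃
  comm : ∀ x y, m2 x y = m2 y x
  symm3 : ∀ x y z, m3 x (m2 y z) = m3 y (m2 x z)
  span2 : Submodule.span k {w | ∃ x y, w = m2 x y} = ⊤
  span3 : Submodule.span k {w | ∃ x q, w = m3 x q} = ⊤
  faithful1 : ∀ x, (∀ y, m2 x y = 0) → x = 0
  faithful2 : ∀ q, (∀ x, m3 x q = 0) → q = 0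

/-- The multiplication of the trivial extension. -/
private noncomputable def TrivData.tmu {k B₁ B₂ B₃ : Type*} [Field k] [AddCommGroup B₁] [Module k B₁]
    [AddCommGroup B₂] [Module k B₂] [AddCommGroup B₃] [Module k B₃] (T : TrivData k B₁ B₂ B₃) :
    (B₁ × Dual k B₃) →ₗ[k] (B₁ × Dual k B₃) →ₗ[k] (B₂ × Dual k B₂) :=
  LinearMap.mk₂ k (fun p q => (T.m2 p.1 q.1, q.2.comp (T.m3 p.1) + p.2.comp (T.m3 q.1)))
    (by
      intro a b c
      refine Prod.ext (by simp) ?_
      ext q
      simp only [Prod.fst_add, Prod.snd_add, map_add, LinearMap.add_apply, LinearMap.comp_apply]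
      ring)
    (by
      intro c a b
      refine Prod.ext (by simp) ?_
      ext q
      simp only [Prod.smul_fst, Prod.smul_snd, map_smul, LinearMap.add_apply, LinearMap.comp_apply,
        LinearMap.smul_apply, smul_eq_mul]
      ring)
    (by
      intro a b c
      refine Prod.ext (by simp) ?_
      ext q
      simp only [Prod.fst_add, Prod.snd_add, map_add, LinearMap.add_apply, LinearMap.comp_apply]
      ring)
    (by
      intro c a b
      refine Prod.ext (by simp) ?_
      ext q
      simp only [Prod.smul_fst, Prod.smul_snd, map_smul, LinearMap.add_apply, LinearMap.comp_apply,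
        LinearMap.smul_apply, smul_eq_mul]
      ring)

private theorem TrivData.tmu_apply {k B₁ B₂ B₃ : Type*} [Field k] [AddCommGroup B₁] [Module k B₁]
    [AddCommGroup B₂] [Module k B₂] [AddCommGroup B₃] [Module k B₃] (T : TrivData k B₁ B₂ B₃)
    (p q : B₁ × Dual k B₃) :
    T.tmu p q = (T.m2 p.1 q.1, q.2.comp (T.m3 p.1) + p.2.comp (T.m3 q.1)) := rfl

/-- The pairing of the trivial extension. -/
private noncomputable def TrivData.tbe {k B₁ B₂ B₃ : Type*} [Field k] [AddCommGroup B₁] [Module k B₁]
    [AddCommGroup B₂] [Module k B₂] [AddCommGroup B₃] [Module k B₃] (_T : TrivData k B₁ B₂ B₃) :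
    (B₂ × Dual k B₂) →ₗ[k] (B₂ × Dual k B₂) →ₗ[k] k :=
  LinearMap.mk₂ k (fun u v => u.2 v.1 + v.2 u.1)
    (by
      intro a b c
      simp only [Prod.fst_add, Prod.snd_add, map_add, LinearMap.add_apply]
      ring)
    (by
      intro c a b
      simp only [Prod.smul_fst, Prod.smul_snd, map_smul, LinearMap.smul_apply, smul_eq_mul]
      ring)
    (by
      intro a b c
      simp only [Prod.fst_add, Prod.snd_add, map_add, LinearMap.add_apply]
      ring)
    (by
      intro c a b
      simp only [Prod.smul_fst, Prod.smul_snd, map_smul, LinearMap.smul_apply, smul_eq_mul]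
      ring)

private theorem TrivData.tbe_apply {k B₁ B₂ B₃ : Type*} [Field k] [AddCommGroup B₁] [Module k B₁]
    [AddCommGroup B₂] [Module k B₂] [AddCommGroup B₃] [Module k B₃] (T : TrivData k B₁ B₂ B₃)
    (u v : B₂ × Dual k B₂) : T.tbe u v = u.2 v.1 + v.2 u.1 := rfl

/-- The trivial extension: `V = B₁ × B₃*`, `W = B₂ × B₂*`,
`mu ((x,η),(x',η')) = (x x', q ↦ η'(x q) + η(x' q))`, `be ((q,θ),(q',θ')) = θ(q') + θ'(q)`.
`symm4`: `be (X₁X₂) (X₃X₄) = η₁(x₂x₃x₄) + η₂(x₁x₃x₄) + η₃(x₁x₂x₄) + η₄(x₁x₂x₃)` where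
`x(yz)` is symmetric in all arguments by `comm`, `symm3`.  `span`: `B₂` by `span2`; the functionals
`q ↦ η(x q)` span `B₂*` because their common kernel is zero (`faithful2`; finite dimension).
`faithful`: `(x,η)·(0,η') = (0, q ↦ η'(x q))` and `(x,η)·(x',0) = (x x', q ↦ η(x' q))`, so `x = 0` by
`faithful1` and `η = 0` by `span3`. -/
theorem TrivData.form {k B₁ B₂ B₃ : Type*} [Field k] [AddCommGroup B₁] [Module k B₁]
    [AddCommGroup B₂] [Module k B₂] [AddCommGroup B₃] [Module k B₃] [FiniteDimensional k B₁]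
    [FiniteDimensional k B₂] [FiniteDimensional k B₃] (T : TrivData k B₁ B₂ B₃) :
    Nonempty (FormData k (B₁ × Dual k B₃) (B₂ × Dual k B₂)) := by
  refine ⟨{
    mu := T.tmu
    be := T.tbe
    mu_comm := ?_
    be_comm := ?_
    nondeg := ?_
    symm4 := ?_
    span := ?_
    faithful := ?_ }⟩
  · intro x y
    rw [T.tmu_apply, T.tmu_apply, T.comm x.1 y.1, add_comm]
  · intro x y
    rw [T.tbe_apply, T.tbe_apply, add_comm]
  · intro u hu
    have h1 : u.1 = 0 := by
      refine (Module.forall_dual_apply_eq_zero_iff k u.1).1 fun f => ?_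
      have := hu (0, f)
      rw [T.tbe_apply] at this
      simpa using this
    have h2 : u.2 = 0 := by
      ext q
      have := hu (q, 0)
      rw [T.tbe_apply] at this
      simpa using this
    exact Prod.ext h1 h2
  · intro x y z w
    simp only [T.tmu_apply, T.tbe_apply, LinearMap.add_apply, LinearMap.comp_apply]
    rw [T.comm z.1 w.1, T.symm3 x.1 w.1 z.1, T.comm w.1 z.1, T.symm3 y.1 z.1 w.1, T.symm3 z.1 x.1 y.1,
      T.comm z.1 y.1, T.symm3 x.1 y.1 z.1, T.symm3 w.1 x.1 y.1, T.comm w.1 y.1]
    ring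
  · rw [eq_top_iff]
    rintro ⟨q, θ⟩ -
    have h1 : ((q, 0) : B₂ × Dual k B₂) ∈ Submodule.span k {w | ∃ x y, w = T.tmu x y} := by
      have hw : q ∈ Submodule.span k {w | ∃ x y, w = T.m2 x y} := by
        rw [T.span2]
        exact Submodule.mem_top
      have h2 := Submodule.mem_map_of_mem (f := LinearMap.inl k B₂ (Dual k B₂)) hw
      rw [Submodule.map_span] at h2
      refine Submodule.span_mono ?_ h2
      rintro _ ⟨_, ⟨x, y, rfl⟩, rfl⟩
      exact ⟨(x, 0), (y, 0), by rw [T.tmu_apply]; simp⟩
    have h2 : ((0, θ) : B₂ × Dual k B₂) ∈ Submodule.span k {w | ∃ x y, w = T.tmu x y} := by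
      let N : Submodule k (Dual k B₂) := Submodule.span k {f | ∃ (η : Dual k B₃) (x : B₁), f = η.comp (T.m3 x)}
      have hN : N = ⊤ := by
        have h3 : N.dualCoannihilator = ⊥ := by
          rw [eq_bot_iff]
          intro q hq
          rw [Submodule.mem_dualCoannihilator] at hq
          rw [Submodule.mem_bot]
          refine T.faithful2 q fun x => ?_
          refine (Module.forall_dual_apply_eq_zero_iff k _).1 fun η => ?_
          exact hq _ (Submodule.subset_span ⟨η, x, rfl⟩)
        have h4 := Subspace.dualCoannihilator_dualAnnihilator_eq (W := N)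
        rw [h3, Submodule.dualAnnihilator_bot] at h4
        exact h4.symm
      have hθ : θ ∈ N := by
        rw [hN]
        exact Submodule.mem_top
      have h5 := Submodule.mem_map_of_mem (f := LinearMap.inr k B₂ (Dual k B₂)) hθ
      rw [Submodule.map_span] at h5
      refine Submodule.span_mono ?_ h5
      rintro _ ⟨_, ⟨η, x, rfl⟩, rfl⟩
      exact ⟨(0, η), (x, 0), by rw [T.tmu_apply]; simp⟩
    have h3 := add_mem h1 h2
    simpa using h3
  · intro x hx
    have h1 : x.1 = 0 := T.faithful1 _ fun y => by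
      have := congrArg Prod.fst (hx (y, 0))
      rw [T.tmu_apply] at this
      simpa using this
    have h2 : x.2 = 0 := by
      have h3 : Submodule.span k {w | ∃ x q, w = T.m3 x q} ≤ LinearMap.ker x.2 := by
        rw [Submodule.span_le]
        rintro _ ⟨y, q, rfl⟩
        have := congrArg Prod.snd (hx (y, 0))
        rw [T.tmu_apply] at this
        have h4 := LinearMap.congr_fun this q
        simpa using h4
      rw [T.span3, top_le_iff, LinearMap.ker_eq_top] at h3
      exact h3
    exact Prod.ext h1 h2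

end SocDeg
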