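import Pool.Agent.Lib_MP_badd8c_sd.LocB

/-!
# Piece L3: symmetry of `r(i,l)`
-/

namespace SocDeg

open Module

variable {k : Type*} [Field k] {A : Type*} [CommRing A] [Algebra k A]

/-- the form `φ(x y)` on `N × M` -/
private noncomputable def trf (φ : A →ₗ[k] k) (N M : Ideal A) :
    ↥(N.restrictScalars k) →ₗ[k] ↥(M.restrictScalars k) →ₗ[k] k :=
  ((LinearMap.mul k A).compr₂ φ).domRestrict₁₂ (N.restrictScalars k) (M.restrictScalars k)

private theorem trf_apply (φ : A →ₗ[k] k) (N M : Ideal A) (x : ↥(N.restrictScalars k))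
    (y : ↥(M.restrictScalars k)) : trf φ N M x y = φ (x.1 * y.1) := rfl

private theorem trf_flip (φ : A →ₗ[k] k) (N M : Ideal A) : trf φ M N = (trf φ N M).flip := by
  ext x y
  rw [LinearMap.flip_apply, trf_apply, trf_apply, mul_comm]

private theorem finrank_flip [FiniteDimensional k A] (φ : A →ₗ[k] k) (N M : Ideal A) :
    finrank k ↥(LinearMap.range (trf φ N M).flip) = finrank k ↥(LinearMap.range (trf φ N M)) := by
  have h1 : (trf φ N M).flip = (trf φ N M).dualMap ∘ₗ Dual.eval k ↥(M.restrictScalars k) := by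
    ext x y
    rfl
  have h2 : LinearMap.range (Dual.eval k ↥(M.restrictScalars k)) = ⊤ :=
    LinearMap.range_eq_top.2 (Module.evalEquiv k ↥(M.restrictScalars k)).surjective
  rw [h1, LinearMap.range_comp_of_range_eq_top _ h2]
  exact LinearMap.finrank_range_dualMap_eq_finrank_range _

private theorem finrank_trf {m : Ideal A} {j : ℕ} (h : IsAG k m j) (φ : A →ₗ[k] k)
    (hφ : ∀ x, (∀ y, φ (x * y) = 0) → x = 0) (i l : ℕ) :
    finrank k ↥(LinearMap.range (trf φ (m ^ i) (m ^ l))) = rr k m i l := by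
  have := h.fd
  have h1 := LinearMap.finrank_range_add_finrank_ker (trf φ (m ^ i) (m ^ l))
  have h2 : finrank k ↥(LinearMap.ker (trf φ (m ^ i) (m ^ l))) = finrank k ↥(m ^ i ⊓ an m l) := by
    have e1 : LinearMap.ker (trf φ (m ^ i) (m ^ l)) =
        ((m ^ i ⊓ an m l).restrictScalars k).comap ((m ^ i).restrictScalars k).subtype := by
      ext x
      rw [LinearMap.mem_ker, Submodule.mem_comap]
      constructor
      · intro hx
        show (x : A) ∈ m ^ i ⊓ an m l
        refine ⟨x.2, ?_⟩
        rw [SetLike.mem_coe, mem_an]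
        intro y hy
        apply hφ
        intro z
        have h3 : y * z ∈ (m ^ l).restrictScalars k := Ideal.mul_mem_right z _ hy
        have h4 := LinearMap.congr_fun hx ⟨y * z, h3⟩
        rw [trf_apply] at h4
        rw [mul_assoc]
        exact h4
      · intro hx
        have hx' : (x : A) ∈ m ^ i ⊓ an m l := hx
        ext y
        rw [trf_apply, mem_an.1 hx'.2 y.1 y.2]
        simp
    rw [e1]
    exact LinearEquiv.finrank_eq (Submodule.comapSubtypeEquivOfLe
      (p := (m ^ i ⊓ an m l).restrictScalars k) (q := (m ^ i).restrictScalars k) fun _ hx => hx.1)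
  have h3 : finrank k ↥((m ^ i).restrictScalars k) = finrank k ↥(m ^ i) := rfl
  unfold rr
  rw [h2, h3] at h1
  omega

/-- (R1) `r(i,l) = r(l,i)`.  PROOF: `r(i,l)` is the rank of the bilinear form `φ(x y)` on `m^i × m^l`
(`exists_trace`): for `x ∈ m^i`: `φ(x y) = 0` for all `y ∈ m^l` iff `x y = 0` for all `y ∈ m^l` (`m^l`
is an ideal).  Use e.g. `LinearMap.BilinForm`/`LinearMap.finrank_range_dualMap_eq_finrank_range`:
the maps `m^i → Dual (m^l)` and `m^l → Dual (m^i)` have the same rank. -/
theorem rr_symm {m : Ideal A} {j : ℕ} (h : IsAG k m j) (i l : ℕ) : rr k m i l = rr k m l i := by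
  have := h.fd
  obtain ⟨φ, hφ⟩ := exists_trace h
  rw [← finrank_trf h φ hφ i l, ← finrank_trf h φ hφ l i, trf_flip φ (m ^ i) (m ^ l), finrank_flip]

end SocDeg
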