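import Pool.Agent.Lib_MP_badd8c_sd.LocR
import Pool.Agent.Lib_MP_badd8c_sd.LocS
import Pool.Agent.Lib_MP_badd8c_sd.Form

/-!
# Piece L6: the form data of an algebra of socle degree four
-/

namespace SocDeg

open Module

universe u v

/-- A symmetric bilinear map descends to the quotient by its kernel. -/
private theorem exists_quot {k : Type*} [Field k] {M N : Type*} [AddCommGroup M] [Module k M]
    [AddCommGroup N] [Module k N] (B : M →ₗ[k] M →ₗ[k] N) (hB : ∀ x y, B x y = B y x) :
    ∃ B' : (M ⧸ LinearMap.ker B) →ₗ[k] (M ⧸ LinearMap.ker B) →ₗ[k] N,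
      ∀ x y, B' ((LinearMap.ker B).mkQ x) ((LinearMap.ker B).mkQ y) = B x y := by
  have h1 : LinearMap.ker B ≤ LinearMap.ker B.flip := by
    intro y hy
    rw [LinearMap.mem_ker] at hy ⊢
    ext x
    rw [LinearMap.flip_apply, hB, hy, LinearMap.zero_apply]
  let B1 : (M ⧸ LinearMap.ker B) →ₗ[k] M →ₗ[k] N := (LinearMap.ker B).liftQ B.flip h1
  have hB1 : ∀ y x, B1 ((LinearMap.ker B).mkQ y) x = B x y := fun y x => rfl
  have h2 : LinearMap.ker B ≤ LinearMap.ker B1.flip := by
    intro x hx
    rw [LinearMap.mem_ker] at hx ⊢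
    ext u
    simp only [LinearMap.comp_apply, LinearMap.flip_apply, LinearMap.zero_apply]
    rw [hB1, hx, LinearMap.zero_apply]
  exact ⟨(LinearMap.ker B).liftQ B1.flip h2, fun x y => rfl⟩

variable {k : Type u} [Field k] {A : Type v} [CommRing A] [Algebra k A]

private theorem finrank_rs (N : Ideal A) :
    finrank k ↥(N.restrictScalars k) = finrank k ↥N :=
  LinearEquiv.finrank_eq ((Submodule.restrictScalarsEquiv k A A N).restrictScalars k)

private theorem finrank_quot [FiniteDimensional k A] (N I : Ideal A)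
    (K : Submodule k ↥(N.restrictScalars k)) (hK : ∀ x, x ∈ K ↔ (x : A) ∈ I) :
    finrank k (↥(N.restrictScalars k) ⧸ K) = finrank k ↥N - finrank k ↥(N ⊓ I) := by
  have h1 := Submodule.finrank_quotient_add_finrank K
  have h2 : K.map (N.restrictScalars k).subtype = (N ⊓ I).restrictScalars k := by
    ext x
    simp only [Submodule.mem_map, Submodule.restrictScalars_mem, Submodule.mem_inf]
    constructor
    · rintro ⟨y, hy, rfl⟩
      exact ⟨y.2, (hK y).1 hy⟩
    · rintro ⟨hx, hx'⟩
      exact ⟨⟨x, hx⟩, (hK _).2 hx', rfl⟩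
  have h3 := Submodule.finrank_map_subtype_eq (N.restrictScalars k) K
  rw [h2, finrank_rs] at h3
  rw [← h3, finrank_rs] at h1
  omega

/-- The form data of `A`: `V = m/(m ∩ (0 : m^3))`, `W = m^2/(m^2 ∩ (0 : m^2))`, `mu` = multiplication,
`be(u,w) = φ(u w)` with `φ` from `exists_trace`.
PROOF.  `mu` well defined: `x ∈ (0 : m^3)`, `y ∈ m` give `x y ∈ m^2 ∩ (0 : m^2)`.  `be` well defined:
`u ∈ (0 : m^2)`, `w ∈ m^2` give `u w = 0`.  Nondegenerate: `φ(u w) = 0` for all `w ∈ m^2` gives
`φ(u w a) = 0` for all `a`, `u w = 0`.  `symm4`: commutativity.  `span`: `m^2` is spanned by the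
products `x y` (`Ideal` = additive closure of products; `x y a = x (y a)`).  `faithful`: `x y ∈ (0 : m^2)`
for all `y ∈ m` gives `x m^3 = 0`.  Dimensions: `dim V = r(1,3) = r(3,1) = l_3 - 1`, `dim W = r(2,2)`.
It may be convenient to work with the `k`-submodules `(m ^ i).restrictScalars k` and to transport the
data to `Fin s → k`, `Fin t → k` at the end (`FormData.congr` in `FormIso.lean`). -/
theorem exists_form_of_AG {m : Ideal A} (h : IsAG k m 4) :
    ∃ (V W : Type v) (_ : AddCommGroup V) (_ : Module k V) (_ : AddCommGroup W) (_ : Module k W),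
      FiniteDimensional k V ∧ FiniteDimensional k W ∧ finrank k V + 1 = ell k m 3 ∧
      finrank k W = rr k m 2 2 ∧ Nonempty (FormData k V W) := by
  have hfd := h.fd
  obtain ⟨φ, hφ⟩ := exists_trace h
  set M1 : Submodule k A := m.restrictScalars k with hM1
  set M2 : Submodule k A := (m ^ 2).restrictScalars k with hM2
  have hM1m : ∀ x : M1, (x : A) ∈ m := fun x => x.2
  have hM2m : ∀ x : M2, (x : A) ∈ m ^ 2 := fun x => x.2
  have hmul : ∀ x ∈ m, ∀ y ∈ m, x * y ∈ m ^ 2 := by
    intro x hx y hy
    rw [pow_two]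
    exact Ideal.mul_mem_mul hx hy
  -- the pairing on `m^2`
  let P2 : M2 →ₗ[k] M2 →ₗ[k] k := LinearMap.mk₂ k (fun x y => φ ((x : A) * (y : A)))
    (by intro x x' y; simp [add_mul])
    (by intro c x y; simp)
    (by intro x y y'; simp [mul_add])
    (by intro c x y; simp)
  have hP2 : ∀ x y, P2 x y = φ ((x : A) * (y : A)) := fun x y => rfl
  have hP2s : ∀ x y, P2 x y = P2 y x := by
    intro x y
    rw [hP2, hP2, mul_comm]
  obtain ⟨be, hbe⟩ := exists_quot P2 hP2s
  -- the product on `m`
  let pr : M1 →ₗ[k] M1 →ₗ[k] M2 := LinearMap.mk₂ k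
    (fun x y => ⟨(x : A) * (y : A), hmul _ (hM1m x) _ (hM1m y)⟩)
    (by intro x x' y; ext; simp [add_mul])
    (by intro c x y; ext; simp)
    (by intro x y y'; ext; simp [mul_add])
    (by intro c x y; ext; simp)
  have hpr : ∀ x y, ((pr x y : M2) : A) = (x : A) * (y : A) := fun x y => rfl
  let mu0 : M1 →ₗ[k] M1 →ₗ[k] (M2 ⧸ LinearMap.ker P2) := pr.compr₂ (LinearMap.ker P2).mkQ
  have hmu0 : ∀ x y, mu0 x y = (LinearMap.ker P2).mkQ (pr x y) := fun x y => rfl
  have hprs : ∀ x y, pr x y = pr y x := by
    intro x y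
    ext
    rw [hpr, hpr, mul_comm]
  have hmu0s : ∀ x y, mu0 x y = mu0 y x := by
    intro x y
    rw [hmu0, hmu0, hprs]
  obtain ⟨mu, hmu⟩ := exists_quot mu0 hmu0s
  -- kernels
  have hker2 : ∀ u : M2, u ∈ LinearMap.ker P2 ↔ (u : A) ∈ an m 2 := by
    intro u
    rw [LinearMap.mem_ker, mem_an]
    constructor
    · intro hu w hw
      apply hφ
      intro a
      have h1 : w * a ∈ m ^ 2 := Ideal.mul_mem_right _ _ hw
      have h2 := congrArg (fun f => f (⟨w * a, h1⟩ : M2)) hu
      rw [mul_assoc]
      exact h2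
    · intro hu
      ext w
      rw [hP2, hu _ (hM2m w), map_zero, LinearMap.zero_apply]
  have hker1 : ∀ x : M1, x ∈ LinearMap.ker mu0 ↔ (x : A) ∈ an m 3 := by
    intro x
    rw [LinearMap.mem_ker, mem_an]
    have h1 : ∀ y : M1, mu0 x y = 0 ↔ (x : A) * (y : A) ∈ an m 2 := by
      intro y
      rw [hmu0, Submodule.mkQ_apply, Submodule.Quotient.mk_eq_zero, hker2, hpr]
    constructor
    · intro hx w hw
      have h3 : m ^ 3 = m * m ^ 2 := by rw [pow_succ', pow_two]
      rw [h3] at hw
      induction hw using Submodule.mul_induction_on' with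
      | mem_mul_mem y hy z hz =>
        have h4 := (h1 ⟨y, hy⟩).1 (by rw [hx]; rfl)
        rw [mem_an] at h4
        rw [← mul_assoc]
        exact h4 z hz
      | add a _ b _ ha hb => rw [mul_add, ha, hb, add_zero]
    · intro hx
      ext y
      rw [LinearMap.zero_apply, h1, mem_an]
      intro z hz
      rw [mul_assoc]
      apply hx
      have h3 : m ^ 3 = m * m ^ 2 := by rw [pow_succ', pow_two]
      rw [h3]
      exact Ideal.mul_mem_mul (hM1m y) hz
  refine ⟨M1 ⧸ LinearMap.ker mu0, M2 ⧸ LinearMap.ker P2, inferInstance, inferInstance,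
    inferInstance, inferInstance, inferInstance, inferInstance, ?_, ?_, ⟨?_⟩⟩
  · have h1 := finrank_quot m (an m 3) (LinearMap.ker mu0) hker1
    have h2 := rr_symm h 1 3
    have h3 := rr_one h (i := 3) (by omega)
    have h4 : rr k m 1 3 = finrank k ↥m - finrank k ↥(m ⊓ an m 3) := by
      unfold rr
      rw [pow_one]
    rw [h1, ← h4, h2, h3]
  · exact finrank_quot (m ^ 2) (an m 2) (LinearMap.ker P2) hker2
  · exact {
      mu := mu
      be := be
      mu_comm := by
        intro x y
        obtain ⟨x, rfl⟩ := Submodule.mkQ_surjective _ x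
        obtain ⟨y, rfl⟩ := Submodule.mkQ_surjective _ y
        rw [hmu, hmu, hmu0s]
      be_comm := by
        intro x y
        obtain ⟨x, rfl⟩ := Submodule.mkQ_surjective _ x
        obtain ⟨y, rfl⟩ := Submodule.mkQ_surjective _ y
        rw [hbe, hbe, hP2s]
      nondeg := by
        intro x hx
        obtain ⟨x, rfl⟩ := Submodule.mkQ_surjective _ x
        rw [Submodule.mkQ_apply, Submodule.Quotient.mk_eq_zero, LinearMap.mem_ker]
        ext y
        rw [LinearMap.zero_apply, ← hbe]
        exact hx _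
      symm4 := by
        intro x y z w
        obtain ⟨x, rfl⟩ := Submodule.mkQ_surjective _ x
        obtain ⟨y, rfl⟩ := Submodule.mkQ_surjective _ y
        obtain ⟨z, rfl⟩ := Submodule.mkQ_surjective _ z
        obtain ⟨w, rfl⟩ := Submodule.mkQ_surjective _ w
        simp only [hmu, hmu0, hbe, hP2, hpr]
        congr 1
        ring
      span := by
        rw [eq_top_iff]
        rintro u -
        obtain ⟨⟨u, hu⟩, rfl⟩ := Submodule.mkQ_surjective _ u
        have hu' : u ∈ m * m := by
          have : u ∈ m ^ 2 := hu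
          rwa [pow_two] at this
        revert hu
        induction hu' using Submodule.mul_induction_on' with
        | mem_mul_mem x hx y hy =>
          intro hu
          refine Submodule.subset_span ⟨(LinearMap.ker mu0).mkQ ⟨x, hx⟩,
            (LinearMap.ker mu0).mkQ ⟨y, hy⟩, ?_⟩
          rw [hmu, hmu0]
          rfl
        | add a ha b hb iha ihb =>
          intro hu
          have ha' : a ∈ M2 := by
            change a ∈ m ^ 2
            rw [pow_two]
            exact ha
          have hb' : b ∈ M2 := by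
            change b ∈ m ^ 2
            rw [pow_two]
            exact hb
          have h1 := Submodule.add_mem _ (iha ha') (ihb hb')
          rw [← map_add] at h1
          exact h1
      faithful := by
        intro x hx
        obtain ⟨x, rfl⟩ := Submodule.mkQ_surjective _ x
        rw [Submodule.mkQ_apply, Submodule.Quotient.mk_eq_zero, LinearMap.mem_ker]
        ext y
        rw [LinearMap.zero_apply, ← hmu]
        exact hx _ }

end SocDeg
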