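import Pool.Agent.Lib_MP_badd8c_sd.PairN1

/-! # Case II, piece Gen: existence of generic sequences -/

namespace SocDeg

open Module Filter

variable {k V W : Type*} [Field k] [Infinite k] [AddCommGroup V] [Module k V] [AddCommGroup W]
  [Module k W] [FiniteDimensional k V] [FiniteDimensional k W]

namespace FormData

variable (Q : FormData k V W)

private theorem T_congr' (P : Submodule k V) (U : Submodule k W) {m m' : ℕ → V} {i : ℕ}
    (h : ∀ j < i, m j = m' j) : Q.T P U m i = Q.T P U m' i := by
  induction i with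
  | zero => rfl
  | succ i ih =>
    have h1 : Q.T P U m (i + 1) = Q.kerMod (Q.T P U m i) U (m i) := rfl
    have h2 : Q.T P U m' (i + 1) = Q.kerMod (Q.T P U m' i) U (m' i) := rfl
    rw [h1, h2, ih (fun j hj => h j (by omega)), h i (by omega)]

private theorem seqU_congr' (U₀ : Submodule k W) {m m' : ℕ → V} {i : ℕ}
    (h : ∀ j < i, m j = m' j) : Q.seqU U₀ m i = Q.seqU U₀ m' i := by
  induction i with
  | zero => rfl
  | succ i ih =>
    have h1 : Q.seqU U₀ m (i + 1) = Q.seqU U₀ m i ⊔ Q.mV (m i) := rfl
    have h2 : Q.seqU U₀ m' (i + 1) = Q.seqU U₀ m' i ⊔ Q.mV (m' i) := rfl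
    rw [h1, h2, ih (fun j hj => h j (by omega)), h i (by omega)]

/-- PROOF: `exists_seq` with `O m i` = the set of `x` such that
 (1) `x` is maximal for `famU (seqU (U0 P P') m i)`;
 (2) `x` is maximal for `fam T_i (perp (PV P'))`, `T_i = T P (perp (PV P')) m i`;
 (3) `∃ y, (x, y)` is a maximal pair for `om T_i P'`;
 (4) if `i ≥ 1`: `(m (i-1), x)` is a maximal pair for `om T_(i-1) P'`;
 (5) if `i = 0`: `x` is maximal for `fam P' (perp (PV P))`.
All depend only on `m j`, `j < i`.  Each is a good set (`good_isMax`, `good_fst`, `good_snd`) and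
nonempty (`exists_isMax`; (4): by (3) for `m (i-1)`, which is given by the hypothesis of `hne`), and
finite intersections of nonempty good sets are nonempty. -/
theorem exists_GenPair (P P' : Submodule k V) : ∃ m : ℕ → V, Q.GenPair P P' m := by
  classical
  set U' : Submodule k W := Q.perp (Q.PV P') with hU'
  let O1 : (ℕ → V) → ℕ → Set V := fun m i =>
    {x | IsMax (fun x => Q.famU (Q.seqU (Q.U0 P P') m i) x) x}
  let O2 : (ℕ → V) → ℕ → Set V := fun m i =>
    {x | IsMax (fun x => Q.fam (Q.T P U' m i) U' x) x}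
  let O3 : (ℕ → V) → ℕ → Set V := fun m i =>
    {x | ∃ y, IsMax (fun p : V × V => Q.om (Q.T P U' m i) P' p.1 p.2) (x, y)}
  let O4 : (ℕ → V) → ℕ → Set V := fun m i =>
    match i with
    | 0 => {x | IsMax (fun x => Q.fam P' (Q.perp (Q.PV P)) x) x}
    | j + 1 => {x | IsMax (fun p : V × V => Q.om (Q.T P U' m j) P' p.1 p.2) (m j, x)}
  obtain ⟨m, hm⟩ := exists_seq (X := V) (fun m i => O1 m i ∩ (O2 m i ∩ (O3 m i ∩ O4 m i)))
    (by
      intro m m' i h
      have e1 : O1 m i = O1 m' i := by
        simp only [O1]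
        rw [Q.seqU_congr' (Q.U0 P P') h]
      have e2 : O2 m i = O2 m' i := by
        simp only [O2]
        rw [Q.T_congr' P U' h]
      have e3 : O3 m i = O3 m' i := by
        simp only [O3]
        rw [Q.T_congr' P U' h]
      have e4 : O4 m i = O4 m' i := by
        cases i with
        | zero => rfl
        | succ j =>
          simp only [O4]
          rw [Q.T_congr' P U' (fun l hl => h l (Nat.lt_succ_of_lt hl)),
            h j (Nat.lt_succ_self j)]
      simp only [e1, e2, e3, e4])
    (by
      intro m i h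
      have g1 : Good (k := k) (O1 m i) := good_isMax (Q.famU (Q.seqU (Q.U0 P P') m i))
      have g2 : Good (k := k) (O2 m i) := good_isMax (Q.fam (Q.T P U' m i) U')
      have g3 : Good (k := k) (O3 m i) := good_fst (Q.om (Q.T P U' m i) P')
      have g4 : Good (k := k) (O4 m i) := by
        cases i with
        | zero => exact good_isMax (Q.fam P' (Q.perp (Q.PV P)))
        | succ j => exact good_snd (Q.om (Q.T P U' m j) P') (m j)
      have n1 : (O1 m i).Nonempty := exists_isMax (fun x => Q.famU (Q.seqU (Q.U0 P P') m i) x)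
      have n2 : (O2 m i).Nonempty := exists_isMax (fun x => Q.fam (Q.T P U' m i) U' x)
      have n3 : (O3 m i).Nonempty := by
        obtain ⟨p, hp⟩ := exists_isMax (fun p : V × V => Q.om (Q.T P U' m i) P' p.1 p.2)
        exact ⟨p.1, p.2, hp⟩
      have n4 : (O4 m i).Nonempty := by
        cases i with
        | zero => exact exists_isMax (fun x => Q.fam P' (Q.perp (Q.PV P)) x)
        | succ j =>
          obtain ⟨y, hy⟩ := (h j (Nat.lt_succ_self j)).2.2.1
          exact ⟨y, hy⟩
      exact g1.inter_nonempty (g2.inter (g3.inter g4)) n1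
        (g2.inter_nonempty (g3.inter g4) n2 (g3.inter_nonempty g4 n3 n4)))
  refine ⟨m, ⟨fun i => (hm i).1, fun i => (hm i).2.1, fun i => (hm (i + 1)).2.2.2,
    (hm 0).2.2.2⟩⟩

end FormData

end SocDeg
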