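import Pool.Agent.Lib_MP_badd8c_sd.PairN1

/-! # Case II, piece N-d: `τ_i ≤ ω_i λ_i` -/

namespace SocDeg

open Module Filter

variable {k V W : Type*} [Field k] [AddCommGroup V] [Module k V] [AddCommGroup W]
  [Module k W] [FiniteDimensional k V] [FiniteDimensional k W]

namespace FormData

variable (Q : FormData k V W)

/-- `be (w w') u = 0` for `u ∈ seqU j`, `j ≤ i`, `w ∈ T_i`, `w' ∈ P'`. -/
private theorem be_seqU {P P' : Submodule k V} {m : ℕ → V} {i : ℕ}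
    (hsq' : ∀ z ∈ P', ∀ z₁ ∈ P', Q.mu z z₁ = 0) {w w' : V}
    (hw : w ∈ Q.T P (Q.perp (Q.PV P')) m i) (hw' : w' ∈ P') :
    ∀ j, j ≤ i → Q.seqU (Q.U0 P P') m j ≤ LinearMap.ker (Q.be (Q.mu w w')) := by
  intro j
  induction j with
  | zero =>
    intro _
    show Q.perp (Q.PV P) ⊔ Q.PV P' ≤ _
    refine sup_le ?_ ?_
    · intro u hu
      rw [LinearMap.mem_ker]
      exact hu _ (Q.mul_mem_PV (Q.T_le P _ m i hw) w')
    · rw [Q.PV_le]
      intro z hz y
      rw [LinearMap.mem_ker, Q.mu_comm w w', Q.symm4, hsq' w' hw' z hz, map_zero,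
        LinearMap.zero_apply]
  | succ j ih =>
    intro hj
    show Q.seqU (Q.U0 P P') m j ⊔ Q.mV (m j) ≤ _
    refine sup_le (ih (by omega)) ?_
    rintro _ ⟨y, rfl⟩
    rw [LinearMap.mem_ker, Q.symm4, Q.mu_comm w (m j), Q.be_comm]
    have h1 : Q.mu (m j) w ∈ Q.perp (Q.PV P') := Q.mul_mem_of_mem_T (by omega) hw
    exact h1 _ (Q.mul_mem_PV hw' y)

/-- (iii).  PROOF.  `T_i := T P (perp (PV P')) m i`, `G : V → (T_i → Dual P')`,
`G x' = om T_i P' (m i) x'`.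
(1) `rk G ≤ lam i`: `G` factors through `x' ↦ mkQ (m_i x') ∈ W/seqU_i`, i.e. if
`m_i x' ∈ seqU (U0 P P') m i` then `G x' = 0`.  In fact for every `u ∈ seqU i`, `w ∈ T_i`, `w' ∈ P'`:
`be (w w') u = 0`: for `u ∈ perp (PV P)` since `w w' ∈ PV P`; for `u = z'' x''` with `z'' ∈ P'`:
`be (w w') (z'' x'') = be (w' z'') (w x'') = 0` (`P'` square zero); for `u = m_j x''`, `j < i`:
`be (w w') (m_j x'') = be (m_j w) (w' x'') = 0` because `m_j w ∈ perp (PV P')`.
(2) each `rk (G x') ≤ omg i` (maximality of `(m i, m (i+1))`).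
(3) If `w ∈ T_i` and `G x' w = 0` for all `x'` then `be (m_i w) (w' x') = 0` for all `w' ∈ P'`, `x'`, so
`m_i w ∈ perp (PV P')`, i.e. `w ∈ T_(i+1)`.
By `common_kernel` (`K` = `T_(i+1)` in `T_i`): `dim T_i ≤ dim T_(i+1) + lam i * omg i`; with
`finrank_kerMod`, `tau i ≤ omg i * lam i`. -/
theorem tau_le_omg_mul_lam {P P' : Submodule k V} {m : ℕ → V} {i : ℕ}
    (hsq' : ∀ z ∈ P', ∀ z₁ ∈ P', Q.mu z z₁ = 0)
    (hm : IsMax (fun p : V × V => Q.om (Q.T P (Q.perp (Q.PV P')) m i) P' p.1 p.2)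
      (m i, m (i + 1))) :
    Q.tau P P' m i ≤ Q.omg P P' m i * Q.lam (Q.U0 P P') m i := by
  have hom : ∀ (x y : V) (z : ↥(Q.T P (Q.perp (Q.PV P')) m i)) (w : P'),
      Q.om (Q.T P (Q.perp (Q.PV P')) m i) P' x y z w = Q.be (Q.mu z w) (Q.mu x y) :=
    fun _ _ _ _ => rfl
  have hsucc : Q.T P (Q.perp (Q.PV P')) m (i + 1) =
      Q.kerMod (Q.T P (Q.perp (Q.PV P')) m i) (Q.perp (Q.PV P')) (m i) := rfl
  have hle : Q.T P (Q.perp (Q.PV P')) m (i + 1) ≤ Q.T P (Q.perp (Q.PV P')) m i :=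
    Q.T_succ_le P _ m i
  -- (1)
  have hG : finrank k (LinearMap.range (Q.om (Q.T P (Q.perp (Q.PV P')) m i) P' (m i))) ≤
      Q.lam (Q.U0 P P') m i := by
    have hker : LinearMap.ker (Q.famU (Q.seqU (Q.U0 P P') m i) (m i)) ≤
        LinearMap.ker (Q.om (Q.T P (Q.perp (Q.PV P')) m i) P' (m i)) := by
      intro x hx
      rw [LinearMap.mem_ker] at hx ⊢
      have e2 : Q.famU (Q.seqU (Q.U0 P P') m i) (m i) x =
        (Q.seqU (Q.U0 P P') m i).mkQ (Q.mu (m i) x) := rfl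
      rw [e2, Submodule.mkQ_apply, Submodule.Quotient.mk_eq_zero] at hx
      refine LinearMap.ext fun z => LinearMap.ext fun w => ?_
      rw [hom, LinearMap.zero_apply, LinearMap.zero_apply]
      exact LinearMap.mem_ker.1 (Q.be_seqU hsq' z.2 w.2 i le_rfl hx)
    have h1 : finrank k (LinearMap.range (Q.om (Q.T P (Q.perp (Q.PV P')) m i) P' (m i))) +
        finrank k (LinearMap.ker (Q.om (Q.T P (Q.perp (Q.PV P')) m i) P' (m i))) = finrank k V :=
      LinearMap.finrank_range_add_finrank_ker (V₂ := ↥(Q.T P (Q.perp (Q.PV P')) m i) →ₗ[k] Dual k P') _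
    have h2 := LinearMap.finrank_range_add_finrank_ker
      (Q.famU (Q.seqU (Q.U0 P P') m i) (m i))
    have h3 := Submodule.finrank_mono hker
    show _ ≤ finrank k (LinearMap.range (Q.famU (Q.seqU (Q.U0 P P') m i) (m i)))
    omega
  -- (2)
  have ho : ∀ x, finrank k (LinearMap.range
      (Q.om (Q.T P (Q.perp (Q.PV P')) m i) P' (m i) x)) ≤ Q.omg P P' m i :=
    fun x => hm (m i, x)
  -- (3)
  have hK : ∀ s : ↥(Q.T P (Q.perp (Q.PV P')) m i),
      (∀ x, Q.om (Q.T P (Q.perp (Q.PV P')) m i) P' (m i) x s = 0) →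
      s ∈ (Q.T P (Q.perp (Q.PV P')) m (i + 1)).comap
        (Q.T P (Q.perp (Q.PV P')) m i).subtype := by
    intro s hs
    rw [Submodule.mem_comap, Submodule.subtype_apply, hsucc]
    refine ⟨s.2, ?_⟩
    show Q.mu (m i) s ∈ Q.perp (Q.PV P')
    have h1 : Q.PV P' ≤ LinearMap.ker (Q.be (Q.mu (m i) s)) := by
      rw [Q.PV_le]
      intro w' hw' x
      have h2 := hom (m i) x s ⟨w', hw'⟩
      rw [hs x, LinearMap.zero_apply, Q.symm4, Q.mu_comm (s : V) (m i)] at h2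
      rw [LinearMap.mem_ker]
      exact h2.symm
    intro u hu
    rw [Q.be_comm]
    exact LinearMap.mem_ker.1 (h1 hu)
  have h1 := common_kernel (Q.om (Q.T P (Q.perp (Q.PV P')) m i) P' (m i)) ho hK
  have h2 : finrank k ↥((Q.T P (Q.perp (Q.PV P')) m (i + 1)).comap
      (Q.T P (Q.perp (Q.PV P')) m i).subtype) =
      finrank k (Q.T P (Q.perp (Q.PV P')) m (i + 1)) :=
    (Submodule.comapSubtypeEquivOfLe hle).finrank_eq
  have h3 := Q.finrank_kerMod (Q.T P (Q.perp (Q.PV P')) m i) (Q.perp (Q.PV P')) (m i)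
  rw [← hsucc] at h3
  have h4 : Q.tau P P' m i =
      rk (Q.fam (Q.T P (Q.perp (Q.PV P')) m i) (Q.perp (Q.PV P')) (m i)) := rfl
  rw [h2] at h1
  rw [← h4] at h3
  have h5 : finrank k (LinearMap.range (Q.om (Q.T P (Q.perp (Q.PV P')) m i) P' (m i))) *
      Q.omg P P' m i ≤ Q.omg P P' m i * Q.lam (Q.U0 P P') m i := by
    rw [mul_comm]
    exact Nat.mul_le_mul_left _ hG
  omega

end FormData

end SocDeg
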