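import Pool.Agent.Lib_MP_badd8c_sd.PairN1

/-! # Case II, piece N-f: `τ_1 + k + v ≤ dim H` -/

namespace SocDeg

open Module Filter

variable {k V W : Type*} [Field k] [AddCommGroup V] [Module k V] [AddCommGroup W]
  [Module k W] [FiniteDimensional k V] [FiniteDimensional k W]

private theorem finrank_map_add_le' {N D : Type*} [AddCommGroup N] [Module k N]
    [FiniteDimensional k N] [AddCommGroup D] [Module k D] (ψ : N →ₗ[k] D) {B A : Submodule k N}
    (hBA : B ≤ A) (hB : ∀ b ∈ B, ψ b = 0) :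
    finrank k B + finrank k (A.map ψ) ≤ finrank k A := by
  have h1 := LinearMap.finrank_range_add_finrank_ker (ψ.domRestrict A)
  have h2 : LinearMap.range (ψ.domRestrict A) = A.map ψ := LinearMap.range_domRestrict _ _
  have h3 : finrank k B ≤ finrank k (LinearMap.ker (ψ.domRestrict A)) := by
    rw [(Submodule.equivMapOfInjective A.subtype A.subtype_injective
      (LinearMap.ker (ψ.domRestrict A))).finrank_eq]
    refine Submodule.finrank_mono ?_
    intro b hb
    exact ⟨⟨b, hBA hb⟩, by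
      rw [SetLike.mem_coe, LinearMap.mem_ker]; exact hB b hb, rfl⟩
  rw [h2] at h1
  omega

/-- `dim (A → N/U) + dim (A ∩ U) = dim A`. -/
private theorem finrank_map_mkQ {N : Type*} [AddCommGroup N] [Module k N]
    [FiniteDimensional k N] (A U : Submodule k N) :
    finrank k (A.map U.mkQ) + finrank k ↥(A ⊓ U) = finrank k A := by
  have h1 := LinearMap.finrank_range_add_finrank_ker (U.mkQ.domRestrict A)
  have h2 : LinearMap.range (U.mkQ.domRestrict A) = A.map U.mkQ := LinearMap.range_domRestrict _ _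
  have h3 : finrank k (LinearMap.ker (U.mkQ.domRestrict A)) = finrank k ↥(A ⊓ U) := by
    rw [(Submodule.equivMapOfInjective A.subtype A.subtype_injective
      (LinearMap.ker (U.mkQ.domRestrict A))).finrank_eq]
    have : Submodule.map A.subtype (LinearMap.ker (U.mkQ.domRestrict A)) = A ⊓ U := by
      ext x
      constructor
      · rintro ⟨y, hy, rfl⟩
        refine ⟨y.2, ?_⟩
        have hy' : U.mkQ (y : N) = 0 := hy
        rwa [Submodule.mkQ_apply, Submodule.Quotient.mk_eq_zero] at hy'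
      · rintro ⟨hx, hxU⟩
        refine ⟨⟨x, hx⟩, ?_, rfl⟩
        show U.mkQ x = 0
        rwa [Submodule.mkQ_apply, Submodule.Quotient.mk_eq_zero]
    rw [this]
  rw [h2, h3] at h1
  exact h1

namespace FormData

variable (Q : FormData k V W)

omit [FiniteDimensional k V] [FiniteDimensional k W] in
private theorem rk_fam_eq' (S : Submodule k V) (U : Submodule k W) (x : V) :
    rk (Q.fam S U x) = finrank k (S.map (Q.famU U x)) := by
  have : LinearMap.range (Q.fam S U x) = S.map (Q.famU U x) := LinearMap.range_domRestrict _ _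
  unfold rk
  rw [this]

/-- `u ↦ (w' ↦ be u (x w'))`. -/
private def chi (P' : Submodule k V) (x : V) : W →ₗ[k] Dual k P' :=
  ((Q.be.flip.comp (Q.mu x)).flip).compl₂ P'.subtype

private theorem chi_apply (P' : Submodule k V) (x : V) (u : W) (w' : P') :
    Q.chi P' x u w' = Q.be u (Q.mu x w') := rfl

/-- `ψ : W/(PV P')^⊥ → Dual P'`, `u ↦ (w' ↦ be u (x w'))`. -/
private noncomputable def psi' (P' : Submodule k V) (x : V) :
    (W ⧸ Q.perp (Q.PV P')) →ₗ[k] Dual k P' :=
  Submodule.liftQ _ (Q.chi P' x) (by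
      intro u hu
      rw [LinearMap.mem_ker]
      refine LinearMap.ext fun w' => ?_
      show Q.be u (Q.mu x w') = 0
      rw [Q.be_comm]
      exact hu _ (by rw [Q.mu_comm]; exact Q.mul_mem_PV w'.2 x))

/-- the rank of `H → Dual P'` is that of `P' → W/H^⊥`. -/
private theorem rk_chi (H : Submodule k W) (P' : Submodule k V) (x : V) :
    finrank k (H.map (Q.chi P' x)) = rk (Q.fam P' (Q.perp H) x) := by
  classical
  let A : H →ₗ[k] Dual k P' := (Q.chi P' x).domRestrict H
  have hA : LinearMap.range A = H.map (Q.chi P' x) := LinearMap.range_domRestrict _ _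
  -- `W/H^⊥ → Dual H` is injective
  let j : (W ⧸ Q.perp H) →ₗ[k] Dual k H :=
    Submodule.liftQ _ ((Q.be.flip).compl₂ H.subtype) (by
      intro u hu
      rw [LinearMap.mem_ker]
      exact LinearMap.ext fun h => hu h h.2)
  have hj : Function.Injective j := by
    rw [← LinearMap.ker_eq_bot, LinearMap.ker_eq_bot']
    intro q hq
    obtain ⟨u, rfl⟩ := Submodule.mkQ_surjective _ q
    rw [Submodule.mkQ_apply, Submodule.Quotient.mk_eq_zero]
    intro h hh
    exact LinearMap.congr_fun hq ⟨h, hh⟩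
  have hcomp : j ∘ₗ (Q.fam P' (Q.perp H) x) = A.dualMap ∘ₗ (Dual.eval k P') := by
    refine LinearMap.ext fun w' => LinearMap.ext fun h => ?_
    rfl
  have hr1 : LinearMap.range (j ∘ₗ (Q.fam P' (Q.perp H) x))
      = (LinearMap.range (Q.fam P' (Q.perp H) x)).map j := LinearMap.range_comp _ _
  have hr2 : LinearMap.range (A.dualMap ∘ₗ (Dual.eval k P')) = LinearMap.range A.dualMap := by
    rw [LinearMap.range_comp, LinearMap.range_eq_top.mpr, Submodule.map_top]
    exact (Module.evalEquiv k P').surjective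
  rw [← hA, ← LinearMap.finrank_range_dualMap_eq_finrank_range, ← hr2, ← hcomp, hr1]
  exact (Submodule.equivMapOfInjective j hj _).finrank_eq.symm

/-- (i).  PROOF.  `H = PV P`, `H' = PV P'`.  `B := ` image of `T_1` under `m_1 = m 1` in
`Hbar := H/(H ∩ perp H')` (`m_1 w ∈ H`), `dim B = tau 1`, `dim Hbar = dim H - v`.
`ψ : Hbar → Dual P'`, `h ↦ (w' ↦ be h (m_0 w'))`; its rank is that of the pairing
`H × m_0 P'`, i.e. of the dual map `P' → W/perp H`, `w' ↦ m_0 w'`: `rk ψ = rk (fam P' (perp H) (m 0))`.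
`ψ B = 0`: `be (m_1 w) (m_0 w') = be (m_0 w) (m_1 w') = 0` for `w ∈ T_1` (`m_0 w ∈ perp H'`).
So `dim B + rk ψ ≤ dim Hbar`. -/
theorem tau_one_add (P P' : Submodule k V) (m : ℕ → V) :
    Q.tau P P' m 1 + rk (Q.fam P' (Q.perp (Q.PV P)) (m 0)) +
      finrank k ↥(Q.PV P ⊓ Q.perp (Q.PV P')) ≤ finrank k (Q.PV P) := by
  have h1 := finrank_map_mkQ (k := k) (Q.PV P) (Q.perp (Q.PV P'))
  have h2 : ((Q.PV P).map (Q.perp (Q.PV P')).mkQ).map (Q.psi' P' (m 0))
      = (Q.PV P).map (Q.chi P' (m 0)) := by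
    rw [← Submodule.map_comp]
    congr 1
  have h3 : finrank k ((Q.T P (Q.perp (Q.PV P')) m 1).map (Q.famU (Q.perp (Q.PV P')) (m 1)))
      + finrank k (((Q.PV P).map (Q.perp (Q.PV P')).mkQ).map (Q.psi' P' (m 0)))
      ≤ finrank k ((Q.PV P).map (Q.perp (Q.PV P')).mkQ) := by
    refine finrank_map_add_le' _ ?_ ?_
    · rintro _ ⟨w, hw, rfl⟩
      refine ⟨Q.mu (m 1) w, ?_, rfl⟩
      rw [Q.mu_comm]
      exact Q.mul_mem_PV (Q.T_le _ _ _ _ hw) _
    · rintro _ ⟨w, hw, rfl⟩
      refine LinearMap.ext fun w' => ?_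
      show Q.be (Q.mu (m 1) w) (Q.mu (m 0) w') = 0
      have hw1 : Q.mu (m 0) w ∈ Q.perp (Q.PV P') := Q.mul_mem_of_mem_T (Nat.zero_lt_one) hw
      rw [Q.symm4' (m 1) w (m 0) w']
      exact hw1 _ (by rw [Q.mu_comm]; exact Q.mul_mem_PV w'.2 _)
  rw [h2, rk_chi] at h3
  unfold tau
  rw [rk_fam_eq']
  omega

end FormData

end SocDeg
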