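import Pool.Agent.Lib_MP_badd8c_sd.PairN1

/-! # Case II, piece N-g: `ω_1 + 1 ≤ ω_0` if `T'_1` is not in `L P` -/

namespace SocDeg

open Module Filter

variable {k V W : Type*} [Field k] [Infinite k] [AddCommGroup V] [Module k V] [AddCommGroup W]
  [Module k W] [FiniteDimensional k V] [FiniteDimensional k W]

omit [Infinite k] in
private theorem one_le_rk_iff {S N : Type*} [AddCommGroup S] [Module k S] [AddCommGroup N]
    [Module k N] [FiniteDimensional k N] (f : S →ₗ[k] N) : 1 ≤ rk f ↔ f ≠ 0 := by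
  unfold rk
  constructor
  · rintro h rfl
    rw [LinearMap.range_zero, finrank_bot] at h
    omega
  · intro h
    have : 0 < finrank k (LinearMap.range f) := by
      rw [Nat.pos_iff_ne_zero]
      intro h0
      rw [Submodule.finrank_eq_zero] at h0
      exact h (LinearMap.range_eq_bot.mp h0)
    omega

namespace FormData

variable (Q : FormData k V W)

/-- the zero block -/
private theorem zero_block {P P' : Submodule k V} {m0 : V}
    (hm : IsMax (fun x => Q.fam P (Q.perp (Q.PV P')) x) m0) {w w' : V}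
    (hw : w ∈ Q.kerMod P (Q.perp (Q.PV P')) m0) (hw' : w' ∈ Q.kerMod P' (Q.perp (Q.PV P)) m0)
    (x x' : V) : Q.be (Q.mu w w') (Q.mu x x') = 0 := by
  have h0 : Q.fam P (Q.perp (Q.PV P')) m0 ⟨w, hw.1⟩ = 0 := by
    show (Q.perp (Q.PV P')).mkQ (Q.mu m0 w) = 0
    rw [Submodule.mkQ_apply, Submodule.Quotient.mk_eq_zero]
    exact hw.2
  obtain ⟨w1, hw1⟩ := first_order (Q.fam P (Q.perp (Q.PV P'))) hm h0 x
  have h1 : Q.mu m0 w1 - Q.mu x w ∈ Q.perp (Q.PV P') := by
    have h2 : (Q.perp (Q.PV P')).mkQ (Q.mu m0 w1) = (Q.perp (Q.PV P')).mkQ (Q.mu x w) := hw1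
    rwa [Submodule.mkQ_apply, Submodule.mkQ_apply, Submodule.Quotient.eq] at h2
  have h3 : Q.be (Q.mu w' x') (Q.mu m0 w1 - Q.mu x w) = 0 := h1 _ (Q.mul_mem_PV hw'.1 x')
  rw [map_sub, sub_eq_zero] at h3
  -- `be (w' x') (m0 w1) = be (m0 w') (x' w1) = 0`
  have h4 : Q.be (Q.mu w' x') (Q.mu m0 w1) = 0 := by
    rw [Q.symm4, Q.mu_comm w' m0, Q.mu_comm x' w1, Q.be_comm]
    exact hw'.2 _ (Q.mul_mem_PV w1.2 x')
  rw [Q.symm4, Q.mu_comm w x, Q.be_comm, ← h3, h4]

/-- (iv).  PROOF.  `H = PV P`, `H' = PV P'`, `T_1 = kerMod P (perp H') (m 0)`,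
`T'_1 = kerMod P' (perp H) (m 0)`.
ZERO BLOCK: for `w ∈ T_1`, `w' ∈ T'_1`, all `x, x'`: `be (w w') (x x') = 0`.  By `first_order` for the
family `fam P (perp H')` (`m 0` maximal, `fam P (perp H') (m 0) w = 0`): `x w = m_0 w₁ + u`,
`w₁ ∈ P`, `u ∈ perp H'`.  `be (w w') (x x') = be (x w) (x' w') = be (m_0 w₁) (x' w') + 0
= be (m_0 w') (x' w₁) = 0` since `m_0 w' ∈ perp H` and `x' w₁ ∈ H`.
Take `(x, x')` for which both `om T_1 P' x x'` and `om P T'_1 x x'` have maximal rank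
(`good_isMax₂`, `exists_isMax`, `Good.inter_nonempty`).  The second is `≥ 1`: some `w' ∈ T'_1`,
`w ∈ P` have `w w' ≠ 0`, hence `be (w w') (x x') ≠ 0` for some `x, x'` (`eq_zero_of_be_mu`).
The first is `≥ omg 1 = rk (om T_1 P' (m 1) (m 2))`.  By `rk_zero_block` with
`B = om P P' x x'`, `T = T_1` (as a subspace of `P`), `T' = T'_1` (of `P'`):
`omg 0 ≥ rk (om P P' x x') ≥ omg 1 + 1` (maximality of `(m 0, m 1)`, `T P _ m 0 = P`). -/
theorem omg_one_add_one_le {P P' : Submodule k V} {m : ℕ → V}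
    (hm : IsMax (fun x => Q.fam P (Q.perp (Q.PV P')) x) (m 0))
    (hm2 : IsMax (fun p : V × V => Q.om P P' p.1 p.2) (m 0, m 1))
    (hne : ¬ Q.kerMod P' (Q.perp (Q.PV P)) (m 0) ≤ Q.L P) :
    Q.omg P P' m 1 + 1 ≤ Q.omg P P' m 0 := by
  classical
  set T1 : Submodule k V := Q.kerMod P (Q.perp (Q.PV P')) (m 0) with hT1
  set T1' : Submodule k V := Q.kerMod P' (Q.perp (Q.PV P)) (m 0) with hT1'
  -- a pair of maximal rank for both families
  obtain ⟨p, hp1, hp2⟩ : ({p : V × V | IsMax (fun x : V × V => Q.om T1 P' x.1 x.2) p} ∩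
      {p : V × V | IsMax (fun x : V × V => Q.om P T1' x.1 x.2) p}).Nonempty :=
    Good.inter_nonempty (good_isMax₂ (Q.om T1 P')) (good_isMax₂ (Q.om P T1'))
      (exists_isMax (fun x : V × V => Q.om T1 P' x.1 x.2))
      (exists_isMax (fun x : V × V => Q.om P T1' x.1 x.2))
  -- the second family has rank at least one
  have h2 : Q.om P T1' p.1 p.2 ≠ 0 := by
    rw [← one_le_rk_iff]
    obtain ⟨w', hw', hnot⟩ := Set.not_subset.mp hne
    have hnot' : ∃ z ∈ P, Q.mu w' z ≠ 0 := by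
      by_contra hcon
      push_neg at hcon
      exact hnot hcon
    obtain ⟨z, hz, hzne⟩ := hnot'
    have : ∃ y y', Q.be (Q.mu z w') (Q.mu y y') ≠ 0 := by
      by_contra hcon
      push_neg at hcon
      apply hzne
      rw [Q.mu_comm]
      exact Q.eq_zero_of_be_mu hcon
    obtain ⟨y, y', hyy⟩ := this
    refine le_trans ?_ (hp2 (y, y'))
    rw [one_le_rk_iff]
    intro h0
    apply hyy
    have := LinearMap.congr_fun (LinearMap.congr_fun h0 ⟨z, hz⟩) ⟨w', hw'⟩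
    exact this
  have h1 : Q.omg P P' m 1 ≤ rk (Q.om T1 P' p.1 p.2) := hp1 (m 1, m 2)
  have h3 : rk (Q.om P P' p.1 p.2) ≤ Q.omg P P' m 0 := hm2 p
  have hz := rk_zero_block (Q.om P P' p.1 p.2) (T1.comap P.subtype) (T1'.comap P'.subtype) (by
    intro t ht t' ht'
    exact Q.zero_block hm ht ht' p.1 p.2)
  have h4 : rk (Q.om T1 P' p.1 p.2)
      ≤ rk ((Q.om P P' p.1 p.2).domRestrict (T1.comap P.subtype)) := by
    unfold rk
    refine Submodule.finrank_mono ?_
    rintro _ ⟨z, rfl⟩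
    exact ⟨⟨⟨z, z.2.1⟩, z.2⟩, rfl⟩
  have h5 : 1 ≤ rk ((Dual.transpose (R := k) (T1'.comap P'.subtype).subtype) ∘ₗ
      (Q.om P P' p.1 p.2)) := by
    rw [one_le_rk_iff]
    intro h0
    apply h2
    refine LinearMap.ext fun z => LinearMap.ext fun w' => ?_
    have := LinearMap.congr_fun (LinearMap.congr_fun h0 z)
      (⟨⟨w', w'.2.1⟩, w'.2⟩ : (T1'.comap P'.subtype))
    exact this
  omega

end FormData

end SocDeg
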