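import Pool.Agent.Lib_MP_badd8c_sd.PairN2
import Pool.Agent.Lib_MP_badd8c_sd.PairN3
import Pool.Agent.Lib_MP_badd8c_sd.PairN4
import Pool.Agent.Lib_MP_badd8c_sd.PairN5
import Pool.Agent.Lib_MP_badd8c_sd.PairGen

/-! # Case II: the core inequality -/

namespace SocDeg

open Module Filter

variable {k V W : Type*} [Field k] [Infinite k] [AddCommGroup V] [Module k V] [AddCommGroup W]
  [Module k W] [FiniteDimensional k V] [FiniteDimensional k W]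

namespace FormData

variable (Q : FormData k V W)

/-- Core of case II under `k' ≤ k`: every rank `P → W/H'^⊥` is at most the maximal rank
`P' → W/H^⊥`.  PROOF.  `v := dim (PV P ⊓ perp (PV P'))` (`= dim (PV P' ⊓ perp (PV P))`,
`finrank_inf_perp_comm`, `yH`, `yH'`).  Let `m` be a generic sequence (`exists_GenPair`),
`λ = lam (U0 P P') m`, `τ = tau P P' m`, `ω = omg P P' m`, `k₀ = rk (fam P' (perp (PV P)) (m 0))`,
`τ 0 = rk (fam P (perp (PV P')) (m 0)) ≤ k₀` by `hle`.  Take `N ≥ 2` large (`pair_summary`,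
`tau_summary`).
Case B: `kerMod P' (perp (PV P)) (m 0)` is not in `L P`.  `ω 1 + 1 ≤ ω 0`, `τ 1 + ω 0 ≤ τ 0`,
`τ 2 + ω 1 ≤ τ 1`, `ω 2 ≤ ω 1`: `τ 2 + 2 ω 2 + 1 ≤ τ 0 ≤ k₀`; `v + k₀ + λ 0 ≤ b` (`Pair.bound`),
`v = ∑ λ`.  `NL` (with `tau_le_omg_mul_lam`, `tau_succ_add_omg`, `lam_succ`):
`∑ i λ i + ∑_{2≤i<N} τ i ≤ E b`.
`dim P = dim (P ⊓ L P') + ∑_{i<N} τ i ≤ ∑ (i+1) λ i + τ 0 + τ 1 + ∑_{2≤i<N} τ i`
and `v + τ 0 + τ 1 ≤ v + k₀ + τ 1 ≤ y` (`tau_one_add`).  So `dim P ≤ y + E b`.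
Case A: it is in `L P`.  Exchange the roles: let `n` be a sequence with `GenU (U0 P' P) n`
(`exists_GenU`), `λ' = lam (U0 P' P) n`.  `dim P' = dim (P' ⊓ L P) + k₀` (`finrank_kerMod`; the kernel of
`m 0` is `P' ⊓ L P`, use `mem_L_iff`), `dim (P' ⊓ L P) ≤ ∑ (i+1) λ' i`, `∑ λ' = v`,
`v + 1 + λ' 0 ≤ b` (`Pair.symm`, `Pair.bound`, `Pair.pos`), so `NL1`: `∑ i λ' i ≤ E b`;
`k₀ + v ≤ y` (`rk_fam_le`).  `dim P = dim P' ≤ v + E b + k₀ ≤ y + E b`. -/
theorem core_II_le {P P' : Submodule k V} {b y : ℕ} (h : Q.Pair P P' b y)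
    (hle : ∀ x₀, IsMax (fun x => Q.fam P' (Q.perp (Q.PV P)) x) x₀ →
      ∀ x, rk (Q.fam P (Q.perp (Q.PV P')) x) ≤ rk (Q.fam P' (Q.perp (Q.PV P)) x₀)) :
    finrank k P ≤ y + E b := by
  obtain ⟨m, hm⟩ := Q.exists_GenPair P P'
  have hv := Q.finrank_inf_perp_comm (Q.PV P) (Q.PV P')
  rw [h.yH, h.yH'] at hv
  have hv' : finrank k ↥(Q.PV P ⊓ Q.perp (Q.PV P')) =
    finrank k ↥(Q.PV P' ⊓ Q.perp (Q.PV P)) := by omega
  by_cases hcase : Q.kerMod P' (Q.perp (Q.PV P)) (m 0) ≤ Q.L P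
  · -- Case A
    obtain ⟨n, hn⟩ := Q.exists_GenU (Q.U0 P' P)
    obtain ⟨N₀, hN₀⟩ := Q.pair_summary hn
    obtain ⟨hN1, hN2, hN3⟩ := hN₀ N₀ le_rfl
    have hker : Q.kerMod P' (Q.perp (Q.PV P)) (m 0) = P' ⊓ Q.L P := by
      apply le_antisymm
      · exact le_inf inf_le_left hcase
      · exact le_inf inf_le_left (fun w hw => (Q.mem_L_iff.1 hw.2) (m 0))
    have hd := Q.finrank_kerMod P' (Q.perp (Q.PV P)) (m 0)
    rw [hker] at hd
    obtain ⟨x₁, hx₁⟩ := h.pos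
    have hbd := h.symm.bound Q x₁ (n 0)
    have hlam0 : Q.lam (Q.U0 P' P) n 0 = rk (Q.famU (Q.U0 P' P) (n 0)) := rfl
    have hNL := NL1 (lam := Q.lam (Q.U0 P' P) n) (N := N₀) (b := b)
      (fun i => Q.lam_succ hn i) hN1 (by rw [hN2, hlam0]; omega)
    have hrf := Q.rk_fam_le P P' (m 0)
    rw [h.yH'] at hrf
    have hsplit : ∑ i ∈ Finset.range N₀, (i + 1) * Q.lam (Q.U0 P' P) n i =
        ∑ i ∈ Finset.range N₀, i * Q.lam (Q.U0 P' P) n i +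
          ∑ i ∈ Finset.range N₀, Q.lam (Q.U0 P' P) n i := by
      rw [← Finset.sum_add_distrib]
      exact Finset.sum_congr rfl (fun i _ => by ring)
    rw [h.fin]
    omega
  · -- Case B
    obtain ⟨N₀, hN₀⟩ := Q.pair_summary hm.genU
    obtain ⟨N₁, hN₁⟩ := Q.tau_summary hm.gen1
    set N := max (max N₀ N₁) 2 with hN
    have hNN₀ : N₀ ≤ N := le_trans (le_max_left _ _) (le_max_left _ _)
    have hNN₁ : N₁ ≤ N := le_trans (le_max_right _ _) (le_max_left _ _)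
    have hN2' : 2 ≤ N := le_max_right _ _
    obtain ⟨hN1, hN2, hN3⟩ := hN₀ N hNN₀
    obtain ⟨-, hT⟩ := hN₁ N hNN₁
    have hom := Q.omg_one_add_one_le (P := P) (P' := P') (m := m) (hm.gen1 0) (hm.gen2 0) hcase
    have ht0 := Q.tau_succ_add_omg (hm.gen1 0)
    have ht1 := Q.tau_succ_add_omg (hm.gen1 1)
    have ho1 := Q.omg_succ_le (hm.gen2 1)
    have hlam0 : Q.lam (Q.U0 P P') m 0 = rk (Q.famU (Q.U0 P P') (m 0)) := rfl
    have htau0 : Q.tau P P' m 0 = rk (Q.fam P (Q.perp (Q.PV P')) (m 0)) := rfl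
    have hk := hle (m 0) hm.gen3 (m 0)
    have hbd := h.bound Q (m 0) (m 0)
    have hone := Q.tau_one_add P P' m
    rw [h.yH] at hone
    norm_num at ht0 ht1 ho1
    have hNL := NL (lam := Q.lam (Q.U0 P P') m) (tau := Q.tau P P' m) (w := Q.omg P P' m)
      (N := N) (b := b)
      (fun i => Q.lam_succ hm.genU i) hN1
      (fun i _ => Q.tau_le_omg_mul_lam h.sq' (hm.gen2 i))
      (fun i _ => Q.tau_succ_add_omg (hm.gen1 i))
      (by rw [hN2, hlam0]; omega)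
    have hsplit : ∑ i ∈ Finset.range N, (i + 1) * Q.lam (Q.U0 P P') m i =
        ∑ i ∈ Finset.range N, i * Q.lam (Q.U0 P P') m i +
          ∑ i ∈ Finset.range N, Q.lam (Q.U0 P P') m i := by
      rw [← Finset.sum_add_distrib]
      exact Finset.sum_congr rfl (fun i _ => by ring)
    have hsplit2 : ∑ i ∈ Finset.range N, Q.tau P P' m i =
        Q.tau P P' m 0 + Q.tau P P' m 1 + ∑ i ∈ Finset.Ico 2 N, Q.tau P P' m i := by
      rw [Finset.range_eq_Ico, ← Finset.sum_Ico_consecutive _ (Nat.zero_le 2) hN2']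
      have : ∑ i ∈ Finset.Ico 0 2, Q.tau P P' m i = Q.tau P P' m 0 + Q.tau P P' m 1 := by
        rw [← Finset.range_eq_Ico, Finset.sum_range_succ, Finset.sum_range_one]
      rw [this]
    omega

/-- PROOF: apply `core_II_le` to `(P, P')` or to `(P', P)` (`Pair.symm`). -/
theorem core_II {P P' : Submodule k V} {b y : ℕ} (h : Q.Pair P P' b y) :
    finrank k P ≤ y + E b := by
  obtain ⟨x₀, hx₀⟩ := exists_isMax (fun x : V => Q.fam P' (Q.perp (Q.PV P)) x)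
  obtain ⟨x₁, hx₁⟩ := exists_isMax (fun x : V => Q.fam P (Q.perp (Q.PV P')) x)
  rcases le_total (rk (Q.fam P (Q.perp (Q.PV P')) x₁)) (rk (Q.fam P' (Q.perp (Q.PV P)) x₀)) with
    hl | hl
  · exact Q.core_II_le h (fun x₂ hx₂ x => le_trans (hx₁ x) (le_trans hl (hx₂ x₀)))
  · rw [h.fin]
    exact Q.core_II_le h.symm (fun x₂ hx₂ x => le_trans (hx₀ x) (le_trans hl (hx₂ x₁)))

end FormData

end SocDeg
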