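import Pool.Agent.Lib_MP_badd8c_sd.Select
import Pool.Agent.Lib_MP_badd8c_sd.PairFinal

/-! # The upper bound -/

namespace SocDeg

open Module Filter

variable {k V W : Type*} [Field k] [Infinite k] [AddCommGroup V] [Module k V] [AddCommGroup W]
  [Module k W] [FiniteDimensional k V] [FiniteDimensional k W]

namespace FormData

variable (Q : FormData k V W)

/-- There is a largest `y` with `Vo y` nonempty, and then `dim K_m V = y` on `Vo y`, and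
`dim V ≤ dim W + (dim K_m - y)`. PROOF: `exists_isMax`, boundedness by `dim W`;
`finrank_K`, `finrank_PV_K`. -/
theorem exists_y : ∃ y, (Q.Vo y).Nonempty ∧ ∀ m ∈ Q.Vo y, finrank k (Q.PV (Q.K m)) = y ∧
    finrank k V + y ≤ finrank k W + finrank k (Q.K m) := by
  classical
  obtain ⟨m₀, hm₀⟩ := exists_isMax (fun x : V => Q.mu x)
  have h0 : (Q.Vo 0).Nonempty := ⟨m₀, hm₀, Nat.zero_le _⟩
  refine ⟨Nat.findGreatest (fun y => (Q.Vo y).Nonempty) (finrank k W),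
    Nat.findGreatest_spec (P := fun y => (Q.Vo y).Nonempty) (Nat.zero_le _) h0, ?_⟩
  intro m hm
  have h1 : finrank k (Q.PV (Q.K m)) =
      Nat.findGreatest (fun y => (Q.Vo y).Nonempty) (finrank k W) := by
    refine le_antisymm (not_lt.1 fun hlt => ?_) hm.2
    exact Nat.findGreatest_is_greatest (P := fun y => (Q.Vo y).Nonempty) hlt
      (Submodule.finrank_le _) ⟨m, hm.1, le_rfl⟩
  refine ⟨h1, ?_⟩
  have h2 := Q.finrank_K m
  have h3 := Q.finrank_PV_K m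
  omega

/-- Case I.  PROOF.  `KK = ⨆_{m ∈ Vo y} K m`; `KK` is square zero (`h`, `Submodule.iSup_induction`), so
`PV KK` is isotropic and `dim (PV KK) ≤ dim W / 2`.  Take `m ∈ Vo y` maximal for
`famU (perp (PV KK))` (`good_Vo`, `good_isMax`, `Good.inter_nonempty`) and apply `core_I` with
`P = K m`. -/
theorem case_I {y : ℕ} (hy : (Q.Vo y).Nonempty)
    (h : ∀ m ∈ Q.Vo y, ∀ m' ∈ Q.Vo y, ∀ z ∈ Q.K m, ∀ z' ∈ Q.K m', Q.mu z z' = 0) :
    ∃ m ∈ Q.Vo y, finrank k (Q.K m) ≤ finrank k (Q.PV (Q.K m)) + E (finrank k W / 2) := by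
  set KK : Submodule k V := ⨆ m ∈ Q.Vo y, Q.K m with hKK
  have hle : ∀ m ∈ Q.Vo y, Q.K m ≤ KK := fun m hm => le_iSup₂_of_le m hm le_rfl
  have h1 : ∀ m ∈ Q.Vo y, KK ≤ Q.L (Q.K m) := by
    intro m hm
    refine iSup₂_le fun m' hm' => ?_
    intro z' hz' z hz
    exact h m' hm' m hm z' hz' z hz
  have h2 : KK ≤ Q.L KK := by
    refine iSup₂_le fun m hm => ?_
    intro z hz z' hz'
    rw [Q.mu_comm]
    exact h1 m hm hz' z hz
  have h3 : Q.PV KK ≤ Q.perp (Q.PV KK) := Q.PV_le_perp fun z hz z' hz' => h2 hz z' hz'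
  have h4 := Q.iso_bound h3
  obtain ⟨m, hm, hmax⟩ := (Q.good_Vo y).inter_nonempty (good_isMax (Q.famU (Q.perp (Q.PV KK))))
    hy (exists_isMax (fun x : V => Q.famU (Q.perp (Q.PV KK)) x))
  refine ⟨m, hm, Q.core_I (hle m hm) (fun z hz => hz) hmax ?_⟩
  omega

/-- Case II, selection.  PROOF.  Let `c` be the largest number for which the set of `good_R` is
nonempty (ranks are bounded; it contains a pair with `c = 0` as `Vo y` is nonempty).  The set of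
`good_R'` for `c` is nonempty too (exchange the coordinates), and the set of `good_ne` is nonempty by
`h`.  Take `(m, m')` in the three sets (`Good.inter`, `Good.inter_nonempty`), `P = K m`,
`P' = K m'`, `H = PV P`, `H' = PV P'`, `dim H = dim H' = y`.  For every `x`:
`rk (famU (perp H) x) ≤ c`: take `x₀ ∈ Vo y` maximal for `famU (perp H)`; the pair `(m, x₀)` shows that
the set of `good_R` for `rk (famU (perp H) x₀)` is nonempty, so this rank is `≤ c`; the same for `H'`.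
`finrank_inf_perp_comm`: `dim (H ⊓ perp H') = dim (H' ⊓ perp H)`.  `R_bound`:
`dim (H' ⊓ perp H) + c ≤ dim W / 2`, and the same for `(m', m)`.  `K_sq` gives `sq`, `sq'`;
`finrank_K` gives `fin`. -/
theorem case_II {y : ℕ} (hy : ∀ m ∈ Q.Vo y, finrank k (Q.PV (Q.K m)) = y)
    (h : ∃ m ∈ Q.Vo y, ∃ m' ∈ Q.Vo y, ∃ z ∈ Q.K m, ∃ z' ∈ Q.K m', Q.mu z z' ≠ 0) :
    ∃ m ∈ Q.Vo y, ∃ m' ∈ Q.Vo y, Q.Pair (Q.K m) (Q.K m') (finrank k W / 2) y := by
  classical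
  obtain ⟨m₀, hm₀, m₁, hm₁, hne⟩ := h
  set R : ℕ → Set (V × V) := fun c => {p : V × V | p.1 ∈ Q.Vo y ∧ p.2 ∈ Q.Vo y ∧
    c ≤ rk (Q.famU (Q.perp (Q.PV (Q.K p.1))) p.2)} with hRdef
  have hR0 : (R 0).Nonempty := ⟨(m₀, m₁), hm₀, hm₁, Nat.zero_le _⟩
  have hRle : ∀ c, (R c).Nonempty → c ≤ finrank k W := by
    rintro c ⟨p, hp1, hp2, hp3⟩
    have h1 := Q.R_bound hp1.1 hp2.1
    have h2 : finrank k W / 2 ≤ finrank k W := Nat.div_le_self _ _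
    omega
  obtain ⟨c, hc1, hc2⟩ : ∃ c, (R c).Nonempty ∧ ∀ d, (R d).Nonempty → d ≤ c := by
    refine ⟨Nat.findGreatest (fun c => (R c).Nonempty) (finrank k W),
      Nat.findGreatest_spec (P := fun c => (R c).Nonempty) (Nat.zero_le _) hR0, ?_⟩
    intro d hd
    exact Nat.le_findGreatest (hRle d hd) hd
  obtain ⟨⟨a, a'⟩, ha, ha', hac⟩ := hc1
  have hne' : ({p : V × V | p.1 ∈ Q.Vo y ∧ p.2 ∈ Q.Vo y ∧
      ∃ z ∈ Q.K p.1, ∃ z' ∈ Q.K p.2, Q.mu z z' ≠ 0} : Set (V × V)).Nonempty :=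
    ⟨(m₀, m₁), hm₀, hm₁, hne⟩
  have g1 : (R c ∩ {p : V × V | p.1 ∈ Q.Vo y ∧ p.2 ∈ Q.Vo y ∧
      c ≤ rk (Q.famU (Q.perp (Q.PV (Q.K p.2))) p.1)}).Nonempty :=
    (Q.good_R y c).inter_nonempty (Q.good_R' y c) ⟨(a, a'), ha, ha', hac⟩
      ⟨(a', a), ha', ha, hac⟩
  obtain ⟨⟨m, m'⟩, ⟨hpR, hpR'⟩, hpne⟩ :=
    ((Q.good_R y c).inter (Q.good_R' y c)).inter_nonempty (Q.good_ne y) g1 hne'
  have hm : m ∈ Q.Vo y := hpR.1
  have hm' : m' ∈ Q.Vo y := hpR.2.1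
  have hb : ∀ n ∈ Q.Vo y, ∀ x, rk (Q.famU (Q.perp (Q.PV (Q.K n))) x) ≤ c := by
    intro n hn x
    obtain ⟨x₀, hx₀, hmax⟩ := (Q.good_Vo y).inter_nonempty
      (good_isMax (Q.famU (Q.perp (Q.PV (Q.K n))))) ⟨m, hm⟩
      (exists_isMax (fun x : V => Q.famU (Q.perp (Q.PV (Q.K n))) x))
    have h1 : rk (Q.famU (Q.perp (Q.PV (Q.K n))) x) ≤ rk (Q.famU (Q.perp (Q.PV (Q.K n))) x₀) :=
      hmax x
    exact h1.trans (hc2 _ ⟨(n, x₀), hn, hx₀, le_rfl⟩)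
  have hd := Q.finrank_inf_perp_comm (Q.PV (Q.K m)) (Q.PV (Q.K m'))
  rw [hy m hm, hy m' hm'] at hd
  have hb1 := Q.R_bound hm.1 hm'.1
  have hb2 := Q.R_bound hm'.1 hm.1
  have hc3 : c ≤ rk (Q.famU (Q.perp (Q.PV (Q.K m))) m') := hpR.2.2
  have hc4 : c ≤ rk (Q.famU (Q.perp (Q.PV (Q.K m'))) m) := hpR'.2.2
  refine ⟨m, hm, m', hm', ?_⟩
  refine ⟨Q.K_sq hm.1, Q.K_sq hm'.1, ?_, hy m hm, hy m' hm', hpne.2.2, fun x => ?_, fun x => ?_⟩
  · have h1 := Q.finrank_K m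
    have h2 := Q.finrank_K m'
    have h3 : rk (Q.mu m) ≤ rk (Q.mu m') := hm'.1 m
    have h4 : rk (Q.mu m') ≤ rk (Q.mu m) := hm.1 m'
    omega
  · have h1 := hb m hm x
    omega
  · have h1 := hb m' hm' x
    omega

/-- **Upper bound**: `s ≤ t + E(⌊t/2⌋)`. -/
theorem upper (Q : FormData k V W) : finrank k V ≤ finrank k W + E (finrank k W / 2) := by
  obtain ⟨y, hne, hy⟩ := Q.exists_y
  by_cases h : ∃ m ∈ Q.Vo y, ∃ m' ∈ Q.Vo y, ∃ z ∈ Q.K m, ∃ z' ∈ Q.K m', Q.mu z z' ≠ 0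
  · obtain ⟨m, hm, m', hm', hP⟩ := Q.case_II (fun m hm => (hy m hm).1) h
    have h1 := Q.core_II hP
    have h2 := (hy m hm).2
    omega
  · push Not at h
    obtain ⟨m, hm, h1⟩ := Q.case_I hne h
    have h2 := hy m hm
    omega

end FormData

end SocDeg
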