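import Pool.Agent.Lib_MP_badd8c_sd.LocV
import Pool.Agent.Lib_MP_badd8c_sd.LocF
import Pool.Agent.Lib_MP_badd8c_sd.Cons
import Pool.Agent.Lib_MP_badd8c_sd.BrD
import Pool.Agent.Lib_MP_badd8c_sd.Exist
import Pool.Agent.Lib_MP_badd8c_sd.Upper

/-!
# MP_badd8c: assembly
-/

namespace SocDeg

open Module

/-- Pairs (Hilbert function, symmetric decomposition). -/
def Pairs (k : Type*) [Field k] (r j : ℕ) : Set ((ℕ → ℕ) × (Fin (j - 1) → ℕ → ℕ)) :=
  {P | ∃ I : Ideal (MvPowerSeries (Fin r) k), IsAGIdeal k r j I ∧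
    P = (hilb k (mI k I), symDec k (mI k I) j)}

/-- The admissible pairs `(s,t)`. -/
def Adm (s t : ℕ) : Prop := 1 ≤ s ∧ t ≤ (s + 1).choose 2 ∧ s ≤ t + E (t / 2)

theorem pairs_four {k : Type*} [Field k] [Infinite k] (r : ℕ)
    (P : (ℕ → ℕ) × (Fin (4 - 1) → ℕ → ℕ)) :
    P ∈ Pairs k r 4 ↔ ∃ s t p q, Adm s t ∧ s + p + q = r ∧
      P = (sq [1, s + p + q, t + p, s, 1],
        ![sq [1, s, t, s, 1], sq [0, p, p, 0], sq [0, q, 0]]) := by
  constructor
  · rintro ⟨I, hI, rfl⟩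
    have hA := hI.isAG
    obtain ⟨s, t, p, q, h3, h22, h2, h1, hh, hD⟩ := values_four hA
    obtain ⟨V, W, _, _, _, _, _, _, hV, hW, ⟨Q⟩⟩ := exists_form_of_AG hA
    have e1 : finrank k V = s := by omega
    have e2 : finrank k W = t := by omega
    have hr := hI.hilb_one
    have hl : ell k (mI k I) 4 < ell k (mI k I) 3 := ell_lt hA (by omega)
    have hl4 := ell_top hA
    refine ⟨s, t, p, q, ⟨by omega, ?_, ?_⟩, ?_, ?_⟩
    · have := Q.finrank_le_choose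
      rw [e1, e2] at this
      exact this
    · have := Q.upper
      rw [e1, e2] at this
      exact this
    · rw [hh] at hr
      exact hr
    · rw [hh, hD]
  · rintro ⟨s, t, p, q, ⟨hs, ht, hst⟩, hr, rfl⟩
    obtain ⟨Q⟩ := exists_form (k := k) ht hst
    obtain ⟨hA, h3, h22, h2, h1⟩ := cons_four Q p q (by simpa using hs)
    obtain ⟨s', t', p', q', h3', h22', h2', h1', hh, hD⟩ := values_four hA
    simp only [finrank_fin_fun] at h3 h22 h2 h1
    obtain rfl : s' = s := by omega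
    obtain rfl : t' = t := by omega
    obtain rfl : p' = p := by omega
    obtain rfl : q' = q := by omega
    have hr' : hilb k (cm Q p' q') 1 = r := by
      rw [hh]
      exact hr
    obtain ⟨I, hI, e1, e2⟩ := exists_ideal hA hr'
    exact ⟨I, hI, by rw [e1, e2, hh, hD]⟩

theorem pairs_three {k : Type*} [Field k] (r : ℕ) (P : (ℕ → ℕ) × (Fin (3 - 1) → ℕ → ℕ)) :
    P ∈ Pairs k r 3 ↔ ∃ s q, 1 ≤ s ∧ s + q = r ∧
      P = (sq [1, s + q, s, 1], ![sq [1, s, s, 1], sq [0, q, 0]]) := by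
  constructor
  · rintro ⟨I, hI, rfl⟩
    obtain ⟨s, q, hs, h2, h1, hh, hD⟩ := values_three hI.isAG
    have hr := hI.hilb_one
    rw [hh] at hr
    exact ⟨s, q, hs, hr, by rw [hh, hD]⟩
  · rintro ⟨s, q, hs, hr, rfl⟩
    obtain ⟨hA, h2, h1⟩ := cons_three k q hs
    obtain ⟨s', q', hs', h2', h1', hh, hD⟩ := values_three hA
    obtain rfl : s' = s := by omega
    obtain rfl : q' = q := by omega
    have hr' : hilb k (cm (zeroForm k) s' q') 1 = r := by
      rw [hh]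
      exact hr
    obtain ⟨I, hI, e1, e2⟩ := exists_ideal hA hr'
    exact ⟨I, hI, by rw [e1, e2, hh, hD]⟩

theorem pairs_two {k : Type*} [Field k] (r : ℕ) (P : (ℕ → ℕ) × (Fin (2 - 1) → ℕ → ℕ)) :
    P ∈ Pairs k r 2 ↔ 1 ≤ r ∧ P = (sq [1, r, 1], ![sq [1, r, 1]]) := by
  constructor
  · rintro ⟨I, hI, rfl⟩
    obtain ⟨s, hs, h1, hh, hD⟩ := values_two hI.isAG
    have hr := hI.hilb_one
    rw [hh] at hr
    obtain rfl : s = r := hr
    exact ⟨hs, by rw [hh, hD]⟩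
  · rintro ⟨hr, rfl⟩
    obtain ⟨hA, h1⟩ := cons_two k hr
    obtain ⟨s', hs', h1', hh, hD⟩ := values_two hA
    obtain rfl : s' = r := by omega
    have hr' : hilb k (cm (zeroForm k) 0 s') 1 = s' := by
      rw [hh]
      rfl
    obtain ⟨I, hI, e1, e2⟩ := exists_ideal hA hr'
    exact ⟨I, hI, by rw [e1, e2, hh, hD]⟩

theorem pairs_one {k : Type*} [Field k] (r : ℕ) (P : (ℕ → ℕ) × (Fin (1 - 1) → ℕ → ℕ)) :
    P ∈ Pairs k r 1 ↔ r = 1 ∧ P.1 = sq [1, 1] := by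
  constructor
  · rintro ⟨I, hI, rfl⟩
    have hh := values_one hI.isAG
    have hr := hI.hilb_one
    rw [hh] at hr
    exact ⟨hr.symm, hh⟩
  · rintro ⟨rfl, hP⟩
    have hA := cons_one k
    have hh := values_one hA
    have hr' : hilb k (cm (zeroForm k) 0 0) 1 = 1 := by
      rw [hh]
      rfl
    obtain ⟨I, hI, e1, e2⟩ := exists_ideal hA hr'
    refine ⟨I, hI, Prod.ext (by rw [hP, e1, hh]) ?_⟩
    funext a
    exact absurd a.2 (by omega)

theorem pairs_zero {k : Type*} [Field k] (r : ℕ) (P : (ℕ → ℕ) × (Fin (0 - 1) → ℕ → ℕ)) :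
    P ∈ Pairs k r 0 ↔ r = 0 ∧ P.1 = sq [1] := by
  constructor
  · rintro ⟨I, hI, rfl⟩
    have hh := values_zero hI.isAG
    have hr := hI.hilb_one
    rw [hh] at hr
    exact ⟨hr.symm, hh⟩
  · rintro ⟨rfl, hP⟩
    have hA := cons_zero k
    have hh := values_zero hA
    have hr' : hilb k (⊥ : Ideal k) 1 = 0 := by
      rw [hh]
      rfl
    obtain ⟨I, hI, e1, e2⟩ := exists_ideal hA hr'
    refine ⟨I, hI, Prod.ext (by rw [hP, e1, hh]) ?_⟩
    funext a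
    exact absurd a.2 (by omega)

theorem pairs_indep {k : Type*} [Field k] [Infinite k] {k' : Type*} [Field k'] [Infinite k']
    (r : ℕ) {j : ℕ} (hj : j ≤ 4) : Pairs k r j = Pairs k' r j := by
  ext P
  interval_cases j
  · rw [pairs_zero, pairs_zero]
  · rw [pairs_one, pairs_one]
  · rw [pairs_two, pairs_two]
  · rw [pairs_three, pairs_three]
  · rw [pairs_four, pairs_four]

theorem symDecs_eq (k : Type*) [Field k] (r j : ℕ) : SymDecs k r j = Prod.snd '' Pairs k r j := by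
  ext D
  constructor
  · rintro ⟨I, hI, rfl⟩
    exact ⟨_, ⟨I, hI, rfl⟩, rfl⟩
  · rintro ⟨_, ⟨I, hI, rfl⟩, rfl⟩
    exact ⟨I, hI, rfl⟩

theorem hilbFns_eq (k : Type*) [Field k] (r j : ℕ) : HilbFns k r j = Prod.fst '' Pairs k r j := by
  ext D
  constructor
  · rintro ⟨I, hI, rfl⟩
    exact ⟨_, ⟨I, hI, rfl⟩, rfl⟩
  · rintro ⟨_, ⟨I, hI, rfl⟩, rfl⟩
    exact ⟨I, hI, rfl⟩

/-- The answer to Q1 and Q2 for `j ≤ 4`. -/
theorem indep {k : Type*} [Field k] [Infinite k] {k' : Type*} [Field k'] [Infinite k']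
    (r : ℕ) {j : ℕ} (hj : j ≤ 4) :
    SymDecs k r j = SymDecs k' r j ∧ HilbFns k r j = HilbFns k' r j := by
  rw [symDecs_eq, symDecs_eq, hilbFns_eq, hilbFns_eq, pairs_indep (k := k) (k' := k') r hj]
  exact ⟨rfl, rfl⟩

/-- The classification in socle degree four. -/
theorem classif {k : Type*} [Field k] [Infinite k] (r : ℕ) (D : Fin (4 - 1) → ℕ → ℕ) :
    D ∈ SymDecs k r 4 ↔ ∃ s t p q, Adm s t ∧ s + p + q = r ∧
      D = ![sq [1, s, t, s, 1], sq [0, p, p, 0], sq [0, q, 0]] := by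
  rw [symDecs_eq]
  constructor
  · rintro ⟨P, hP, rfl⟩
    rw [pairs_four] at hP
    obtain ⟨s, t, p, q, h, hr, rfl⟩ := hP
    exact ⟨s, t, p, q, h, hr, rfl⟩
  · rintro ⟨s, t, p, q, h, hr, rfl⟩
    exact ⟨_, (pairs_four r _).mpr ⟨s, t, p, q, h, hr, rfl⟩, rfl⟩

theorem classifH {k : Type*} [Field k] [Infinite k] (r : ℕ) (H : ℕ → ℕ) :
    H ∈ HilbFns k r 4 ↔ ∃ s t p q, Adm s t ∧ s + p + q = r ∧
      H = sq [1, s + p + q, t + p, s, 1] := by
  rw [hilbFns_eq]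
  constructor
  · rintro ⟨P, hP, rfl⟩
    rw [pairs_four] at hP
    obtain ⟨s, t, p, q, h, hr, rfl⟩ := hP
    exact ⟨s, t, p, q, h, hr, rfl⟩
  · rintro ⟨s, t, p, q, h, hr, rfl⟩
    exact ⟨_, (pairs_four r _).mpr ⟨s, t, p, q, h, hr, rfl⟩, rfl⟩

end SocDeg
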