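import Pool.Agent.Lib_MP_badd8c_sd.GoodSets

/-! # Piece G3: the first order lemma and kernel lifting -/

namespace SocDeg

open Module Filter

variable {k : Type*} [Field k] [Infinite k] {V S N : Type*} [AddCommGroup V] [Module k V]
  [AddCommGroup S] [Module k S] [AddCommGroup N] [Module k N]
  [FiniteDimensional k S] [FiniteDimensional k N]

omit [Infinite k] [FiniteDimensional k S] in
/-- independent images which are as many as the rank span the range -/
private theorem span_eq {f : S →ₗ[k] N} {r : ℕ} {v : Fin r → N} (hv : LinearIndependent k v)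
    (hr : rk f ≤ r) (hm : ∀ i, v i ∈ LinearMap.range f) : Submodule.span k (Set.range v) = LinearMap.range f := by
  refine Submodule.eq_of_le_of_finrank_le (Submodule.span_le.2 ?_) ?_
  · rintro _ ⟨i, rfl⟩
    exact hm i
  · rw [finrank_span_eq_card hv, Fintype.card_fin]
    exact hr

omit [Infinite k] [FiniteDimensional k N] in
private theorem exists_dual {n : Type*} [DecidableEq n] {v : n → N} (h : LinearIndependent k v) :
    ∃ l : n → N →ₗ[k] k, ∀ i j, l i (v j) = if i = j then 1 else 0 := by
  obtain ⟨g, hg⟩ := LinearMap.exists_leftInverse_of_injective (Finsupp.linearCombination k v)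
    (LinearMap.ker_eq_bot.2 h)
  refine ⟨fun i => (Finsupp.lapply i).comp g, fun i j => ?_⟩
  have h1 := LinearMap.congr_fun hg (Finsupp.single j 1)
  simp only [LinearMap.comp_apply, Finsupp.linearCombination_single, one_smul, LinearMap.id_apply] at h1
  simp [h1, Finsupp.single_apply, eq_comm]

omit [Infinite k] [FiniteDimensional k N] in
private theorem coeff_zero {n : Type*} [Fintype n] [DecidableEq n] {v : n → N} {l : n → N →ₗ[k] k}
    (h : (Matrix.of fun i j => l i (v j)).det ≠ 0) {a : n → k} (ha : ∀ i, l i (∑ j, a j • v j) = 0) : a = 0 := by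
  refine Matrix.eq_zero_of_mulVec_eq_zero h ?_
  ext i
  have h2 := ha i
  simp only [map_sum, map_smul, smul_eq_mul] at h2
  simp only [Matrix.mulVec, dotProduct, Matrix.of_apply, Pi.zero_apply]
  rw [← h2]
  exact Finset.sum_congr rfl (fun j _ => mul_comm _ _)

omit [FiniteDimensional k N] in
private theorem curve_zero {f : k → N} (hf : PolyCurve f) (h : ∀ᶠ t in cofinite, f t = 0) (t : k) : f t = 0 := by
  rw [← Module.forall_dual_apply_eq_zero_iff k]
  intro φ
  obtain ⟨P, hP⟩ := (hf.map φ).exists_poly
  have hP0 : P = 0 := by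
    by_contra hne
    have h1 := Polynomial.finite_setOfPred_isRoot hne
    have h2 : {x : k | ¬ (f x = 0)}.Finite := Filter.eventually_cofinite.1 h
    have h3 : (Set.univ : Set k) ⊆ {x | P.IsRoot x} ∪ {x : k | ¬ (f x = 0)} := by
      intro x _
      by_cases hx : f x = 0
      · left
        have h4 := hP x
        rw [hx, map_zero] at h4
        exact h4.symm
      · exact Or.inr hx
    exact Set.infinite_univ ((h1.union h2).subset h3)
  rw [hP, hP0, Polynomial.eval_zero]

/-- First order lemma.  PROOF.  Suppose `F x z ∉ range (F m)`.  Take `s : Fin ρ → S`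
(`ρ = rk (F m)`) with `F m (s i)` independent (a basis of the range); then the `ρ + 1` vectors
`F m (s i)`, `F x z` are independent, hence (`PolyCurve.linearIndependent`) for almost all `t` the
vectors `F (m + t x) (s i)`, `F x z` are independent; take such a `t ≠ 0`:
`F (m + t x) z = t F x z`, so `rk (F (m + t x)) ≥ ρ + 1`, a contradiction. -/
theorem first_order (F : V →ₗ[k] S →ₗ[k] N) {m : V} (hm : IsMax (fun x => F x) m) {z : S}
    (hz : F m z = 0) (x : V) : F x z ∈ LinearMap.range (F m) := by
  by_contra hx
  obtain ⟨s, hs⟩ := (le_rk_iff (F m) (rk (F m))).1 le_rfl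
  have hspan := span_eq hs le_rfl (fun i => LinearMap.mem_range_self (F m) (s i))
  have h0 : LinearIndependent k (Fin.cons (F x z) (fun i => F m (s i)) : Fin (rk (F m) + 1) → N) := by
    rw [linearIndependent_finCons]
    exact ⟨hs, by rw [hspan]; exact hx⟩
  let v : Fin (rk (F m) + 1) → k → N := fun i t =>
    (Fin.cons (F x z) (fun i => F (m + t • x) (s i)) : Fin (rk (F m) + 1) → N) i
  have hv : ∀ i, PolyCurve (v i) := by
    intro i
    refine Fin.cases ?_ (fun i => ?_) i
    · exact PolyCurve.const _
    · have h1 : v i.succ = fun t => F m (s i) + t • F x (s i) := by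
        funext t
        simp [v]
      rw [h1]
      exact PolyCurve.line _ _
  have hv0 : LinearIndependent k (fun i => v i 0) := by
    have h1 : (fun i => v i 0) = (Fin.cons (F x z) (fun i => F m (s i)) : Fin (rk (F m) + 1) → N) := by
      funext i
      simp [v]
    rw [h1]
    exact h0
  have h1 := PolyCurve.linearIndependent hv hv0
  have h2 : ∀ᶠ t : k in cofinite, t ≠ 0 := by
    rw [Filter.eventually_cofinite]
    simp
  obtain ⟨t, ht, ht0⟩ := (h1.and h2).exists
  have h3 : rk (F m) + 1 ≤ rk (F (m + t • x)) := by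
    rw [le_rk_iff]
    refine ⟨Fin.cons (t⁻¹ • z) s, ?_⟩
    have h4 : (fun i => F (m + t • x) ((Fin.cons (t⁻¹ • z) s : Fin (rk (F m) + 1) → S) i)) = fun i => v i t := by
      funext i
      refine Fin.cases ?_ (fun i => ?_) i
      · simp [v, hz, ht0]
      · simp [v]
    rw [h4]
    exact ht
  have h5 := hm (m + t • x)
  beta_reduce at h5
  omega

/-- Kernel lifting.  PROOF.  Let `ρ = rk (F m)`, `s : Fin ρ → S` with `F m (s i)` a basis of
`range (F m)`, and `l : Fin ρ → Dual N` with `l_i (F m (s j)) = δ_ij`.  Put `m(t) = m + t n`,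
`G(t)_ij = l_i (F (m(t)) (s j))` (polynomial in `t`, `G(0) = 1`), `c(t)_i = l_i (F (m(t)) z)`
(polynomial, `c(0) = 0`), and
`zc(t) = det G(t) • z - ∑_j (adj G(t) c(t))_j • s_j` (a polynomial curve, `zc 0 = z`).
For all `t`: `l_i (F (m(t)) (zc t)) = det G c_i - (G adj G c)_i = 0`.
For almost all `t`, `det G(t) ≠ 0`; then the `F (m(t)) (s j)` are independent, hence, as
`rk (F (m(t))) ≤ ρ`, they span `range (F (m(t)))`, and the `l_i` are injective on this span: so
`F (m(t)) (zc t) = 0`.  The polynomial curve `F (m(t)) (zc t)` vanishes for almost all `t`, so it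
vanishes for all `t` (apply functionals, infinite field). -/
theorem kernel_lift (F : V →ₗ[k] S →ₗ[k] N) {m : V} (hm : IsMax (fun x => F x) m) {z : S}
    (hz : F m z = 0) (n : V) :
    ∃ zc : k → S, PolyCurve zc ∧ zc 0 = z ∧ ∀ t, F (m + t • n) (zc t) = 0 := by
  obtain ⟨s, hs⟩ := (le_rk_iff (F m) (rk (F m))).1 le_rfl
  obtain ⟨l, hl⟩ := exists_dual hs
  -- curves
  have hF : ∀ y : S, PolyCurve (fun t : k => F (m + t • n) y) := by
    intro y
    have h1 : (fun t : k => F (m + t • n) y) = fun t => F m y + t • F n y := by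
      funext t
      simp
    rw [h1]
    exact PolyCurve.line _ _
  let G : k → Matrix (Fin (rk (F m))) (Fin (rk (F m))) k := fun t => Matrix.of fun i j => l i (F (m + t • n) (s j))
  let c : k → Fin (rk (F m)) → k := fun t i => l i (F (m + t • n) z)
  have hG : ∀ i j, PolyCurve (fun t => G t i j) := fun i j => (hF (s j)).map (l i)
  have hc : ∀ i, PolyCurve (fun t => c t i) := fun i => (hF z).map (l i)
  let a : k → Fin (rk (F m)) → k := fun t => (G t).adjugate.mulVec (c t)
  have ha : ∀ j, PolyCurve (fun t => a t j) := by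
    intro j
    have h1 : (fun t => a t j) = fun t => ∑ i, (G t).adjugate j i • c t i := by
      funext t
      simp [a, Matrix.mulVec, dotProduct]
    rw [h1]
    exact PolyCurve.sum _ (fun i _ => (PolyCurve.adjugate hG j i).smul (hc i))
  have hdet : PolyCurve (fun t => (G t).det) := PolyCurve.det hG
  let zc : k → S := fun t => (G t).det • z + ∑ j, a t j • (-s j)
  have hzc : PolyCurve zc :=
    (hdet.smul (PolyCurve.const z)).add (PolyCurve.sum _ (fun j _ => (ha j).smul (PolyCurve.const (-s j))))
  have hG0 : G 0 = 1 := by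
    ext i j
    simp only [G, Matrix.of_apply, zero_smul, add_zero]
    rw [hl, Matrix.one_apply]
  have hzc0 : zc 0 = z := by
    have h1 : c 0 = 0 := by
      funext i
      simp [c, hz]
    have h2 : a 0 = 0 := by
      simp [a, h1]
    simp [zc, hG0, h2]
  have key : ∀ (φ : S →ₗ[k] k) (t : k), φ (zc t) = (G t).det * φ z - ∑ j, a t j * φ (s j) := by
    intro φ t
    simp only [zc, map_add, map_smul, map_sum, map_neg, smul_eq_mul, mul_neg, Finset.sum_neg_distrib]
    ring
  -- the functionals vanish
  have hlz : ∀ t i, l i (F (m + t • n) (zc t)) = 0 := by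
    intro t i
    have h1 : l i (F (m + t • n) (zc t)) = (G t).det * c t i - ∑ j, G t i j * a t j := by
      have h3 := key ((l i).comp (F (m + t • n))) t
      rw [LinearMap.comp_apply] at h3
      rw [h3]
      have h2 : ∑ j, a t j * ((l i).comp (F (m + t • n))) (s j) = ∑ j, G t i j * a t j :=
        Finset.sum_congr rfl (fun j _ => mul_comm _ _)
      rw [h2]
      rfl
    have h2 : (G t).mulVec (a t) = (G t).det • c t := by
      simp only [a]
      rw [Matrix.mulVec_mulVec, Matrix.mul_adjugate, Matrix.smul_mulVec, Matrix.one_mulVec]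
    have h3 := congrFun h2 i
    simp only [Matrix.mulVec, dotProduct, Pi.smul_apply, smul_eq_mul] at h3
    rw [h1, h3, sub_self]
  refine ⟨zc, hzc, hzc0, fun t => ?_⟩
  have hcurve : PolyCurve (fun t => F (m + t • n) (zc t)) := (PolyCurve.line m n).bilin hzc F
  refine curve_zero hcurve ?_ t
  have hd0 : (G 0).det ≠ 0 := by
    rw [hG0, Matrix.det_one]
    exact one_ne_zero
  filter_upwards [hdet.eventually_ne hd0] with t ht
  have hind : LinearIndependent k (fun j => F (m + t • n) (s j)) := by
    rw [Fintype.linearIndependent_iff]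
    intro b hb
    have h1 := coeff_zero (v := fun j => F (m + t • n) (s j)) (l := l) ht (a := b) (fun i => by rw [hb, map_zero])
    intro i
    rw [h1]
    rfl
  have hspan := span_eq hind (hm (m + t • n)) (fun i => LinearMap.mem_range_self _ (s i))
  have hmem : F (m + t • n) (zc t) ∈ Submodule.span k (Set.range fun j => F (m + t • n) (s j)) := by
    rw [hspan]
    exact LinearMap.mem_range_self _ _
  obtain ⟨b, hb⟩ := (Submodule.mem_span_range_iff_exists_fun k).1 hmem
  have h1 := coeff_zero (v := fun j => F (m + t • n) (s j)) (l := l) ht (a := b) (fun i => by rw [hb]; exact hlz t i)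
  rw [← hb, h1]
  simp

end SocDeg
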