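import Pool.Agent.Lib_MP_badd8c_sd.Form
import Pool.Agent.Lib_MP_badd8c_sd.FirstOrder

/-! # Pieces F1, F2: basic facts on form data -/

namespace SocDeg

open Module Filter

variable {k V W : Type*} [Field k] [AddCommGroup V] [Module k V] [AddCommGroup W] [Module k W]
  [FiniteDimensional k V] [FiniteDimensional k W]

namespace FormData

variable (Q : FormData k V W)

private lemma perp_eq (U : Submodule k W) : Q.perp U = LinearMap.BilinForm.orthogonal Q.be U :=
  Submodule.ext fun _ => Iff.rfl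

private lemma be_nondeg : LinearMap.Nondegenerate Q.be :=
  ⟨fun x h => Q.nondeg x h, fun y h => Q.nondeg y fun v => by rw [Q.be_comm]; exact h v⟩

private lemma be_refl : LinearMap.BilinForm.IsRefl Q.be := fun x y h => by
  rw [Q.be_comm]
  exact h

/-! ### F1: orthogonal spaces (`be` is symmetric and nondegenerate; compare with
`LinearMap.BilinForm.finrank_orthogonal`, `LinearMap.BilinForm.orthogonal_orthogonal`). -/

theorem finrank_perp (U : Submodule k W) : finrank k (Q.perp U) + finrank k U = finrank k W := by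
  rw [Q.perp_eq, LinearMap.BilinForm.finrank_orthogonal Q.be_nondeg]
  have := Submodule.finrank_le U
  omega

theorem perp_perp (U : Submodule k W) : Q.perp (Q.perp U) = U := by
  rw [Q.perp_eq, Q.perp_eq]
  exact LinearMap.BilinForm.orthogonal_orthogonal Q.be_nondeg Q.be_refl U

theorem perp_anti {U U' : Submodule k W} (h : U ≤ U') : Q.perp U' ≤ Q.perp U :=
  fun _ hw u hu => hw u (h hu)

theorem perp_sup (U U' : Submodule k W) : Q.perp (U ⊔ U') = Q.perp U ⊓ Q.perp U' := by
  apply le_antisymm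
  · exact le_inf (Q.perp_anti le_sup_left) (Q.perp_anti le_sup_right)
  · rintro w ⟨h1, h2⟩ u hu
    obtain ⟨a, ha, b, hb, rfl⟩ := Submodule.mem_sup.1 hu
    rw [map_add, LinearMap.add_apply, h1 a ha, h2 b hb, add_zero]

theorem perp_top : Q.perp ⊤ = ⊥ := by
  rw [eq_bot_iff]
  intro w hw
  rw [Submodule.mem_bot]
  refine Q.nondeg w fun v => ?_
  rw [Q.be_comm]
  exact hw v Submodule.mem_top

theorem le_perp_comm {U U' : Submodule k W} : U ≤ Q.perp U' ↔ U' ≤ Q.perp U := by
  constructor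
  · intro h u' hu' u hu
    rw [Q.be_comm]
    exact h hu u' hu'
  · intro h u hu u' hu'
    rw [Q.be_comm]
    exact h hu' u hu

/-- Isotropic subspaces have dimension at most half of `dim W`. -/
theorem iso_bound {U : Submodule k W} (h : U ≤ Q.perp U) : 2 * finrank k U ≤ finrank k W := by
  have h1 := Submodule.finrank_mono h
  have h2 := Q.finrank_perp U
  omega

/-- membership in `PV`: products, and the induction principle in the form of an inequality -/
theorem mul_mem_PV {P : Submodule k V} {x : V} (hx : x ∈ P) (y : V) : Q.mu x y ∈ Q.PV P :=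
  Submodule.apply_mem_map₂ Q.mu hx Submodule.mem_top

theorem PV_le {P : Submodule k V} {U : Submodule k W} : Q.PV P ≤ U ↔ ∀ x ∈ P, ∀ y, Q.mu x y ∈ U := by
  unfold PV prod
  rw [Submodule.map₂_le]
  exact ⟨fun h x hx y => h x hx y Submodule.mem_top, fun h x hx y _ => h x hx y⟩

/-- `be (x y) (z w)` is symmetric in all arguments -/
theorem symm4' (x y z w : V) : Q.be (Q.mu x y) (Q.mu z w) = Q.be (Q.mu x w) (Q.mu z y) := by
  rw [Q.symm4 x y z w, Q.symm4 x w z y, Q.mu_comm y w]

/-- `u ∈ W` is zero iff it is orthogonal to all products. -/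
theorem eq_zero_of_be_mu {u : W} (h : ∀ x y, Q.be u (Q.mu x y) = 0) : u = 0 := by
  refine Q.nondeg u fun v => ?_
  have h1 : Submodule.span k {w | ∃ x y, w = Q.mu x y} ≤ LinearMap.ker (Q.be u) := by
    rw [Submodule.span_le]
    rintro _ ⟨x, y, rfl⟩
    exact LinearMap.mem_ker.2 (h x y)
  rw [Q.span] at h1
  exact LinearMap.mem_ker.1 (h1 Submodule.mem_top)

/-- `P P' = 0` iff `P V` and `P' V` ... : if `z z' = 0` for `z ∈ P`, `z' ∈ P'` then `PV P` and
`PV P'` are orthogonal (`be (z x) (z' x') = be (z z') (x x')`). -/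
theorem PV_le_perp {P P' : Submodule k V} (h : ∀ z ∈ P, ∀ z' ∈ P', Q.mu z z' = 0) :
    Q.PV P ≤ Q.perp (Q.PV P') := by
  rw [Q.PV_le]
  intro z hz x
  have h1 : Q.PV P' ≤ LinearMap.ker (Q.be.flip (Q.mu z x)) := by
    rw [Q.PV_le]
    intro z' hz' x'
    rw [LinearMap.mem_ker, LinearMap.flip_apply, Q.symm4 z' x' z x, Q.mu_comm z' z, h z hz z' hz',
      map_zero, LinearMap.zero_apply]
  intro u hu
  exact LinearMap.mem_ker.1 (h1 hu)

/-- Conversely (`faithful` is not needed: `be (z z') (x x') = be (z x) (z' x') = 0` for all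
`x, x'` and the products span). -/
theorem mu_eq_zero_of_PV_le_perp {P P' : Submodule k V} (h : Q.PV P ≤ Q.perp (Q.PV P')) :
    ∀ z ∈ P, ∀ z' ∈ P', Q.mu z z' = 0 := by
  intro z hz z' hz'
  refine Q.eq_zero_of_be_mu fun x x' => ?_
  rw [Q.symm4 z z' x x', Q.be_comm]
  exact h (Q.mul_mem_PV hz x) _ (Q.mul_mem_PV hz' x')

/-! ### F2: elements of maximal rank -/

/-- rank-nullity -/
theorem finrank_K (m : V) : finrank k (Q.K m) + rk (Q.mu m) = finrank k V := by
  have := LinearMap.finrank_range_add_finrank_ker (Q.mu m)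
  unfold K rk
  omega

/-- `z ∈ K_m ⇒ m`-orthogonality: `K_m V ⊆ (m V)^⊥` (`be (m y) (z x) = be (m z) (y x) = 0`). -/
theorem PV_K_le (m : V) : Q.PV (Q.K m) ≤ Q.perp (Q.mV m) := by
  rw [Q.PV_le]
  rintro z hz x _ ⟨y, rfl⟩
  rw [Q.symm4 m y z x, Q.mem_K.1 hz, map_zero, LinearMap.zero_apply]

/-- so `dim K_m V + rk m ≤ dim W`. -/
theorem finrank_PV_K (m : V) : finrank k (Q.PV (Q.K m)) + rk (Q.mu m) ≤ finrank k W := by
  have h1 := Submodule.finrank_mono (Q.PV_K_le m)
  have h2 := Q.finrank_perp (Q.mV m)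
  unfold rk
  unfold mV at h1 h2
  omega

/-- `K_m ⬝ K_m = 0` for `m` of maximal rank.  PROOF: `z x ∈ m V` for `z ∈ K_m` (`first_order` for the
family `Q.mu`; `Q.mu x z = Q.mu z x`); so for `z, z₁ ∈ K_m`:
`be (z z₁) (x x') = be (z x) (z₁ x') = be (m w) (z₁ x') = be (m z₁) (w x') = 0`. -/
theorem K_sq [Infinite k] {m : V} (hm : IsMax (fun x => Q.mu x) m) :
    ∀ z ∈ Q.K m, ∀ z₁ ∈ Q.K m, Q.mu z z₁ = 0 := by
  intro z hz z₁ hz₁
  refine Q.eq_zero_of_be_mu fun x x' => ?_
  obtain ⟨w, hw⟩ := first_order Q.mu hm (Q.mem_K.1 hz) x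
  rw [Q.symm4 z z₁ x x', Q.mu_comm z x, ← hw, Q.symm4 m w z₁ x', Q.mem_K.1 hz₁, map_zero,
    LinearMap.zero_apply]

end FormData

end SocDeg
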