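import Pool.Agent.Lib_MP_badd8c_sd.Form

/-!
# Piece E0: transport of form data, dimension bound
-/

namespace SocDeg

open Module

variable {k V W V' W' : Type*} [Field k] [AddCommGroup V] [Module k V] [AddCommGroup W] [Module k W]
  [AddCommGroup V'] [Module k V'] [AddCommGroup W'] [Module k W']

theorem FormData.congr (Q : FormData k V W) (f : V ≃ₗ[k] V') (g : W ≃ₗ[k] W') :
    Nonempty (FormData k V' W') := by
  refine ⟨⟨(Q.mu.compl₁₂ f.symm.toLinearMap f.symm.toLinearMap).compr₂ g.toLinearMap,
    Q.be.compl₁₂ g.symm.toLinearMap g.symm.toLinearMap, ?_, ?_, ?_, ?_, ?_, ?_⟩⟩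
  · intro x y
    simp [Q.mu_comm (f.symm x)]
  · intro u v
    simp [Q.be_comm (g.symm u)]
  · intro u hu
    have h := Q.nondeg (g.symm u) (fun v => by simpa using hu (g v))
    simpa using h
  · intro x y z w
    simp [Q.symm4 (f.symm x)]
  · have h := congrArg (Submodule.map g.toLinearMap) Q.span
    rw [Submodule.map_span, Submodule.map_top, LinearEquiv.range] at h
    rw [← h]
    congr 1
    ext w
    simp only [Set.mem_ofPred_eq, Set.mem_image]
    constructor
    · rintro ⟨x, y, rfl⟩
      exact ⟨Q.mu (f.symm x) (f.symm y), ⟨_, _, rfl⟩, by simp⟩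
    · rintro ⟨_, ⟨x, y, rfl⟩, rfl⟩
      exact ⟨f x, f y, by simp⟩
  · intro x hx
    have h := Q.faithful (f.symm x) (fun y => by
      have := hx (f y)
      simpa using this)
    simpa using h

theorem FormData.finrank_le_choose [FiniteDimensional k V] (Q : FormData k V W) :
    finrank k W ≤ (finrank k V + 1).choose 2 := by
  classical
  let b := finBasis k V
  let F : Sym2 (Fin (finrank k V)) → W := Sym2.lift ⟨fun i j => Q.mu (b i) (b j), fun i j => Q.mu_comm _ _⟩
  have hspan : (⊤ : Submodule k W) ≤ Submodule.span k (Set.range F) := by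
    rw [← Q.span, Submodule.span_le]
    rintro _ ⟨x, y, rfl⟩
    have hx := b.sum_repr x
    have hy := b.sum_repr y
    rw [← hx, ← hy]
    simp only [map_sum, map_smul, LinearMap.sum_apply, LinearMap.smul_apply]
    refine Submodule.sum_mem _ (fun i _ => Submodule.smul_mem _ _ (Submodule.sum_mem _ (fun j _ =>
      Submodule.smul_mem _ _ (Submodule.subset_span ⟨s(j, i), rfl⟩))))
  have h1 : finrank k W = finrank k (Submodule.span k (Set.range F)) := by
    rw [top_le_iff.mp hspan, finrank_top]
  rw [h1]
  refine (finrank_range_le_card F).trans ?_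
  rw [Sym2.card, Fintype.card_fin]

theorem FormData.finrank_pos_iff [FiniteDimensional k V] [FiniteDimensional k W]
    (Q : FormData k V W) : 1 ≤ finrank k V ↔ 1 ≤ finrank k W := by
  constructor
  · intro h
    by_contra h2
    have h3 : finrank k W = 0 := by omega
    have h4 : Subsingleton W := finrank_zero_iff.mp h3
    have h5 : Subsingleton V := ⟨fun a b => by
      have ha := Q.faithful a (fun y => Subsingleton.elim _ _)
      have hb := Q.faithful b (fun y => Subsingleton.elim _ _)
      rw [ha, hb]⟩
    have : finrank k V = 0 := finrank_zero_iff.mpr h5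
    omega
  · intro h
    by_contra h2
    have h3 : finrank k V = 0 := by omega
    have := Q.finrank_le_choose
    rw [h3] at this
    simp at this
    omega

end SocDeg
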