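import Mathlib

/-!
# MP_badd8c, socle degree four: one-parameter genericity (definitions and statements)

`k` is an infinite field.  The phrase (for all but finitely many `t`) is `∀ᶠ t in Filter.cofinite`.
-/

namespace SocDeg

open Module Filter

/-- Polynomial curves in a vector space. -/
def PolyCurve {k E : Type*} [Field k] [AddCommGroup E] [Module k E] (f : k → E) : Prop :=
  ∃ (n : ℕ) (c : ℕ → E), ∀ t, f t = ∑ i ∈ Finset.range n, t ^ i • c i

/-- The rank of a linear map. -/
noncomputable def rk {k S N : Type*} [Field k] [AddCommGroup S] [Module k S] [AddCommGroup N]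
    [Module k N] (f : S →ₗ[k] N) : ℕ := finrank k (LinearMap.range f)

/-- `m` has maximal rank in the family `F`. -/
def IsMax {k S N X : Type*} [Field k] [AddCommGroup S] [Module k S] [AddCommGroup N]
    [Module k N] (F : X → S →ₗ[k] N) (m : X) : Prop := ∀ x, rk (F x) ≤ rk (F m)

/-- Good sets: with a point they contain almost all points of every line through it. -/
def Good {k E : Type*} [Field k] [AddCommGroup E] [Module k E] (O : Set E) : Prop :=
  ∀ p ∈ O, ∀ q : E, ∀ᶠ t : k in cofinite, p + t • q ∈ O

end SocDeg
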