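import Pool.Agent.Lib_MP_badd8c_sd.Curve

/-! # Piece G2: good sets, semicontinuity of the rank -/

namespace SocDeg

open Module Filter

variable {k : Type*} [Field k] {V S N : Type*} [AddCommGroup V] [Module k V]
  [AddCommGroup S] [Module k S] [AddCommGroup N] [Module k N]

/-- PROOF: `p ∈ O`, `p' ∈ O'`; for almost all `t` the point `p + t(p'-p) = p' + (1-t)(p-p')` is in
both (`t ↦ 1 - t` is injective, `Filter.Tendsto.cofinite`); `cofinite` on an infinite type is
`NeBot`. -/
theorem Good.inter_nonempty [Infinite k] {O O' : Set V} (hO : Good (k := k) O)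
    (hO' : Good (k := k) O') (h : O.Nonempty) (h' : O'.Nonempty) : (O ∩ O').Nonempty := by
  obtain ⟨p, hp⟩ := h
  obtain ⟨p', hp'⟩ := h'
  have h1 := hO p hp (p' - p)
  have h2 := hO' p' hp' (p - p')
  have hinj : Function.Injective fun t : k => 1 - t := fun a b hab => by
    simpa using hab
  have h3 := hinj.tendsto_cofinite.eventually h2
  obtain ⟨t, ht, ht'⟩ := (h1.and h3).exists
  refine ⟨p + t • (p' - p), ht, ?_⟩
  have e : p + t • (p' - p) = p' + (1 - t) • (p - p') := by
    rw [sub_smul, one_smul, smul_sub, smul_sub]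
    abel
  rw [e]
  exact ht'

theorem Good.inter {O O' : Set V} (hO : Good (k := k) O) (hO' : Good (k := k) O') :
    Good (k := k) (O ∩ O') := fun p hp q => (hO p hp.1 q).and (hO' p hp.2 q)

/-- `r ≤ rk f` iff there are `r` vectors with linearly independent images. -/
theorem le_rk_iff [FiniteDimensional k N] (f : S →ₗ[k] N) (r : ℕ) :
    r ≤ rk f ↔ ∃ s : Fin r → S, LinearIndependent k (fun i => f (s i)) := by
  constructor
  · intro h
    obtain ⟨g, hg⟩ := exists_linearIndependent_of_le_finrank h
    choose s hs using fun i => (g i).2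
    refine ⟨s, ?_⟩
    have h1 := hg.map' (LinearMap.range f).subtype (Submodule.ker_subtype _)
    have e : (fun i => f (s i)) = (LinearMap.range f).subtype ∘ g := funext fun i => hs i
    rw [e]
    exact h1
  · rintro ⟨s, hs⟩
    have h1 : LinearIndependent k (fun i => (⟨f (s i), LinearMap.mem_range_self f (s i)⟩ :
        LinearMap.range f)) := by
      apply LinearIndependent.of_comp (LinearMap.range f).subtype
      exact hs
    have h2 := h1.fintype_card_le_finrank
    simpa [rk] using h2

/-- Lower semicontinuity of the rank along polynomial curves. PROOF: `le_rk_iff` at `t = 0`,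
`PolyCurve.linearIndependent` for `t ↦ f t (s i)` (hypothesis `hf`). -/
theorem rk_semicont [FiniteDimensional k N] {f : k → S →ₗ[k] N}
    (hf : ∀ s, PolyCurve (fun t => f t s)) : ∀ᶠ t in cofinite, rk (f 0) ≤ rk (f t) := by
  obtain ⟨s, hs⟩ := (le_rk_iff (f 0) _).1 le_rfl
  have h := PolyCurve.linearIndependent (v := fun i t => f t (s i)) (fun i => hf (s i)) hs
  filter_upwards [h] with t ht
  exact (le_rk_iff (f t) _).2 ⟨s, ht⟩

/-- Ranks are bounded by `finrank N`. -/
theorem exists_isMax {X : Type*} [Nonempty X] [FiniteDimensional k N] (F : X → S →ₗ[k] N) :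
    ∃ m, IsMax F m := by
  have hne : (Set.range fun x => rk (F x)).Nonempty := Set.range_nonempty _
  have hb : BddAbove (Set.range fun x => rk (F x)) := by
    refine ⟨finrank k N, ?_⟩
    rintro _ ⟨x, rfl⟩
    exact Submodule.finrank_le _
  obtain ⟨m, hm⟩ := Nat.sSup_mem hne hb
  refine ⟨m, fun x => ?_⟩
  simp only at hm
  rw [hm]
  exact le_csSup hb ⟨x, rfl⟩

/-- PROOF: `t ↦ F (p + t q) s = F p s + t F q s` is a polynomial curve; `rk_semicont`. -/
theorem good_isMax [FiniteDimensional k N] (F : V →ₗ[k] S →ₗ[k] N) :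
    Good (k := k) {m | IsMax (fun x => F x) m} := by
  intro p hp q
  have h := rk_semicont (f := fun t : k => F (p + t • q)) (fun s =>
    (PolyCurve.line p q).map ((LinearMap.applyₗ s).comp F))
  filter_upwards [h] with t ht
  intro x
  have h1 : rk (F x) ≤ rk (F p) := hp x
  simp only [zero_smul, add_zero] at ht
  exact h1.trans ht

/-- The same for bilinear families on `V × V`. -/
theorem good_isMax₂ [FiniteDimensional k N] (F : V →ₗ[k] V →ₗ[k] S →ₗ[k] N) :
    Good (k := k) {p : V × V | IsMax (fun x : V × V => F x.1 x.2) p} := by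
  intro p hp q
  have h := rk_semicont (f := fun t : k => F (p.1 + t • q.1) (p.2 + t • q.2)) (fun s =>
    (PolyCurve.line p.1 q.1).bilin (PolyCurve.line p.2 q.2) (F.compr₂ (LinearMap.applyₗ s)))
  filter_upwards [h] with t ht
  intro x
  have h1 : rk (F x.1 x.2) ≤ rk (F p.1 p.2) := hp x
  simp only [zero_smul, add_zero] at ht
  exact h1.trans ht

/-- The set of `x` which are the first half of a maximal pair is good (fix the partner). -/
theorem good_fst [FiniteDimensional k N] (F : V →ₗ[k] V →ₗ[k] S →ₗ[k] N) :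
    Good (k := k) {x : V | ∃ y, IsMax (fun p : V × V => F p.1 p.2) (x, y)} := by
  rintro x ⟨y, hxy⟩ q
  have h := good_isMax₂ F (x, y) hxy (q, 0)
  filter_upwards [h] with t ht
  refine ⟨y, ?_⟩
  simpa using ht

/-- For fixed `x` the set of second halves is good (possibly empty). -/
theorem good_snd [FiniteDimensional k N] (F : V →ₗ[k] V →ₗ[k] S →ₗ[k] N) (x : V) :
    Good (k := k) {y : V | IsMax (fun p : V × V => F p.1 p.2) (x, y)} := by
  intro y hxy q
  have h := good_isMax₂ F (x, y) hxy (0, q)
  filter_upwards [h] with t ht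
  simpa using ht

/-- Dependent choice of a sequence: the `i`-th condition `O m i` depends only on `m j`, `j < i`. -/
theorem exists_seq {X : Type*} [Nonempty X] (O : (ℕ → X) → ℕ → Set X)
    (hcongr : ∀ m m' i, (∀ j < i, m j = m' j) → O m i = O m' i)
    (hne : ∀ m i, (∀ j < i, m j ∈ O m j) → (O m i).Nonempty) : ∃ m : ℕ → X, ∀ i, m i ∈ O m i := by
  classical
  have step : ∀ (n : ℕ) (m : ℕ → X), (∀ j < n, m j ∈ O m j) →
      ∃ m' : ℕ → X, (∀ j < n, m' j = m j) ∧ ∀ j < n + 1, m' j ∈ O m' j := by
    intro n m h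
    obtain ⟨x, hx⟩ := hne m n h
    have hag : ∀ j < n, Function.update m n x j = m j := fun j hj =>
      Function.update_of_ne (Nat.ne_of_lt hj) _ _
    refine ⟨Function.update m n x, hag, fun j hj => ?_⟩
    rcases Nat.lt_succ_iff_lt_or_eq.1 hj with hj | rfl
    · rw [hag j hj, hcongr _ m j fun i hi => hag i (hi.trans hj)]
      exact h j hj
    · rw [Function.update_self, hcongr _ m j hag]
      exact hx
  choose! g hg1 hg2 using step
  let P : ℕ → ℕ → X := fun n => Nat.rec (fun _ => Classical.arbitrary X) (fun n m => g n m) n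
  have hP : ∀ n, P (n + 1) = g n (P n) := fun n => rfl
  have hmem : ∀ n, ∀ j < n, P n j ∈ O (P n) j := by
    intro n
    induction n with
    | zero => intro j hj; exact absurd hj (Nat.not_lt_zero j)
    | succ n ih =>
      rw [hP]
      exact hg2 n (P n) ih
  have hst : ∀ n, ∀ j < n, P (n + 1) j = P n j := fun n j hj => by
    rw [hP]
    exact hg1 n (P n) (hmem n) j hj
  have hst' : ∀ j n, j < n → P n j = P (j + 1) j := by
    intro j n hjn
    induction n with
    | zero => exact absurd hjn (Nat.not_lt_zero j)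
    | succ n ih =>
      rcases Nat.lt_succ_iff_lt_or_eq.1 hjn with h | rfl
      · rw [hst n j h, ih h]
      · rfl
  refine ⟨fun j => P (j + 1) j, fun i => ?_⟩
  have h1 := hmem (i + 1) i (Nat.lt_succ_self i)
  rw [hcongr (fun j => P (j + 1) j) (P (i + 1)) i fun j hj =>
    (hst' j (i + 1) (hj.trans (Nat.lt_succ_self i))).symm]
  exact h1

end SocDeg
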