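import Pool.Agent.Lib_MP_badd8c_sd.LocB

/-!
# Piece L4: the numbers `r(i,l)`
-/

namespace SocDeg

open Module

variable {k : Type*} [Field k] {A : Type*} [CommRing A] [Algebra k A]

/-- (R2) `r(i,0) = l_i`. -/
theorem rr_zero {m : Ideal A} {j : ℕ} (h : IsAG k m j) (i : ℕ) : rr k m i 0 = ell k m i := by
  unfold rr ell
  rw [an_zero, inf_bot_eq, finrank_bot_ideal, Nat.sub_zero]

/-- (R3) `r(i,1) = l_i - 1` for `i ≤ j` (`m^i ∩ (0 : m) = (0 : m)`, which contains... is `m^j`). -/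
theorem rr_one {m : Ideal A} {j : ℕ} (h : IsAG k m j) {i : ℕ} (hi : i ≤ j) :
    rr k m i 1 + 1 = ell k m i := by
  have hfd := h.fd
  have h1 : m ^ i ⊓ an m 1 = m ^ j := by
    rw [← pow_eq_socle h]
    exact inf_eq_right.2 (Ideal.pow_le_pow_right hi)
  have h2 : finrank k ↥(m ^ j) = 1 := ell_top h
  have h3 : finrank k ↥(m ^ j) ≤ finrank k ↥(m ^ i) := finrank_le_of_le (Ideal.pow_le_pow_right hi)
  unfold rr ell
  rw [h1]
  omega

/-- (R4) -/
theorem rr_eq_zero {m : Ideal A} {j : ℕ} (h : IsAG k m j) {i l : ℕ} (hi : j < i + l) :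
    rr k m i l = 0 := by
  unfold rr
  rw [inf_eq_left.2 (pow_le_an h hi), Nat.sub_self]

/-- (R5) `H_A(a)_i = r(i,c) - r(i,c+1) - r(i+1,c) + r(i+1,c+1)`, `c = j - a - i`.
PROOF: with `N_c = ((0 : m^c) ∩ m^i) + m^(i+1)`: `dim N_c = dim (m^i ∩ (0 : m^c)) + dim m^(i+1)
- dim (m^(i+1) ∩ (0 : m^c)) = l_i - r(i,c) + r(i+1,c)` (`finrank_sup_inf`; `m^(i+1) ≤ m^i`), and
`H_A(a)_i = dim N_(c+1) - dim N_c` (`qdim_add`, `an_anti`).  All numbers are natural:
`dim (m^i ∩ (0 : m^c)) = l_i - r(i,c)` exactly because `finrank_le_of_le`. -/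
theorem symH_eq {m : Ideal A} {j : ℕ} (h : IsAG k m j) {a i c : ℕ} (hc : a + i + c = j) :
    symH k m j a i + rr k m i (c + 1) + rr k m (i + 1) c = rr k m i c + rr k m (i + 1) (c + 1) := by
  have hfd := h.fd
  have hle : m ^ (i + 1) ≤ m ^ i := Ideal.pow_le_pow_right (Nat.le_succ i)
  have hN : ∀ e : ℕ, finrank k ↥((an m e ⊓ m ^ i) ⊔ m ^ (i + 1)) + finrank k ↥(m ^ (i + 1) ⊓ an m e) =
      finrank k ↥(m ^ i ⊓ an m e) + finrank k ↥(m ^ (i + 1)) := by
    intro e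
    have h1 := finrank_sup_inf (k := k) (an m e ⊓ m ^ i) (m ^ (i + 1))
    have h2 : (an m e ⊓ m ^ i) ⊓ m ^ (i + 1) = m ^ (i + 1) ⊓ an m e := by
      rw [inf_assoc, inf_eq_right.2 hle, inf_comm]
    rw [h2, inf_comm (an m e) (m ^ i)] at h1
    rw [inf_comm (an m e) (m ^ i)]
    exact h1
  have hC : ∀ b e : ℕ, j + 1 - b - i = e → Cnum A m j b i = (an m e ⊓ m ^ i) ⊔ m ^ (i + 1) := by
    intro b e he
    unfold Cnum an
    rw [he]
  have h1 := hN c
  have h2 := hN (c + 1)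
  have h3 : (an m c ⊓ m ^ i) ⊔ m ^ (i + 1) ≤ (an m (c + 1) ⊓ m ^ i) ⊔ m ^ (i + 1) :=
    sup_le_sup_right (inf_le_inf_right _ (an_anti (Nat.le_succ c))) _
  have h4 := qdim_add (k := k) h3
  have h5 : symH k m j a i = qdim k ((an m (c + 1) ⊓ m ^ i) ⊔ m ^ (i + 1))
      ((an m c ⊓ m ^ i) ⊔ m ^ (i + 1)) := by
    unfold symH
    rw [hC a (c + 1) (by omega), hC (a + 1) c (by omega)]
  have h6 : ∀ e : ℕ, finrank k ↥(m ^ i ⊓ an m e) ≤ finrank k ↥(m ^ i) := fun e =>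
    finrank_le_of_le inf_le_left
  have h7 : ∀ e : ℕ, finrank k ↥(m ^ (i + 1) ⊓ an m e) ≤ finrank k ↥(m ^ (i + 1)) := fun e =>
    finrank_le_of_le inf_le_left
  have a1 := h6 c
  have a2 := h6 (c + 1)
  have a3 := h7 c
  have a4 := h7 (c + 1)
  rw [h5]
  unfold rr
  omega

/-- for `a + i > j` both exponents are `0` -/
theorem symH_eq_zero {m : Ideal A} {j : ℕ} (h : IsAG k m j) {a i : ℕ} (hc : j < a + i) :
    symH k m j a i = 0 := by
  have hfd := h.fd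
  have h1 : Cnum A m j (a + 1) i = Cnum A m j a i := by
    unfold Cnum
    rw [show j + 1 - (a + 1) - i = j + 1 - a - i by omega]
  have h2 := qdim_add (k := k) (le_refl (Cnum A m j a i))
  unfold symH
  rw [h1]
  omega

/-- `h_i = l_i - l_(i+1)` -/
theorem hilb_add {m : Ideal A} {j : ℕ} (h : IsAG k m j) (i : ℕ) :
    hilb k m i + ell k m (i + 1) = ell k m i := by
  have hfd := h.fd
  exact qdim_add (Ideal.pow_le_pow_right (Nat.le_succ i))

/-- `l_i = 0` for `i > j` -/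
theorem ell_eq_zero {m : Ideal A} {j i : ℕ} (h : IsAG k m j) (hi : j < i) : ell k m i = 0 := by
  unfold ell
  rw [pow_eq_bot h hi]
  exact finrank_bot_ideal

/-- `l_0 = l_1 + 1` -/
theorem ell_zero {m : Ideal A} {j : ℕ} (h : IsAG k m j) : ell k m 0 = ell k m 1 + 1 := by
  have hfd := h.fd
  have h1 : ell k m 0 = finrank k A := by
    unfold ell
    rw [pow_zero, Ideal.one_eq_top]
    exact finrank_top_ideal
  rw [h1, finrank_eq_add_one h]

/-- `m^(i+1) ≠ m^i` for `i ≤ j` (otherwise `m^i = m^(i+1) = ... = 0`). -/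
theorem ell_lt {m : Ideal A} {j i : ℕ} (h : IsAG k m j) (hi : i ≤ j) :
    ell k m (i + 1) < ell k m i := by
  have hfd := h.fd
  have hle : m ^ (i + 1) ≤ m ^ i := Ideal.pow_le_pow_right (Nat.le_succ i)
  refine lt_of_le_of_ne (finrank_le_of_le hle) fun he => ?_
  have h1 : m ^ (i + 1) = m ^ i := eq_of_finrank_eq hle he
  have h2 : ∀ n : ℕ, m ^ (i + n) = m ^ i := by
    intro n
    induction n with
    | zero => rfl
    | succ n ih => rw [← add_assoc, pow_succ, ih, ← pow_succ, h1]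
  have h3 := h2 (j + 1 - i)
  rw [show i + (j + 1 - i) = j + 1 by omega, h.nil] at h3
  exact h.top (le_bot_iff.1 (h3 ▸ Ideal.pow_le_pow_right hi))

end SocDeg
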