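import Pool.Agent.Lib_MP_badd8c_sd.LocR
import Pool.Agent.Lib_MP_badd8c_sd.LocS

/-!
# Piece L5: the decomposition in terms of `l_i` and `r(2,2)` for socle degree at most four
-/

namespace SocDeg

open Module

variable {k : Type*} [Field k] {A : Type*} [CommRing A] [Algebra k A]

private theorem hilb_zero {m : Ideal A} {j i : ℕ} (h : IsAG k m j) (hi : j < i) :
    hilb k m i = 0 := by
  have h1 := hilb_add h i
  rw [ell_eq_zero h hi] at h1
  omega

/-- Socle degree four.  With `s = l_3 - 1`, `t = r(2,2)`, `p = l_2 - l_3 - t`,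
`q = l_1 - 1 - 2 (l_2 - 1) + t`.  PROOF: `symH_eq`, `rr_symm`, `rr_zero`, `rr_one`, `rr_eq_zero`,
`symH_eq_zero`, `hilb_add`; the existence of the natural numbers `p = H(1)_1`, `q = H(2)_1` comes from
`symH_eq`. -/
theorem values_four {m : Ideal A} (h : IsAG k m 4) :
    ∃ s t p q : ℕ, ell k m 3 = s + 1 ∧ rr k m 2 2 = t ∧ ell k m 2 = s + t + p + 1 ∧
      ell k m 1 = 2 * s + t + 2 * p + q + 1 ∧
      hilb k m = sq [1, s + p + q, t + p, s, 1] ∧
      symDec k m 4 = ![sq [1, s, t, s, 1], sq [0, p, p, 0], sq [0, q, 0]] := by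
  have e0 : ell k m 0 = ell k m 1 + 1 := ell_zero h
  have et : ell k m 4 = 1 := ell_top h
  have ez : ell k m 5 = 0 := ell_eq_zero h (by norm_num)
  have el0 : ell k m 1 < ell k m 0 := ell_lt h (by norm_num)
  have el1 : ell k m 2 < ell k m 1 := ell_lt h (by norm_num)
  have el2 : ell k m 3 < ell k m 2 := ell_lt h (by norm_num)
  have el3 : ell k m 4 < ell k m 3 := ell_lt h (by norm_num)
  have el4 : ell k m 5 < ell k m 4 := ell_lt h (by norm_num)
  have r0_0 : rr k m 0 0 = ell k m 0 := rr_zero h 0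
  have r0_1 : rr k m 0 1 = ell k m 1 := (rr_symm h 0 1).trans (rr_zero h 1)
  have r0_2 : rr k m 0 2 = ell k m 2 := (rr_symm h 0 2).trans (rr_zero h 2)
  have r0_3 : rr k m 0 3 = ell k m 3 := (rr_symm h 0 3).trans (rr_zero h 3)
  have r0_4 : rr k m 0 4 = ell k m 4 := (rr_symm h 0 4).trans (rr_zero h 4)
  have r0_5 : rr k m 0 5 = ell k m 5 := (rr_symm h 0 5).trans (rr_zero h 5)
  have r1_0 : rr k m 1 0 = ell k m 1 := rr_zero h 1
  have r1_1 : rr k m 1 1 + 1 = ell k m 1 := rr_one h (by norm_num)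
  have r1_2 : rr k m 1 2 + 1 = ell k m 2 := by rw [rr_symm h 1 2]; exact rr_one h (by norm_num)
  have r1_3 : rr k m 1 3 + 1 = ell k m 3 := by rw [rr_symm h 1 3]; exact rr_one h (by norm_num)
  have r1_4 : rr k m 1 4 = 0 := rr_eq_zero h (by norm_num)
  have r1_5 : rr k m 1 5 = 0 := rr_eq_zero h (by norm_num)
  have r2_0 : rr k m 2 0 = ell k m 2 := rr_zero h 2
  have r2_1 : rr k m 2 1 + 1 = ell k m 2 := rr_one h (by norm_num)
  have r2_3 : rr k m 2 3 = 0 := rr_eq_zero h (by norm_num)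
  have r2_4 : rr k m 2 4 = 0 := rr_eq_zero h (by norm_num)
  have r2_5 : rr k m 2 5 = 0 := rr_eq_zero h (by norm_num)
  have r3_0 : rr k m 3 0 = ell k m 3 := rr_zero h 3
  have r3_1 : rr k m 3 1 + 1 = ell k m 3 := rr_one h (by norm_num)
  have r3_2 : rr k m 3 2 = 0 := rr_eq_zero h (by norm_num)
  have r3_3 : rr k m 3 3 = 0 := rr_eq_zero h (by norm_num)
  have r3_4 : rr k m 3 4 = 0 := rr_eq_zero h (by norm_num)
  have r3_5 : rr k m 3 5 = 0 := rr_eq_zero h (by norm_num)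
  have r4_0 : rr k m 4 0 = ell k m 4 := rr_zero h 4
  have r4_1 : rr k m 4 1 = 0 := rr_eq_zero h (by norm_num)
  have r4_2 : rr k m 4 2 = 0 := rr_eq_zero h (by norm_num)
  have r4_3 : rr k m 4 3 = 0 := rr_eq_zero h (by norm_num)
  have r4_4 : rr k m 4 4 = 0 := rr_eq_zero h (by norm_num)
  have r4_5 : rr k m 4 5 = 0 := rr_eq_zero h (by norm_num)
  have r5_0 : rr k m 5 0 = ell k m 5 := rr_zero h 5
  have r5_1 : rr k m 5 1 = 0 := rr_eq_zero h (by norm_num)
  have r5_2 : rr k m 5 2 = 0 := rr_eq_zero h (by norm_num)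
  have r5_3 : rr k m 5 3 = 0 := rr_eq_zero h (by norm_num)
  have r5_4 : rr k m 5 4 = 0 := rr_eq_zero h (by norm_num)
  have r5_5 : rr k m 5 5 = 0 := rr_eq_zero h (by norm_num)
  have h0 : hilb k m 0 + ell k m 1 = ell k m 0 := hilb_add h 0
  have h1 : hilb k m 1 + ell k m 2 = ell k m 1 := hilb_add h 1
  have h2 : hilb k m 2 + ell k m 3 = ell k m 2 := hilb_add h 2
  have h3 : hilb k m 3 + ell k m 4 = ell k m 3 := hilb_add h 3
  have h4 : hilb k m 4 + ell k m 5 = ell k m 4 := hilb_add h 4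
  have s0_0 : symH k m 4 0 0 + rr k m 0 5 + rr k m 1 4 = rr k m 0 4 + rr k m 1 5 :=
    symH_eq h (by norm_num)
  have s0_1 : symH k m 4 0 1 + rr k m 1 4 + rr k m 2 3 = rr k m 1 3 + rr k m 2 4 :=
    symH_eq h (by norm_num)
  have s0_2 : symH k m 4 0 2 + rr k m 2 3 + rr k m 3 2 = rr k m 2 2 + rr k m 3 3 :=
    symH_eq h (by norm_num)
  have s0_3 : symH k m 4 0 3 + rr k m 3 2 + rr k m 4 1 = rr k m 3 1 + rr k m 4 2 :=
    symH_eq h (by norm_num)
  have s0_4 : symH k m 4 0 4 + rr k m 4 1 + rr k m 5 0 = rr k m 4 0 + rr k m 5 1 :=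
    symH_eq h (by norm_num)
  have s1_0 : symH k m 4 1 0 + rr k m 0 4 + rr k m 1 3 = rr k m 0 3 + rr k m 1 4 :=
    symH_eq h (by norm_num)
  have s1_1 : symH k m 4 1 1 + rr k m 1 3 + rr k m 2 2 = rr k m 1 2 + rr k m 2 3 :=
    symH_eq h (by norm_num)
  have s1_2 : symH k m 4 1 2 + rr k m 2 2 + rr k m 3 1 = rr k m 2 1 + rr k m 3 2 :=
    symH_eq h (by norm_num)
  have s1_3 : symH k m 4 1 3 + rr k m 3 1 + rr k m 4 0 = rr k m 3 0 + rr k m 4 1 :=
    symH_eq h (by norm_num)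
  have s2_0 : symH k m 4 2 0 + rr k m 0 3 + rr k m 1 2 = rr k m 0 2 + rr k m 1 3 :=
    symH_eq h (by norm_num)
  have s2_1 : symH k m 4 2 1 + rr k m 1 2 + rr k m 2 1 = rr k m 1 1 + rr k m 2 2 :=
    symH_eq h (by norm_num)
  have s2_2 : symH k m 4 2 2 + rr k m 2 1 + rr k m 3 0 = rr k m 2 0 + rr k m 3 1 :=
    symH_eq h (by norm_num)
  obtain ⟨p, hp⟩ : ∃ p, p = symH k m 4 1 1 := ⟨_, rfl⟩
  obtain ⟨q, hq⟩ : ∃ q, q = symH k m 4 2 1 := ⟨_, rfl⟩
  refine ⟨ell k m 3 - 1, rr k m 2 2, p, q, by omega, rfl, by omega, by omega, ?_, ?_⟩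
  · funext i
    match i with
    | 0 => show hilb k m 0 = 1; omega
    | 1 => show hilb k m 1 = ell k m 3 - 1 + p + q; omega
    | 2 => show hilb k m 2 = rr k m 2 2 + p; omega
    | 3 => show hilb k m 3 = ell k m 3 - 1; omega
    | 4 => show hilb k m 4 = 1; omega
    | (n + 5) => exact hilb_zero h (by omega)
  · funext a i
    fin_cases a
    · show symH k m 4 0 i = _
      match i with
      | 0 => show symH k m 4 0 0 = 1; omega
      | 1 => show symH k m 4 0 1 = ell k m 3 - 1; omega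
      | 2 => show symH k m 4 0 2 = rr k m 2 2; omega
      | 3 => show symH k m 4 0 3 = ell k m 3 - 1; omega
      | 4 => show symH k m 4 0 4 = 1; omega
      | (n + 5) => exact symH_eq_zero h (by omega)
    · show symH k m 4 1 i = _
      match i with
      | 0 => show symH k m 4 1 0 = 0; omega
      | 1 => show symH k m 4 1 1 = p; omega
      | 2 => show symH k m 4 1 2 = p; omega
      | 3 => show symH k m 4 1 3 = 0; omega
      | (n + 4) => exact symH_eq_zero h (by omega)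
    · show symH k m 4 2 i = _
      match i with
      | 0 => show symH k m 4 2 0 = 0; omega
      | 1 => show symH k m 4 2 1 = q; omega
      | 2 => show symH k m 4 2 2 = 0; omega
      | (n + 3) => exact symH_eq_zero h (by omega)


/-- Socle degree three: `s = l_2 - 1`. -/
theorem values_three {m : Ideal A} (h : IsAG k m 3) :
    ∃ s q : ℕ, 1 ≤ s ∧ ell k m 2 = s + 1 ∧ ell k m 1 = 2 * s + q + 1 ∧
      hilb k m = sq [1, s + q, s, 1] ∧
      symDec k m 3 = ![sq [1, s, s, 1], sq [0, q, 0]] := by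
  have e0 : ell k m 0 = ell k m 1 + 1 := ell_zero h
  have et : ell k m 3 = 1 := ell_top h
  have ez : ell k m 4 = 0 := ell_eq_zero h (by norm_num)
  have el0 : ell k m 1 < ell k m 0 := ell_lt h (by norm_num)
  have el1 : ell k m 2 < ell k m 1 := ell_lt h (by norm_num)
  have el2 : ell k m 3 < ell k m 2 := ell_lt h (by norm_num)
  have el3 : ell k m 4 < ell k m 3 := ell_lt h (by norm_num)
  have r0_0 : rr k m 0 0 = ell k m 0 := rr_zero h 0
  have r0_1 : rr k m 0 1 = ell k m 1 := (rr_symm h 0 1).trans (rr_zero h 1)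
  have r0_2 : rr k m 0 2 = ell k m 2 := (rr_symm h 0 2).trans (rr_zero h 2)
  have r0_3 : rr k m 0 3 = ell k m 3 := (rr_symm h 0 3).trans (rr_zero h 3)
  have r0_4 : rr k m 0 4 = ell k m 4 := (rr_symm h 0 4).trans (rr_zero h 4)
  have r1_0 : rr k m 1 0 = ell k m 1 := rr_zero h 1
  have r1_1 : rr k m 1 1 + 1 = ell k m 1 := rr_one h (by norm_num)
  have r1_2 : rr k m 1 2 + 1 = ell k m 2 := by rw [rr_symm h 1 2]; exact rr_one h (by norm_num)
  have r1_3 : rr k m 1 3 = 0 := rr_eq_zero h (by norm_num)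
  have r1_4 : rr k m 1 4 = 0 := rr_eq_zero h (by norm_num)
  have r2_0 : rr k m 2 0 = ell k m 2 := rr_zero h 2
  have r2_1 : rr k m 2 1 + 1 = ell k m 2 := rr_one h (by norm_num)
  have r2_2 : rr k m 2 2 = 0 := rr_eq_zero h (by norm_num)
  have r2_3 : rr k m 2 3 = 0 := rr_eq_zero h (by norm_num)
  have r2_4 : rr k m 2 4 = 0 := rr_eq_zero h (by norm_num)
  have r3_0 : rr k m 3 0 = ell k m 3 := rr_zero h 3
  have r3_1 : rr k m 3 1 = 0 := rr_eq_zero h (by norm_num)
  have r3_2 : rr k m 3 2 = 0 := rr_eq_zero h (by norm_num)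
  have r3_3 : rr k m 3 3 = 0 := rr_eq_zero h (by norm_num)
  have r3_4 : rr k m 3 4 = 0 := rr_eq_zero h (by norm_num)
  have r4_0 : rr k m 4 0 = ell k m 4 := rr_zero h 4
  have r4_1 : rr k m 4 1 = 0 := rr_eq_zero h (by norm_num)
  have r4_2 : rr k m 4 2 = 0 := rr_eq_zero h (by norm_num)
  have r4_3 : rr k m 4 3 = 0 := rr_eq_zero h (by norm_num)
  have r4_4 : rr k m 4 4 = 0 := rr_eq_zero h (by norm_num)
  have h0 : hilb k m 0 + ell k m 1 = ell k m 0 := hilb_add h 0
  have h1 : hilb k m 1 + ell k m 2 = ell k m 1 := hilb_add h 1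
  have h2 : hilb k m 2 + ell k m 3 = ell k m 2 := hilb_add h 2
  have h3 : hilb k m 3 + ell k m 4 = ell k m 3 := hilb_add h 3
  have s0_0 : symH k m 3 0 0 + rr k m 0 4 + rr k m 1 3 = rr k m 0 3 + rr k m 1 4 :=
    symH_eq h (by norm_num)
  have s0_1 : symH k m 3 0 1 + rr k m 1 3 + rr k m 2 2 = rr k m 1 2 + rr k m 2 3 :=
    symH_eq h (by norm_num)
  have s0_2 : symH k m 3 0 2 + rr k m 2 2 + rr k m 3 1 = rr k m 2 1 + rr k m 3 2 :=
    symH_eq h (by norm_num)
  have s0_3 : symH k m 3 0 3 + rr k m 3 1 + rr k m 4 0 = rr k m 3 0 + rr k m 4 1 :=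
    symH_eq h (by norm_num)
  have s1_0 : symH k m 3 1 0 + rr k m 0 3 + rr k m 1 2 = rr k m 0 2 + rr k m 1 3 :=
    symH_eq h (by norm_num)
  have s1_1 : symH k m 3 1 1 + rr k m 1 2 + rr k m 2 1 = rr k m 1 1 + rr k m 2 2 :=
    symH_eq h (by norm_num)
  have s1_2 : symH k m 3 1 2 + rr k m 2 1 + rr k m 3 0 = rr k m 2 0 + rr k m 3 1 :=
    symH_eq h (by norm_num)
  obtain ⟨q, hq⟩ : ∃ q, q = symH k m 3 1 1 := ⟨_, rfl⟩
  refine ⟨ell k m 2 - 1, q, by omega, by omega, by omega, ?_, ?_⟩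
  · funext i
    match i with
    | 0 => show hilb k m 0 = 1; omega
    | 1 => show hilb k m 1 = ell k m 2 - 1 + q; omega
    | 2 => show hilb k m 2 = ell k m 2 - 1; omega
    | 3 => show hilb k m 3 = 1; omega
    | (n + 4) => exact hilb_zero h (by omega)
  · funext a i
    fin_cases a
    · show symH k m 3 0 i = _
      match i with
      | 0 => show symH k m 3 0 0 = 1; omega
      | 1 => show symH k m 3 0 1 = ell k m 2 - 1; omega
      | 2 => show symH k m 3 0 2 = ell k m 2 - 1; omega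
      | 3 => show symH k m 3 0 3 = 1; omega
      | (n + 4) => exact symH_eq_zero h (by omega)
    · show symH k m 3 1 i = _
      match i with
      | 0 => show symH k m 3 1 0 = 0; omega
      | 1 => show symH k m 3 1 1 = q; omega
      | 2 => show symH k m 3 1 2 = 0; omega
      | (n + 3) => exact symH_eq_zero h (by omega)


theorem values_two {m : Ideal A} (h : IsAG k m 2) :
    ∃ s : ℕ, 1 ≤ s ∧ ell k m 1 = s + 1 ∧ hilb k m = sq [1, s, 1] ∧
      symDec k m 2 = ![sq [1, s, 1]] := by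
  have e0 : ell k m 0 = ell k m 1 + 1 := ell_zero h
  have et : ell k m 2 = 1 := ell_top h
  have ez : ell k m 3 = 0 := ell_eq_zero h (by norm_num)
  have el0 : ell k m 1 < ell k m 0 := ell_lt h (by norm_num)
  have el1 : ell k m 2 < ell k m 1 := ell_lt h (by norm_num)
  have el2 : ell k m 3 < ell k m 2 := ell_lt h (by norm_num)
  have r0_0 : rr k m 0 0 = ell k m 0 := rr_zero h 0
  have r0_1 : rr k m 0 1 = ell k m 1 := (rr_symm h 0 1).trans (rr_zero h 1)
  have r0_2 : rr k m 0 2 = ell k m 2 := (rr_symm h 0 2).trans (rr_zero h 2)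
  have r0_3 : rr k m 0 3 = ell k m 3 := (rr_symm h 0 3).trans (rr_zero h 3)
  have r1_0 : rr k m 1 0 = ell k m 1 := rr_zero h 1
  have r1_1 : rr k m 1 1 + 1 = ell k m 1 := rr_one h (by norm_num)
  have r1_2 : rr k m 1 2 = 0 := rr_eq_zero h (by norm_num)
  have r1_3 : rr k m 1 3 = 0 := rr_eq_zero h (by norm_num)
  have r2_0 : rr k m 2 0 = ell k m 2 := rr_zero h 2
  have r2_1 : rr k m 2 1 = 0 := rr_eq_zero h (by norm_num)
  have r2_2 : rr k m 2 2 = 0 := rr_eq_zero h (by norm_num)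
  have r2_3 : rr k m 2 3 = 0 := rr_eq_zero h (by norm_num)
  have r3_0 : rr k m 3 0 = ell k m 3 := rr_zero h 3
  have r3_1 : rr k m 3 1 = 0 := rr_eq_zero h (by norm_num)
  have r3_2 : rr k m 3 2 = 0 := rr_eq_zero h (by norm_num)
  have r3_3 : rr k m 3 3 = 0 := rr_eq_zero h (by norm_num)
  have h0 : hilb k m 0 + ell k m 1 = ell k m 0 := hilb_add h 0
  have h1 : hilb k m 1 + ell k m 2 = ell k m 1 := hilb_add h 1
  have h2 : hilb k m 2 + ell k m 3 = ell k m 2 := hilb_add h 2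
  have s0_0 : symH k m 2 0 0 + rr k m 0 3 + rr k m 1 2 = rr k m 0 2 + rr k m 1 3 :=
    symH_eq h (by norm_num)
  have s0_1 : symH k m 2 0 1 + rr k m 1 2 + rr k m 2 1 = rr k m 1 1 + rr k m 2 2 :=
    symH_eq h (by norm_num)
  have s0_2 : symH k m 2 0 2 + rr k m 2 1 + rr k m 3 0 = rr k m 2 0 + rr k m 3 1 :=
    symH_eq h (by norm_num)
  refine ⟨ell k m 1 - 1, by omega, by omega, ?_, ?_⟩
  · funext i
    match i with
    | 0 => show hilb k m 0 = 1; omega
    | 1 => show hilb k m 1 = ell k m 1 - 1; omega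
    | 2 => show hilb k m 2 = 1; omega
    | (n + 3) => exact hilb_zero h (by omega)
  · funext a i
    fin_cases a
    · show symH k m 2 0 i = _
      match i with
      | 0 => show symH k m 2 0 0 = 1; omega
      | 1 => show symH k m 2 0 1 = ell k m 1 - 1; omega
      | 2 => show symH k m 2 0 2 = 1; omega
      | (n + 3) => exact symH_eq_zero h (by omega)


theorem values_one {m : Ideal A} (h : IsAG k m 1) : hilb k m = sq [1, 1] := by
  have e0 : ell k m 0 = ell k m 1 + 1 := ell_zero h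
  have et : ell k m 1 = 1 := ell_top h
  have ez : ell k m 2 = 0 := ell_eq_zero h (by norm_num)
  have el0 : ell k m 1 < ell k m 0 := ell_lt h (by norm_num)
  have el1 : ell k m 2 < ell k m 1 := ell_lt h (by norm_num)
  have r0_0 : rr k m 0 0 = ell k m 0 := rr_zero h 0
  have r0_1 : rr k m 0 1 = ell k m 1 := (rr_symm h 0 1).trans (rr_zero h 1)
  have r0_2 : rr k m 0 2 = ell k m 2 := (rr_symm h 0 2).trans (rr_zero h 2)
  have r1_0 : rr k m 1 0 = ell k m 1 := rr_zero h 1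
  have r1_1 : rr k m 1 1 = 0 := rr_eq_zero h (by norm_num)
  have r1_2 : rr k m 1 2 = 0 := rr_eq_zero h (by norm_num)
  have r2_0 : rr k m 2 0 = ell k m 2 := rr_zero h 2
  have r2_1 : rr k m 2 1 = 0 := rr_eq_zero h (by norm_num)
  have r2_2 : rr k m 2 2 = 0 := rr_eq_zero h (by norm_num)
  have h0 : hilb k m 0 + ell k m 1 = ell k m 0 := hilb_add h 0
  have h1 : hilb k m 1 + ell k m 2 = ell k m 1 := hilb_add h 1
  funext i
  match i with
  | 0 => show hilb k m 0 = 1; omega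
  | 1 => show hilb k m 1 = 1; omega
  | (n + 2) => exact hilb_zero h (by omega)


theorem values_zero {m : Ideal A} (h : IsAG k m 0) : hilb k m = sq [1] := by
  have e0 : ell k m 0 = ell k m 1 + 1 := ell_zero h
  have et : ell k m 0 = 1 := ell_top h
  have ez : ell k m 1 = 0 := ell_eq_zero h (by norm_num)
  have el0 : ell k m 1 < ell k m 0 := ell_lt h (by norm_num)
  have r0_0 : rr k m 0 0 = ell k m 0 := rr_zero h 0
  have r0_1 : rr k m 0 1 = ell k m 1 := (rr_symm h 0 1).trans (rr_zero h 1)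
  have r1_0 : rr k m 1 0 = ell k m 1 := rr_zero h 1
  have r1_1 : rr k m 1 1 = 0 := rr_eq_zero h (by norm_num)
  have h0 : hilb k m 0 + ell k m 1 = ell k m 0 := hilb_add h 0
  funext i
  match i with
  | 0 => show hilb k m 0 = 1; omega
  | (n + 1) => exact hilb_zero h (by omega)


end SocDeg
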