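import Pool.Agent.Lib_MP_badd8c_sd.CoreI

/-! # Case II: definitions

`H = PV P`, `H' = PV P'`, `v = dim (H ∩ H'^⊥)`, `φ = dim H - v`.  -/

namespace SocDeg

open Module Filter

variable {k V W : Type*} [Field k] [AddCommGroup V] [Module k V] [AddCommGroup W]
  [Module k W]

namespace FormData

variable (Q : FormData k V W)

/-- `L(P) = {x | x P = 0}`. -/
def L (P : Submodule k V) : Submodule k V where
  carrier := {x | ∀ z ∈ P, Q.mu x z = 0}
  add_mem' := by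
    intro a b ha hb z hz
    rw [map_add, LinearMap.add_apply, ha z hz, hb z hz, add_zero]
  zero_mem' := by
    intro z _
    rw [map_zero, LinearMap.zero_apply]
  smul_mem' := by
    intro c a ha z hz
    rw [map_smul, LinearMap.smul_apply, ha z hz, smul_zero]

/-- `{w ∈ P | x w ∈ U}`. -/
def kerMod (P : Submodule k V) (U : Submodule k W) (x : V) : Submodule k V :=
  P ⊓ U.comap (Q.mu x)

/-- `T_i = {w ∈ P | m_j w ∈ U for j < i}`. -/
def T (P : Submodule k V) (U : Submodule k W) (m : ℕ → V) : ℕ → Submodule k V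
  | 0 => P
  | i + 1 => Q.kerMod (T P U m i) U (m i)

/-- The hypotheses of case II on a pair of subspaces. -/
structure Pair (P P' : Submodule k V) (b y : ℕ) : Prop where
  sq : ∀ z ∈ P, ∀ z₁ ∈ P, Q.mu z z₁ = 0
  sq' : ∀ z ∈ P', ∀ z₁ ∈ P', Q.mu z z₁ = 0
  fin : finrank k P = finrank k P'
  yH : finrank k (Q.PV P) = y
  yH' : finrank k (Q.PV P') = y
  ne : ∃ z ∈ P, ∃ z' ∈ P', Q.mu z z' ≠ 0
  hR : ∀ x, finrank k ↥(Q.PV P ⊓ Q.perp (Q.PV P')) + rk (Q.famU (Q.perp (Q.PV P)) x) ≤ b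
  hR' : ∀ x, finrank k ↥(Q.PV P' ⊓ Q.perp (Q.PV P)) + rk (Q.famU (Q.perp (Q.PV P')) x) ≤ b

/-- The base subspace `H^⊥ + H'`. -/
def U0 (P P' : Submodule k V) : Submodule k W := Q.perp (Q.PV P) ⊔ Q.PV P'

/-- `τ_i`. -/
noncomputable def tau (P P' : Submodule k V) (m : ℕ → V) (i : ℕ) : ℕ :=
  rk (Q.fam (Q.T P (Q.perp (Q.PV P')) m i) (Q.perp (Q.PV P')) (m i))

/-- `ω_i`. -/
noncomputable def omg (P P' : Submodule k V) (m : ℕ → V) (i : ℕ) : ℕ :=
  rk (Q.om (Q.T P (Q.perp (Q.PV P')) m i) P' (m i) (m (i + 1)))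

/-- Generic sequences for the pair. -/
structure GenPair (P P' : Submodule k V) (m : ℕ → V) : Prop where
  genU : Q.GenU (Q.U0 P P') m
  gen1 : ∀ i, IsMax (fun x => Q.fam (Q.T P (Q.perp (Q.PV P')) m i) (Q.perp (Q.PV P')) x) (m i)
  gen2 : ∀ i, IsMax (fun p : V × V => Q.om (Q.T P (Q.perp (Q.PV P')) m i) P' p.1 p.2)
    (m i, m (i + 1))
  gen3 : IsMax (fun x => Q.fam P' (Q.perp (Q.PV P)) x) (m 0)

end FormData

end SocDeg
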