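import Pool.Agent.Lib_MP_badd8c_sd.Gen

/-! # Piece R: ranks of linear maps -/

namespace SocDeg

open Module

variable {k : Type*} [Field k]

/-- Block triangular ranks.  PROOF: `dim f(S) = dim (f(S) ∩ N') + dim (f(S) + N')/N'`. -/
theorem rk_block {S N : Type*} [AddCommGroup S] [Module k S] [AddCommGroup N] [Module k N]
    [FiniteDimensional k N] (f : S →ₗ[k] N) (S' : Submodule k S) (N' : Submodule k N)
    (h : ∀ s ∈ S', f s ∈ N') :
    rk (f.domRestrict S') + rk (N'.mkQ ∘ₗ f) ≤ rk f := by
  unfold rk
  set g : LinearMap.range f →ₗ[k] N ⧸ N' := N'.mkQ ∘ₗ (LinearMap.range f).subtype with hg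
  have h1 : LinearMap.range (N'.mkQ ∘ₗ f) = LinearMap.range g := by
    rw [hg, LinearMap.range_comp, LinearMap.range_comp, Submodule.range_subtype]
  have h2 := LinearMap.finrank_range_add_finrank_ker g
  have h3 : finrank k (LinearMap.range (f.domRestrict S')) ≤ finrank k (LinearMap.ker g) := by
    have h4 : LinearMap.range (f.domRestrict S') ≤
        (LinearMap.ker g).map (LinearMap.range f).subtype := by
      rintro _ ⟨s, rfl⟩
      refine ⟨⟨f s, ⟨s, rfl⟩⟩, ?_, rfl⟩
      have : N'.mkQ (f s) = 0 := (Submodule.Quotient.mk_eq_zero N').2 (h s s.2)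
      exact LinearMap.mem_ker.2 this
    calc _ ≤ finrank k ((LinearMap.ker g).map (LinearMap.range f).subtype) :=
          Submodule.finrank_mono h4
      _ = _ := Submodule.finrank_map_subtype_eq _ _
  rw [h1]
  omega

/-- Zero block.  `B : S → Dual S'` (a bilinear form).  PROOF: choose `t : Fin a → T`, `s' : Fin a → S'`
with `B (t i) (s' j) = δ_ij` (`a` = first rank), `s : Fin c → S`, `t' : Fin c → T'` with
`B (s i) (t' j) = δ_ij`.  The `a + c` functionals `B (t i)`, `B (s i)` are independent: evaluate a
relation at `t'`, then at `s'`. -/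
theorem rk_zero_block {S S' : Type*} [AddCommGroup S] [Module k S] [AddCommGroup S'] [Module k S']
    [FiniteDimensional k S] [FiniteDimensional k S'] (B : S →ₗ[k] Dual k S') (T : Submodule k S)
    (T' : Submodule k S') (h : ∀ t ∈ T, ∀ t' ∈ T', B t t' = 0) :
    rk (B.domRestrict T) + rk ((Dual.transpose (R := k) T'.subtype) ∘ₗ B) ≤ rk B := by
  have h1 := rk_block B T T'.dualAnnihilator fun t ht =>
    (Submodule.mem_dualAnnihilator _).2 fun t' ht' => h t ht t' ht'
  have h2 : T'.dualAnnihilator ≤ LinearMap.ker (Dual.transpose (R := k) T'.subtype) := by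
    intro φ hφ
    rw [LinearMap.mem_ker]
    ext x
    exact (Submodule.mem_dualAnnihilator φ).1 hφ x x.2
  have h3 : (Dual.transpose (R := k) T'.subtype) ∘ₗ B =
      (T'.dualAnnihilator.liftQ _ h2) ∘ₗ (T'.dualAnnihilator.mkQ ∘ₗ B) := by
    ext s x
    rfl
  have h4 : rk ((Dual.transpose (R := k) T'.subtype) ∘ₗ B) ≤ rk (T'.dualAnnihilator.mkQ ∘ₗ B) := by
    rw [h3]
    unfold rk
    rw [LinearMap.range_comp]
    exact Submodule.finrank_map_le _ _
  omega

/-- Common kernels.  PROOF: choose a finite set of at most `l` elements `x` whose `G x` span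
`range G` (`l = rk G`); `⋂ ker (G x)` has codimension at most the sum of the ranks. -/
theorem common_kernel {X S N : Type*} [AddCommGroup X] [Module k X] [AddCommGroup S] [Module k S]
    [AddCommGroup N] [Module k N] [FiniteDimensional k S] [FiniteDimensional k X]
    (G : X →ₗ[k] S →ₗ[k] N) {o : ℕ} (ho : ∀ x, finrank k (LinearMap.range (G x)) ≤ o)
    {K : Submodule k S} (hK : ∀ s, (∀ x, G x s = 0) → s ∈ K) :
    finrank k S ≤ finrank k K + finrank k (LinearMap.range G) * o := by
  classical
  set b := Module.finBasis k (LinearMap.range G) with hb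
  choose x hx using fun i => (b i).2
  set Φ : S →ₗ[k] ((i : Fin (finrank k (LinearMap.range G))) → LinearMap.range (G (x i))) :=
    LinearMap.pi (fun i => (G (x i)).rangeRestrict) with hΦ
  have h1 := LinearMap.finrank_range_add_finrank_ker Φ
  have h2 : LinearMap.ker Φ ≤ K := by
    intro s hs
    refine hK s fun y => ?_
    have hs' : ∀ i, G (x i) s = 0 := by
      intro i
      have := congrFun (LinearMap.mem_ker.1 hs) i
      have := congrArg Subtype.val this
      simpa [hΦ] using this
    have hy := b.sum_repr ⟨G y, LinearMap.mem_range_self G y⟩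
    have hy' := congrArg Subtype.val hy
    have hy'' : G y = ∑ i, (b.repr ⟨G y, LinearMap.mem_range_self G y⟩) i • G (x i) := by
      have e : ∑ i, (b.repr ⟨G y, LinearMap.mem_range_self G y⟩) i • G (x i) =
          ((∑ i, (b.repr ⟨G y, LinearMap.mem_range_self G y⟩) i • b i : LinearMap.range G) :
            S →ₗ[k] N) := by
        simp only [Submodule.coe_sum, Submodule.coe_smul, hx]
      rw [e]
      exact hy'.symm
    rw [hy'', LinearMap.sum_apply]
    refine Finset.sum_eq_zero fun i _ => ?_
    rw [LinearMap.smul_apply, hs' i, smul_zero]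
  have h3 : finrank k (LinearMap.range Φ) ≤ finrank k (LinearMap.range G) * o := by
    refine (Submodule.finrank_le _).trans ?_
    rw [Module.finrank_pi_fintype]
    refine (Finset.sum_le_card_nsmul Finset.univ _ o fun i _ => ho (x i)).trans ?_
    simp
  have h4 := Submodule.finrank_mono h2
  omega

end SocDeg
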