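import Pool.Agent.Lib_MP_badd8c_sd.PairDefs
import Pool.Agent.Lib_MP_badd8c_sd.Ranks

/-! # Case II, pieces P1, P2: dimensions and block ranks -/

namespace SocDeg

open Module Filter

variable {k V W : Type*} [Field k] [AddCommGroup V] [Module k V] [AddCommGroup W]
  [Module k W] [FiniteDimensional k V] [FiniteDimensional k W]

namespace FormData

variable (Q : FormData k V W)

/-- `dim (H ∩ H'^⊥) + dim H' = dim (H' ∩ H^⊥) + dim H` (both `dim H - rank`).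
PROOF: `perp (H ⊓ perp H') = perp H ⊔ H'` and dimensions of `perp H ⊔ H'`, `perp H ⊓ H'`. -/
theorem finrank_inf_perp_comm (H H' : Submodule k W) :
    finrank k ↥(H ⊓ Q.perp H') + finrank k H' = finrank k ↥(H' ⊓ Q.perp H) + finrank k H := by
  have h1 := Q.finrank_perp (Q.perp H ⊔ H')
  rw [perp_sup, perp_perp] at h1
  have h2 := Submodule.finrank_sup_add_finrank_inf_eq (Q.perp H) H'
  have h3 := Q.finrank_perp H
  rw [inf_comm H' (Q.perp H)]
  omega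

/-- `dim (H^⊥ + H') + dim (H ∩ H'^⊥) = dim W`. -/
theorem finrank_U0 (P P' : Submodule k V) :
    finrank k (Q.U0 P P') + finrank k ↥(Q.PV P ⊓ Q.perp (Q.PV P')) = finrank k W := by
  have h1 := Q.finrank_perp (Q.perp (Q.PV P) ⊔ Q.PV P')
  rw [perp_sup, perp_perp] at h1
  rw [U0]
  omega

private theorem rk_eq_of_ker {S N N' : Type*} [AddCommGroup S] [Module k S] [AddCommGroup N]
    [Module k N] [AddCommGroup N'] [Module k N'] [FiniteDimensional k S] {f : S →ₗ[k] N}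
    {g : S →ₗ[k] N'} (h : LinearMap.ker f = LinearMap.ker g) : rk f = rk g := by
  have h1 := LinearMap.finrank_range_add_finrank_ker f
  have h2 := LinearMap.finrank_range_add_finrank_ker g
  rw [h] at h1
  simp only [rk]
  omega

/-- `rank (x : P' → W/H^⊥) + rank (x : V → W/(H^⊥ + H')) ≤ rank (x : V → W/H^⊥)`. -/
theorem rk_fam_add (P P' : Submodule k V) (x : V) :
    rk (Q.fam P' (Q.perp (Q.PV P)) x) + rk (Q.famU (Q.U0 P P') x) ≤
      rk (Q.famU (Q.perp (Q.PV P)) x) := by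
  have h := rk_block (Q.famU (Q.perp (Q.PV P)) x) P'
    ((Q.U0 P P').map (Q.perp (Q.PV P)).mkQ) (by
      intro s hs
      refine Submodule.mem_map.2 ⟨Q.mu x s, ?_, rfl⟩
      rw [Q.mu_comm]
      exact Submodule.mem_sup_right (Q.mul_mem_PV hs x))
  refine le_trans (le_of_eq ?_) h
  congr 1
  apply rk_eq_of_ker
  ext y
  rw [LinearMap.mem_ker, LinearMap.mem_ker, LinearMap.comp_apply, Submodule.mkQ_apply,
    Submodule.Quotient.mk_eq_zero]
  have e1 : Q.famU (Q.U0 P P') x y = (Q.U0 P P').mkQ (Q.mu x y) := rfl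
  have e2 : Q.famU (Q.perp (Q.PV P)) x y = (Q.perp (Q.PV P)).mkQ (Q.mu x y) := rfl
  rw [e1, e2, Submodule.mkQ_apply, Submodule.Quotient.mk_eq_zero]
  constructor
  · intro hy
    exact Submodule.mem_map.2 ⟨_, hy, rfl⟩
  · intro hy
    obtain ⟨w, hw, hwy⟩ := Submodule.mem_map.1 hy
    rw [Submodule.mkQ_apply, Submodule.mkQ_apply, Submodule.Quotient.eq] at hwy
    have h3 : w - Q.mu x y ∈ Q.U0 P P' := Submodule.mem_sup_left hwy
    have h4 := (Q.U0 P P').sub_mem hw h3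
    rwa [sub_sub_cancel] at h4

/-- `rank (x : P' → W/H^⊥) ≤ dim H' - dim (H' ∩ H^⊥)`: the image lies in `(H' + H^⊥)/H^⊥`. -/
theorem rk_fam_le (P P' : Submodule k V) (x : V) :
    rk (Q.fam P' (Q.perp (Q.PV P)) x) + finrank k ↥(Q.PV P' ⊓ Q.perp (Q.PV P)) ≤
      finrank k (Q.PV P') := by
  have h1 := rk_mkQ (Q.PV P').subtype (Q.perp (Q.PV P))
  rw [Submodule.range_subtype] at h1
  have h2 := Submodule.finrank_sup_add_finrank_inf_eq (Q.perp (Q.PV P)) (Q.PV P')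
  have h3 : rk (Q.fam P' (Q.perp (Q.PV P)) x) ≤
      rk ((Q.perp (Q.PV P)).mkQ ∘ₗ (Q.PV P').subtype) := by
    refine Submodule.finrank_mono ?_
    rintro _ ⟨z, rfl⟩
    refine ⟨⟨Q.mu x z, ?_⟩, rfl⟩
    rw [Q.mu_comm]
    exact Q.mul_mem_PV z.2 x
  rw [inf_comm (Q.PV P') (Q.perp (Q.PV P))]
  omega

/-- P2.  PROOF: take `x` with both ranks maximal (`good_isMax`, `Good.inter_nonempty`), `rk_fam_add`
and `hR`. -/
theorem Pair.bound [Infinite k] {P P' : Submodule k V} {b y : ℕ} (h : Q.Pair P P' b y) (x₁ x₂ : V) :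
    finrank k ↥(Q.PV P ⊓ Q.perp (Q.PV P')) + rk (Q.fam P' (Q.perp (Q.PV P)) x₁) +
      rk (Q.famU (Q.U0 P P') x₂) ≤ b := by
  obtain ⟨x, hx1, hx2⟩ := (good_isMax (Q.fam P' (Q.perp (Q.PV P)))).inter_nonempty
    (good_isMax (Q.famU (Q.U0 P P')))
    (exists_isMax (fun x : V => Q.fam P' (Q.perp (Q.PV P)) x))
    (exists_isMax (fun x : V => Q.famU (Q.U0 P P') x))
  have h1 : rk (Q.fam P' (Q.perp (Q.PV P)) x₁) ≤ rk (Q.fam P' (Q.perp (Q.PV P)) x) := hx1 x₁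
  have h2 : rk (Q.famU (Q.U0 P P') x₂) ≤ rk (Q.famU (Q.U0 P P') x) := hx2 x₂
  have h3 := Q.rk_fam_add P P' x
  have h4 := h.hR x
  omega

theorem Pair.symm {P P' : Submodule k V} {b y : ℕ} (h : Q.Pair P P' b y) : Q.Pair P' P b y :=
  ⟨h.sq', h.sq, h.fin.symm, h.yH', h.yH,
    (by obtain ⟨z, hz, z', hz', hne⟩ := h.ne; exact ⟨z', hz', z, hz, by rwa [Q.mu_comm]⟩),
    h.hR', h.hR⟩

/-- some `x` has positive rank `P → W/H'^⊥`.  PROOF: `z z' ≠ 0`, so `be (z z') (x x') ≠ 0` for some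
`x, x'` (`eq_zero_of_be_mu`), i.e. `be (x z) (x' z') ≠ 0`, `x z ∉ H'^⊥`. -/
theorem Pair.pos {P P' : Submodule k V} {b y : ℕ} (h : Q.Pair P P' b y) :
    ∃ x, 1 ≤ rk (Q.fam P (Q.perp (Q.PV P')) x) := by
  obtain ⟨z, hz, z', hz', hne⟩ := h.ne
  have h1 : ∃ x x', Q.be (Q.mu z z') (Q.mu x x') ≠ 0 := by
    by_contra hcon
    push Not at hcon
    exact hne (Q.eq_zero_of_be_mu hcon)
  obtain ⟨x, x', hx⟩ := h1
  refine ⟨x, ?_⟩
  have h2 : Q.mu x z ∉ Q.perp (Q.PV P') := by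
    intro hmem
    apply hx
    rw [Q.symm4, Q.mu_comm z x, Q.be_comm]
    exact hmem _ (Q.mul_mem_PV hz' x')
  have h3 : Q.fam P (Q.perp (Q.PV P')) x ⟨z, hz⟩ ≠ 0 := by
    intro h0
    apply h2
    have e : Q.fam P (Q.perp (Q.PV P')) x ⟨z, hz⟩ = (Q.perp (Q.PV P')).mkQ (Q.mu x z) := rfl
    rw [e, Submodule.mkQ_apply, Submodule.Quotient.mk_eq_zero] at h0
    exact h0
  rw [Nat.one_le_iff_ne_zero]
  intro h0
  rw [rk, Submodule.finrank_eq_zero] at h0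
  apply h3
  have : Q.fam P (Q.perp (Q.PV P')) x ⟨z, hz⟩ ∈
      LinearMap.range (Q.fam P (Q.perp (Q.PV P')) x) := ⟨_, rfl⟩
  rwa [h0, Submodule.mem_bot] at this

/-- `P ∩ L(P')` annihilates: `z x ∈ perp (U0)` for `z ∈ P ⊓ L P'`.
PROOF: `z x ∈ H = perp (perp H)`; `be (z' x') (z x) = be (z' z) (x' x) = 0`. -/
theorem mu_mem_perp_U0 {P P' : Submodule k V} {z : V} (hz : z ∈ P ⊓ Q.L P') (x : V) :
    Q.mu z x ∈ Q.perp (Q.U0 P P') := by
  rw [U0, perp_sup, perp_perp]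
  refine ⟨Q.mul_mem_PV hz.1 x, ?_⟩
  have h : Q.PV P' ≤ Q.perp (Submodule.span k {Q.mu z x}) := by
    rw [PV_le]
    intro z' hz' x' u hu
    obtain ⟨c, rfl⟩ := Submodule.mem_span_singleton.1 hu
    have h1 : Q.mu z z' = 0 := hz.2 z' hz'
    rw [map_smul, LinearMap.smul_apply, Q.symm4, h1, map_zero, LinearMap.zero_apply, smul_zero]
  intro u hu
  rw [Q.be_comm]
  exact h hu _ (Submodule.mem_span_singleton_self _)

/-- Summary for a generic sequence. PROOF: `lam_eventually`, `seqU_top`, `finrank_seqU`,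
`finrank_U0`, `finrank_le_sum`, `mu_mem_perp_U0`. -/
theorem pair_summary [Infinite k] {P P' : Submodule k V} {m : ℕ → V} (hm : Q.GenU (Q.U0 P P') m) :
    ∃ N₀, ∀ N, N₀ ≤ N → (∀ i, N ≤ i → Q.lam (Q.U0 P P') m i = 0) ∧
      ∑ i ∈ Finset.range N, Q.lam (Q.U0 P P') m i = finrank k ↥(Q.PV P ⊓ Q.perp (Q.PV P')) ∧
      finrank k ↥(P ⊓ Q.L P') ≤ ∑ i ∈ Finset.range N, (i + 1) * Q.lam (Q.U0 P P') m i := by
  obtain ⟨N₀, hN₀⟩ := Q.lam_eventually hm
  refine ⟨N₀, fun N hN => ⟨fun i hi => hN₀ i (hN.trans hi), ?_, ?_⟩⟩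
  · have h1 := Q.finrank_seqU (Q.U0 P P') m N
    rw [Q.seqU_top hm (hN₀ N hN), finrank_top] at h1
    have h2 := Q.finrank_U0 P P'
    omega
  · exact Q.finrank_le_sum (Q.seqU_top hm (hN₀ N hN)) (fun z hz x => Q.mu_mem_perp_U0 hz x)

end FormData

end SocDeg
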