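import Pool.Agent.Lib_MP_badd8c_sd.PairDim

/-! # Case II, piece N-a/b: the subspaces `T_i` -/

namespace SocDeg

open Module Filter

variable {k V W : Type*} [Field k] [AddCommGroup V] [Module k V] [AddCommGroup W]
  [Module k W] [FiniteDimensional k V] [FiniteDimensional k W]

namespace FormData

variable (Q : FormData k V W)

/-- `dim P = dim {w ∈ P | x w ∈ U} + rank (x : P → W/U)`. -/
theorem finrank_kerMod (P : Submodule k V) (U : Submodule k W) (x : V) :
    finrank k P = finrank k (Q.kerMod P U x) + rk (Q.fam P U x) := by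
  have h1 := LinearMap.finrank_range_add_finrank_ker (Q.fam P U x)
  have h2 : (LinearMap.ker (Q.fam P U x)).map P.subtype = Q.kerMod P U x := by
    ext z
    constructor
    · intro hz
      obtain ⟨w, hw, rfl⟩ := Submodule.mem_map.1 hz
      rw [LinearMap.mem_ker] at hw
      have e : Q.fam P U x w = U.mkQ (Q.mu x w) := rfl
      rw [e, Submodule.mkQ_apply, Submodule.Quotient.mk_eq_zero] at hw
      exact ⟨w.2, hw⟩
    · rintro ⟨hz, hz2⟩
      refine Submodule.mem_map.2 ⟨⟨z, hz⟩, ?_, rfl⟩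
      rw [LinearMap.mem_ker]
      have e : Q.fam P U x ⟨z, hz⟩ = U.mkQ (Q.mu x z) := rfl
      rw [e, Submodule.mkQ_apply, Submodule.Quotient.mk_eq_zero]
      exact hz2
  have h3 : finrank k (Q.kerMod P U x) = finrank k (LinearMap.ker (Q.fam P U x)) := by
    rw [← h2]
    exact Submodule.finrank_map_subtype_eq P _
  rw [h3, rk]
  omega

theorem rk_fam_mono {P₁ P : Submodule k V} (h : P₁ ≤ P) (U : Submodule k W) (x : V) :
    rk (Q.fam P₁ U x) ≤ rk (Q.fam P U x) := by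
  refine Submodule.finrank_mono ?_
  rintro _ ⟨z, rfl⟩
  exact ⟨⟨z, h z.2⟩, rfl⟩

theorem T_succ_le (P : Submodule k V) (U : Submodule k W) (m : ℕ → V) (i : ℕ) :
    Q.T P U m (i + 1) ≤ Q.T P U m i := inf_le_left

theorem T_le (P : Submodule k V) (U : Submodule k W) (m : ℕ → V) (i : ℕ) : Q.T P U m i ≤ P := by
  induction i with
  | zero => exact le_rfl
  | succ i ih => exact (Q.T_succ_le P U m i).trans ih

/-- for `j < i` and `w ∈ T_i`: `m_j w ∈ U`. -/
theorem mul_mem_of_mem_T {P : Submodule k V} {U : Submodule k W} {m : ℕ → V} {i j : ℕ} (hj : j < i)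
    {w : V} (hw : w ∈ Q.T P U m i) : Q.mu (m j) w ∈ U := by
  induction i with
  | zero => exact absurd hj (Nat.not_lt_zero j)
  | succ i ih =>
    rcases Nat.lt_succ_iff_lt_or_eq.1 hj with h | h
    · exact ih h (Q.T_succ_le P U m i hw)
    · rw [h]
      exact hw.2

/-- `w P' = 0` iff `x w ∈ H'^⊥` for all `x` (`be (x w) (z' x') = be (w z') (x x')`). -/
theorem mem_L_iff {P' : Submodule k V} {w : V} :
    w ∈ Q.L P' ↔ ∀ x, Q.mu x w ∈ Q.perp (Q.PV P') := by
  constructor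
  · intro hw x
    have h : Q.PV P' ≤ Q.perp (Submodule.span k {Q.mu x w}) := by
      rw [PV_le]
      intro z' hz' x' u hu
      obtain ⟨c, rfl⟩ := Submodule.mem_span_singleton.1 hu
      have h1 : Q.mu w z' = 0 := hw z' hz'
      rw [map_smul, LinearMap.smul_apply, Q.mu_comm x w, Q.symm4, h1, map_zero,
        LinearMap.zero_apply, smul_zero]
    intro u hu
    rw [Q.be_comm]
    exact h hu _ (Submodule.mem_span_singleton_self _)
  · intro h z' hz'
    apply Q.eq_zero_of_be_mu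
    intro x x'
    have h1 := h x _ (Q.mul_mem_PV hz' x')
    rw [Q.symm4, Q.be_comm, Q.mu_comm w x]
    exact h1

theorem inf_L_le_T (P P' : Submodule k V) (m : ℕ → V) (i : ℕ) :
    P ⊓ Q.L P' ≤ Q.T P (Q.perp (Q.PV P')) m i := by
  induction i with
  | zero => exact inf_le_left
  | succ i ih =>
    intro w hw
    exact ⟨ih hw, (Q.mem_L_iff.1 hw.2) (m i)⟩

/-- If the maximal rank on `T_i` is `0` then `T_i = P ∩ L P'`. -/
theorem T_eq_of_tau_eq_zero {P P' : Submodule k V} {m : ℕ → V} {i : ℕ}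
    (hm : IsMax (fun x => Q.fam (Q.T P (Q.perp (Q.PV P')) m i) (Q.perp (Q.PV P')) x) (m i))
    (h0 : Q.tau P P' m i = 0) : Q.T P (Q.perp (Q.PV P')) m i = P ⊓ Q.L P' := by
  refine le_antisymm (fun w hw => ⟨Q.T_le _ _ _ _ hw, ?_⟩) (Q.inf_L_le_T P P' m i)
  show w ∈ Q.L P'
  rw [mem_L_iff]
  intro x
  have h1 : rk (Q.fam (Q.T P (Q.perp (Q.PV P')) m i) (Q.perp (Q.PV P')) x) ≤ Q.tau P P' m i := hm x
  rw [h0, Nat.le_zero, rk, Submodule.finrank_eq_zero] at h1
  have h2 : Q.fam (Q.T P (Q.perp (Q.PV P')) m i) (Q.perp (Q.PV P')) x ⟨w, hw⟩ ∈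
      LinearMap.range (Q.fam (Q.T P (Q.perp (Q.PV P')) m i) (Q.perp (Q.PV P')) x) := ⟨_, rfl⟩
  rw [h1, Submodule.mem_bot] at h2
  have e : Q.fam (Q.T P (Q.perp (Q.PV P')) m i) (Q.perp (Q.PV P')) x ⟨w, hw⟩ =
      (Q.perp (Q.PV P')).mkQ (Q.mu x w) := rfl
  rwa [e, Submodule.mkQ_apply, Submodule.Quotient.mk_eq_zero] at h2

/-- PROOF: `finrank_kerMod` gives `dim T_i = dim T_(i+1) + tau i`; so some `tau i = 0`, and from then on
`T` is constant and `tau = 0` (`inf_L_le_T`, `T_succ_le`). -/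
theorem tau_summary {P P' : Submodule k V} {m : ℕ → V}
    (hm : ∀ i, IsMax (fun x => Q.fam (Q.T P (Q.perp (Q.PV P')) m i) (Q.perp (Q.PV P')) x) (m i)) :
    ∃ N₀, ∀ N, N₀ ≤ N → (∀ i, N ≤ i → Q.tau P P' m i = 0) ∧
      finrank k P = finrank k ↥(P ⊓ Q.L P') + ∑ i ∈ Finset.range N, Q.tau P P' m i := by
  have hsum : ∀ N, finrank k P = finrank k (Q.T P (Q.perp (Q.PV P')) m N) +
      ∑ i ∈ Finset.range N, Q.tau P P' m i := by
    intro N
    induction N with
    | zero =>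
      rw [Finset.sum_range_zero, add_zero]
      rfl
    | succ N ih =>
      have h1 := Q.finrank_kerMod (Q.T P (Q.perp (Q.PV P')) m N) (Q.perp (Q.PV P')) (m N)
      have e1 : Q.tau P P' m N = rk (Q.fam (Q.T P (Q.perp (Q.PV P')) m N)
        (Q.perp (Q.PV P')) (m N)) := rfl
      have e2 : finrank k (Q.T P (Q.perp (Q.PV P')) m (N + 1)) =
        finrank k (Q.kerMod (Q.T P (Q.perp (Q.PV P')) m N) (Q.perp (Q.PV P')) (m N)) := rfl
      rw [Finset.sum_range_succ, e2, e1]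
      omega
  have hstep : ∀ i, Q.tau P P' m i = 0 → Q.tau P P' m (i + 1) = 0 := by
    intro i h
    have h1 := Q.rk_fam_mono (Q.T_succ_le P (Q.perp (Q.PV P')) m i) (Q.perp (Q.PV P')) (m (i + 1))
    have h2 : rk (Q.fam (Q.T P (Q.perp (Q.PV P')) m i) (Q.perp (Q.PV P')) (m (i + 1))) ≤
        Q.tau P P' m i := hm i (m (i + 1))
    have h3 : Q.tau P P' m (i + 1) ≤ Q.tau P P' m i := h1.trans h2
    omega
  have hex : ∃ N₀, Q.tau P P' m N₀ = 0 := by
    by_contra hcon
    push Not at hcon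
    have h1 := hsum (finrank k P + 1)
    have h2 : ∑ i ∈ Finset.range (finrank k P + 1), 1 ≤
        ∑ i ∈ Finset.range (finrank k P + 1), Q.tau P P' m i :=
      Finset.sum_le_sum fun i _ => Nat.one_le_iff_ne_zero.2 (hcon i)
    rw [Finset.sum_const, Finset.card_range, smul_eq_mul, mul_one] at h2
    omega
  obtain ⟨N₀, h0⟩ := hex
  have hz : ∀ i, N₀ ≤ i → Q.tau P P' m i = 0 := by
    intro i hi
    induction i, hi using Nat.le_induction with
    | base => exact h0
    | succ i _ ih => exact hstep i ih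
  refine ⟨N₀, fun N hN => ⟨fun i hi => hz i (hN.trans hi), ?_⟩⟩
  rw [← Q.T_eq_of_tau_eq_zero (hm N) (hz N hN)]
  exact hsum N

end FormData

end SocDeg
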