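import Pool.Agent.Lib_MP_badd8c_sd.PairN1

/-! # Case II, piece N-c/e: `τ_(i+1) + ω_i ≤ τ_i`, `ω_(i+1) ≤ ω_i` -/

namespace SocDeg

open Module Filter

variable {k V W : Type*} [Field k] [AddCommGroup V] [Module k V] [AddCommGroup W]
  [Module k W] [FiniteDimensional k V] [FiniteDimensional k W]

private theorem finrank_map_add_le {N D : Type*} [AddCommGroup N] [Module k N]
    [FiniteDimensional k N] [AddCommGroup D] [Module k D] (ψ : N →ₗ[k] D) {B A : Submodule k N}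
    (hBA : B ≤ A) (hB : ∀ b ∈ B, ψ b = 0) :
    finrank k B + finrank k (A.map ψ) ≤ finrank k A := by
  have h1 := LinearMap.finrank_range_add_finrank_ker (ψ.domRestrict A)
  have h2 : LinearMap.range (ψ.domRestrict A) = A.map ψ := LinearMap.range_domRestrict _ _
  have h3 : finrank k B ≤ finrank k (LinearMap.ker (ψ.domRestrict A)) := by
    rw [(Submodule.equivMapOfInjective A.subtype A.subtype_injective
      (LinearMap.ker (ψ.domRestrict A))).finrank_eq]
    refine Submodule.finrank_mono ?_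
    intro b hb
    exact ⟨⟨b, hBA hb⟩, by
      rw [SetLike.mem_coe, LinearMap.mem_ker]; exact hB b hb, rfl⟩
  rw [h2] at h1
  omega

namespace FormData

variable (Q : FormData k V W)

omit [FiniteDimensional k V] [FiniteDimensional k W] in
private theorem rk_fam_eq (S : Submodule k V) (U : Submodule k W) (x : V) :
    rk (Q.fam S U x) = finrank k (S.map (Q.famU U x)) := by
  have : LinearMap.range (Q.fam S U x) = S.map (Q.famU U x) := LinearMap.range_domRestrict _ _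
  unfold rk
  rw [this]

/-- `ψ : W/(PV P')^⊥ → Dual P'`, `u ↦ (w' ↦ be u (x w'))`. -/
private noncomputable def psi (P' : Submodule k V) (x : V) :
    (W ⧸ Q.perp (Q.PV P')) →ₗ[k] Dual k P' :=
  Submodule.liftQ _ ((((Q.be.flip.comp (Q.mu x)).flip).compl₂ P'.subtype :
    W →ₗ[k] P' →ₗ[k] k) : W →ₗ[k] Dual k P') (by
      intro u hu
      rw [LinearMap.mem_ker]
      refine LinearMap.ext fun w' => ?_
      show Q.be u (Q.mu x w') = 0
      rw [Q.be_comm]
      exact hu _ (by rw [Q.mu_comm]; exact Q.mul_mem_PV w'.2 x))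

private theorem psi_mk (P' : Submodule k V) (x : V) (u : W) (w' : P') :
    Q.psi P' x ((Q.perp (Q.PV P')).mkQ u) w' = Q.be u (Q.mu x w') := rfl

/-- (ii).  PROOF.  `S := T_i`, `U' := perp (PV P')`.  `A := ` image of `S` under `m_(i+1)` in `W/U'`:
`dim A = rk (fam S U' (m (i+1))) ≤ tau i` (maximality of `m i`).
`ψ : W/U' → Dual P'`, `ū ↦ (w' ↦ be u (m_i w'))`, well defined since `m_i w' ∈ PV P'`.
`ψ (m_(i+1) w) = om S P' (m i) (m (i+1)) w` (`be (m_(i+1) w) (m_i w') = be (w w') (m_i m_(i+1))`), so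
`rk (ψ|A) = omg i`.  `B := ` image of `T_(i+1)` under `m_(i+1)`, `dim B = tau (i+1)`, `B ≤ A`, and
`ψ (B) = 0`: `be (m_(i+1) w) (m_i w') = be (m_i w) (m_(i+1) w') = 0` as `m_i w ∈ U'`.
So `dim B + omg i ≤ dim A` (`dim A = dim ker (ψ|A) + dim ψ(A)`). -/
theorem tau_succ_add_omg {P P' : Submodule k V} {m : ℕ → V} {i : ℕ}
    (hm : IsMax (fun x => Q.fam (Q.T P (Q.perp (Q.PV P')) m i) (Q.perp (Q.PV P')) x) (m i)) :
    Q.tau P P' m (i + 1) + Q.omg P P' m i ≤ Q.tau P P' m i := by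
  have h0 : rk (Q.fam (Q.T P (Q.perp (Q.PV P')) m i) (Q.perp (Q.PV P')) (m (i + 1)))
      ≤ Q.tau P P' m i := hm (m (i + 1))
  refine le_trans ?_ h0
  unfold tau omg
  rw [rk_fam_eq, rk_fam_eq]
  have hrange : LinearMap.range (Q.om (Q.T P (Q.perp (Q.PV P')) m i) P' (m i) (m (i + 1)))
      = ((Q.T P (Q.perp (Q.PV P')) m i).map (Q.famU (Q.perp (Q.PV P')) (m (i + 1)))).map
        (Q.psi P' (m i)) := by
    rw [← Submodule.map_comp, ← LinearMap.range_domRestrict]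
    congr 1
    refine LinearMap.ext fun z => LinearMap.ext fun w' => ?_
    show Q.be (Q.mu z w') (Q.mu (m i) (m (i + 1))) = Q.be (Q.mu (m (i + 1)) z) (Q.mu (m i) w')
    rw [Q.mu_comm (m (i + 1)) z]
    exact Q.symm4' _ _ _ _
  unfold rk
  rw [hrange]
  refine finrank_map_add_le _ (Submodule.map_mono (Q.T_succ_le _ _ _ _)) ?_
  rintro _ ⟨w, hw, rfl⟩
  refine LinearMap.ext fun w' => ?_
  show Q.be (Q.mu (m (i + 1)) w) (Q.mu (m i) w') = 0
  have hw1 : Q.mu (m i) w ∈ Q.perp (Q.PV P') := Q.mul_mem_of_mem_T (Nat.lt_succ_self i) hw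
  have h2 : Q.be (Q.mu (m (i + 1)) w) (Q.mu (m i) w') = Q.be (Q.mu (m (i + 1)) w') (Q.mu (m i) w) := by
    rw [Q.symm4' (m (i + 1)) w (m i) w']
  rw [h2]
  exact hw1 _ (by rw [Q.mu_comm]; exact Q.mul_mem_PV w'.2 _)

/-- PROOF: `omg (i+1) = rk (om T_(i+1) P' (m (i+1)) (m (i+2))) ≤ rk (om T_i P' (m (i+1)) (m (i+2)))`
(`T_(i+1) ≤ T_i`) `≤ omg i` (maximality). -/
theorem omg_succ_le {P P' : Submodule k V} {m : ℕ → V} {i : ℕ}
    (hm : IsMax (fun p : V × V => Q.om (Q.T P (Q.perp (Q.PV P')) m i) P' p.1 p.2)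
      (m i, m (i + 1))) :
    Q.omg P P' m (i + 1) ≤ Q.omg P P' m i := by
  refine le_trans ?_ (hm (m (i + 1), m (i + 2)))
  unfold omg rk
  refine Submodule.finrank_mono ?_
  rintro _ ⟨z, rfl⟩
  exact ⟨⟨z, Q.T_succ_le _ _ _ _ z.2⟩, rfl⟩

end FormData

end SocDeg
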