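import Pool.Agent.Lib_MP_badd8c_sd.PairDim

/-! # Selection of generic elements -/

namespace SocDeg

open Module Filter

variable {k V W : Type*} [Field k] [Infinite k] [AddCommGroup V] [Module k V] [AddCommGroup W]
  [Module k W] [FiniteDimensional k V] [FiniteDimensional k W]

namespace FormData

variable (Q : FormData k V W)

/-- `kernel_lift` for the family `Q.mu`. -/
theorem lift_K {m : V} (hm : IsMax (fun x => Q.mu x) m) (n : V) {z : V} (hz : z ∈ Q.K m) :
    ∃ zc : k → V, PolyCurve zc ∧ zc 0 = z ∧ ∀ t, zc t ∈ Q.K (m + t • n) :=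
  kernel_lift Q.mu hm hz n

/-- PROOF: `h` is a finite sum of products `z x`, `z ∈ K_m`; lift each `z` (`Submodule.span_induction`
or `Submodule.map₂_induction`). -/
theorem lift_PV {m : V} (hm : IsMax (fun x => Q.mu x) m) (n : V) {h : W}
    (hh : h ∈ Q.PV (Q.K m)) :
    ∃ hc : k → W, PolyCurve hc ∧ hc 0 = h ∧ ∀ t, hc t ∈ Q.PV (Q.K (m + t • n)) := by
  let S : Submodule k W :=
    { carrier := {h | ∃ hc : k → W, PolyCurve hc ∧ hc 0 = h ∧ ∀ t, hc t ∈ Q.PV (Q.K (m + t • n))}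
      add_mem' := by
        rintro a b ⟨f, hf, hf0, hft⟩ ⟨g, hg, hg0, hgt⟩
        exact ⟨fun t => f t + g t, hf.add hg, by show f 0 + g 0 = a + b; rw [hf0, hg0],
          fun t => Submodule.add_mem _ (hft t) (hgt t)⟩
      zero_mem' := ⟨fun _ => 0, PolyCurve.const 0, rfl, fun t => Submodule.zero_mem _⟩
      smul_mem' := by
        rintro c a ⟨f, hf, hf0, hft⟩
        exact ⟨fun t => c • f t, (PolyCurve.const c).smul hf, by show c • f 0 = c • a; rw [hf0],
          fun t => Submodule.smul_mem _ c (hft t)⟩ }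
  have hS : Q.PV (Q.K m) ≤ S := by
    rw [PV_le]
    intro z hz x
    obtain ⟨zc, hzc, hz0, hzt⟩ := Q.lift_K hm n hz
    exact ⟨fun t => Q.mu (zc t) x, hzc.bilin (PolyCurve.const x) Q.mu, by show Q.mu (zc 0) x = Q.mu z x; rw [hz0],
      fun t => Q.mul_mem_PV (hzt t) x⟩
  exact hS hh

/-- Elements of maximal rank with `dim K_m V ≥ y`. -/
def Vo (y : ℕ) : Set V := {m | IsMax (fun x => Q.mu x) m ∧ y ≤ finrank k (Q.PV (Q.K m))}

omit [Infinite k] [FiniteDimensional k V] in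
private theorem exists_indep_mem (U : Submodule k W) {y : ℕ} (hy : y ≤ finrank k U) :
    ∃ v : Fin y → U, LinearIndependent k (fun i => (v i : W)) := by
  obtain ⟨f, hf⟩ := exists_linearIndependent_of_le_finrank hy
  exact ⟨f, hf.map' U.subtype (Submodule.ker_subtype U)⟩

omit [Infinite k] [FiniteDimensional k V] in
private theorem exists_dual_delta {n : Type*} [Fintype n] [DecidableEq n] {N : Type*}
    [AddCommGroup N] [Module k N] (v : n → N) (hv : LinearIndependent k v) :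
    ∃ f : n → Dual k N, ∀ i j, f i (v j) = if i = j then 1 else 0 := by
  have hinj : LinearMap.ker (Fintype.linearCombination k v) = ⊥ :=
    LinearMap.ker_eq_bot.2 (linearIndependent_iff_injective_fintypeLinearCombination.1 hv)
  obtain ⟨g, hg⟩ := LinearMap.exists_leftInverse_of_injective _ hinj
  refine ⟨fun i => LinearMap.proj i ∘ₗ g, fun i j => ?_⟩
  have h1 : v j = Fintype.linearCombination k v (Pi.single j 1) := by
    rw [Fintype.linearCombination_apply_single, one_smul]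
  have h2 : g (v j) = Pi.single j 1 := by
    rw [h1]
    exact LinearMap.congr_fun hg (Pi.single j 1)
  show g (v j) i = _
  rw [h2, Pi.single_apply]

/-- PROOF: `good_isMax`, and `lift_PV` for `y` independent elements of `K_m V`
(`PolyCurve.linearIndependent`). -/
theorem good_Vo (y : ℕ) : Good (k := k) (Q.Vo y) := by
  rintro m ⟨hm, hy⟩ n
  have h1 := good_isMax Q.mu m hm n
  obtain ⟨v, hv⟩ := exists_indep_mem (Q.PV (Q.K m)) hy
  have h2 : ∀ i, ∃ hc : k → W, PolyCurve hc ∧ hc 0 = (v i : W) ∧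
      ∀ t, hc t ∈ Q.PV (Q.K (m + t • n)) := fun i => Q.lift_PV hm n (v i).2
  choose hc hc1 hc2 hc3 using h2
  have h3 : ∀ᶠ t in cofinite, LinearIndependent k (fun i => hc i t) := by
    refine PolyCurve.linearIndependent hc1 ?_
    have e : (fun i => hc i 0) = fun i => (v i : W) := funext hc2
    rw [e]
    exact hv
  filter_upwards [h1, h3] with t ht1 ht3
  refine ⟨ht1, ?_⟩
  have h4 : LinearIndependent k (fun i => (⟨hc i t, hc3 i t⟩ : Q.PV (Q.K (m + t • n)))) := by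
    refine LinearIndependent.of_comp (Q.PV (Q.K (m + t • n))).subtype ?_
    exact ht3
  have h5 := h4.fintype_card_le_finrank
  rwa [Fintype.card_fin] at h5

/-- Minors: `c ≤ rank (x : V → W/H^⊥)` iff there are `h_i ∈ H`, `v_j` with
`det (be (h_i) (x v_j)) ≠ 0`. -/
theorem le_rk_famU_perp_iff (H : Submodule k W) (x : V) (c : ℕ) :
    c ≤ rk (Q.famU (Q.perp H) x) ↔ ∃ h : Fin c → W, (∀ i, h i ∈ H) ∧ ∃ v : Fin c → V,
      (Matrix.of fun i j => Q.be (h i) (Q.mu x (v j))).det ≠ 0 := by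
  rw [le_rk_iff]
  constructor
  · rintro ⟨v, hv⟩
    obtain ⟨f, hf⟩ := exists_dual_delta _ hv
    have hbe : LinearMap.ker Q.be = ⊥ := by
      rw [LinearMap.ker_eq_bot']
      intro u hu
      exact Q.nondeg u (fun w => by rw [hu, LinearMap.zero_apply])
    have hsurj : Function.Surjective Q.be :=
      (LinearMap.injective_iff_surjective_of_finrank_eq_finrank
        (Subspace.dual_finrank_eq (K := k) (V := W)).symm).1 (LinearMap.ker_eq_bot.1 hbe)
    have h1 : ∀ i, ∃ u : W, Q.be u = (f i) ∘ₗ (Q.perp H).mkQ := fun i => hsurj _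
    choose h hh using h1
    refine ⟨h, fun i => ?_, v, ?_⟩
    · rw [← Q.perp_perp H]
      intro u hu
      rw [Q.be_comm, hh i, LinearMap.comp_apply, Submodule.mkQ_apply,
        (Submodule.Quotient.mk_eq_zero _).2 hu, map_zero]
    · have e : (Matrix.of fun i j => Q.be (h i) (Q.mu x (v j))) = (1 : Matrix (Fin c) (Fin c) k) := by
        ext i j
        rw [Matrix.of_apply, Matrix.one_apply, hh i]
        exact hf i j
      rw [e, Matrix.det_one]
      exact one_ne_zero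
  · rintro ⟨h, hh, v, hdet⟩
    refine ⟨v, ?_⟩
    rw [Fintype.linearIndependent_iff]
    intro g hg
    have h1 : ∑ j, g j • Q.mu x (v j) ∈ Q.perp H := by
      rw [← Submodule.Quotient.mk_eq_zero, ← Submodule.mkQ_apply, map_sum]
      refine Eq.trans (Finset.sum_congr rfl fun j _ => ?_) hg
      rw [map_smul]
      rfl
    have h2 : (Matrix.of fun i j => Q.be (h i) (Q.mu x (v j))).mulVec g = 0 := by
      ext i
      have h3 := h1 _ (hh i)
      rw [map_sum] at h3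
      rw [Matrix.mulVec, dotProduct, Pi.zero_apply, ← h3]
      refine Finset.sum_congr rfl fun j _ => ?_
      rw [map_smul, smul_eq_mul, Matrix.of_apply, mul_comm]
    have h4 := Matrix.eq_zero_of_mulVec_eq_zero hdet h2
    intro i
    rw [h4, Pi.zero_apply]

/-- PROOF: `good_Vo` for both coordinates; lift `z` and `z'` with `lift_K`; `mu (zc t) (zc' t)` is a
polynomial curve, nonzero at `0`. -/
theorem good_ne (y : ℕ) : Good (k := k) {p : V × V | p.1 ∈ Q.Vo y ∧ p.2 ∈ Q.Vo y ∧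
    ∃ z ∈ Q.K p.1, ∃ z' ∈ Q.K p.2, Q.mu z z' ≠ 0} := by
  rintro ⟨m, m'⟩ ⟨hm, hm', z, hz, z', hz', hne⟩ ⟨n, n'⟩
  have h1 := Q.good_Vo y m hm n
  have h2 := Q.good_Vo y m' hm' n'
  obtain ⟨zc, hzc, hz0, hzt⟩ := Q.lift_K hm.1 n hz
  obtain ⟨zc', hzc', hz0', hzt'⟩ := Q.lift_K hm'.1 n' hz'
  have h3 : ∃ v, Q.be (Q.mu z z') v ≠ 0 := by
    by_contra hcon
    push Not at hcon
    exact hne (Q.nondeg _ hcon)
  obtain ⟨v, hv⟩ := h3
  have h4 : PolyCurve (fun t => Q.be (Q.mu (zc t) (zc' t)) v) :=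
    (hzc.bilin hzc' Q.mu).bilin (PolyCurve.const v) Q.be
  have h5 := h4.eventually_ne (by rw [hz0, hz0']; exact hv)
  filter_upwards [h1, h2, h5] with t ht1 ht2 ht5
  refine ⟨ht1, ht2, zc t, hzt t, zc' t, hzt' t, ?_⟩
  intro h0
  apply ht5
  rw [h0, map_zero, LinearMap.zero_apply]

/-- PROOF: `le_rk_famU_perp_iff`; lift the `h_i` with `lift_PV`; the determinant
`det (be (h_i t) ((m' + t n') v_j))` is a polynomial in `t`. -/
theorem good_R (y c : ℕ) : Good (k := k) {p : V × V | p.1 ∈ Q.Vo y ∧ p.2 ∈ Q.Vo y ∧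
    c ≤ rk (Q.famU (Q.perp (Q.PV (Q.K p.1))) p.2)} := by
  rintro ⟨m, m'⟩ ⟨hm, hm', hc⟩ ⟨n, n'⟩
  have h1 := Q.good_Vo y m hm n
  have h2 := Q.good_Vo y m' hm' n'
  obtain ⟨h, hh, v, hdet⟩ := (Q.le_rk_famU_perp_iff _ _ _).1 hc
  have h3 : ∀ i, ∃ hc : k → W, PolyCurve hc ∧ hc 0 = h i ∧
      ∀ t, hc t ∈ Q.PV (Q.K (m + t • n)) := fun i => Q.lift_PV hm.1 n (hh i)
  choose hc hc1 hc2 hc3 using h3
  have h4 : PolyCurve (fun t : k =>
      (Matrix.of fun i j => Q.be (hc i t) (Q.mu (m' + t • n') (v j))).det) := by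
    refine PolyCurve.det (M := fun t => Matrix.of fun i j =>
      Q.be (hc i t) (Q.mu (m' + t • n') (v j))) fun i j => ?_
    exact (hc1 i).bilin ((PolyCurve.line m' n').bilin (PolyCurve.const (v j)) Q.mu) Q.be
  have h5 := h4.eventually_ne (by
    simp only [zero_smul, add_zero, hc2]
    exact hdet)
  filter_upwards [h1, h2, h5] with t ht1 ht2 ht5
  refine ⟨ht1, ht2, ?_⟩
  exact (Q.le_rk_famU_perp_iff _ _ _).2 ⟨fun i => hc i t, fun i => hc3 i t, v, ht5⟩

/-- The same with the roles exchanged. -/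
theorem good_R' (y c : ℕ) : Good (k := k) {p : V × V | p.1 ∈ Q.Vo y ∧ p.2 ∈ Q.Vo y ∧
    c ≤ rk (Q.famU (Q.perp (Q.PV (Q.K p.2))) p.1)} := by
  rintro ⟨m, m'⟩ ⟨hm, hm', hc⟩ ⟨n, n'⟩
  have h1 := Q.good_R y c (m', m) ⟨hm', hm, hc⟩ (n', n)
  filter_upwards [h1] with t ht
  exact ⟨ht.2.1, ht.1, ht.2.2⟩

/-- PROOF.  `H = PV (K m)`, `H' = PV (K m')`, both isotropic (`K_sq`, `PV_le_perp`).
`I := H ⊔ (H' ⊓ perp H)` is isotropic; `dim I = dim H + dim (H' ⊓ perp H) - dim (H ⊓ H')`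
(`H ≤ perp H`).  `rk (famU (perp H) m') = dim H - dim (H ⊓ perp (mV m'))` (rank of the pairing of `H`
and `m' V`; e.g. `finrank_sup_mV`, `finrank_perp`, `perp_sup`) `≤ dim H - dim (H ⊓ H')` because
`H' ≤ perp (mV m')` (`PV_K_le`).  Conclude with `iso_bound`. -/
theorem R_bound {m m' : V} (hm : IsMax (fun x => Q.mu x) m) (hm' : IsMax (fun x => Q.mu x) m') :
    finrank k ↥(Q.PV (Q.K m') ⊓ Q.perp (Q.PV (Q.K m))) +
      rk (Q.famU (Q.perp (Q.PV (Q.K m))) m') ≤ finrank k W / 2 := by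
  set H := Q.PV (Q.K m) with hH
  set H' := Q.PV (Q.K m') with hH'
  have h1 : H ≤ Q.perp H := Q.PV_le_perp (Q.K_sq hm)
  have h2 : H' ≤ Q.perp H' := Q.PV_le_perp (Q.K_sq hm')
  have h3 : H ⊔ (H' ⊓ Q.perp H) ≤ Q.perp (H ⊔ (H' ⊓ Q.perp H)) := by
    rw [perp_sup]
    refine sup_le (le_inf h1 ?_) (le_inf inf_le_right ?_)
    · rw [le_perp_comm]
      exact inf_le_right
    · exact inf_le_left.trans (h2.trans (Q.perp_anti inf_le_left))
  have h4 := Q.iso_bound h3
  have h5 := Submodule.finrank_sup_add_finrank_inf_eq H (H' ⊓ Q.perp H)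
  have h6 : H ⊓ (H' ⊓ Q.perp H) = H ⊓ H' := by
    rw [← inf_assoc]
    exact inf_eq_left.2 (inf_le_left.trans h1)
  rw [h6] at h5
  have h7 := Q.finrank_sup_mV (Q.perp H) m'
  have h8 := Q.finrank_perp (Q.perp H ⊔ Q.mV m')
  rw [perp_sup, perp_perp] at h8
  have h9 := Q.finrank_perp H
  have h10 : finrank k ↥(H ⊓ H') ≤ finrank k ↥(H ⊓ Q.perp (Q.mV m')) :=
    Submodule.finrank_mono (inf_le_inf_left H (Q.PV_K_le m'))
  omega

end FormData

end SocDeg
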